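import Pool.Agent.H293R2.M3.Spec

/-!
A1: one-dimensional Borell-Brascamp-Lieb inequality, midpoint version.
-/

set_option autoImplicit false

open MeasureTheory Set

namespace H293M

namespace A1

/-- one-dimensional Brunn-Minkowski inequality for convex sets -/
theorem bm {A B C : Set ℝ} (hA : Convex ℝ A) (hB : Convex ℝ B) (hA0 : A.Nonempty)
    (hB0 : B.Nonempty) (h : ∀ x ∈ A, ∀ y ∈ B, (x + y) / 2 ∈ C) :
    volume A + volume B ≤ 2 * volume C := by
  have k1 : ∀ a ∈ A, ∀ b ∈ A, ∀ c ∈ B, ∀ d ∈ B, a ≤ b → c ≤ d →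
      edist a b + edist c d ≤ 2 * volume C := by
    intro a ha b hb c hc d hd hab hcd
    have h1 : Icc ((a + c) / 2) ((b + d) / 2) ⊆ C := by
      rw [← segment_eq_Icc (by linarith : (a + c) / 2 ≤ (b + d) / 2), segment_eq_image]
      rintro _ ⟨t, ht, rfl⟩
      have h2 := hA ha hb (by linarith [ht.2] : (0 : ℝ) ≤ 1 - t) ht.1 (by ring)
      have h3 := hB hc hd (by linarith [ht.2] : (0 : ℝ) ≤ 1 - t) ht.1 (by ring)
      have h4 := h _ h2 _ h3
      convert h4 using 1
      simp only [smul_eq_mul]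
      ring
    have h2 := measure_mono (μ := (volume : Measure ℝ)) h1
    rw [Real.volume_Icc] at h2
    rw [edist_dist, edist_dist, Real.dist_eq, Real.dist_eq, abs_sub_comm a b, abs_sub_comm c d,
      abs_of_nonneg (sub_nonneg.2 hab), abs_of_nonneg (sub_nonneg.2 hcd),
      ← ENNReal.ofReal_add (by linarith) (by linarith)]
    calc ENNReal.ofReal (b - a + (d - c)) =
          2 * ENNReal.ofReal ((b + d) / 2 - (a + c) / 2) := by
          rw [← ENNReal.ofReal_ofNat, ← ENNReal.ofReal_mul (by norm_num)]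
          congr 1
          ring
      _ ≤ _ := by gcongr
  have key : ∀ a ∈ A, ∀ b ∈ A, ∀ c ∈ B, ∀ d ∈ B, edist a b + edist c d ≤ 2 * volume C := by
    intro a ha b hb c hc d hd
    rcases le_total a b with h1 | h1 <;> rcases le_total c d with h2 | h2
    · exact k1 a ha b hb c hc d hd h1 h2
    · rw [edist_comm c d]; exact k1 a ha b hb d hd c hc h1 h2
    · rw [edist_comm a b]; exact k1 b hb a ha c hc d hd h1 h2
    · rw [edist_comm a b, edist_comm c d]; exact k1 b hb a ha d hd c hc h1 h2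
  by_cases hC : volume C = ⊤
  · rw [hC]; simp
  have hC' : 2 * volume C ≠ ⊤ := ENNReal.mul_ne_top (by norm_num) hC
  obtain ⟨a0, ha0⟩ := hA0
  have h1 : ∀ c ∈ B, ∀ d ∈ B, Metric.ediam A + edist c d ≤ 2 * volume C := by
    intro c hc d hd
    have hcd : edist c d ≤ 2 * volume C := by
      have := key a0 ha0 a0 ha0 c hc d hd
      rwa [edist_self, zero_add] at this
    have h2 : Metric.ediam A ≤ 2 * volume C - edist c d := by
      refine Metric.ediam_le fun a ha b hb => ?_
      exact ENNReal.le_sub_of_add_le_right (edist_ne_top c d) (key a ha b hb c hc d hd)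
    calc Metric.ediam A + edist c d ≤ (2 * volume C - edist c d) + edist c d := by gcongr
      _ = 2 * volume C := tsub_add_cancel_of_le hcd
  obtain ⟨b0, hb0⟩ := hB0
  have hAd : Metric.ediam A ≤ 2 * volume C := by
    have := h1 b0 hb0 b0 hb0
    rwa [edist_self, add_zero] at this
  have hAt : Metric.ediam A ≠ ⊤ := ne_top_of_le_ne_top hC' hAd
  have h3 : Metric.ediam B ≤ 2 * volume C - Metric.ediam A := by
    refine Metric.ediam_le fun c hc d hd => ?_
    exact ENNReal.le_sub_of_add_le_left hAt (h1 c hc d hd)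
  calc volume A + volume B ≤ Metric.ediam A + Metric.ediam B :=
        add_le_add (Real.volume_le_diam A) (Real.volume_le_diam B)
    _ ≤ Metric.ediam A + (2 * volume C - Metric.ediam A) := by gcongr
    _ = 2 * volume C := add_tsub_cancel_of_le hAd

/-- layer cake -/
theorem lc (p : ℕ) (h : ℝ → ℝ) (hm : Measurable h) (hp : ∀ x, 0 ≤ h x) :
    ∫⁻ x, ENNReal.ofReal (h x ^ (p + 2)) =
      ∫⁻ t in Ioi (0 : ℝ), volume {x | t < h x} * ENNReal.ofReal (((p : ℝ) + 2) * t ^ (p + 1)) := by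
  have h1 := lintegral_comp_eq_lintegral_meas_lt_mul (volume : Measure ℝ) (f := h)
    (g := fun t => ((p : ℝ) + 2) * t ^ (p + 1)) (Filter.Eventually.of_forall hp)
    hm.aemeasurable (fun t _ => by
      have : Continuous fun t : ℝ => ((p : ℝ) + 2) * t ^ (p + 1) := by fun_prop
      exact this.intervalIntegrable _ _)
    ((ae_restrict_iff' measurableSet_Ioi).2 (Filter.Eventually.of_forall fun t ht => by
      have : (0 : ℝ) < t := ht
      positivity))
  rw [← h1]
  refine lintegral_congr fun x => ?_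
  congr 1
  rw [intervalIntegral.integral_const_mul, integral_pow]
  have : (p : ℝ) + 2 ≠ 0 := by positivity
  push_cast
  have h2 : ((p : ℝ) + 1 + 1) = p + 2 := by ring
  rw [h2, zero_pow (by omega), sub_zero]
  field_simp

/-- Radon's inequality for two terms -/
theorem radon (p : ℕ) {a0 a1 J0 J1 : ℝ} (ha0 : 0 < a0) (ha1 : 0 < a1) (hJ0 : 0 < J0)
    (hJ1 : 0 < J1) :
    (a0 + a1) ^ (p + 2) * ((J0 + J1)⁻¹) ^ (p + 1) ≤
      a0 ^ (p + 2) * (J0⁻¹) ^ (p + 1) + a1 ^ (p + 2) * (J1⁻¹) ^ (p + 1) := by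
  have m0 : a0 / J0 ∈ Ici (0 : ℝ) := mem_Ici.2 (by positivity)
  have m1 : a1 / J1 ∈ Ici (0 : ℝ) := mem_Ici.2 (by positivity)
  have w0 : 0 ≤ J0 / (J0 + J1) := by positivity
  have w1 : 0 ≤ J1 / (J0 + J1) := by positivity
  have w2 : J0 / (J0 + J1) + J1 / (J0 + J1) = 1 := by field_simp
  have h1 := (convexOn_pow (𝕜 := ℝ) (p + 2)).2 m0 m1 w0 w1 w2
  simp only [smul_eq_mul] at h1
  have h2 : J0 / (J0 + J1) * (a0 / J0) + J1 / (J0 + J1) * (a1 / J1) = (a0 + a1) / (J0 + J1) := by
    field_simp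
  rw [h2] at h1
  have hJ : 0 < J0 + J1 := by positivity
  have h3 := mul_le_mul_of_nonneg_left h1 hJ.le
  have e1 : (J0 + J1) * ((a0 + a1) / (J0 + J1)) ^ (p + 2) =
      (a0 + a1) ^ (p + 2) * ((J0 + J1)⁻¹) ^ (p + 1) := by
    rw [div_eq_mul_inv, mul_pow, pow_succ ((J0 + J1)⁻¹)]
    field_simp
  have e2 : (J0 + J1) * (J0 / (J0 + J1) * (a0 / J0) ^ (p + 2) +
      J1 / (J0 + J1) * (a1 / J1) ^ (p + 2)) =
      a0 ^ (p + 2) * (J0⁻¹) ^ (p + 1) + a1 ^ (p + 2) * (J1⁻¹) ^ (p + 1) := by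
    have e3 : (a0 / J0) ^ (p + 2) = a0 ^ (p + 2) * (J0⁻¹) ^ (p + 1) * J0⁻¹ := by
      rw [div_eq_mul_inv, mul_pow, pow_succ (J0⁻¹), mul_assoc]
    have e4 : (a1 / J1) ^ (p + 2) = a1 ^ (p + 2) * (J1⁻¹) ^ (p + 1) * J1⁻¹ := by
      rw [div_eq_mul_inv, mul_pow, pow_succ (J1⁻¹), mul_assoc]
    rw [e3, e4]
    field_simp
  rw [e1, e2] at h3
  exact h3

end A1

theorem t_bbl1 : S_bbl1 := by
  intro p f0 f1 f hf0 hf1 hm0 hm1 hf hfp hmid J0 J1 hJ0 hJ1 hI0 hI1
  obtain ⟨x0, hx0, hx0'⟩ := hm0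
  obtain ⟨x1, hx1, hx1'⟩ := hm1
  have c0 : Continuous f0 := by
    have := hf0.continuousOn isOpen_univ
    rwa [continuousOn_univ] at this
  have c1 : Continuous f1 := by
    have := hf1.continuousOn isOpen_univ
    rwa [continuousOn_univ] at this
  set a0 := f0 x0 with ha0
  set a1 := f1 x1 with ha1
  set ab := (a0 + a1) / 2 with hab
  have hab0 : 0 < ab := by positivity
  have p0 : ∀ x, 0 < f0 x := fun x => hx0.trans_le (hx0' x)
  have p1 : ∀ x, 0 < f1 x := fun x => hx1.trans_le (hx1' x)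
  set w : ℝ → ENNReal := fun t => ENNReal.ofReal (((p : ℝ) + 2) * t ^ (p + 1)) with hw
  -- the three layer cakes
  have L : ∀ (a : ℝ) (g : ℝ → ℝ), 0 < a → Measurable g → (∀ x, 0 < g x) →
      ENNReal.ofReal (a ^ (p + 2)) * ∫⁻ x, ENNReal.ofReal (((g x)⁻¹) ^ (p + 2)) =
        ∫⁻ t in Ioi (0 : ℝ), volume {x | t * g x < a} * w t := by
    intro a g ha hg hgp
    rw [← lintegral_const_mul' _ _ ENNReal.ofReal_ne_top]
    have h1 := A1.lc p (fun x => a * (g x)⁻¹) (by fun_prop) (fun x => by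
      have := hgp x
      positivity)
    have h2 : ∀ x, ENNReal.ofReal (a ^ (p + 2)) * ENNReal.ofReal (((g x)⁻¹) ^ (p + 2)) =
        ENNReal.ofReal ((a * (g x)⁻¹) ^ (p + 2)) := by
      intro x
      rw [← ENNReal.ofReal_mul (by positivity), mul_pow]
    simp only [h2]
    rw [h1]
    refine lintegral_congr fun t => ?_
    congr 3
    ext x
    show t < a * (g x)⁻¹ ↔ t * g x < a
    rw [← div_eq_mul_inv, lt_div_iff₀ (hgp x)]
  have L0 := L a0 f0 hx0 c0.measurable p0
  have L1 := L a1 f1 hx1 c1.measurable p1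
  have Lf := L ab f hab0 hf hfp
  -- restriction to (0,1)
  have R : ∀ (a : ℝ) (g : ℝ → ℝ), 0 < a → (∀ x, a ≤ g x) →
      ∫⁻ t in Ioi (0 : ℝ), volume {x | t * g x < a} * w t =
        ∫⁻ t in Ioo (0 : ℝ) 1, volume {x | t * g x < a} * w t := by
    intro a g ha hg
    have h1 : Ioi (0 : ℝ) = Ioo 0 1 ∪ Ici 1 := by
      ext t
      simp only [mem_Ioi, mem_union, mem_Ioo, mem_Ici]
      constructor
      · intro h
        rcases lt_or_ge t 1 with h2 | h2
        · exact Or.inl ⟨h, h2⟩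
        · exact Or.inr h2
      · rintro (h | h)
        · exact h.1
        · linarith
    rw [h1, lintegral_union measurableSet_Ici (by
      rw [Set.disjoint_left]
      intro t ht ht'
      exact absurd ht.2 (not_lt.2 ht'))]
    have h2 : ∫⁻ t in Ici (1 : ℝ), volume {x | t * g x < a} * w t = 0 := by
      rw [setLIntegral_congr_fun (g := fun _ => 0) measurableSet_Ici]
      · simp
      · intro t ht
        have ht' : (1 : ℝ) ≤ t := ht
        have h3 : {x | t * g x < a} = ∅ := by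
          ext x
          simp only [mem_ofPred_eq, mem_empty_iff_false, iff_false, not_lt]
          have := hg x
          nlinarith
        show volume {x | t * g x < a} * w t = 0
        rw [h3, measure_empty, zero_mul]
    rw [h2, add_zero]
  rw [R a0 f0 hx0 hx0'] at L0
  rw [R a1 f1 hx1 hx1'] at L1
  have key : (ENNReal.ofReal (a0 ^ (p + 2)) * ∫⁻ x, ENNReal.ofReal (((f0 x)⁻¹) ^ (p + 2))) +
      (ENNReal.ofReal (a1 ^ (p + 2)) * ∫⁻ x, ENNReal.ofReal (((f1 x)⁻¹) ^ (p + 2))) ≤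
      2 * (ENNReal.ofReal (ab ^ (p + 2)) * ∫⁻ x, ENNReal.ofReal (((f x)⁻¹) ^ (p + 2))) := by
    rw [L0, L1, Lf]
    calc (∫⁻ t in Ioo (0 : ℝ) 1, volume {x | t * f0 x < a0} * w t) +
        ∫⁻ t in Ioo (0 : ℝ) 1, volume {x | t * f1 x < a1} * w t ≤
        ∫⁻ t in Ioo (0 : ℝ) 1, (volume {x | t * f0 x < a0} * w t +
          volume {x | t * f1 x < a1} * w t) := le_lintegral_add _ _
      _ ≤ ∫⁻ t in Ioo (0 : ℝ) 1, 2 * (volume {x | t * f x < ab} * w t) := by
          refine setLIntegral_mono' measurableSet_Ioo fun t ht => ?_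
          rw [← add_mul, ← mul_assoc]
          gcongr
          refine A1.bm ?_ ?_ ⟨x0, ?_⟩ ⟨x1, ?_⟩ ?_
          · have h1 := (hf0.smul ht.1.le).convex_lt a0
            have h2 : {x ∈ univ | (fun x => t • f0 x) x < a0} = {x | t * f0 x < a0} := by
              ext x; simp
            rw [← h2]
            exact h1
          · have h1 := (hf1.smul ht.1.le).convex_lt a1
            have h2 : {x ∈ univ | (fun x => t • f1 x) x < a1} = {x | t * f1 x < a1} := by
              ext x; simp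
            rw [← h2]
            exact h1
          · show t * a0 < a0
            nlinarith [ht.2]
          · show t * a1 < a1
            nlinarith [ht.2]
          · intro x hx y hy
            have hx' : t * f0 x < a0 := hx
            have hy' : t * f1 y < a1 := hy
            show t * f ((x + y) / 2) < ab
            have h3 := mul_le_mul_of_nonneg_left (hmid x y) ht.1.le
            rw [hab]
            linarith
      _ = 2 * ∫⁻ t in Ioo (0 : ℝ) 1, volume {x | t * f x < ab} * w t := by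
          rw [lintegral_const_mul' _ _ (by norm_num)]
      _ ≤ 2 * ∫⁻ t in Ioi (0 : ℝ), volume {x | t * f x < ab} * w t := by
          gcongr
          exact Ioo_subset_Ioi_self
  have hr := A1.radon p hx0 hx1 hJ0 hJ1
  have key2 : ENNReal.ofReal ((a0 + a1) ^ (p + 2) * ((J0 + J1)⁻¹) ^ (p + 1)) ≤
      2 * (ENNReal.ofReal (ab ^ (p + 2)) * ∫⁻ x, ENNReal.ofReal (((f x)⁻¹) ^ (p + 2))) := by
    refine (ENNReal.ofReal_le_ofReal hr).trans (le_trans ?_ key)
    rw [ENNReal.ofReal_add (by positivity) (by positivity), ENNReal.ofReal_mul (by positivity),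
      ENNReal.ofReal_mul (by positivity)]
    gcongr
  -- divide
  have e1 : ENNReal.ofReal ((a0 + a1) ^ (p + 2) * ((J0 + J1)⁻¹) ^ (p + 1)) =
      (2 * ENNReal.ofReal (ab ^ (p + 2))) * ENNReal.ofReal ((((J0 + J1) / 2)⁻¹) ^ (p + 1)) := by
    rw [← ENNReal.ofReal_ofNat, ← ENNReal.ofReal_mul (by norm_num),
      ← ENNReal.ofReal_mul (by positivity)]
    congr 1
    have e2 : a0 + a1 = 2 * ab := by rw [hab]; ring
    rw [e2, inv_div, div_eq_mul_inv, mul_pow, mul_pow, pow_succ (2 : ℝ) (p + 1)]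
    ring
  rw [e1, ← mul_assoc] at key2
  exact (ENNReal.mul_le_mul_iff_right (by positivity) (ENNReal.mul_ne_top (by norm_num)
    ENNReal.ofReal_ne_top)).1 key2

end H293M
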