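import Pool.Agent.H293R2.M3.Spec

set_option autoImplicit false

open MeasureTheory Set

namespace H293M

namespace A2a

theorem fpos {f : ℝ × ℝ → ℝ} {k : ℝ} (hk : 0 < k)
    (hfk : ∀ x : ℝ × ℝ, k * (1 + |x.1| + |x.2|) ≤ f x) (x : ℝ × ℝ) : 0 < f x :=
  lt_of_lt_of_le (by positivity) (hfk x)

theorem bound {f : ℝ × ℝ → ℝ} {k : ℝ} (hk : 0 < k)
    (hfk : ∀ x : ℝ × ℝ, k * (1 + |x.1| + |x.2|) ≤ f x) (x : ℝ × ℝ) :
    ((f x)⁻¹) ^ 3 ≤ (k⁻¹) ^ 3 * (1 + ‖x‖) ^ (-3 : ℝ) := by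
  have h1 : ‖x‖ ≤ |x.1| + |x.2| := by
    rw [Prod.norm_def, Real.norm_eq_abs, Real.norm_eq_abs]
    exact max_le (le_add_of_nonneg_right (abs_nonneg _)) (le_add_of_nonneg_left (abs_nonneg _))
  have h2 : k * (1 + ‖x‖) ≤ f x := by
    refine le_trans ?_ (hfk x)
    have : 1 + ‖x‖ ≤ 1 + |x.1| + |x.2| := by linarith
    exact mul_le_mul_of_nonneg_left this hk.le
  have h3 : 0 < k * (1 + ‖x‖) := by positivity
  have h4 : (f x)⁻¹ ≤ (k * (1 + ‖x‖))⁻¹ := inv_anti₀ h3 h2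
  have h5 : 0 ≤ (f x)⁻¹ := (inv_pos.2 (fpos hk hfk x)).le
  have h6 : (1 + ‖x‖) ^ (-3 : ℝ) = ((1 + ‖x‖)⁻¹) ^ 3 := by
    rw [Real.rpow_neg (by positivity)]
    norm_cast
    rw [inv_pow]
  rw [h6, ← mul_pow, ← mul_inv]
  exact pow_le_pow_left₀ h5 h4 3

end A2a

open A2a in
/-- A2a -/
theorem t_Ic : S_Ic := by
  intro f hf k hk hfk
  have hcont : Continuous f := continuousOn_univ.1 (hf.continuousOn isOpen_univ)
  have hpos := fpos hk hfk
  have hinv : Continuous (fun x => ((f x)⁻¹) ^ 3) := (hcont.inv₀ fun x => (hpos x).ne').pow 3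
  have hint : Integrable (fun x => ((f x)⁻¹) ^ 3) := by
    have h1 : Integrable (fun x : ℝ × ℝ => (1 + ‖x‖) ^ (-3 : ℝ)) :=
      integrable_one_add_norm (by
        rw [Module.finrank_prod, Module.finrank_self]; norm_num)
    refine Integrable.mono' (h1.const_mul ((k⁻¹) ^ 3)) hinv.aestronglyMeasurable
      (ae_of_all _ fun x => ?_)
    have h2 : 0 ≤ ((f x)⁻¹) ^ 3 := pow_nonneg (inv_pos.2 (hpos x)).le 3
    rw [Real.norm_of_nonneg h2]
    exact bound hk hfk x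
  refine ⟨hint, ?_⟩
  unfold Ic
  have h0 : ∀ x, 0 < ((f x)⁻¹) ^ 3 := fun x => pow_pos (inv_pos.2 (hpos x)) 3
  rw [integral_pos_iff_support_of_nonneg (fun x => (h0 x).le) hint]
  have hs : Function.support (fun x => ((f x)⁻¹) ^ 3) = univ := by
    ext x
    simp only [Function.mem_support, mem_univ, iff_true]
    exact (h0 x).ne'
  rw [hs]
  simp

end H293M
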