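import Pool.Agent.H293R2.M3.Spec

set_option autoImplicit false

open MeasureTheory Set

namespace H293M

namespace A2b

open Filter Topology

/-- a convex function of two variables with linear growth -/
structure Gd (k : ℝ) (g : ℝ × ℝ → ℝ) : Prop where
  conv : ConvexOn ℝ univ g
  kpos : 0 < k
  gr : ∀ x : ℝ × ℝ, k * (1 + |x.1| + |x.2|) ≤ g x

/-- the bounding function -/
noncomputable def G (k : ℝ) (t : ℝ) : ℝ := ((k * (1 + |t|))⁻¹) ^ 3

theorem cont {k : ℝ} {g : ℝ × ℝ → ℝ} (h : Gd k g) : Continuous g :=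
  continuousOn_univ.1 (h.conv.continuousOn isOpen_univ)

theorem gpos {k : ℝ} {g : ℝ × ℝ → ℝ} (h : Gd k g) (x : ℝ × ℝ) : 0 < g x := by
  refine lt_of_lt_of_le ?_ (h.gr x)
  have := h.kpos
  positivity

theorem slice_cont {k : ℝ} {g : ℝ × ℝ → ℝ} (h : Gd k g) (b : ℝ) :
    Continuous fun a : ℝ => g (a, b) := (cont h).comp (by fun_prop)

theorem slice_conv {k : ℝ} {g : ℝ × ℝ → ℝ} (h : Gd k g) (b : ℝ) :
    ConvexOn ℝ univ fun a : ℝ => g (a, b) := by
  refine ⟨convex_univ, ?_⟩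
  intro x _ y _ u v hu hv huv
  have h1 := h.conv.2 (mem_univ ((x, b) : ℝ × ℝ)) (mem_univ ((y, b) : ℝ × ℝ)) hu hv huv
  have h2 : u • ((x, b) : ℝ × ℝ) + v • ((y, b) : ℝ × ℝ) = (u • x + v • y, b) := by
    ext
    · simp
    · simp only [Prod.smul_mk, Prod.mk_add_mk, smul_eq_mul]
      rw [← add_mul, huv, one_mul]
  rw [h2] at h1
  exact h1

theorem G_int {k : ℝ} (_hk : 0 < k) : Integrable (G k) := by
  have h := integrable_one_add_norm (E := ℝ) (μ := (volume : Measure ℝ)) (r := 3)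
    (by rw [Module.finrank_self]; norm_num)
  have h2 := h.const_mul ((k⁻¹) ^ 3)
  refine h2.congr (Eventually.of_forall fun t => ?_)
  have ht : (0 : ℝ) < 1 + |t| := by positivity
  simp only [G, Real.norm_eq_abs]
  rw [Real.rpow_neg ht.le]
  have : ((1 + |t|) ^ (3 : ℝ)) = (1 + |t|) ^ 3 := by
    rw [← Real.rpow_natCast]; norm_num
  rw [this, mul_inv, mul_pow, inv_pow (1 + |t|)]

theorem G_pos {k : ℝ} (hk : 0 < k) (t : ℝ) : 0 < G k t := by
  unfold G; positivity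

theorem le_G {k : ℝ} {g : ℝ × ℝ → ℝ} (h : Gd k g) (a b : ℝ) :
    ((g (a, b))⁻¹) ^ 3 ≤ G k a := by
  have hk := h.kpos
  have h1 : k * (1 + |a|) ≤ g (a, b) := by
    refine le_trans ?_ (h.gr (a, b))
    apply mul_le_mul_of_nonneg_left _ hk.le
    have := abs_nonneg b
    simp only
    linarith
  have h2 : 0 < k * (1 + |a|) := by positivity
  unfold G
  apply pow_le_pow_left₀ (inv_nonneg.2 (gpos h _).le)
  exact inv_anti₀ h2 h1

theorem slice_int {k : ℝ} {g : ℝ × ℝ → ℝ} (h : Gd k g) (b : ℝ) :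
    Integrable fun a : ℝ => ((g (a, b))⁻¹) ^ 3 := by
  refine (G_int h.kpos).mono' ?_ (Eventually.of_forall fun a => ?_)
  · exact (((slice_cont h b).inv₀ fun a => (gpos h _).ne').pow 3).aestronglyMeasurable
  · rw [Real.norm_of_nonneg (by have := gpos h (a, b); positivity)]
    exact le_G h a b

/-- inner integral -/
noncomputable def I (g : ℝ × ℝ → ℝ) (b : ℝ) : ℝ := ∫ a, ((g (a, b))⁻¹) ^ 3

theorem int_pos_of {u : ℝ → ℝ} (hi : Integrable u) (hp : ∀ x, 0 < u x) : 0 < ∫ x, u x := by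
  rw [integral_pos_iff_support_of_nonneg (fun x => (hp x).le) hi]
  have : Function.support u = univ := by
    ext x; simp [(hp x).ne']
  rw [this]
  simp

theorem I_pos {k : ℝ} {g : ℝ × ℝ → ℝ} (h : Gd k g) (b : ℝ) : 0 < I g b :=
  int_pos_of (slice_int h b) fun a => by have := gpos h (a, b); positivity

theorem I_cont {k : ℝ} {g : ℝ × ℝ → ℝ} (h : Gd k g) : Continuous (I g) := by
  unfold I
  refine continuous_of_dominated (bound := G k) (fun b => (slice_int h b).aestronglyMeasurable)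
    (fun b => Eventually.of_forall fun a => ?_) (G_int h.kpos)
    (Eventually.of_forall fun a => ?_)
  · rw [Real.norm_of_nonneg (by have := gpos h (a, b); positivity)]
    exact le_G h a b
  · exact (((cont h).comp (by fun_prop : Continuous fun b : ℝ => (a, b))).inv₀
      fun b => (gpos h _).ne').pow 3

theorem I_le {k : ℝ} {g : ℝ × ℝ → ℝ} (h : Gd k g) (b : ℝ) :
    I g b ≤ ((1 + |b|)⁻¹) ^ 2 * ∫ t, G k t := by
  set c : ℝ := 1 + |b| with hc
  have hcp : 0 < c := by positivity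
  have hk := h.kpos
  have hb : ∀ a : ℝ, ((g (a, b))⁻¹) ^ 3 ≤ (c⁻¹) ^ 3 * G k (a / c) := by
    intro a
    have h1 : k * (c + |a|) ≤ g (a, b) := by
      refine le_trans (le_of_eq ?_) (h.gr (a, b))
      rw [hc]; ring
    have h2 : 0 < k * (c + |a|) := by positivity
    have h3 : (c⁻¹) ^ 3 * G k (a / c) = ((k * (c + |a|))⁻¹) ^ 3 := by
      unfold G
      rw [← mul_pow, ← mul_inv, abs_div, abs_of_pos hcp]
      congr 2
      field_simp
    rw [h3]
    apply pow_le_pow_left₀ (inv_nonneg.2 (gpos h _).le)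
    exact inv_anti₀ h2 h1
  have hint : Integrable fun a : ℝ => (c⁻¹) ^ 3 * G k (a / c) :=
    ((G_int hk).comp_div hcp.ne').const_mul _
  calc I g b ≤ ∫ a, (c⁻¹) ^ 3 * G k (a / c) :=
        integral_mono (slice_int h b) hint hb
    _ = (c⁻¹) ^ 3 * (|c| * ∫ t, G k t) := by
        rw [integral_const_mul, Measure.integral_comp_div, smul_eq_mul]
    _ = (c⁻¹) ^ 2 * ∫ t, G k t := by
        rw [abs_of_pos hcp]
        field_simp

/-- the function whose inverse square is the inner integral -/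
noncomputable def F (g : ℝ × ℝ → ℝ) (b : ℝ) : ℝ := (Real.sqrt (I g b))⁻¹

theorem F_pos {k : ℝ} {g : ℝ × ℝ → ℝ} (h : Gd k g) (b : ℝ) : 0 < F g b :=
  inv_pos.2 (Real.sqrt_pos.2 (I_pos h b))

theorem F_inv_sq {k : ℝ} {g : ℝ × ℝ → ℝ} (h : Gd k g) (b : ℝ) : ((F g b)⁻¹) ^ 2 = I g b := by
  unfold F
  rw [inv_inv, Real.sq_sqrt (I_pos h b).le]

theorem F_cont {k : ℝ} {g : ℝ × ℝ → ℝ} (h : Gd k g) : Continuous (F g) :=
  (Real.continuous_sqrt.comp (I_cont h)).inv₀ fun b => (Real.sqrt_pos.2 (I_pos h b)).ne'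

theorem F_gr {k : ℝ} {g : ℝ × ℝ → ℝ} (h : Gd k g) :
    ∃ m : ℝ, 0 < m ∧ ∀ b, m * (1 + |b|) ≤ F g b := by
  have hC : 0 < ∫ t, G k t := int_pos_of (G_int h.kpos) (G_pos h.kpos)
  set C : ℝ := ∫ t, G k t with hCdef
  refine ⟨(Real.sqrt C)⁻¹, inv_pos.2 (Real.sqrt_pos.2 hC), fun b => ?_⟩
  have hc : (0 : ℝ) < 1 + |b| := by positivity
  have h1 := I_le h b
  have h2 : Real.sqrt (I g b) ≤ (1 + |b|)⁻¹ * Real.sqrt C := by
    refine (Real.sqrt_le_sqrt h1).trans (le_of_eq ?_)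
    rw [Real.sqrt_mul (by positivity), Real.sqrt_sq (by positivity)]
  unfold F
  have h3 : 0 < Real.sqrt (I g b) := Real.sqrt_pos.2 (I_pos h b)
  calc (Real.sqrt C)⁻¹ * (1 + |b|) = ((1 + |b|)⁻¹ * Real.sqrt C)⁻¹ := by
        rw [mul_inv, inv_inv, mul_comm]
    _ ≤ (Real.sqrt (I g b))⁻¹ := inv_anti₀ h3 h2

theorem exists_min {φ : ℝ → ℝ} (hφ : Continuous φ) {m : ℝ} (hm : 0 < m)
    (hg : ∀ y, m * (1 + |y|) ≤ φ y) : ∃ x, 0 < φ x ∧ ∀ y, φ x ≤ φ y := by
  have ht : Tendsto φ (cocompact ℝ) atTop := by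
    refine tendsto_atTop_mono hg ?_
    have h1 : Tendsto (fun y : ℝ => |y|) (cocompact ℝ) atTop := tendsto_norm_cocompact_atTop
    exact (tendsto_atTop_add_const_left _ 1 h1).const_mul_atTop hm
  obtain ⟨x, hx⟩ := hφ.exists_forall_le ht
  refine ⟨x, lt_of_lt_of_le ?_ (hg x), hx⟩
  positivity

theorem slice_gr {k : ℝ} {g : ℝ × ℝ → ℝ} (h : Gd k g) (b y : ℝ) :
    k * (1 + |y|) ≤ g (y, b) := by
  refine le_trans ?_ (h.gr (y, b))
  apply mul_le_mul_of_nonneg_left _ h.kpos.le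
  have := abs_nonneg b
  simp only
  linarith

theorem slice_min {k : ℝ} {g : ℝ × ℝ → ℝ} (h : Gd k g) (b : ℝ) :
    ∃ x, 0 < g (x, b) ∧ ∀ y, g (x, b) ≤ g (y, b) :=
  exists_min (slice_cont h b) h.kpos (slice_gr h b)

theorem lint_eq {u : ℝ → ℝ} (hi : Integrable u) (hp : ∀ x, 0 < u x) :
    ∫⁻ x, ENNReal.ofReal (u x) = ENNReal.ofReal (∫ x, u x) :=
  (ofReal_integral_eq_lintegral_ofReal hi (Eventually.of_forall fun x => (hp x).le)).symm

theorem inner (h1 : S_bbl1) {k : ℝ} {g0 g1 g : ℝ × ℝ → ℝ} (h0 : Gd k g0) (h0' : Gd k g1)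
    (hg : Gd k g) (hmid : ∀ x y, g ((1 / 2 : ℝ) • (x + y)) ≤ (g0 x + g1 y) / 2) (b0 b1 : ℝ) :
    F g ((b0 + b1) / 2) ≤ (F g0 b0 + F g1 b1) / 2 := by
  have key := h1 1 (f0 := fun a => g0 (a, b0)) (f1 := fun a => g1 (a, b1))
    (f := fun a => g (a, (b0 + b1) / 2)) (slice_conv h0 b0) (slice_conv h0' b1)
    (slice_min h0 b0) (slice_min h0' b1) (slice_cont hg _).measurable (fun x => gpos hg _)
    (fun x y => by
      have := hmid (x, b0) (y, b1)
      have e : (1 / 2 : ℝ) • (((x, b0) : ℝ × ℝ) + (y, b1)) = ((x + y) / 2, (b0 + b1) / 2) := by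
        ext <;> simp <;> ring
      rw [e] at this
      exact this) (F_pos h0 b0) (F_pos h0' b1)
    (by
      rw [lint_eq (slice_int h0 b0) (fun a => by have := gpos h0 (a, b0); positivity)]
      exact ENNReal.ofReal_le_ofReal (F_inv_sq h0 b0).le)
    (by
      rw [lint_eq (slice_int h0' b1) (fun a => by have := gpos h0' (a, b1); positivity)]
      exact ENNReal.ofReal_le_ofReal (F_inv_sq h0' b1).le)
  rw [lint_eq (slice_int hg _) (fun a => by have := gpos hg (a, (b0 + b1) / 2); positivity)]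
    at key
  change _ ≤ ENNReal.ofReal (I g ((b0 + b1) / 2)) at key
  rw [ENNReal.ofReal_le_ofReal_iff (I_pos hg _).le] at key
  have hJ : 0 < (F g0 b0 + F g1 b1) / 2 := by
    have := F_pos h0 b0
    have := F_pos h0' b1
    positivity
  have h3 : ((F g0 b0 + F g1 b1) / 2)⁻¹ ≤ Real.sqrt (I g ((b0 + b1) / 2)) :=
    Real.le_sqrt_of_sq_le key
  have h4 := inv_anti₀ (inv_pos.2 hJ) h3
  rw [inv_inv] at h4
  exact h4

/-- a continuous midpoint convex function is convex -/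
theorem conv_of_mid {φ : ℝ → ℝ} (hφ : Continuous φ)
    (hm : ∀ x y, φ ((x + y) / 2) ≤ (φ x + φ y) / 2) : ConvexOn ℝ univ φ := by
  refine ⟨convex_univ, ?_⟩
  intro x _ y _ u v hu hv huv
  set ψ : ℝ → ℝ := fun t => φ ((1 - t) * x + t * y) - ((1 - t) * φ x + t * φ y) with hψ
  have hψc : Continuous ψ := by
    have : Continuous fun t : ℝ => φ ((1 - t) * x + t * y) := hφ.comp (by fun_prop)
    rw [hψ]
    fun_prop
  have hψm : ∀ s t, ψ ((s + t) / 2) ≤ (ψ s + ψ t) / 2 := by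
    intro s t
    have h := hm ((1 - s) * x + s * y) ((1 - t) * x + t * y)
    have e : ((1 - s) * x + s * y + ((1 - t) * x + t * y)) / 2 =
        (1 - (s + t) / 2) * x + (s + t) / 2 * y := by ring
    rw [e] at h
    simp only [hψ]
    linarith
  have hψ0 : ψ 0 = 0 := by simp [hψ]
  have hψ1 : ψ 1 = 0 := by simp [hψ]
  have main : ∀ t ∈ Icc (0 : ℝ) 1, ψ t ≤ 0 := by
    by_contra hcon
    push Not at hcon
    obtain ⟨t1, ht1, hpos⟩ := hcon
    obtain ⟨tm, htm, hmax⟩ := isCompact_Icc.exists_isMaxOn (nonempty_of_mem ht1)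
      (hψc.continuousOn (s := Icc (0 : ℝ) 1))
    set S : Set ℝ := Icc (0 : ℝ) 1 ∩ {t | ψ tm ≤ ψ t} with hS
    have hSc : IsCompact S := isCompact_Icc.inter_right (isClosed_le continuous_const hψc)
    have hSne : S.Nonempty := ⟨tm, htm, by simp⟩
    obtain ⟨t0, ht0, hleast⟩ := hSc.exists_isLeast hSne
    have hM : 0 < ψ tm := lt_of_lt_of_le hpos (hmax ht1)
    have hT0 : ψ tm ≤ ψ t0 := ht0.2
    have hne0 : t0 ≠ 0 := by
      intro h; rw [h, hψ0] at hT0; linarith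
    have hne1 : t0 ≠ 1 := by
      intro h; rw [h, hψ1] at hT0; linarith
    have hlt0 : 0 < t0 := lt_of_le_of_ne ht0.1.1 (Ne.symm hne0)
    have hlt1 : t0 < 1 := lt_of_le_of_ne ht0.1.2 hne1
    set d : ℝ := min t0 (1 - t0) with hd
    have hdp : 0 < d := lt_min hlt0 (by linarith)
    have hd0 : d ≤ t0 := min_le_left _ _
    have hd1 : d ≤ 1 - t0 := min_le_right _ _
    have hl : ψ (t0 - d) < ψ tm := by
      by_contra hc
      push Not at hc
      have : t0 ≤ t0 - d := hleast ⟨⟨by linarith, by linarith⟩, hc⟩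
      linarith
    have hr : ψ (t0 + d) ≤ ψ tm := hmax ⟨by linarith, by linarith⟩
    have h2 := hψm (t0 - d) (t0 + d)
    have e : (t0 - d + (t0 + d)) / 2 = t0 := by ring
    rw [e] at h2
    linarith
  have hfin := main v ⟨hv, by linarith⟩
  simp only [hψ] at hfin
  have hu' : u = 1 - v := by linarith
  rw [hu']
  simp only [smul_eq_mul]
  linarith

theorem F_conv (h1 : S_bbl1) {k : ℝ} {g : ℝ × ℝ → ℝ} (h : Gd k g) : ConvexOn ℝ univ (F g) := by
  refine conv_of_mid (F_cont h) fun x y => inner h1 h h h (fun p q => ?_) x y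
  have := h.conv.2 (mem_univ p) (mem_univ q) (by norm_num : (0 : ℝ) ≤ 1 / 2)
    (by norm_num : (0 : ℝ) ≤ 1 / 2) (by norm_num)
  rw [← smul_add] at this
  refine this.trans (le_of_eq ?_)
  simp only [smul_eq_mul]
  ring

theorem Ic_eq (h2 : S_Ic) {k : ℝ} {g : ℝ × ℝ → ℝ} (h : Gd k g) :
    Integrable (I g) ∧ Ic g = ∫ b, I g b ∧ 0 < Ic g := by
  obtain ⟨hi, hp⟩ := h2 h.conv h.kpos h.gr
  refine ⟨?_, ?_, hp⟩
  · rw [Measure.volume_eq_prod] at hi
    exact hi.integral_prod_right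
  · unfold Ic I
    rw [Measure.volume_eq_prod] at hi ⊢
    exact integral_prod_symm _ hi

end A2b

open A2b in
theorem t_bbl2 (h1 : S_bbl1) (h2 : S_Ic) : S_bbl2 := by
  intro f0 f1 f c0 c1 c k hk g0 g1 g hmid
  have H0 : Gd k f0 := ⟨c0, hk, g0⟩
  have H1 : Gd k f1 := ⟨c1, hk, g1⟩
  have H : Gd k f := ⟨c, hk, g⟩
  obtain ⟨i0, e0, p0⟩ := Ic_eq h2 H0
  obtain ⟨i1, e1, p1⟩ := Ic_eq h2 H1
  obtain ⟨i, e, p⟩ := Ic_eq h2 H
  obtain ⟨m0, hm0, gr0⟩ := F_gr H0
  obtain ⟨m1, hm1, gr1⟩ := F_gr H1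
  have hl : ∀ {g : ℝ × ℝ → ℝ} (_ : Gd k g) (_ : Integrable (I g)),
      ∫⁻ x, ENNReal.ofReal (((F g x)⁻¹) ^ (0 + 2)) = ENNReal.ofReal (∫ b, I g b) := by
    intro g hg hi
    rw [← lint_eq hi (I_pos hg)]
    refine lintegral_congr fun x => ?_
    rw [zero_add, F_inv_sq hg]
  have key := h1 0 (f0 := F f0) (f1 := F f1) (f := F f) (F_conv h1 H0) (F_conv h1 H1)
    (exists_min (F_cont H0) hm0 gr0) (exists_min (F_cont H1) hm1 gr1) (F_cont H).measurable
    (F_pos H) (fun x y => inner h1 H0 H1 H hmid x y) (inv_pos.2 p0) (inv_pos.2 p1)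
    (by rw [hl H0 i0, ← e0, inv_inv]; simp)
    (by rw [hl H1 i1, ← e1, inv_inv]; simp)
  rw [hl H i, ← e, ENNReal.ofReal_le_ofReal_iff p.le] at key
  simp only [zero_add, pow_one] at key
  have hJ : 0 < ((Ic f0)⁻¹ + (Ic f1)⁻¹) / 2 := by positivity
  have h4 := inv_anti₀ (inv_pos.2 hJ) key
  rw [inv_inv] at h4
  exact h4

end H293M
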