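import Pool.Agent.H293R2.M3.Spec

/-!
A3a: elementary properties of the support functions `fp` and `fm`.
-/

set_option autoImplicit false

open MeasureTheory Set

namespace H293M

namespace A3a

theorem le_sup {S : Finset E} (f : E → ℝ) {s : E} (hs : s ∈ S) :
    f s ≤ sSup (f '' (S : Set E)) :=
  le_csSup ((S.finite_toSet.image f).bddAbove) (mem_image_of_mem f (Finset.mem_coe.2 hs))

theorem sup_mem {S : Finset E} (hS : S.Nonempty) (f : E → ℝ) :
    ∃ s ∈ S, f s = sSup (f '' (S : Set E)) := by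
  have h : sSup (f '' (S : Set E)) ∈ f '' (S : Set E) :=
    Set.Nonempty.csSup_mem ((Finset.coe_nonempty.2 hS).image f) (S.finite_toSet.image f)
  obtain ⟨s, hs, h⟩ := h
  exact ⟨s, Finset.mem_coe.1 hs, h⟩

theorem sgn (x : ℝ) : ∃ e : ℝ, |e| ≤ 1 ∧ x * e = |x| := by
  rcases le_total 0 x with h | h
  · exact ⟨1, by simp, by rw [abs_of_nonneg h, mul_one]⟩
  · exact ⟨-1, by simp, by rw [abs_of_nonpos h]; ring⟩

/-- a linear functional is bounded on the hull by its bound on the points -/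
theorem hl_le {S : Finset E} (a b c M : ℝ)
    (h : ∀ s ∈ S, a * s.1 + b * s.2.1 + c * s.2.2 ≤ M) {p : E} (hp : p ∈ hl S) :
    a * p.1 + b * p.2.1 + c * p.2.2 ≤ M := by
  have hc : Convex ℝ {q : E | a * q.1 + b * q.2.1 + c * q.2.2 ≤ M} := by
    intro x hx y hy u v hu hv huv
    have hx' : a * x.1 + b * x.2.1 + c * x.2.2 ≤ M := hx
    have hy' : a * y.1 + b * y.2.1 + c * y.2.2 ≤ M := hy
    show a * (u • x + v • y).1 + b * (u • x + v • y).2.1 + c * (u • x + v • y).2.2 ≤ M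
    simp only [Prod.fst_add, Prod.snd_add, Prod.smul_fst, Prod.smul_snd, smul_eq_mul]
    have h1 := mul_le_mul_of_nonneg_left hx' hu
    have h2 := mul_le_mul_of_nonneg_left hy' hv
    have h3 : u * M + v * M = M := by rw [← add_mul, huv, one_mul]
    nlinarith
  exact convexHull_min (fun s hs => h s (Finset.mem_coe.1 hs)) hc hp

theorem growth_aux {S : Finset E} {ζ : ℝ} (h : ((0, 0, ζ) : E) ∈ interior (hl S)) :
    ∃ k : ℝ, 0 < k ∧ ∀ a b c : ℝ, |a| ≤ 1 → |b| ≤ 1 → |c| ≤ 1 →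
      ((k * a, k * b, ζ + k * c) : E) ∈ hl S := by
  obtain ⟨r, hr, hb⟩ := Metric.mem_nhds_iff.1 (mem_interior_iff_mem_nhds.1 h)
  have key : ∀ a : ℝ, |a| ≤ 1 → |r / 2 * a| < r := by
    intro a ha
    rw [abs_mul, abs_of_pos (by positivity : (0 : ℝ) < r / 2)]
    nlinarith [abs_nonneg a]
  refine ⟨r / 2, by positivity, fun a b c ha hb' hc => hb ?_⟩
  rw [Metric.mem_ball, Prod.dist_eq, Prod.dist_eq, max_lt_iff, max_lt_iff]
  simp only [Real.dist_eq, sub_zero, add_sub_cancel_left]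
  exact ⟨key a ha, key b hb', key c hc⟩

end A3a

open A3a in
/-- A3a: elementary properties of the support functions -/
theorem t_fpm : S_fpm where
  fp_convex := by
    intro S hS
    refine ⟨convex_univ, fun x _ y _ a b ha hb hab => ?_⟩
    obtain ⟨s, hs, h⟩ := sup_mem hS
      (fun s : E => (a • x + b • y).1 * s.1 + (a • x + b • y).2 * s.2.1 + s.2.2)
    have h0 : fp S (a • x + b • y) =
        (a • x + b • y).1 * s.1 + (a • x + b • y).2 * s.2.1 + s.2.2 := h.symm
    have h1 : x.1 * s.1 + x.2 * s.2.1 + s.2.2 ≤ fp S x :=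
      le_sup (fun s : E => x.1 * s.1 + x.2 * s.2.1 + s.2.2) hs
    have h2 : y.1 * s.1 + y.2 * s.2.1 + s.2.2 ≤ fp S y :=
      le_sup (fun s : E => y.1 * s.1 + y.2 * s.2.1 + s.2.2) hs
    rw [h0]
    simp only [Prod.fst_add, Prod.snd_add, Prod.smul_fst, Prod.smul_snd, smul_eq_mul]
    have h3 := mul_le_mul_of_nonneg_left h1 ha
    have h4 := mul_le_mul_of_nonneg_left h2 hb
    have h5 : s.2.2 = a * s.2.2 + b * s.2.2 := by rw [← add_mul, hab, one_mul]
    linarith
  fm_convex := by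
    intro S hS
    refine ⟨convex_univ, fun x _ y _ a b ha hb hab => ?_⟩
    obtain ⟨s, hs, h⟩ := sup_mem hS
      (fun s : E => (a • x + b • y).1 * s.1 + (a • x + b • y).2 * s.2.1 - s.2.2)
    have h0 : fm S (a • x + b • y) =
        (a • x + b • y).1 * s.1 + (a • x + b • y).2 * s.2.1 - s.2.2 := h.symm
    have h1 : x.1 * s.1 + x.2 * s.2.1 - s.2.2 ≤ fm S x :=
      le_sup (fun s : E => x.1 * s.1 + x.2 * s.2.1 - s.2.2) hs
    have h2 : y.1 * s.1 + y.2 * s.2.1 - s.2.2 ≤ fm S y :=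
      le_sup (fun s : E => y.1 * s.1 + y.2 * s.2.1 - s.2.2) hs
    rw [h0]
    simp only [Prod.fst_add, Prod.snd_add, Prod.smul_fst, Prod.smul_snd, smul_eq_mul]
    have h3 := mul_le_mul_of_nonneg_left h1 ha
    have h4 := mul_le_mul_of_nonneg_left h2 hb
    have h5 : s.2.2 = a * s.2.2 + b * s.2.2 := by rw [← add_mul, hab, one_mul]
    linarith
  fp_le := by
    intro S x s hs
    exact le_sup (fun s : E => x.1 * s.1 + x.2 * s.2.1 + s.2.2) hs
  fm_le := by
    intro S x s hs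
    exact le_sup (fun s : E => x.1 * s.1 + x.2 * s.2.1 - s.2.2) hs
  fp_mem := by
    intro S hS x
    exact sup_mem hS (fun s : E => x.1 * s.1 + x.2 * s.2.1 + s.2.2)
  fm_mem := by
    intro S hS x
    exact sup_mem hS (fun s : E => x.1 * s.1 + x.2 * s.2.1 - s.2.2)
  fp_mid := by
    classical
    intro S hS β x y
    obtain ⟨s, hs, h⟩ := sup_mem hS (fun s : E => ((1 / 2 : ℝ) • (x + y)).1 * s.1 +
      ((1 / 2 : ℝ) • (x + y)).2 * s.2.1 + s.2.2)
    have h0 : fp S ((1 / 2 : ℝ) • (x + y)) = ((1 / 2 : ℝ) • (x + y)).1 * s.1 +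
      ((1 / 2 : ℝ) • (x + y)).2 * s.2.1 + s.2.2 := h.symm
    have m1 : mv β s ∈ SM S β := by
      unfold SM
      exact Finset.mem_image_of_mem _ hs
    have m2 : mv (fun s => -β s) s ∈ SM S fun s => -β s := by
      unfold SM
      exact Finset.mem_image_of_mem _ hs
    have h1 : x.1 * (mv β s).1 + x.2 * (mv β s).2.1 + (mv β s).2.2 ≤ fp (SM S β) x :=
      le_sup (fun s : E => x.1 * s.1 + x.2 * s.2.1 + s.2.2) m1
    have h2 : y.1 * (mv (fun s => -β s) s).1 + y.2 * (mv (fun s => -β s) s).2.1 +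
        (mv (fun s => -β s) s).2.2 ≤ fp (SM S fun s => -β s) y :=
      le_sup (fun s : E => y.1 * s.1 + y.2 * s.2.1 + s.2.2) m2
    rw [h0]
    simp only [mv, Prod.fst_add, Prod.snd_add, Prod.smul_fst, Prod.smul_snd, smul_eq_mul] at h1 h2 ⊢
    linarith
  fm_mid := by
    classical
    intro S hS β x y
    obtain ⟨s, hs, h⟩ := sup_mem hS (fun s : E => ((1 / 2 : ℝ) • (x + y)).1 * s.1 +
      ((1 / 2 : ℝ) • (x + y)).2 * s.2.1 - s.2.2)
    have h0 : fm S ((1 / 2 : ℝ) • (x + y)) = ((1 / 2 : ℝ) • (x + y)).1 * s.1 +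
      ((1 / 2 : ℝ) • (x + y)).2 * s.2.1 - s.2.2 := h.symm
    have m1 : mv β s ∈ SM S β := by
      unfold SM
      exact Finset.mem_image_of_mem _ hs
    have m2 : mv (fun s => -β s) s ∈ SM S fun s => -β s := by
      unfold SM
      exact Finset.mem_image_of_mem _ hs
    have h1 : x.1 * (mv β s).1 + x.2 * (mv β s).2.1 - (mv β s).2.2 ≤ fm (SM S β) x :=
      le_sup (fun s : E => x.1 * s.1 + x.2 * s.2.1 - s.2.2) m1
    have h2 : y.1 * (mv (fun s => -β s) s).1 + y.2 * (mv (fun s => -β s) s).2.1 -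
        (mv (fun s => -β s) s).2.2 ≤ fm (SM S fun s => -β s) y :=
      le_sup (fun s : E => y.1 * s.1 + y.2 * s.2.1 - s.2.2) m2
    rw [h0]
    simp only [mv, Prod.fst_add, Prod.snd_add, Prod.smul_fst, Prod.smul_snd, smul_eq_mul] at h1 h2 ⊢
    linarith
  growth := by
    intro S ζ h
    obtain ⟨k, hk, hmem⟩ := growth_aux h
    refine ⟨k, hk, fun x => ?_, fun x => ?_⟩
    · obtain ⟨a, ha, hxa⟩ := sgn x.1
      obtain ⟨b, hb, hxb⟩ := sgn x.2
      have h1 := hl_le x.1 x.2 1 (fp S x) (fun s hs => by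
        have := le_sup (fun s : E => x.1 * s.1 + x.2 * s.2.1 + s.2.2) hs
        rw [one_mul]
        exact this) (hmem a b 1 ha hb (by simp))
      simp only at h1
      have e : x.1 * (k * a) + x.2 * (k * b) + 1 * (ζ + k * 1) = k * (1 + |x.1| + |x.2|) + ζ := by
        rw [← hxa, ← hxb]; ring
      linarith
    · obtain ⟨a, ha, hxa⟩ := sgn x.1
      obtain ⟨b, hb, hxb⟩ := sgn x.2
      have h1 := hl_le x.1 x.2 (-1) (fm S x) (fun s hs => by
        have := le_sup (fun s : E => x.1 * s.1 + x.2 * s.2.1 - s.2.2) hs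
        have e : x.1 * s.1 + x.2 * s.2.1 + -1 * s.2.2 = x.1 * s.1 + x.2 * s.2.1 - s.2.2 := by ring
        rw [e]
        exact this) (hmem a b (-1) ha hb (by simp))
      simp only at h1
      have e : x.1 * (k * a) + x.2 * (k * b) + -1 * (ζ + k * -1) = k * (1 + |x.1| + |x.2|) - ζ := by
        rw [← hxa, ← hxb]; ring
      linarith

end H293M
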