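import Pool.Agent.H293R2.M3.Spec

set_option autoImplicit false

open MeasureTheory Set

namespace H293M

namespace A3b

/-- the part of the polar above the horizontal plane -/
def up (F : ℝ × ℝ → ℝ) : Set E :=
  {y | 0 < y.2.2 ∧ y.2.2 * F (y.2.2⁻¹ * y.1, y.2.2⁻¹ * y.2.1) ≤ 1}

theorem meas_up {F : ℝ × ℝ → ℝ} (hF : Measurable F) : MeasurableSet (up F) := by
  have h1 : Measurable (fun y : E => y.2.2) := measurable_snd.comp measurable_snd
  have h2 : Measurable (fun y : E => y.2.2⁻¹ * y.1) := h1.inv.mul measurable_fst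
  have h3 : Measurable (fun y : E => y.2.2⁻¹ * y.2.1) :=
    h1.inv.mul (measurable_fst.comp measurable_snd)
  exact (measurableSet_lt measurable_const h1).inter
    (measurableSet_le (h1.mul (hF.comp (h2.prodMk h3))) measurable_const)

theorem inner_int (c : ℝ) (hc : 0 ≤ c) :
    ∫⁻ r : ℝ, (Ioc 0 c).indicator (fun r => ENNReal.ofReal (r ^ 2)) r =
      ENNReal.ofReal (c ^ 3 / 3) := by
  rw [lintegral_indicator measurableSet_Ioc, ← ofReal_integral_eq_lintegral_ofReal]
  · congr 1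
    rw [← intervalIntegral.integral_of_le hc, integral_pow]
    norm_num
  · have : IntervalIntegrable (fun r : ℝ => r ^ 2) volume 0 c :=
      (continuous_pow 2).intervalIntegrable 0 c
    exact (intervalIntegrable_iff_integrableOn_Ioc_of_le hc).1 this
  · exact Filter.Eventually.of_forall fun r => sq_nonneg r

theorem vol_up {F : ℝ × ℝ → ℝ} (hF : Measurable F) (hpos : ∀ x, 0 < F x) :
    volume (up F) = ∫⁻ x, ENNReal.ofReal (((F x)⁻¹) ^ 3 / 3) := by
  have hm := meas_up hF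
  have h1 : volume (up F) =
      volume ((MeasurableEquiv.prodAssoc : (ℝ × ℝ) × ℝ ≃ᵐ ℝ × ℝ × ℝ) ⁻¹' (up F)) :=
    (volume_preserving_prodAssoc.measure_preimage hm.nullMeasurableSet).symm
  have hm2 : MeasurableSet
      ((MeasurableEquiv.prodAssoc : (ℝ × ℝ) × ℝ ≃ᵐ ℝ × ℝ × ℝ) ⁻¹' (up F)) :=
    MeasurableEquiv.prodAssoc.measurable hm
  rw [h1, Measure.volume_eq_prod (ℝ × ℝ) ℝ, Measure.prod_apply_symm hm2]
  -- the slices
  have h2 : ∀ r : ℝ, volume ((fun x : ℝ × ℝ => (x, r)) ⁻¹'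
      ((MeasurableEquiv.prodAssoc : (ℝ × ℝ) × ℝ ≃ᵐ ℝ × ℝ × ℝ) ⁻¹' (up F))) =
      ∫⁻ x : ℝ × ℝ, (Ioc 0 (F x)⁻¹).indicator (fun r => ENNReal.ofReal (r ^ 2)) r := by
    intro r
    by_cases hr : 0 < r
    · have e1 : ((fun x : ℝ × ℝ => (x, r)) ⁻¹'
          ((MeasurableEquiv.prodAssoc : (ℝ × ℝ) × ℝ ≃ᵐ ℝ × ℝ × ℝ) ⁻¹' (up F))) =
          (fun x : ℝ × ℝ => r⁻¹ • x) ⁻¹' {x | r * F x ≤ 1} := by
        ext x
        change (0 < r ∧ r * F (r⁻¹ * x.1, r⁻¹ * x.2) ≤ 1) ↔ r * F (r⁻¹ • x) ≤ 1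
        have : r⁻¹ • x = (r⁻¹ * x.1, r⁻¹ * x.2) := rfl
        rw [this]
        exact ⟨fun h => h.2, fun h => ⟨hr, h⟩⟩
      rw [e1, Measure.addHaar_preimage_smul volume (inv_ne_zero hr.ne')]
      have e2 : Module.finrank ℝ (ℝ × ℝ) = 2 := by simp
      rw [e2]
      have e3 : |((r⁻¹) ^ 2)⁻¹| = r ^ 2 := by
        rw [inv_pow, inv_inv, abs_of_nonneg (sq_nonneg r)]
      rw [e3]
      have hmB : MeasurableSet {x : ℝ × ℝ | r * F x ≤ 1} :=
        measurableSet_le (hF.const_mul r) measurable_const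
      have e4 : ∀ x : ℝ × ℝ, (Ioc 0 (F x)⁻¹).indicator (fun r => ENNReal.ofReal (r ^ 2)) r =
          {x : ℝ × ℝ | r * F x ≤ 1}.indicator (fun _ => ENNReal.ofReal (r ^ 2)) x := by
        intro x
        have e5 : r ∈ Ioc 0 (F x)⁻¹ ↔ x ∈ {x : ℝ × ℝ | r * F x ≤ 1} := by
          simp only [mem_Ioc, mem_ofPred_eq]
          rw [le_inv_comm₀ hr (hpos x), ← one_div, le_div_iff₀ hr, mul_comm (F x) r]
          exact ⟨fun h => h.2, fun h => ⟨hr, h⟩⟩
        by_cases h : r ∈ Ioc 0 (F x)⁻¹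
        · rw [indicator_of_mem h, indicator_of_mem (e5.1 h)]
        · rw [indicator_of_notMem h, indicator_of_notMem fun h' => h (e5.2 h')]
      rw [lintegral_congr e4, lintegral_indicator hmB, lintegral_const, Measure.restrict_apply_univ]
    · have e1 : ((fun x : ℝ × ℝ => (x, r)) ⁻¹'
          ((MeasurableEquiv.prodAssoc : (ℝ × ℝ) × ℝ ≃ᵐ ℝ × ℝ × ℝ) ⁻¹' (up F))) = ∅ := by
        ext x
        change (0 < r ∧ r * F (r⁻¹ * x.1, r⁻¹ * x.2) ≤ 1) ↔ False
        exact ⟨fun h => hr h.1, False.elim⟩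
      rw [e1, measure_empty]
      symm
      have e4 : ∀ x : ℝ × ℝ, (Ioc 0 (F x)⁻¹).indicator (fun r => ENNReal.ofReal (r ^ 2)) r = 0 := by
        intro x
        exact indicator_of_notMem (fun h => hr h.1) _
      rw [lintegral_congr e4, lintegral_zero]
  rw [lintegral_congr h2, lintegral_lintegral_swap]
  · refine lintegral_congr fun x => ?_
    exact inner_int _ (inv_nonneg.2 (hpos x).le)
  · have hms : MeasurableSet {p : ℝ × (ℝ × ℝ) | 0 < p.1 ∧ p.1 ≤ (F p.2)⁻¹} :=
      (measurableSet_lt measurable_const measurable_fst).inter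
        (measurableSet_le measurable_fst (hF.comp measurable_snd).inv)
    have hme : Measurable (fun p : ℝ × (ℝ × ℝ) =>
        {p : ℝ × (ℝ × ℝ) | 0 < p.1 ∧ p.1 ≤ (F p.2)⁻¹}.indicator
          (fun p => ENNReal.ofReal (p.1 ^ 2)) p) :=
      ((measurable_fst.pow_const 2).ennreal_ofReal).indicator hms
    refine AEMeasurable.congr hme.aemeasurable (Filter.Eventually.of_forall fun p => ?_)
    obtain ⟨r, x⟩ := p
    change _ = (Ioc 0 (F x)⁻¹).indicator (fun r => ENNReal.ofReal (r ^ 2)) r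
    by_cases h : r ∈ Ioc 0 (F x)⁻¹
    · rw [indicator_of_mem h]
      exact indicator_of_mem (s := {p : ℝ × (ℝ × ℝ) | 0 < p.1 ∧ p.1 ≤ (F p.2)⁻¹}) h _
    · rw [indicator_of_notMem h]
      exact indicator_of_notMem (s := {p : ℝ × (ℝ × ℝ) | 0 < p.1 ∧ p.1 ≤ (F p.2)⁻¹}) h _

/-- the polar of a polytope is given by the vertices -/
theorem mem_pol {S : Finset E} {z y : E} :
    y ∈ polz (hl S) z ↔ ∀ s ∈ S, dt (s - z) y ≤ 1 := by
  constructor
  · intro h s hs
    exact h s (subset_convexHull ℝ _ hs)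
  · intro h x hx
    have hc : Convex ℝ {x : E | dt (x - z) y ≤ 1} := by
      intro u hu w hw a b ha hb hab
      simp only [mem_ofPred_eq] at hu hw ⊢
      have e : dt (a • u + b • w - z) y = a * dt (u - z) y + b * dt (w - z) y := by
        have hb' : b = 1 - a := by linarith
        subst hb'
        simp only [dt, Prod.fst_sub, Prod.snd_sub, Prod.fst_add, Prod.snd_add, Prod.smul_fst,
          Prod.smul_snd, smul_eq_mul]
        ring
      rw [e]
      nlinarith
    exact convexHull_min (fun s hs => h s hs) hc hx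

/-- bounded part -/
theorem up_lt_top {F : ℝ × ℝ → ℝ} {k : ℝ} (hk : 0 < k)
    (hg : ∀ x : ℝ × ℝ, k * (1 + |x.1| + |x.2|) ≤ F x) : volume (up F) < ⊤ := by
  have hsub : up F ⊆ Icc (-k⁻¹) k⁻¹ ×ˢ (Icc (-k⁻¹) k⁻¹ ×ˢ Icc (-k⁻¹) k⁻¹) := by
    intro y hy
    obtain ⟨h0, h1⟩ := hy
    have h2 := hg (y.2.2⁻¹ * y.1, y.2.2⁻¹ * y.2.1)
    simp only at h2
    have h3 := mul_le_mul_of_nonneg_left h2 h0.le
    have h4 : y.2.2 * (k * (1 + |y.2.2⁻¹ * y.1| + |y.2.2⁻¹ * y.2.1|)) =
        k * (y.2.2 + |y.1| + |y.2.1|) := by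
      rw [abs_mul, abs_mul, abs_of_pos (inv_pos.2 h0)]
      field_simp
    rw [h4] at h3
    have h5 : y.2.2 + |y.1| + |y.2.1| ≤ k⁻¹ := by
      rw [← one_div, le_div_iff₀ hk, mul_comm]
      exact h3.trans h1
    have a1 := abs_nonneg y.1
    have a2 := abs_nonneg y.2.1
    refine ⟨abs_le.1 (by linarith), abs_le.1 (by linarith), abs_le.1 ?_⟩
    rw [abs_of_pos h0]
    linarith
  refine lt_of_le_of_lt (measure_mono hsub) ?_
  have hcomp : IsCompact (Icc (-k⁻¹) k⁻¹ ×ˢ (Icc (-k⁻¹) k⁻¹ ×ˢ Icc (-k⁻¹) k⁻¹) : Set E) :=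
    isCompact_Icc.prod (isCompact_Icc.prod isCompact_Icc)
  exact hcomp.measure_lt_top

/-- reflection -/
def rf (y : E) : E := (y.1, y.2.1, -y.2.2)

theorem rf_mp : MeasurePreserving rf (volume : Measure E) volume := by
  have h1 : MeasurePreserving (Neg.neg : ℝ → ℝ) volume volume :=
    Measure.measurePreserving_neg volume
  exact (MeasurePreserving.id volume).prod ((MeasurePreserving.id volume).prod h1)

theorem real_up {F : ℝ × ℝ → ℝ} (hF : Measurable F) (hpos : ∀ x, 0 < F x) :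
    (volume (up F)).toReal = Ic F / 3 := by
  rw [vol_up hF hpos, Ic, ← integral_div, integral_eq_lintegral_of_nonneg_ae]
  · exact Filter.Eventually.of_forall fun x => by
      have := inv_nonneg.2 (hpos x).le
      positivity
  · exact ((hF.inv.pow_const 3).div_const 3).aestronglyMeasurable

theorem cont_of_convex {F : ℝ × ℝ → ℝ} (h : ConvexOn ℝ univ F) : Continuous F := by
  rw [← continuousOn_univ]
  exact ConvexOn.continuousOn isOpen_univ h

end A3b

open A3b in
/-- A3b: the volume of the polar of a polytope as two planar integrals -/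
theorem t_vlp (h : S_fpm) : S_vlp := by
  intro S ζ hz
  have hne : S.Nonempty := by
    rw [Finset.nonempty_iff_ne_empty]
    intro he
    rw [he] at hz
    have : hl (∅ : Finset E) = ∅ := by simp [hl]
    rw [this, interior_empty] at hz
    exact hz
  obtain ⟨k, hk, hgF, hgM⟩ := h.growth hz
  have hb : ∀ x : ℝ × ℝ, 0 < k * (1 + |x.1| + |x.2|) := by
    intro x
    have := abs_nonneg x.1
    have := abs_nonneg x.2
    positivity
  set F : ℝ × ℝ → ℝ := fun x => fp S x - ζ with hFd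
  set M : ℝ × ℝ → ℝ := fun x => fm S x + ζ with hMd
  have hFpos : ∀ x, 0 < F x := fun x => (hb x).trans_le (hgF x)
  have hMpos : ∀ x, 0 < M x := fun x => (hb x).trans_le (hgM x)
  have hFm : Measurable F := ((cont_of_convex (h.fp_convex hne)).sub continuous_const).measurable
  have hMm : Measurable M := ((cont_of_convex (h.fm_convex hne)).add continuous_const).measurable
  -- decomposition of the polar
  have hU : polz (hl S) (0, 0, ζ) ∩ {y | 0 < y.2.2} = up F := by
    ext y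
    simp only [mem_inter_iff, mem_pol, mem_ofPred_eq, up]
    constructor
    · rintro ⟨h1, h2⟩
      refine ⟨h2, ?_⟩
      obtain ⟨s, hs, he⟩ := h.fp_mem hne (y.2.2⁻¹ * y.1, y.2.2⁻¹ * y.2.1)
      have h3 := h1 s hs
      simp only [hFd]
      rw [← he]
      have e : y.2.2 * (y.2.2⁻¹ * y.1 * s.1 + y.2.2⁻¹ * y.2.1 * s.2.1 + s.2.2 - ζ) =
          dt (s - (0, 0, ζ)) y := by
        simp only [dt, Prod.fst_sub, Prod.snd_sub]
        field_simp
        ring
      rw [e]
      exact h3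
    · rintro ⟨h2, h3⟩
      refine ⟨fun s hs => ?_, h2⟩
      have h4 := h.fp_le (y.2.2⁻¹ * y.1, y.2.2⁻¹ * y.2.1) hs
      have e : dt (s - (0, 0, ζ)) y =
          y.2.2 * (y.2.2⁻¹ * y.1 * s.1 + y.2.2⁻¹ * y.2.1 * s.2.1 + s.2.2 - ζ) := by
        simp only [dt, Prod.fst_sub, Prod.snd_sub]
        field_simp
        ring
      rw [e]
      refine le_trans (mul_le_mul_of_nonneg_left ?_ h2.le) h3
      simp only [hFd]
      linarith
  have hD : polz (hl S) (0, 0, ζ) ∩ {y | y.2.2 < 0} = rf ⁻¹' (up M) := by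
    ext y
    simp only [mem_inter_iff, mem_pol, mem_ofPred_eq, up, mem_preimage, rf, neg_pos]
    constructor
    · rintro ⟨h1, h2⟩
      refine ⟨h2, ?_⟩
      obtain ⟨s, hs, he⟩ := h.fm_mem hne ((-y.2.2)⁻¹ * y.1, (-y.2.2)⁻¹ * y.2.1)
      have h3 := h1 s hs
      simp only [hMd]
      rw [← he]
      have hy : y.2.2 ≠ 0 := h2.ne
      have e : -y.2.2 * ((-y.2.2)⁻¹ * y.1 * s.1 + (-y.2.2)⁻¹ * y.2.1 * s.2.1 - s.2.2 + ζ) =
          dt (s - (0, 0, ζ)) y := by
        simp only [dt, Prod.fst_sub, Prod.snd_sub]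
        field_simp
        ring
      rw [e]
      exact h3
    · rintro ⟨h2, h3⟩
      refine ⟨fun s hs => ?_, h2⟩
      have h4 := h.fm_le ((-y.2.2)⁻¹ * y.1, (-y.2.2)⁻¹ * y.2.1) hs
      have hy : y.2.2 ≠ 0 := h2.ne
      have e : dt (s - (0, 0, ζ)) y =
          -y.2.2 * ((-y.2.2)⁻¹ * y.1 * s.1 + (-y.2.2)⁻¹ * y.2.1 * s.2.1 - s.2.2 + ζ) := by
        simp only [dt, Prod.fst_sub, Prod.snd_sub]
        field_simp
        ring
      rw [e]
      refine le_trans (mul_le_mul_of_nonneg_left ?_ (neg_pos.2 h2).le) h3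
      simp only [hMd]
      linarith
  have hN : volume {y : E | y.2.2 = 0} = 0 := by
    have e : {y : E | y.2.2 = 0} = univ ×ˢ (univ ×ˢ {(0 : ℝ)}) := by
      ext y; simp
    rw [e, Measure.volume_eq_prod, Measure.prod_prod, Measure.volume_eq_prod, Measure.prod_prod]
    simp
  have hmU := meas_up hFm
  have hmD : MeasurableSet (rf ⁻¹' (up M)) := rf_mp.measurable (meas_up hMm)
  have hvU : volume (up F) < ⊤ := up_lt_top hk hgF
  have hvD : volume (rf ⁻¹' (up M)) = volume (up M) :=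
    rf_mp.measure_preimage (meas_up hMm).nullMeasurableSet
  have hvD' : volume (up M) < ⊤ := up_lt_top hk hgM
  have hP : volume (polz (hl S) (0, 0, ζ)) = volume (up F) + volume (up M) := by
    have hdis : Disjoint (up F) (rf ⁻¹' (up M)) := by
      rw [← hU, ← hD, Set.disjoint_left]
      rintro y ⟨_, h1⟩ ⟨_, h2⟩
      exact lt_asymm (show 0 < y.2.2 from h1) (show y.2.2 < 0 from h2)
    have h1 : volume (up F ∪ rf ⁻¹' (up M)) = volume (up F) + volume (up M) := by
      rw [measure_union hdis hmD, hvD]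
    rw [← h1]
    apply le_antisymm
    · have hsub : polz (hl S) (0, 0, ζ) ⊆ (up F ∪ rf ⁻¹' (up M)) ∪ {y : E | y.2.2 = 0} := by
        intro y hy
        rcases lt_trichotomy y.2.2 0 with h2 | h2 | h2
        · exact Or.inl (Or.inr (hD ▸ ⟨hy, h2⟩))
        · exact Or.inr h2
        · exact Or.inl (Or.inl (hU ▸ ⟨hy, h2⟩))
      refine (measure_mono hsub).trans ((measure_union_le _ _).trans ?_)
      rw [hN, add_zero]
    · apply measure_mono
      rw [← hU, ← hD]
      exact union_subset inter_subset_left inter_subset_left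
  rw [vl, hP, ENNReal.toReal_add hvU.ne hvD'.ne, real_up hFm hFpos, real_up hMm hMpos]
  ring

end H293M
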