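import Pool.Agent.H293R2.M3.Spec

set_option autoImplicit false

open MeasureTheory Set

namespace H293M

namespace A5

/-- a linear functional is maximal at a vertex -/
theorem exists_vertex {S : Finset E} {x : E} (hx : x ∈ hl S) (w : E) :
    ∃ s ∈ S, dt w x ≤ dt w s := by
  by_contra hcon
  push Not at hcon
  have hc : Convex ℝ {y : E | dt w y < dt w x} := by
    intro u hu v hv a b ha hb hab
    simp only [mem_ofPred_eq] at hu hv ⊢
    have e : dt w (a • u + b • v) = a * dt w u + b * dt w v := by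
      simp only [dt, Prod.fst_add, Prod.snd_add, Prod.smul_fst, Prod.smul_snd, smul_eq_mul]
      ring
    rw [e]
    rcases ha.lt_or_eq with ha' | ha'
    · have h1 := mul_lt_mul_of_pos_left hu ha'
      have h2 := mul_le_mul_of_nonneg_left hv.le hb
      have h3 : a * dt w x + b * dt w x = dt w x := by rw [← add_mul, hab, one_mul]
      linarith
    · have hb1 : b = 1 := by linarith
      rw [← ha', hb1]
      linarith
  have h1 : hl S ⊆ {y : E | dt w y < dt w x} := convexHull_min (fun s hs => hcon s hs) hc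
  exact lt_irrefl (dt w x) (show dt w x < dt w x from h1 hx)

/-- the horizontal directions -/
theorem exists_radius {S : Finset E} (h0 : (0 : E) ∈ interior (hl S)) :
    ∃ r : ℝ, 0 < r ∧ ∀ a b : ℝ, ∃ s ∈ S, r * (|a| + |b|) ≤ a * s.1 + b * s.2.1 := by
  rw [mem_interior_iff_mem_nhds, Metric.nhds_basis_closedBall.mem_iff] at h0
  obtain ⟨r, hr, hsub⟩ := h0
  refine ⟨r, hr, fun a b => ?_⟩
  have hs : ∀ c : ℝ, ∃ d : ℝ, |d| ≤ r ∧ c * d = r * |c| := by
    intro c
    rcases le_or_gt 0 c with hc | hc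
    · exact ⟨r, by rw [abs_of_pos hr], by rw [abs_of_nonneg hc]; ring⟩
    · exact ⟨-r, by rw [abs_neg, abs_of_pos hr], by rw [abs_of_neg hc]; ring⟩
  obtain ⟨d1, hd1, e1⟩ := hs a
  obtain ⟨d2, hd2, e2⟩ := hs b
  have hmem : ((d1, d2, 0) : E) ∈ hl S := by
    apply hsub
    rw [mem_closedBall_zero_iff, Prod.norm_def, Prod.norm_def]
    simp only [Real.norm_eq_abs, abs_zero]
    exact max_le hd1 (max_le hd2 hr.le)
  obtain ⟨s, hs, h1⟩ := exists_vertex hmem (a, b, 0)
  refine ⟨s, hs, ?_⟩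
  simp only [dt] at h1
  have e3 : a * d1 + b * d2 + 0 * 0 = r * (|a| + |b|) := by rw [e1, e2]; ring
  rw [e3] at h1
  linarith

theorem mem_SM {S : Finset E} {β : E → ℝ} {s : E} (hs : s ∈ S) : mv β s ∈ SM S β := by
  classical
  unfold SM
  exact Finset.mem_image_of_mem _ hs

theorem of_SM {S : Finset E} {β : E → ℝ} {t : E} (ht : t ∈ SM S β) : ∃ s ∈ S, mv β s = t := by
  classical
  unfold SM at ht
  exact Finset.mem_image.1 ht

theorem exists_min {F : ℝ × ℝ → ℝ} (hc : ConvexOn ℝ univ F)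
    (hco : ∃ c C : ℝ, 0 < c ∧ ∀ x : ℝ × ℝ, c * (|x.1| + |x.2|) - C ≤ F x) :
    ∃ x, ∀ y, F x ≤ F y := by
  have hcont : Continuous F := by
    rw [← continuousOn_univ]
    exact ConvexOn.continuousOn isOpen_univ hc
  obtain ⟨c, C, hc0, hco⟩ := hco
  apply hcont.exists_forall_le
  have h1 : Filter.Tendsto (fun x : ℝ × ℝ => c * ‖x‖ - C) (Filter.cocompact (ℝ × ℝ))
      Filter.atTop := by
    apply Filter.tendsto_atTop_add_const_right
    exact (tendsto_norm_cocompact_atTop).const_mul_atTop hc0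
  refine Filter.tendsto_atTop_mono (fun x => ?_) h1
  refine le_trans ?_ (hco x)
  have h2 : ‖x‖ ≤ |x.1| + |x.2| := by
    rw [Prod.norm_def]
    simp only [Real.norm_eq_abs]
    exact max_le (by linarith [abs_nonneg x.2]) (by linarith [abs_nonneg x.1])
  have h3 := mul_le_mul_of_nonneg_left h2 hc0.le
  linarith

/-- a nonempty interior is not contained in a non-vertical plane -/
theorem not_plane {K : Set E} (hK : (interior K).Nonempty) (a b p : ℝ)
    (h : ∀ y ∈ K, a * y.1 + b * y.2.1 + y.2.2 = p) : False := by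
  obtain ⟨c, hc⟩ := hK
  have hcK := interior_subset hc
  rw [mem_interior_iff_mem_nhds, Metric.nhds_basis_closedBall.mem_iff] at hc
  obtain ⟨r, hr, hsub⟩ := hc
  have hmem : ((c.1, c.2.1, c.2.2 + r) : E) ∈ K := by
    apply hsub
    rw [mem_closedBall_iff_norm, Prod.norm_def, Prod.norm_def]
    simp [abs_of_pos hr, hr.le]
  have h1 := h _ hcK
  have h2 := h _ hmem
  simp only at h2
  linarith

/-- separation -/
theorem separate {K : Set E} (hK : Convex ℝ K) (hi : (interior K).Nonempty) {z : E}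
    (hz : z ∉ interior K) : ∃ w : E, w ≠ 0 ∧ ∀ y ∈ K, dt w y ≤ dt w z := by
  obtain ⟨f, hf⟩ := geometric_hahn_banach_open_point hK.interior isOpen_interior hz
  have hfd : ∀ y : E, f y = dt (f (1, 0, 0), f (0, 1, 0), f (0, 0, 1)) y := by
    intro y
    have e : y = y.1 • ((1, 0, 0) : E) + y.2.1 • ((0, 1, 0) : E) + y.2.2 • ((0, 0, 1) : E) := by
      ext <;> simp
    conv_lhs => rw [e]
    rw [map_add, map_add, map_smul, map_smul, map_smul]
    simp only [dt, smul_eq_mul]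
    ring
  refine ⟨(f (1, 0, 0), f (0, 1, 0), f (0, 0, 1)), ?_, ?_⟩
  · intro h0
    obtain ⟨c, hc⟩ := hi
    have h1 := hf c hc
    rw [hfd c, hfd z, h0] at h1
    simp [dt] at h1
  · intro y hy
    rw [← hfd, ← hfd]
    have h1 : y ∈ closure (interior K) := by
      rw [hK.closure_interior_eq_closure_of_nonempty_interior hi]
      exact subset_closure hy
    have h2 : closure (interior K) ⊆ {x : E | f x ≤ f z} :=
      closure_minimal (fun a ha => (hf a ha).le) (isClosed_le f.continuous continuous_const)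
    exact h2 h1

end A5

open A5 in
/-- A5: the vertical axis in the moved polytope -/
theorem t_axis (h : S_fpm) : S_axis := by
  intro S β h0 hi
  obtain ⟨r, hr, hrad⟩ := exists_radius h0
  set T := SM S β with hT
  have hne : T.Nonempty := by
    obtain ⟨s, hs, _⟩ := hrad 0 0
    exact ⟨_, mem_SM hs⟩
  -- bounds
  obtain ⟨B, hB⟩ : ∃ B : ℝ, ∀ t ∈ T, |t.2.2| ≤ B :=
    ⟨∑ t ∈ T, |t.2.2|, fun t ht =>
      Finset.single_le_sum (f := fun t : E => |t.2.2|) (fun _ _ => abs_nonneg _) ht⟩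
  obtain ⟨L, hL0, hL⟩ : ∃ L : ℝ, 0 < L ∧ ∀ t ∈ T, |t.1| ≤ L ∧ |t.2.1| ≤ L := by
    refine ⟨1 + ∑ t ∈ T, (|t.1| + |t.2.1|), ?_, fun t ht => ?_⟩
    · have : 0 ≤ ∑ t ∈ T, (|t.1| + |t.2.1|) :=
        Finset.sum_nonneg fun t _ => add_nonneg (abs_nonneg _) (abs_nonneg _)
      linarith
    · have h1 := Finset.single_le_sum (f := fun t : E => |t.1| + |t.2.1|)
        (fun _ _ => add_nonneg (abs_nonneg _) (abs_nonneg _)) ht
      have h2 := abs_nonneg t.1
      have h3 := abs_nonneg t.2.1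
      constructor <;> linarith
  -- coercivity
  have hcoF : ∀ x : ℝ × ℝ, r * (|x.1| + |x.2|) - B ≤ fp T x := by
    intro x
    obtain ⟨s, hs, h1⟩ := hrad x.1 x.2
    have h2 := h.fp_le x (mem_SM (β := β) hs)
    have h3 := (abs_le.1 (hB _ (mem_SM (β := β) hs))).1
    simp only [mv] at h2 h3
    linarith
  have hcoM : ∀ x : ℝ × ℝ, r * (|x.1| + |x.2|) - B ≤ fm T x := by
    intro x
    obtain ⟨s, hs, h1⟩ := hrad x.1 x.2
    have h2 := h.fm_le x (mem_SM (β := β) hs)
    have h3 := (abs_le.1 (hB _ (mem_SM (β := β) hs))).2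
    simp only [mv] at h2 h3
    linarith
  have hmul : ∀ t ∈ T, ∀ x y : ℝ × ℝ, (x.1 - y.1) * t.1 + (x.2 - y.2) * t.2.1 ≤
      L * (|x.1 - y.1| + |x.2 - y.2|) := by
    intro t ht x y
    obtain ⟨h1, h2⟩ := hL t ht
    have h3 : (x.1 - y.1) * t.1 ≤ |x.1 - y.1| * L := by
      refine (le_abs_self _).trans ?_
      rw [abs_mul]
      exact mul_le_mul_of_nonneg_left h1 (abs_nonneg _)
    have h4 : (x.2 - y.2) * t.2.1 ≤ |x.2 - y.2| * L := by
      refine (le_abs_self _).trans ?_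
      rw [abs_mul]
      exact mul_le_mul_of_nonneg_left h2 (abs_nonneg _)
    linarith
  have hliF : ∀ x y : ℝ × ℝ, fp T x ≤ fp T y + L * (|x.1 - y.1| + |x.2 - y.2|) := by
    intro x y
    obtain ⟨t, ht, h1⟩ := h.fp_mem hne x
    have h2 := h.fp_le y ht
    have h3 := hmul t ht x y
    have e : x.1 * t.1 + x.2 * t.2.1 + t.2.2 =
        (y.1 * t.1 + y.2 * t.2.1 + t.2.2) + ((x.1 - y.1) * t.1 + (x.2 - y.2) * t.2.1) := by ring
    rw [← h1, e]
    linarith
  have hliM : ∀ x y : ℝ × ℝ, fm T x ≤ fm T y + L * (|x.1 - y.1| + |x.2 - y.2|) := by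
    intro x y
    obtain ⟨t, ht, h1⟩ := h.fm_mem hne x
    have h2 := h.fm_le y ht
    have h3 := hmul t ht x y
    have e : x.1 * t.1 + x.2 * t.2.1 - t.2.2 =
        (y.1 * t.1 + y.2 * t.2.1 - t.2.2) + ((x.1 - y.1) * t.1 + (x.2 - y.2) * t.2.1) := by ring
    rw [← h1, e]
    linarith
  obtain ⟨x0, hx0⟩ := exists_min (h.fp_convex hne) ⟨r, B, hr, hcoF⟩
  obtain ⟨x1, hx1⟩ := exists_min (h.fm_convex hne) ⟨r, B, hr, hcoM⟩
  refine ⟨fp T x0, fm T x1, ?_, ⟨h.fp_convex hne, ⟨r, B, hr, hcoF⟩, ⟨L, hL0, hliF⟩, hx0,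
    ⟨x0, rfl⟩⟩, ⟨h.fm_convex hne, ⟨r, B, hr, hcoM⟩, ⟨L, hL0, hliM⟩, hx1, ⟨x1, rfl⟩⟩, ?_⟩
  · by_contra hcon
    push Not at hcon
    obtain ⟨s, hs, h1⟩ := hrad (x0.1 + x1.1) (x0.2 + x1.2)
    have h2 := h.fp_le x0 (mem_SM (β := β) hs)
    have h3 := h.fm_le x1 (mem_SM (β := β) hs)
    simp only [mv] at h2 h3
    have a1 := abs_nonneg (x0.1 + x1.1)
    have a2 := abs_nonneg (x0.2 + x1.2)
    have h4 : r * (|x0.1 + x1.1| + |x0.2 + x1.2|) ≤ 0 := by
      have e : (x0.1 + x1.1) * s.1 + (x0.2 + x1.2) * s.2.1 =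
          (x0.1 * s.1 + x0.2 * s.2.1 + (s.2.2 + β s)) +
            (x1.1 * s.1 + x1.2 * s.2.1 - (s.2.2 + β s)) := by ring
      rw [e] at h1
      linarith
    have h5 : |x0.1 + x1.1| + |x0.2 + x1.2| ≤ 0 := by
      by_contra h6
      push Not at h6
      have := mul_pos hr h6
      linarith
    have b1 : x0.1 + x1.1 = 0 := abs_eq_zero.1 (by linarith)
    have b2 : x0.2 + x1.2 = 0 := abs_eq_zero.1 (by linarith)
    have hpm : fp T x0 + fm T x1 = 0 := by
      apply le_antisymm hcon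
      have h6 : 0 ≤ r * (|x0.1 + x1.1| + |x0.2 + x1.2|) := by positivity
      have e : (x0.1 + x1.1) * s.1 + (x0.2 + x1.2) * s.2.1 =
          (x0.1 * s.1 + x0.2 * s.2.1 + (s.2.2 + β s)) +
            (x1.1 * s.1 + x1.2 * s.2.1 - (s.2.2 + β s)) := by ring
      rw [e] at h1
      linarith
    have hpl : ∀ t ∈ T, x0.1 * t.1 + x0.2 * t.2.1 + t.2.2 = fp T x0 := by
      intro t ht
      have c1 := h.fp_le x0 ht
      have c2 := h.fm_le x1 ht
      have d1 : x1.1 = -x0.1 := by linarith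
      have d2 : x1.2 = -x0.2 := by linarith
      rw [d1, d2] at c2
      apply le_antisymm c1
      linarith
    refine not_plane hi x0.1 x0.2 (fp T x0) ?_
    have hc : Convex ℝ {y : E | x0.1 * y.1 + x0.2 * y.2.1 + y.2.2 = fp T x0} := by
      intro u hu v hv a b ha hb hab
      simp only [mem_ofPred_eq] at hu hv ⊢
      have e : x0.1 * (a • u + b • v).1 + x0.2 * (a • u + b • v).2.1 + (a • u + b • v).2.2 =
          a * (x0.1 * u.1 + x0.2 * u.2.1 + u.2.2) + b * (x0.1 * v.1 + x0.2 * v.2.1 + v.2.2) := by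
        simp only [Prod.fst_add, Prod.snd_add, Prod.smul_fst, Prod.smul_snd, smul_eq_mul]
        ring
      rw [e, hu, hv, ← add_mul, hab, one_mul]
    exact convexHull_min (fun t ht => hpl t ht) hc
  · intro ζ hζ1 hζ2
    by_contra hz
    obtain ⟨w, hw0, hw⟩ := separate (convex_convexHull ℝ _) hi hz
    have hwT : ∀ t ∈ T, w.1 * t.1 + w.2.1 * t.2.1 + w.2.2 * t.2.2 ≤ w.2.2 * ζ := by
      intro t ht
      have h1 := hw t (subset_convexHull ℝ _ ht)
      simp only [dt, mul_zero, zero_add] at h1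
      exact h1
    rcases lt_trichotomy w.2.2 0 with hw3 | hw3 | hw3
    · obtain ⟨t, ht, h1⟩ := h.fm_mem hne (w.1 / -w.2.2, w.2.1 / -w.2.2)
      have h2 := hx1 (w.1 / -w.2.2, w.2.1 / -w.2.2)
      have h3 := hwT t ht
      have hv : 0 < -w.2.2 := neg_pos.2 hw3
      have e : w.1 / -w.2.2 * t.1 + w.2.1 / -w.2.2 * t.2.1 - t.2.2 =
          (w.1 * t.1 + w.2.1 * t.2.1 + w.2.2 * t.2.2) / -w.2.2 := by
        have hne0 : w.2.2 ≠ 0 := hw3.ne
        field_simp
        ring
      simp only at h1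
      rw [e] at h1
      have h4 : (w.1 * t.1 + w.2.1 * t.2.1 + w.2.2 * t.2.2) / -w.2.2 ≤ -ζ := by
        rw [div_le_iff₀ hv]
        linarith
      rw [h1] at h4
      linarith
    · obtain ⟨s, hs, h1⟩ := hrad w.1 w.2.1
      have h2 := hwT _ (mem_SM (β := β) hs)
      simp only [mv, hw3, zero_mul, add_zero] at h2
      have a1 := abs_nonneg w.1
      have a2 := abs_nonneg w.2.1
      have h5 : |w.1| + |w.2.1| ≤ 0 := by
        by_contra h6
        push Not at h6
        have := mul_pos hr h6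
        linarith
      apply hw0
      ext
      · exact abs_eq_zero.1 (by linarith)
      · exact abs_eq_zero.1 (by linarith)
      · exact hw3
    · obtain ⟨t, ht, h1⟩ := h.fp_mem hne (w.1 / w.2.2, w.2.1 / w.2.2)
      have h2 := hx0 (w.1 / w.2.2, w.2.1 / w.2.2)
      have h3 := hwT t ht
      have e : w.1 / w.2.2 * t.1 + w.2.1 / w.2.2 * t.2.1 + t.2.2 =
          (w.1 * t.1 + w.2.1 * t.2.1 + w.2.2 * t.2.2) / w.2.2 := by
        have := hw3.ne'
        field_simp
      simp only at h1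
      rw [e] at h1
      have h4 : (w.1 * t.1 + w.2.1 * t.2.1 + w.2.2 * t.2.2) / w.2.2 ≤ ζ := by
        rw [div_le_iff₀ hw3]
        linarith
      rw [h1] at h4
      linarith

end H293M
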