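import Pool.Agent.H293R2.M3.Spec

set_option autoImplicit false

open MeasureTheory Set

namespace H293M

namespace A6

open Filter Topology

/-- abstract properties of `ζ ↦ Ic (F - ζ)` -/
structure Bl (g : ℝ → ℝ) (f : ℝ) : Prop where
  pos : ∀ ζ, ζ < f → 0 < g ζ
  mono : ∀ ζ ζ', ζ ≤ ζ' → ζ' < f → g ζ ≤ g ζ'
  cont : ∀ ζ, ζ < f → ContinuousAt g ζ
  blow : ∃ κ : ℝ, 0 < κ ∧ ∀ ζ, ζ < f → κ / (f - ζ) ≤ g ζ

theorem coer {F : ℝ × ℝ → ℝ} {f : ℝ} (hF : Good F f) {ζ : ℝ} (hζ : ζ < f) :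
    ∃ k : ℝ, 0 < k ∧ ∀ x : ℝ × ℝ, k * (1 + |x.1| + |x.2|) ≤ F x - ζ := by
  obtain ⟨c, C, hc, hco⟩ := hF.co
  set A : ℝ := C + ζ with hA
  set N : ℝ := 2 * (|A| + 1) / c with hN
  have hN0 : 0 < N := by positivity
  have hcN : c * N = 2 * (|A| + 1) := by rw [hN]; field_simp
  set k : ℝ := min ((f - ζ) / (1 + N)) (min (c / 2) 1) with hk
  have ha : 0 < f - ζ := by linarith
  have hk0 : 0 < k := by
    rw [hk]
    exact lt_min (by positivity) (lt_min (by positivity) one_pos)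
  have hk1 : k ≤ (f - ζ) / (1 + N) := min_le_left _ _
  have hk2 : k ≤ c / 2 := (min_le_right _ _).trans (min_le_left _ _)
  have hk3 : k ≤ 1 := (min_le_right _ _).trans (min_le_right _ _)
  refine ⟨k, hk0, fun x => ?_⟩
  set n : ℝ := |x.1| + |x.2| with hn
  have hn0 : 0 ≤ n := by positivity
  have e1 : k * (1 + |x.1| + |x.2|) = k * (1 + n) := by rw [hn]; ring
  rw [e1]
  rcases le_or_gt n N with h | h
  · calc k * (1 + n) ≤ (f - ζ) / (1 + N) * (1 + N) := by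
          apply mul_le_mul hk1 (by linarith) (by positivity) (by positivity)
      _ = f - ζ := by field_simp
      _ ≤ F x - ζ := by linarith [hF.ge x]
  · have h1 := hco x
    have h2 : |A| + 1 ≤ c * n / 2 := by nlinarith
    have h3 : A ≤ |A| := le_abs_self A
    have h4 : k * n ≤ c / 2 * n := mul_le_mul_of_nonneg_right hk2 hn0
    have h5 : c * n - C ≤ F x := h1
    have h6 : k * (1 + n) = k + k * n := by ring
    rw [h6]
    have h7 : A = C + ζ := hA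
    linarith

theorem cvx {F : ℝ × ℝ → ℝ} {f : ℝ} (hF : Good F f) (ζ : ℝ) :
    ConvexOn ℝ univ (fun x => F x - ζ) := by
  have h1 := hF.cx.add_const (-ζ)
  have h2 : (F + fun _ => -ζ) = fun x => F x - ζ := by
    funext x
    simp [sub_eq_add_neg]
  rw [h2] at h1
  exact h1

theorem intg (h : S_Ic) {F : ℝ × ℝ → ℝ} {f : ℝ} (hF : Good F f) {ζ : ℝ} (hζ : ζ < f) :
    Integrable (fun x => ((F x - ζ)⁻¹) ^ 3) ∧ 0 < Ic (fun x => F x - ζ) := by
  obtain ⟨k, hk, hk2⟩ := coer hF hζ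
  exact h (cvx hF ζ) hk hk2

theorem ptw {F : ℝ × ℝ → ℝ} {f : ℝ} (hF : Good F f) {ζ ζ' : ℝ} (h1 : ζ ≤ ζ') (h2 : ζ' < f)
    (x : ℝ × ℝ) : 0 ≤ ((F x - ζ)⁻¹) ^ 3 ∧ ((F x - ζ)⁻¹) ^ 3 ≤ ((F x - ζ')⁻¹) ^ 3 := by
  have h3 := hF.ge x
  have h4 : 0 < F x - ζ' := by linarith
  have h5 : 0 < F x - ζ := by linarith
  refine ⟨by positivity, ?_⟩
  apply pow_le_pow_left₀ (by positivity)
  exact inv_anti₀ h4 (by linarith)

theorem bl (h : S_Ic) {F : ℝ × ℝ → ℝ} {f : ℝ} (hF : Good F f) :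
    Bl (fun ζ => Ic (fun x => F x - ζ)) f := by
  refine ⟨fun ζ hζ => (intg h hF hζ).2, fun ζ ζ' h1 h2 => ?_, fun ζ hζ => ?_, ?_⟩
  · exact integral_mono (intg h hF (lt_of_le_of_lt h1 h2)).1 (intg h hF h2).1
      (fun x => (ptw hF h1 h2 x).2)
  · -- continuity
    set ζ1 := (ζ + f) / 2 with hζ1
    have h1 : ζ < ζ1 := by rw [hζ1]; linarith
    have h2 : ζ1 < f := by rw [hζ1]; linarith
    have hev : ∀ᶠ z in 𝓝 ζ, z < ζ1 := gt_mem_nhds h1
    refine continuousAt_of_dominated (F := fun z x => ((F x - z)⁻¹) ^ 3)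
      (bound := fun x => ((F x - ζ1)⁻¹) ^ 3) ?_ ?_ (intg h hF h2).1 ?_
    · filter_upwards [hev] with z hz
      exact (intg h hF (hz.trans h2)).1.aestronglyMeasurable
    · filter_upwards [hev] with z hz
      refine Eventually.of_forall fun x => ?_
      rw [Real.norm_of_nonneg (ptw hF hz.le h2 x).1]
      exact (ptw hF hz.le h2 x).2
    · refine Eventually.of_forall fun x => ?_
      have h3 : F x - ζ ≠ 0 := by have := hF.ge x; intro h0; linarith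
      exact ((continuousAt_const.sub continuousAt_id).inv₀ h3).pow 3
  · -- blow up
    obtain ⟨L, hL, hli⟩ := hF.li
    obtain ⟨x0, hx0⟩ := hF.at'
    refine ⟨1 / (8 * L ^ 2), by positivity, fun ζ hζ => ?_⟩
    set a : ℝ := f - ζ with ha
    have ha0 : 0 < a := by rw [ha]; linarith
    set δ : ℝ := a / (2 * L) with hδ
    have hδ0 : 0 < δ := by positivity
    set Bx : Set (ℝ × ℝ) := Icc (x0.1 - δ) (x0.1 + δ) ×ˢ Icc (x0.2 - δ) (x0.2 + δ) with hBx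
    obtain ⟨hint, -⟩ := intg h hF hζ
    have hpt : ∀ x ∈ Bx, ((2 * a)⁻¹) ^ 3 ≤ ((F x - ζ)⁻¹) ^ 3 := by
      intro x hx
      obtain ⟨⟨h1, h2⟩, ⟨h3, h4⟩⟩ := hx
      have h5 : |x.1 - x0.1| ≤ δ := abs_le.2 ⟨by linarith, by linarith⟩
      have h6 : |x.2 - x0.2| ≤ δ := abs_le.2 ⟨by linarith, by linarith⟩
      have h7 := hli x x0
      rw [hx0] at h7
      have h8 : L * (|x.1 - x0.1| + |x.2 - x0.2|) ≤ L * (δ + δ) :=
        mul_le_mul_of_nonneg_left (add_le_add h5 h6) hL.le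
      have h9 : L * (δ + δ) = a := by rw [hδ]; field_simp; ring
      have h10 : 0 < F x - ζ := by have := hF.ge x; linarith
      apply pow_le_pow_left₀ (by positivity)
      apply inv_anti₀ h10
      linarith
    have hmeas : MeasurableSet Bx := measurableSet_Icc.prod measurableSet_Icc
    have hvol : volume Bx = ENNReal.ofReal ((2 * δ) * (2 * δ)) := by
      rw [hBx, Measure.volume_eq_prod, Measure.prod_prod, Real.volume_Icc, Real.volume_Icc,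
        ← ENNReal.ofReal_mul (by linarith)]
      congr 1
      ring
    have hfin : volume Bx ≠ ⊤ := by rw [hvol]; exact ENNReal.ofReal_ne_top
    have hreal : (volume : Measure (ℝ × ℝ)).real Bx = (2 * δ) * (2 * δ) := by
      rw [Measure.real, hvol, ENNReal.toReal_ofReal (by positivity)]
    have hb : ((2 * δ) * (2 * δ)) * ((2 * a)⁻¹) ^ 3 ≤ Ic (fun x => F x - ζ) := by
      calc ((2 * δ) * (2 * δ)) * ((2 * a)⁻¹) ^ 3 = ∫ _ in Bx, ((2 * a)⁻¹) ^ 3 := by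
            rw [setIntegral_const, hreal, smul_eq_mul]
        _ ≤ ∫ x in Bx, ((F x - ζ)⁻¹) ^ 3 :=
            setIntegral_mono_on (integrableOn_const hfin) hint.integrableOn hmeas hpt
        _ ≤ ∫ x, ((F x - ζ)⁻¹) ^ 3 :=
            setIntegral_le_integral hint (Eventually.of_forall fun x => (ptw hF le_rfl hζ x).1)
    refine le_trans (le_of_eq ?_) hb
    rw [hδ]
    field_simp
    ring

/-- one of two products becomes larger near the end -/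
theorem near {g1 g2 g3 g4 : ℝ → ℝ} {f1 f2 f3 f4 μ : ℝ} (h1 : Bl g1 f1) (h2 : Bl g2 f2)
    (h3 : Bl g3 f3) (h4 : Bl g4 f4) (h12 : f1 ≤ f2) (hμ1 : μ < f1) (hμ3 : -μ < f3)
    (hμ4 : -μ < f4) : ∃ ζ, μ < ζ ∧ ζ < f1 ∧ g3 (-ζ) * g4 (-ζ) < g1 ζ * g2 ζ := by
  obtain ⟨κ, hκ, hb⟩ := h1.blow
  set B : ℝ := g3 (-μ) * g4 (-μ) with hB
  have hB0 : 0 < B := mul_pos (h3.pos _ hμ3) (h4.pos _ hμ4)
  have hg2 : 0 < g2 μ := h2.pos _ (by linarith)
  set t : ℝ := min ((f1 - μ) / 2) (κ * g2 μ / (B + 1)) with ht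
  have ht0 : 0 < t := lt_min (by linarith) (by positivity)
  have ht1 : t ≤ (f1 - μ) / 2 := min_le_left _ _
  have ht2 : t ≤ κ * g2 μ / (B + 1) := min_le_right _ _
  refine ⟨f1 - t, by linarith, by linarith, ?_⟩
  have e1 : g3 (-(f1 - t)) ≤ g3 (-μ) := h3.mono _ _ (by linarith) hμ3
  have e2 : g4 (-(f1 - t)) ≤ g4 (-μ) := h4.mono _ _ (by linarith) hμ4
  have e3 : g3 (-(f1 - t)) * g4 (-(f1 - t)) ≤ B :=
    mul_le_mul e1 e2 (h4.pos _ (by linarith)).le (h3.pos _ hμ3).le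
  have e4 : κ / t ≤ g1 (f1 - t) := by
    have := hb (f1 - t) (by linarith)
    rwa [sub_sub_cancel] at this
  have e5 : g2 μ ≤ g2 (f1 - t) := h2.mono _ _ (by linarith) (by linarith)
  have e6 : κ / t * g2 μ ≤ g1 (f1 - t) * g2 (f1 - t) :=
    mul_le_mul e4 e5 hg2.le (h1.pos _ (by linarith)).le
  have e7 : B + 1 ≤ κ / t * g2 μ := by
    rw [le_div_iff₀ (by positivity)] at ht2
    rw [div_mul_eq_mul_div, le_div_iff₀ ht0]
    linarith
  linarith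

theorem near' {g1 g2 g3 g4 : ℝ → ℝ} {f1 f2 f3 f4 μ : ℝ} (h1 : Bl g1 f1) (h2 : Bl g2 f2)
    (h3 : Bl g3 f3) (h4 : Bl g4 f4) (hμ1 : μ < f1) (hμ2 : μ < f2) (hμ3 : -μ < f3)
    (hμ4 : -μ < f4) : ∃ ζ, μ < ζ ∧ ζ < f1 ∧ ζ < f2 ∧ g3 (-ζ) * g4 (-ζ) < g1 ζ * g2 ζ := by
  rcases le_total f1 f2 with h | h
  · obtain ⟨ζ, k1, k2, k3⟩ := near h1 h2 h3 h4 h hμ1 hμ3 hμ4
    exact ⟨ζ, k1, k2, by linarith, k3⟩
  · obtain ⟨ζ, k1, k2, k3⟩ := near h2 h1 h3 h4 h hμ2 hμ3 hμ4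
    exact ⟨ζ, k1, by linarith, k2, by rw [mul_comm (g1 ζ)]; exact k3⟩

end A6

theorem t_shift (h : S_Ic) : S_shift := by
  intro F0 M0 F1 M1 f0 m0 f1 m1 hF0 hM0 hF1 hM1 h1 h2 h3 h4
  have b1 := A6.bl h hF0
  have b2 := A6.bl h hM1
  have b3 := A6.bl h hF1
  have b4 := A6.bl h hM0
  set g1 : ℝ → ℝ := fun ζ => Ic (fun x => F0 x - ζ) with hg1
  set g2 : ℝ → ℝ := fun ζ => Ic (fun x => M1 x - ζ) with hg2
  set g3 : ℝ → ℝ := fun ζ => Ic (fun x => F1 x - ζ) with hg3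
  set g4 : ℝ → ℝ := fun ζ => Ic (fun x => M0 x - ζ) with hg4
  obtain ⟨μ, hμ1, hμ2⟩ : ∃ μ, max (-m0) (-f1) < μ ∧ μ < min f0 m1 :=
    exists_between (max_lt (lt_min (by linarith) (by linarith)) (lt_min (by linarith)
      (by linarith)))
  rw [max_lt_iff] at hμ1
  rw [lt_min_iff] at hμ2
  obtain ⟨ζb, k1, k2, k3, k4⟩ := A6.near' b1 b2 b3 b4 hμ2.1 hμ2.2 (by linarith) (by linarith)
  obtain ⟨ζa', l1, l2, l3, l4⟩ := A6.near' b3 b4 b1 b2 (μ := -μ) (by linarith) (by linarith)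
    (by linarith) (by linarith)
  have hcont : ContinuousOn (fun ζ => g1 ζ * g2 ζ - g3 (-ζ) * g4 (-ζ)) (Icc (-ζa') ζb) := by
    intro ζ hζ
    obtain ⟨hζ1, hζ2⟩ := hζ
    refine ContinuousAt.continuousWithinAt ?_
    refine ((b1.cont ζ (by linarith)).mul (b2.cont ζ (by linarith))).sub (ContinuousAt.mul ?_ ?_)
    · exact ContinuousAt.comp (f := fun ζ : ℝ => -ζ) (b3.cont (-ζ) (by linarith))
        continuous_neg.continuousAt
    · exact ContinuousAt.comp (f := fun ζ : ℝ => -ζ) (b4.cont (-ζ) (by linarith))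
        continuous_neg.continuousAt
  have hzero : (0 : ℝ) ∈ Icc (g1 (-ζa') * g2 (-ζa') - g3 (-(-ζa')) * g4 (-(-ζa')))
      (g1 ζb * g2 ζb - g3 (-ζb) * g4 (-ζb)) := by
    rw [neg_neg]
    exact ⟨by linarith, by linarith⟩
  obtain ⟨ζ, ⟨hζ1, hζ2⟩, hζ3⟩ := intermediate_value_Icc (by linarith) hcont hzero
  refine ⟨ζ, by linarith, by linarith, by linarith, by linarith, ?_⟩
  have e1 : Ic (fun x => M1 x + -ζ) = g2 ζ := by
    simp only [hg2, sub_eq_add_neg]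
  have e2 : Ic (fun x => M0 x + ζ) = g4 (-ζ) := by
    simp only [hg4, sub_neg_eq_add]
  rw [e1, e2]
  have e3 : g1 ζ * g2 ζ - g3 (-ζ) * g4 (-ζ) = 0 := hζ3
  have e4 : g1 ζ * g2 ζ = g3 (-ζ) * g4 (-ζ) := by linarith
  exact e4

end H293M
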