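import Pool.Agent.H293R2.M3.Spec

set_option autoImplicit false

open MeasureTheory Set

namespace H293M

namespace A7

/-- the numerical part -/
theorem num {A B C D X Y V V0 V1 c : ℝ} (hA : 0 < A) (hB : 0 < B) (hC : 0 < C) (hD : 0 < D)
    (hX : 0 < X) (hY : 0 < Y) (hc : 0 < c) (h : A * D = C * B)
    (hX' : X⁻¹ ≤ (A⁻¹ + C⁻¹) / 2) (hY' : Y⁻¹ ≤ (B⁻¹ + D⁻¹) / 2)
    (h0 : c ≤ V0 * ((A + B) / 3)) (h1 : c ≤ V1 * ((C + D) / 3)) (hV : (V0 + V1) / 2 ≤ V) :
    c ≤ V * ((X + Y) / 3) := by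
  have hXX : 2 * (A * C) ≤ X * (A + C) := by
    have h2 := mul_le_mul_of_nonneg_left hX' (by positivity : 0 ≤ X * A * C * 2)
    have e1 : X * A * C * 2 * X⁻¹ = 2 * (A * C) := by field_simp
    have e2 : X * A * C * 2 * ((A⁻¹ + C⁻¹) / 2) = X * (A + C) := by field_simp; ring
    rw [e1, e2] at h2
    exact h2
  have hYY : 2 * (B * D) ≤ Y * (B + D) := by
    have h2 := mul_le_mul_of_nonneg_left hY' (by positivity : 0 ≤ Y * B * D * 2)
    have e1 : Y * B * D * 2 * Y⁻¹ = 2 * (B * D) := by field_simp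
    have e2 : Y * B * D * 2 * ((B⁻¹ + D⁻¹) / 2) = Y * (B + D) := by field_simp; ring
    rw [e1, e2] at h2
    exact h2
  obtain ⟨T, hT⟩ : ∃ T, T = A + B := ⟨_, rfl⟩
  obtain ⟨T', hT'⟩ : ∃ T', T' = C + D := ⟨_, rfl⟩
  have hTp : 0 < T := by rw [hT]; positivity
  have hTp' : 0 < T' := by rw [hT']; positivity
  have e3 : A * T' = C * T := by rw [hT, hT']; linear_combination h
  have e4 : B * T' = D * T := by rw [hT, hT']; linear_combination -h
  have k1 : 2 * (A * T') ≤ X * (T + T') := by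
    have h3 : C * (2 * (A * T')) ≤ C * (X * (T + T')) := by
      have h4 := mul_le_mul_of_nonneg_right hXX hTp'.le
      have e5 : X * (A + C) * T' = C * (X * (T + T')) := by linear_combination X * e3
      rw [e5] at h4
      refine le_trans (le_of_eq ?_) h4
      ring
    exact le_of_mul_le_mul_left h3 hC
  have k2 : 2 * (B * T') ≤ Y * (T + T') := by
    have h3 : D * (2 * (B * T')) ≤ D * (Y * (T + T')) := by
      have h4 := mul_le_mul_of_nonneg_right hYY hTp'.le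
      have e5 : Y * (B + D) * T' = D * (Y * (T + T')) := by linear_combination Y * e4
      rw [e5] at h4
      refine le_trans (le_of_eq ?_) h4
      ring
    exact le_of_mul_le_mul_left h3 hD
  have k3 : 2 * (T * T') ≤ (X + Y) * (T + T') := by
    have : 2 * (T * T') = 2 * (A * T') + 2 * (B * T') := by rw [hT]; ring
    rw [this]; linarith
  rw [← hT] at h0
  rw [← hT'] at h1
  have h0' : 3 * c ≤ V0 * T := by linarith
  have h1' : 3 * c ≤ V1 * T' := by linarith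
  have hV0 : 0 < V0 := by
    by_contra hn
    push Not at hn
    have := mul_nonpos_of_nonpos_of_nonneg hn hTp.le
    linarith
  have hV1 : 0 < V1 := by
    by_contra hn
    push Not at hn
    have := mul_nonpos_of_nonpos_of_nonneg hn hTp'.le
    linarith
  have hVp : 0 < V := by linarith
  have k4 : 3 * c * (T + T') ≤ V * (2 * (T * T')) := by
    have h5 := mul_le_mul_of_nonneg_right hV (by positivity : 0 ≤ 2 * (T * T'))
    have h6 := mul_le_mul_of_nonneg_right h0' hTp'.le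
    have h7 := mul_le_mul_of_nonneg_right h1' hTp.le
    nlinarith
  have k5 : 3 * c * (T + T') ≤ V * (X + Y) * (T + T') := by
    have h8 := mul_le_mul_of_nonneg_left k3 hVp.le
    linarith
  have k6 : 3 * c ≤ V * (X + Y) := le_of_mul_le_mul_right k5 (by positivity)
  linarith

theorem nonempty_of {S : Finset E} {x : E} (h : x ∈ interior (hl S)) : S.Nonempty := by
  by_contra hS
  rw [Finset.not_nonempty_iff_eq_empty] at hS
  have := interior_subset h
  unfold hl at this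
  rw [hS, Finset.coe_empty, convexHull_empty] at this
  exact this

theorem cx_sub {f : ℝ × ℝ → ℝ} (hf : ConvexOn ℝ univ f) (ζ : ℝ) :
    ConvexOn ℝ univ (fun x => f x - ζ) := by
  have := hf.add_const (-ζ)
  simpa [sub_eq_add_neg, Pi.add_def] using this

theorem cx_add {f : ℝ × ℝ → ℝ} (hf : ConvexOn ℝ univ f) (ζ : ℝ) :
    ConvexOn ℝ univ (fun x => f x + ζ) := by
  have := hf.add_const ζ
  simpa [Pi.add_def] using this

end A7

open A7 in
theorem t_tool (h1 : S_Ic) (h2 : S_bbl2) (h3 : S_fpm) (h4 : S_vlp) (h5 : S_axis)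
    (h6 : S_shift) : S_tool := by
  intro S β hS0 hint hint' hvol c hc hp hm
  have hS : S.Nonempty := nonempty_of hS0
  have hSp : (SM S β).Nonempty := by unfold SM; exact hS.image _
  have hSm : (SM S fun s => -β s).Nonempty := by unfold SM; exact hS.image _
  have hS0' : ((0, 0, (0 : ℝ)) : E) ∈ interior (hl S) := hS0
  obtain ⟨p0, m0, hpm0, gp0, gm0, ax0⟩ := h5 hS0 hint
  obtain ⟨p1, m1, hpm1, gp1, gm1, ax1⟩ := h5 hS0 hint'
  obtain ⟨k0, hk0, g0p, g0m⟩ := h3.growth hS0'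
  have hpos : ∀ x : ℝ × ℝ, 0 < k0 * (1 + |x.1| + |x.2|) := fun x => by positivity
  have hp01 : 0 < p0 + p1 := by
    obtain ⟨x, hx⟩ := gp0.at'
    obtain ⟨y, hy⟩ := gp1.at'
    have e1 := h3.fp_mid hS β x y
    have e2 := g0p ((1 / 2 : ℝ) • (x + y))
    have e3 := hpos ((1 / 2 : ℝ) • (x + y))
    rw [hx, hy] at e1
    linarith
  have hm01 : 0 < m0 + m1 := by
    obtain ⟨x, hx⟩ := gm0.at'
    obtain ⟨y, hy⟩ := gm1.at'
    have e1 := h3.fm_mid hS β x y
    have e2 := g0m ((1 / 2 : ℝ) • (x + y))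
    have e3 := hpos ((1 / 2 : ℝ) • (x + y))
    rw [hx, hy] at e1
    linarith
  obtain ⟨ζ, z1, z2, z3, z4, hζ⟩ := h6 gp0 gm0 gp1 gm1 hpm0 hpm1 hp01 hm01
  have i0 := ax0 ζ z1 z2
  have i1 := ax1 (-ζ) z3 z4
  obtain ⟨k1, hk1, g1p, g1m⟩ := h3.growth i0
  obtain ⟨k2, hk2, g2p, g2m⟩ := h3.growth i1
  obtain ⟨k, hk⟩ : ∃ k, k = min k0 (min k1 k2) := ⟨_, rfl⟩
  have hkpos : 0 < k := by rw [hk]; exact lt_min hk0 (lt_min hk1 hk2)
  have l0 : k ≤ k0 := by rw [hk]; exact min_le_left _ _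
  have l1 : k ≤ k1 := by rw [hk]; exact (min_le_right _ _).trans (min_le_left _ _)
  have l2 : k ≤ k2 := by rw [hk]; exact (min_le_right _ _).trans (min_le_right _ _)
  have hn : ∀ x : ℝ × ℝ, 0 ≤ 1 + |x.1| + |x.2| := fun x => by positivity
  have G0p : ∀ x : ℝ × ℝ, k * (1 + |x.1| + |x.2|) ≤ fp S x - 0 := fun x =>
    (mul_le_mul_of_nonneg_right l0 (hn x)).trans (g0p x)
  have G0m : ∀ x : ℝ × ℝ, k * (1 + |x.1| + |x.2|) ≤ fm S x + 0 := fun x =>
    (mul_le_mul_of_nonneg_right l0 (hn x)).trans (g0m x)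
  have G1p : ∀ x : ℝ × ℝ, k * (1 + |x.1| + |x.2|) ≤ fp (SM S β) x - ζ := fun x =>
    (mul_le_mul_of_nonneg_right l1 (hn x)).trans (g1p x)
  have G1m : ∀ x : ℝ × ℝ, k * (1 + |x.1| + |x.2|) ≤ fm (SM S β) x + ζ := fun x =>
    (mul_le_mul_of_nonneg_right l1 (hn x)).trans (g1m x)
  have G2p : ∀ x : ℝ × ℝ, k * (1 + |x.1| + |x.2|) ≤ fp (SM S fun s => -β s) x - -ζ := fun x =>
    (mul_le_mul_of_nonneg_right l2 (hn x)).trans (g2p x)
  have G2m : ∀ x : ℝ × ℝ, k * (1 + |x.1| + |x.2|) ≤ fm (SM S fun s => -β s) x + -ζ := fun x =>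
    (mul_le_mul_of_nonneg_right l2 (hn x)).trans (g2m x)
  have c0p := cx_sub (h3.fp_convex hS) 0
  have c0m := cx_add (h3.fm_convex hS) 0
  have c1p := cx_sub (h3.fp_convex hSp) ζ
  have c1m := cx_add (h3.fm_convex hSp) ζ
  have c2p := cx_sub (h3.fp_convex hSm) (-ζ)
  have c2m := cx_add (h3.fm_convex hSm) (-ζ)
  have b1 := h2 c1p c2p c0p hkpos G1p G2p G0p (fun x y => by
    have := h3.fp_mid hS β x y
    linarith)
  have b2 := h2 c1m c2m c0m hkpos G1m G2m G0m (fun x y => by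
    have := h3.fm_mid hS β x y
    linarith)
  have hvS := h4 hS0'
  have hvp := h4 i0
  have hvm := h4 i1
  have hcp := hp _ i0
  have hcm := hm _ i1
  rw [hvp] at hcp
  rw [hvm] at hcm
  have hz : (polz (hl S) 0) = polz (hl S) ((0, 0, (0 : ℝ)) : E) := rfl
  rw [hz, hvS]
  exact num (h1 c1p hkpos G1p).2 (h1 c1m hkpos G1m).2 (h1 c2p hkpos G2p).2
    (h1 c2m hkpos G2m).2 (h1 c0p hkpos G0p).2 (h1 c0m hkpos G0m).2 hc hζ b1 b2 hcp hcm hvol

end H293M
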