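import Pool.Agent.H293R2.M3.Spec

set_option autoImplicit false

open MeasureTheory Set

namespace H293M

namespace B1

/-- standard simplex -/
def Del : Set E := {v | 0 ≤ v.1 ∧ 0 ≤ v.2.1 ∧ 0 ≤ v.2.2 ∧ v.1 + v.2.1 + v.2.2 ≤ 1}

/-- triangle -/
def Tri (r : ℝ) : Set (ℝ × ℝ) := {v | 0 ≤ v.1 ∧ 0 ≤ v.2 ∧ v.1 + v.2 ≤ r}

theorem meas_Tri (r : ℝ) : MeasurableSet (Tri r) := by
  apply IsClosed.measurableSet
  unfold Tri
  refine IsClosed.inter (isClosed_le continuous_const continuous_fst) (IsClosed.inter
    (isClosed_le continuous_const continuous_snd)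
    (isClosed_le (continuous_fst.add continuous_snd) continuous_const))

theorem meas_Del : MeasurableSet Del := by
  apply IsClosed.measurableSet
  unfold Del
  refine IsClosed.inter (isClosed_le continuous_const continuous_fst) (IsClosed.inter
    (isClosed_le continuous_const (continuous_fst.comp continuous_snd)) (IsClosed.inter
    (isClosed_le continuous_const (continuous_snd.comp continuous_snd))
    (isClosed_le ((continuous_fst.add (continuous_fst.comp continuous_snd)).add
      (continuous_snd.comp continuous_snd)) continuous_const)))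

theorem vol_Tri (r : ℝ) (hr : 0 ≤ r) : volume (Tri r) = ENNReal.ofReal (r ^ 2 / 2) := by
  rw [Measure.volume_eq_prod, Measure.prod_apply (meas_Tri r)]
  have h1 : ∀ x : ℝ, volume (Prod.mk x ⁻¹' Tri r) =
      (Icc 0 r).indicator (fun x => ENNReal.ofReal (r - x)) x := by
    intro x
    by_cases hx : x ∈ Icc 0 r
    · rw [indicator_of_mem hx]
      have : Prod.mk x ⁻¹' Tri r = Icc 0 (r - x) := by
        ext y
        simp only [Tri, mem_preimage, mem_ofPred_eq, mem_Icc]
        constructor
        · rintro ⟨_, h2, h3⟩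
          exact ⟨h2, by linarith⟩
        · rintro ⟨h2, h3⟩
          exact ⟨hx.1, h2, by linarith⟩
      rw [this, Real.volume_Icc, sub_zero]
    · rw [indicator_of_notMem hx]
      have : Prod.mk x ⁻¹' Tri r = ∅ := by
        ext y
        simp only [Tri, mem_preimage, mem_ofPred_eq, mem_empty_iff_false, iff_false]
        rintro ⟨h1, h2, h3⟩
        exact hx ⟨h1, by linarith⟩
      rw [this, measure_empty]
  simp_rw [h1]
  rw [lintegral_indicator measurableSet_Icc]
  rw [← ofReal_integral_eq_lintegral_ofReal]
  · congr 1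
    rw [integral_Icc_eq_integral_Ioc, ← intervalIntegral.integral_of_le hr]
    have h2 : ∀ x ∈ uIcc 0 r, HasDerivAt (fun x : ℝ => r * x - x ^ 2 / 2) (r - x) x := by
      intro x _
      have h3 := ((hasDerivAt_id x).const_mul r).sub ((hasDerivAt_pow 2 x).div_const 2)
      refine h3.congr_deriv ?_
      norm_num
    rw [intervalIntegral.integral_eq_sub_of_hasDerivAt h2
      ((continuous_const.sub continuous_id).intervalIntegrable _ _)]
    ring
  · exact (continuous_const.sub continuous_id).continuousOn.integrableOn_Icc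
  · filter_upwards [ae_restrict_mem measurableSet_Icc] with x hx
    exact sub_nonneg.2 hx.2

theorem vol_Del : volume Del = ENNReal.ofReal (1 / 6) := by
  rw [Measure.volume_eq_prod, Measure.prod_apply meas_Del]
  have h1 : ∀ x : ℝ, volume (Prod.mk x ⁻¹' Del) =
      (Icc 0 1).indicator (fun x => ENNReal.ofReal ((1 - x) ^ 2 / 2)) x := by
    intro x
    by_cases hx : x ∈ Icc (0:ℝ) 1
    · rw [indicator_of_mem hx]
      have : Prod.mk x ⁻¹' Del = Tri (1 - x) := by
        ext y
        simp only [Tri, Del, mem_preimage, mem_ofPred_eq]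
        constructor
        · rintro ⟨_, h2, h3, h4⟩
          exact ⟨h2, h3, by linarith⟩
        · rintro ⟨h2, h3, h4⟩
          exact ⟨hx.1, h2, h3, by linarith⟩
      rw [this, vol_Tri _ (by linarith [hx.2])]
    · rw [indicator_of_notMem hx]
      have : Prod.mk x ⁻¹' Del = ∅ := by
        ext y
        simp only [Del, mem_preimage, mem_ofPred_eq, mem_empty_iff_false, iff_false]
        rintro ⟨h1, h2, h3, h4⟩
        exact hx ⟨h1, by linarith⟩
      rw [this, measure_empty]
  simp_rw [h1]
  rw [lintegral_indicator measurableSet_Icc]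
  rw [← ofReal_integral_eq_lintegral_ofReal]
  · congr 1
    rw [integral_Icc_eq_integral_Ioc, ← intervalIntegral.integral_of_le zero_le_one]
    have h2 : ∀ x ∈ uIcc (0:ℝ) 1, HasDerivAt (fun x : ℝ => -((1 - x) ^ 3 / 6)) ((1 - x) ^ 2 / 2) x := by
      intro x _
      have h3 := ((((hasDerivAt_id x).const_sub 1).pow 3).div_const 6).neg
      refine h3.congr_deriv ?_
      simp only [id]
      norm_num
      ring
    rw [intervalIntegral.integral_eq_sub_of_hasDerivAt h2
      (Continuous.intervalIntegrable (by fun_prop) _ _)]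
    norm_num
  · exact Continuous.integrableOn_Icc (by fun_prop)
  · filter_upwards with x
    positivity

/-- the linear map -/
noncomputable def lin (u v w : E) : E →ₗ[ℝ] E where
  toFun x := x.1 • u + x.2.1 • v + x.2.2 • w
  map_add' x y := by
    simp only [Prod.fst_add, Prod.snd_add, add_smul]
    abel
  map_smul' r x := by
    simp only [Prod.smul_fst, Prod.smul_snd, smul_eq_mul, mul_smul, RingHom.id_apply, smul_add]

/-- coordinates -/
noncomputable def coo : E ≃ₗ[ℝ] (Fin 3 → ℝ) where
  toFun x := ![x.1, x.2.1, x.2.2]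
  map_add' x y := by
    ext i
    fin_cases i <;> simp
  map_smul' r x := by
    ext i
    fin_cases i <;> simp
  invFun f := (f 0, f 1, f 2)
  left_inv x := by simp
  right_inv f := by
    ext i
    fin_cases i <;> simp

theorem det_lin (u v w : E) : LinearMap.det (lin u v w) = d3 u v w := by
  obtain ⟨b, hb⟩ : ∃ b, b = Module.Basis.ofEquivFun coo := ⟨_, rfl⟩
  rw [← LinearMap.det_toMatrix b, Matrix.det_fin_three]
  have hr : ∀ (x : E) (i : Fin 3), b.repr x i = coo x i := by
    intro x i
    rw [hb]
    rfl
  have hb0 : b 0 = (1, 0, 0) := by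
    rw [hb, Module.Basis.coe_ofEquivFun]
    simp [coo]
  have hb1 : b 1 = (0, 1, 0) := by
    rw [hb, Module.Basis.coe_ofEquivFun]
    simp [coo]
  have hb2 : b 2 = (0, 0, 1) := by
    rw [hb, Module.Basis.coe_ofEquivFun]
    simp [coo]
  simp only [LinearMap.toMatrix_apply, hr, hb0, hb1, hb2]
  simp [lin, coo, d3]
  ring

theorem image_eq (a b c d : E) :
    convexHull ℝ {a, b, c, d} = (fun x => a + x) '' (lin (b - a) (c - a) (d - a) '' Del) := by
  apply Subset.antisymm
  · apply convexHull_min
    · intro x hx
      simp only [mem_insert_iff, mem_singleton_iff] at hx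
      rcases hx with rfl | rfl | rfl | rfl
      · refine ⟨0, ⟨0, ?_, ?_⟩, ?_⟩
        · simp [Del]
        · simp
        · simp
      · refine ⟨_, ⟨(1, 0, 0), ?_, rfl⟩, ?_⟩
        · simp [Del]
        · simp [lin]
      · refine ⟨_, ⟨(0, 1, 0), ?_, rfl⟩, ?_⟩
        · simp [Del]
        · simp [lin]
      · refine ⟨_, ⟨(0, 0, 1), ?_, rfl⟩, ?_⟩
        · simp [Del]
        · simp [lin]
    · have h1 : Convex ℝ Del := by
        rintro x ⟨x1, x2, x3, x4⟩ y ⟨y1, y2, y3, y4⟩ p q hp hq hpq
        refine ⟨?_, ?_, ?_, ?_⟩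
        · simp only [Prod.fst_add, Prod.smul_fst, smul_eq_mul]
          positivity
        · simp only [Prod.fst_add, Prod.smul_fst, Prod.snd_add, Prod.smul_snd, smul_eq_mul]
          positivity
        · simp only [Prod.snd_add, Prod.smul_snd, smul_eq_mul]
          positivity
        · simp only [Prod.fst_add, Prod.smul_fst, Prod.snd_add, Prod.smul_snd, smul_eq_mul]
          nlinarith
      have h2 := h1.linear_image (lin (b - a) (c - a) (d - a))
      exact (h2.translate a)
  · rintro _ ⟨_, ⟨x, ⟨x1, x2, x3, x4⟩, rfl⟩, rfl⟩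
    have hc := convex_convexHull ℝ ({a, b, c, d} : Set E)
    have hs : ∀ y ∈ ({a, b, c, d} : Set E), y ∈ convexHull ℝ ({a, b, c, d} : Set E) :=
      fun y hy => subset_convexHull ℝ _ hy
    have h := hc.sum_mem (t := (Finset.univ : Finset (Fin 4)))
      (w := ![1 - x.1 - x.2.1 - x.2.2, x.1, x.2.1, x.2.2]) (z := ![a, b, c, d]) ?_ ?_ ?_
    · rw [Fin.sum_univ_four] at h
      simp only [Matrix.cons_val] at h
      convert h using 1
      simp only [lin, LinearMap.coe_mk, AddHom.coe_mk]
      module
    · intro i _
      fin_cases i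
      · simp only [Fin.zero_eta, Matrix.cons_val]
        linarith
      · exact x1
      · exact x2
      · exact x3
    · rw [Fin.sum_univ_four]
      simp only [Matrix.cons_val]
      ring
    · intro i _
      fin_cases i
      · exact hs _ (by simp)
      · exact hs _ (by simp)
      · exact hs _ (by simp)
      · exact hs _ (by simp)

end B1

theorem t_simp : S_simp := by
  intro a b c d
  haveI h1 : (volume : Measure (ℝ × ℝ)).IsAddHaarMeasure := by
    rw [Measure.volume_eq_prod]; infer_instance
  haveI h2 : (volume : Measure E).IsAddHaarMeasure := by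
    rw [Measure.volume_eq_prod]; infer_instance
  rw [B1.image_eq]
  unfold vl
  rw [image_add_left, measure_preimage_add, Measure.addHaar_image_linearMap, B1.det_lin,
    B1.vol_Del, ENNReal.toReal_mul, ENNReal.toReal_ofReal (abs_nonneg _),
    ENNReal.toReal_ofReal (by norm_num)]
  ring

end H293M
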