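import Pool.Agent.H293R2.M3.Spec

/-!
Task B2: the volume product of a tetrahedron.
-/

set_option autoImplicit false

open MeasureTheory Set

namespace H293M

namespace B2

/-- positive barycentric coordinates of an interior point -/
theorem pos_weights {S : Finset E} (h0 : (0 : E) ∈ interior (hl S)) :
    ∃ w : E → ℝ, (∀ s ∈ S, 0 < w s) ∧ ∑ s ∈ S, w s = 1 ∧ ∑ s ∈ S, w s • s = 0 := by
  have hn : hl S ∈ nhds (0 : E) := mem_interior_iff_mem_nhds.mp h0
  have ht : Filter.Tendsto (fun ε : ℝ => -(ε • ∑ s ∈ S, s)) (nhds 0) (nhds 0) := by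
    have : Continuous (fun ε : ℝ => -(ε • ∑ s ∈ S, s)) := by fun_prop
    have h := this.tendsto 0
    simpa using h
  have h1 : ∀ᶠ ε : ℝ in nhds 0, -(ε • ∑ s ∈ S, s) ∈ hl S := ht.eventually hn
  have h2 : ∀ᶠ ε : ℝ in nhdsWithin 0 (Ioi 0), -(ε • ∑ s ∈ S, s) ∈ hl S :=
    h1.filter_mono nhdsWithin_le_nhds
  obtain ⟨ε, hε, hε0⟩ := (h2.and self_mem_nhdsWithin).exists
  have hε0 : 0 < ε := hε0
  have hε : -(ε • ∑ s ∈ S, s) ∈ convexHull ℝ (S : Set E) := hε
  rw [Finset.convexHull_eq] at hε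
  obtain ⟨w, hw0, hw1, hw2⟩ := hε
  rw [Finset.centerMass_eq_of_sum_1 _ _ hw1] at hw2
  simp only [id] at hw2
  have hc : 0 < 1 + (S.card : ℝ) * ε := by positivity
  refine ⟨fun s => (1 + (S.card : ℝ) * ε)⁻¹ * (w s + ε), ?_, ?_, ?_⟩
  · intro s hs
    have := hw0 s hs
    positivity
  · rw [← Finset.mul_sum, Finset.sum_add_distrib, hw1, Finset.sum_const, nsmul_eq_mul]
    exact inv_mul_cancel₀ hc.ne'
  · have : ∀ s ∈ S, ((1 + (S.card : ℝ) * ε)⁻¹ * (w s + ε)) • s =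
        (1 + (S.card : ℝ) * ε)⁻¹ • (w s • s + ε • s) := by
      intro s _
      rw [mul_smul, add_smul]
    rw [Finset.sum_congr rfl this, ← Finset.smul_sum, Finset.sum_add_distrib, hw2,
      ← Finset.smul_sum, neg_add_cancel, smul_zero]

/-- the dot product is linear on convex hulls -/
theorem dt_le_of_hull {A : Set E} {y : E} {c : ℝ} (h : ∀ s ∈ A, dt s y ≤ c) :
    ∀ x ∈ convexHull ℝ A, dt x y ≤ c := by
  have hc : Convex ℝ {x : E | dt x y ≤ c} := by
    intro a ha b hb p q hp hq hpq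
    have ha : dt a y ≤ c := ha
    have hb : dt b y ≤ c := hb
    change dt (p • a + q • b) y ≤ c
    have : dt (p • a + q • b) y = p * dt a y + q * dt b y := by
      simp only [dt, Prod.fst_add, Prod.snd_add, Prod.smul_fst, Prod.smul_snd, smul_eq_mul]
      ring
    rw [this]
    calc p * dt a y + q * dt b y ≤ p * c + q * c := by gcongr
      _ = c := by rw [← add_mul, hpq, one_mul]
  exact convexHull_min h hc

/-- vanishing determinant gives a common normal vector -/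
theorem exists_normal {a b c : E} (h : d3 a b c = 0) :
    ∃ g : E, g ≠ 0 ∧ dt a g = 0 ∧ dt b g = 0 ∧ dt c g = 0 := by
  have hdet : (!![a.1, a.2.1, a.2.2; b.1, b.2.1, b.2.2; c.1, c.2.1, c.2.2] :
      Matrix (Fin 3) (Fin 3) ℝ).det = 0 := by
    rw [Matrix.det_fin_three]
    simp only [Matrix.of_apply, Matrix.cons_val', Matrix.cons_val_zero, Matrix.cons_val_one,
      Matrix.cons_val]
    unfold d3 at h
    linarith
  obtain ⟨v, hv, hM⟩ := Matrix.exists_mulVec_eq_zero_iff.mpr hdet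
  refine ⟨(v 0, v 1, v 2), ?_, ?_, ?_, ?_⟩
  · intro h0
    apply hv
    have h00 : v 0 = 0 := congrArg Prod.fst h0
    have h01 : v 1 = 0 := congrArg (fun p : E => p.2.1) h0
    have h02 : v 2 = 0 := congrArg (fun p : E => p.2.2) h0
    funext i
    fin_cases i <;> assumption
  · have := congrFun hM 0
    simpa [Matrix.mulVec, dotProduct, Fin.sum_univ_three, dt] using this
  · have := congrFun hM 1
    simpa [Matrix.mulVec, dotProduct, Fin.sum_univ_three, dt] using this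
  · have := congrFun hM 2
    simpa [Matrix.mulVec, dotProduct, Fin.sum_univ_three, dt] using this

/-- no common normal vector to the points of a body with the origin inside -/
theorem no_normal {S : Finset E} (h0 : (0 : E) ∈ interior (hl S)) {g : E} (hg : g ≠ 0)
    (h : ∀ s ∈ S, dt s g = 0) : False := by
  have hn : hl S ∈ nhds (0 : E) := mem_interior_iff_mem_nhds.mp h0
  have ht : Filter.Tendsto (fun ε : ℝ => ε • g) (nhds 0) (nhds 0) := by
    have : Continuous (fun ε : ℝ => ε • g) := by fun_prop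
    have h := this.tendsto 0
    simpa using h
  have h1 : ∀ᶠ ε : ℝ in nhds 0, ε • g ∈ hl S := ht.eventually hn
  have h2 : ∀ᶠ ε : ℝ in nhdsWithin 0 (Ioi 0), ε • g ∈ hl S :=
    h1.filter_mono nhdsWithin_le_nhds
  obtain ⟨ε, hε, hε0⟩ := (h2.and self_mem_nhdsWithin).exists
  have hε0 : 0 < ε := hε0
  have h3 : dt (ε • g) g ≤ 0 :=
    dt_le_of_hull (A := (S : Set E)) (fun s hs => (h s (Finset.mem_coe.mp hs)).le) _ hε
  have h4 : 0 < g.1 ^ 2 + g.2.1 ^ 2 + g.2.2 ^ 2 := by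
    by_contra hc
    apply hg
    have a1 : g.1 = 0 := by nlinarith [sq_nonneg g.1, sq_nonneg g.2.1, sq_nonneg g.2.2]
    have a2 : g.2.1 = 0 := by nlinarith [sq_nonneg g.1, sq_nonneg g.2.1, sq_nonneg g.2.2]
    have a3 : g.2.2 = 0 := by nlinarith [sq_nonneg g.1, sq_nonneg g.2.1, sq_nonneg g.2.2]
    exact Prod.ext a1 (Prod.ext a2 a3)
  have h5 : dt (ε • g) g = ε * (g.1 ^ 2 + g.2.1 ^ 2 + g.2.2 ^ 2) := by
    simp only [dt, Prod.smul_fst, Prod.smul_snd, smul_eq_mul]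
    ring
  rw [h5] at h3
  have := mul_pos hε0 h4
  linarith

/-- cross product -/
def cr (a b : E) : E := (a.2.1 * b.2.2 - a.2.2 * b.2.1, a.2.2 * b.1 - a.1 * b.2.2,
  a.1 * b.2.1 - a.2.1 * b.1)

/-- arithmetic and geometric means -/
theorem amgm {a b c d : ℝ} (ha : 0 < a) (hb : 0 < b) (hc : 0 < c) (hd : 0 < d)
    (h : a + b + c + d = 1) : a * b * c * d ≤ 1 / 256 := by
  have h1 : a * b ≤ ((a + b) / 2) ^ 2 := by nlinarith [sq_nonneg (a - b)]
  have h2 : c * d ≤ ((c + d) / 2) ^ 2 := by nlinarith [sq_nonneg (c - d)]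
  have h3 : (a + b) * (c + d) ≤ 1 / 4 := by nlinarith [sq_nonneg (a + b - (c + d))]
  have h4 : a * b * (c * d) ≤ ((a + b) / 2) ^ 2 * ((c + d) / 2) ^ 2 :=
    mul_le_mul h1 h2 (by positivity) (by positivity)
  have h5 : ((a + b) / 2) ^ 2 * ((c + d) / 2) ^ 2 = ((a + b) * (c + d)) ^ 2 / 16 := by ring
  have h6 : ((a + b) * (c + d)) ^ 2 ≤ (1 / 4) ^ 2 :=
    pow_le_pow_left₀ (by positivity) h3 2
  nlinarith

end B2

open B2 in
/-- task B2 -/
theorem t_tetra (h1 : S_pol) (h2 : S_simp) : S_tetra := by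
  intro S U hP hS
  obtain ⟨w, hw0, hw1, hw2⟩ := pos_weights hP.zero
  obtain ⟨s0, T, hs0, hST, hT⟩ := Finset.card_eq_succ.mp hS
  obtain ⟨s1, s2, s3, h12, h13, h23, hT'⟩ := Finset.card_eq_three.mp hT
  subst hT'
  have h01 : s0 ≠ s1 := by rintro rfl; exact hs0 (by simp)
  have h02 : s0 ≠ s2 := by rintro rfl; exact hs0 (by simp)
  have h03 : s0 ≠ s3 := by rintro rfl; exact hs0 (by simp)
  have hmem : ∀ s, s ∈ S ↔ s = s0 ∨ s = s1 ∨ s = s2 ∨ s = s3 := by
    intro s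
    rw [← hST]
    simp
  have hsum : ∀ {M : Type} [AddCommMonoid M] (f : E → M),
      ∑ s ∈ S, f s = f s0 + (f s1 + (f s2 + f s3)) := by
    intro M _ f
    rw [← hST, Finset.sum_insert hs0, Finset.sum_insert (by simp [h12, h13]),
      Finset.sum_insert (by simp [h23]), Finset.sum_singleton]
  rw [hsum] at hw1 hw2
  have p0 := hw0 s0 ((hmem _).mpr (by simp))
  have p1 := hw0 s1 ((hmem _).mpr (by simp))
  have p2 := hw0 s2 ((hmem _).mpr (by simp))
  have p3 := hw0 s3 ((hmem _).mpr (by simp))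
  generalize w s0 = l0 at *
  generalize w s1 = l1 at *
  generalize w s2 = l2 at *
  generalize w s3 = l3 at *
  have e1 : l0 * s0.1 + (l1 * s1.1 + (l2 * s2.1 + l3 * s3.1)) = 0 := by
    have := congrArg Prod.fst hw2
    simpa using this
  have e2 : l0 * s0.2.1 + (l1 * s1.2.1 + (l2 * s2.2.1 + l3 * s3.2.1)) = 0 := by
    have := congrArg (fun p : E => p.2.1) hw2
    simpa using this
  have e3 : l0 * s0.2.2 + (l1 * s1.2.2 + (l2 * s2.2.2 + l3 * s3.2.2)) = 0 := by
    have := congrArg (fun p : E => p.2.2) hw2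
    simpa using this
  have hlin : ∀ y : E, l0 * dt s0 y + (l1 * dt s1 y + (l2 * dt s2 y + l3 * dt s3 y)) = 0 := by
    intro y
    unfold dt
    linear_combination y.1 * e1 + y.2.1 * e2 + y.2.2 * e3
  have hD : d3 s1 s2 s3 ≠ 0 := by
    intro hD
    obtain ⟨g, hg, g1, g2, g3⟩ := exists_normal hD
    refine no_normal hP.zero hg ?_
    intro s hs
    rcases (hmem s).mp hs with rfl | rfl | rfl | rfl
    · have := hlin g
      rw [g1, g2, g3] at this
      have h : l0 * dt s g = 0 := by linarith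
      exact (mul_eq_zero.mp h).resolve_left p0.ne'
    · exact g1
    · exact g2
    · exact g3
  -- the volume of the tetrahedron
  have hvS : vl (hl S) = |d3 s1 s2 s3| / l0 / 6 := by
    have : hl S = convexHull ℝ {s0, s1, s2, s3} := by
      unfold hl
      rw [← hST]
      simp
    rw [this, h2]
    congr 1
    have hd : d3 (s1 - s0) (s2 - s0) (s3 - s0) = d3 s1 s2 s3 / l0 := by
      rw [eq_div_iff p0.ne']
      have h0 : s0.1 = -(l1 * s1.1 + l2 * s2.1 + l3 * s3.1) / l0 := by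
        rw [eq_div_iff p0.ne']; linarith
      have h0' : s0.2.1 = -(l1 * s1.2.1 + l2 * s2.2.1 + l3 * s3.2.1) / l0 := by
        rw [eq_div_iff p0.ne']; linarith
      have h0'' : s0.2.2 = -(l1 * s1.2.2 + l2 * s2.2.2 + l3 * s3.2.2) / l0 := by
        rw [eq_div_iff p0.ne']; linarith
      have hl3 : l3 = 1 - l0 - l1 - l2 := by linarith
      unfold d3
      simp only [Prod.fst_sub, Prod.snd_sub]
      rw [h0, h0', h0'', hl3]
      field_simp
      ring
    rw [hd, abs_div, abs_of_pos p0]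
  -- the polar tetrahedron
  obtain ⟨D, hDD⟩ : ∃ D, D = d3 s1 s2 s3 := ⟨_, rfl⟩
  rw [← hDD] at hD hvS
  obtain ⟨u0, hu0⟩ : ∃ u0 : E, u0 = D⁻¹ • (cr s2 s3 + cr s3 s1 + cr s1 s2) := ⟨_, rfl⟩
  obtain ⟨u1, hu1⟩ : ∃ u1 : E, u1 = u0 - (l1⁻¹ * D⁻¹) • cr s2 s3 := ⟨_, rfl⟩
  obtain ⟨u2, hu2⟩ : ∃ u2 : E, u2 = u0 - (l2⁻¹ * D⁻¹) • cr s3 s1 := ⟨_, rfl⟩
  obtain ⟨u3, hu3⟩ : ∃ u3 : E, u3 = u0 - (l3⁻¹ * D⁻¹) • cr s1 s2 := ⟨_, rfl⟩
  have dsub : ∀ (s a b : E) (t : ℝ), dt s (a - t • b) = dt s a - t * dt s b := by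
    intro s a b t
    simp only [dt, Prod.fst_sub, Prod.snd_sub, Prod.smul_fst, Prod.smul_snd, smul_eq_mul]
    ring
  have dadd : ∀ (s a b c : E) (t : ℝ), dt s (t • (a + b + c)) =
      t * (dt s a + dt s b + dt s c) := by
    intro s a b c t
    simp only [dt, Prod.fst_add, Prod.snd_add, Prod.smul_fst, Prod.smul_snd, smul_eq_mul]
    ring
  have c11 : dt s1 (cr s2 s3) = D := by rw [hDD]; unfold dt cr d3; ring
  have c12 : dt s1 (cr s3 s1) = 0 := by unfold dt cr; ring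
  have c13 : dt s1 (cr s1 s2) = 0 := by unfold dt cr; ring
  have c21 : dt s2 (cr s2 s3) = 0 := by unfold dt cr; ring
  have c22 : dt s2 (cr s3 s1) = D := by rw [hDD]; unfold dt cr d3; ring
  have c23 : dt s2 (cr s1 s2) = 0 := by unfold dt cr; ring
  have c31 : dt s3 (cr s2 s3) = 0 := by unfold dt cr; ring
  have c32 : dt s3 (cr s3 s1) = 0 := by unfold dt cr; ring
  have c33 : dt s3 (cr s1 s2) = D := by rw [hDD]; unfold dt cr d3; ring
  have d10 : dt s1 u0 = 1 := by rw [hu0, dadd, c11, c12, c13]; field_simp; ring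
  have d20 : dt s2 u0 = 1 := by rw [hu0, dadd, c21, c22, c23]; field_simp; ring
  have d30 : dt s3 u0 = 1 := by rw [hu0, dadd, c31, c32, c33]; field_simp; ring
  have d11 : dt s1 u1 = 1 - l1⁻¹ := by rw [hu1, dsub, c11, d10]; field_simp
  have d21 : dt s2 u1 = 1 := by rw [hu1, dsub, c21, d20]; ring
  have d31 : dt s3 u1 = 1 := by rw [hu1, dsub, c31, d30]; ring
  have d12 : dt s1 u2 = 1 := by rw [hu2, dsub, c12, d10]; ring
  have d22 : dt s2 u2 = 1 - l2⁻¹ := by rw [hu2, dsub, c22, d20]; field_simp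
  have d32 : dt s3 u2 = 1 := by rw [hu2, dsub, c32, d30]; ring
  have d13 : dt s1 u3 = 1 := by rw [hu3, dsub, c13, d10]; ring
  have d23 : dt s2 u3 = 1 := by rw [hu3, dsub, c23, d20]; ring
  have d33 : dt s3 u3 = 1 - l3⁻¹ := by rw [hu3, dsub, c33, d30]; field_simp
  have m1 : l1 * l1⁻¹ = 1 := mul_inv_cancel₀ p1.ne'
  have m2 : l2 * l2⁻¹ = 1 := mul_inv_cancel₀ p2.ne'
  have m3 : l3 * l3⁻¹ = 1 := mul_inv_cancel₀ p3.ne'
  have i1 : 0 < l1⁻¹ := inv_pos.mpr p1
  have i2 : 0 < l2⁻¹ := inv_pos.mpr p2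
  have i3 : 0 < l3⁻¹ := inv_pos.mpr p3
  have d00 : dt s0 u0 ≤ 1 := by
    have h := hlin u0
    rw [d10, d20, d30] at h
    by_contra hc
    push Not at hc
    have h' := mul_lt_mul_of_pos_left hc p0
    linarith
  have d01 : dt s0 u1 ≤ 1 := by
    have h := hlin u1
    rw [d11, d21, d31] at h
    by_contra hc
    push Not at hc
    have h' := mul_lt_mul_of_pos_left hc p0
    linarith
  have d02 : dt s0 u2 ≤ 1 := by
    have h := hlin u2
    rw [d12, d22, d32] at h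
    by_contra hc
    push Not at hc
    have h' := mul_lt_mul_of_pos_left hc p0
    linarith
  have d03 : dt s0 u3 ≤ 1 := by
    have h := hlin u3
    rw [d13, d23, d33] at h
    by_contra hc
    push Not at hc
    have h' := mul_lt_mul_of_pos_left hc p0
    linarith
  have hin : ∀ y : E, (∀ s ∈ S, dt s y ≤ 1) → y ∈ hl U := by
    intro y hy
    rw [← h1.polz_hl hP]
    intro x hx
    rw [sub_zero]
    exact dt_le_of_hull (A := (S : Set E)) (fun s hs => hy s (Finset.mem_coe.mp hs)) x hx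
  have hsub : convexHull ℝ {u0, u1, u2, u3} ⊆ hl U := by
    refine convexHull_min ?_ (convex_convexHull ℝ _)
    rintro y (rfl | rfl | rfl | rfl)
    · apply hin
      intro s hs
      rcases (hmem s).mp hs with rfl | rfl | rfl | rfl
      · exact d00
      · exact d10.le
      · exact d20.le
      · exact d30.le
    · apply hin
      intro s hs
      rcases (hmem s).mp hs with rfl | rfl | rfl | rfl
      · exact d01
      · rw [d11]; linarith
      · exact d21.le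
      · exact d31.le
    · apply hin
      intro s hs
      rcases (hmem s).mp hs with rfl | rfl | rfl | rfl
      · exact d02
      · exact d12.le
      · rw [d22]; linarith
      · exact d32.le
    · apply hin
      intro s hs
      rcases (hmem s).mp hs with rfl | rfl | rfl | rfl
      · exact d03
      · exact d13.le
      · exact d23.le
      · rw [d33]; linarith
  have hfin : volume (hl U) ≠ ⊤ := by
    have hc : IsCompact (convexHull ℝ (U : Set E)) :=
      Set.Finite.isCompact_convexHull (𝕜 := ℝ) U.finite_toSet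
    exact hc.measure_lt_top.ne
  have hvU : |d3 (u1 - u0) (u2 - u0) (u3 - u0)| / 6 ≤ vl (hl U) := by
    rw [← h2]
    exact ENNReal.toReal_mono hfin (measure_mono hsub)
  have hdU : d3 (u1 - u0) (u2 - u0) (u3 - u0) = -(l1⁻¹ * l2⁻¹ * l3⁻¹ * D⁻¹) := by
    have f1 : u1 - u0 = -((l1⁻¹ * D⁻¹) • cr s2 s3) := by rw [hu1]; abel
    have f2 : u2 - u0 = -((l2⁻¹ * D⁻¹) • cr s3 s1) := by rw [hu2]; abel
    have f3 : u3 - u0 = -((l3⁻¹ * D⁻¹) • cr s1 s2) := by rw [hu3]; abel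
    rw [f1, f2, f3]
    have g1 : d3 (-((l1⁻¹ * D⁻¹) • cr s2 s3)) (-((l2⁻¹ * D⁻¹) • cr s3 s1))
        (-((l3⁻¹ * D⁻¹) • cr s1 s2)) =
        -(l1⁻¹ * D⁻¹ * (l2⁻¹ * D⁻¹) * (l3⁻¹ * D⁻¹)) * d3 (cr s2 s3) (cr s3 s1) (cr s1 s2) := by
      simp only [d3, Prod.fst_neg, Prod.snd_neg, Prod.smul_fst, Prod.smul_snd, smul_eq_mul]
      ring
    have g2 : d3 (cr s2 s3) (cr s3 s1) (cr s1 s2) = D ^ 2 := by
      rw [hDD]
      unfold d3 cr
      ring
    rw [g1, g2]
    have hDD' : D⁻¹ * D = 1 := inv_mul_cancel₀ hD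
    calc -(l1⁻¹ * D⁻¹ * (l2⁻¹ * D⁻¹) * (l3⁻¹ * D⁻¹)) * D ^ 2
        = -(l1⁻¹ * l2⁻¹ * l3⁻¹ * D⁻¹) * (D⁻¹ * D) ^ 2 := by ring
      _ = _ := by rw [hDD']; ring
  rw [hdU, abs_neg, abs_mul, abs_of_pos (by positivity), abs_inv] at hvU
  have hDpos : 0 < |D| := abs_pos.mpr hD
  have hvSpos : 0 ≤ |D| / l0 / 6 := by positivity
  rw [hvS]
  have hstep : |D| / l0 / 6 * (l1⁻¹ * l2⁻¹ * l3⁻¹ * |D|⁻¹ / 6) ≤ |D| / l0 / 6 * vl (hl U) :=
    mul_le_mul_of_nonneg_left hvU hvSpos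
  refine le_trans ?_ hstep
  have e : |D| / l0 / 6 * (l1⁻¹ * l2⁻¹ * l3⁻¹ * |D|⁻¹ / 6) = 1 / (36 * (l0 * l1 * l2 * l3)) := by
    field_simp
    ring
  rw [e]
  have ham := amgm p0 p1 p2 p3 (by linarith)
  rw [le_div_iff₀ (by positivity)]
  nlinarith

end H293M
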