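import Pool.Agent.H293R2.M3.Spec

set_option autoImplicit false

open MeasureTheory Set

namespace H293M

namespace C0

theorem dt_comm (u s : E) : dt u s = dt s u := by
  unfold dt
  ring

theorem dt_add (u s t : E) : dt u (s + t) = dt u s + dt u t := by
  unfold dt
  simp only [Prod.fst_add, Prod.snd_add]
  ring

theorem dt_smul (u s : E) (a : ℝ) : dt u (a • s) = a * dt u s := by
  unfold dt
  simp only [Prod.smul_fst, Prod.smul_snd, smul_eq_mul]
  ring

theorem dt_zero (u : E) : dt u 0 = 0 := by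
  unfold dt
  simp

theorem dt_self_pos {w : E} (hw : w ≠ 0) : 0 < dt w w := by
  unfold dt
  by_contra h
  apply hw
  have h1 := mul_self_nonneg w.1
  have h2 := mul_self_nonneg w.2.1
  have h3 := mul_self_nonneg w.2.2
  have e1 : w.1 = 0 := mul_self_eq_zero.1 (by linarith)
  have e2 : w.2.1 = 0 := mul_self_eq_zero.1 (by linarith)
  have e3 : w.2.2 = 0 := mul_self_eq_zero.1 (by linarith)
  exact Prod.ext e1 (Prod.ext e2 e3)

theorem dt_cont (u : E) : Continuous fun x : E => dt u x := by
  unfold dt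
  fun_prop

/-- linear functionals are dot products -/
theorem repr (f : E →L[ℝ] ℝ) : ∃ w : E, ∀ x, f x = dt w x := by
  refine ⟨(f (1, 0, 0), f (0, 1, 0), f (0, 0, 1)), fun x => ?_⟩
  have h : x = x.1 • ((1 : ℝ), (0 : ℝ), (0 : ℝ)) + x.2.1 • ((0 : ℝ), (1 : ℝ), (0 : ℝ)) +
      x.2.2 • ((0 : ℝ), (0 : ℝ), (1 : ℝ)) := by
    refine Prod.ext ?_ (Prod.ext ?_ ?_) <;> simp
  have h2 : f x = x.1 * f (1, 0, 0) + x.2.1 * f (0, 1, 0) + x.2.2 * f (0, 0, 1) := by
    conv_lhs => rw [h]
    rw [map_add, map_add, map_smul, map_smul, map_smul]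
    rfl
  rw [h2]
  unfold dt
  ring

theorem conv_le (x : E) (c : ℝ) : Convex ℝ {y : E | dt x y ≤ c} := by
  intro a ha b hb s t hs ht hst
  have ha' : dt x a ≤ c := ha
  have hb' : dt x b ≤ c := hb
  change dt x (s • a + t • b) ≤ c
  rw [dt_add, dt_smul, dt_smul]
  calc s * dt x a + t * dt x b ≤ s * c + t * c :=
        add_le_add (mul_le_mul_of_nonneg_left ha' hs) (mul_le_mul_of_nonneg_left hb' ht)
    _ = c := by rw [← add_mul, hst, one_mul]

theorem cpt (S : Finset E) : IsCompact (hl S) := S.finite_toSet.isCompact_convexHull ℝ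

theorem unb {S U : Finset E} (h : Pr S U) (w : E) (hw : ∀ u ∈ U, dt u w ≤ 0) : w = 0 := by
  by_contra hne
  have hp := dt_self_pos hne
  obtain ⟨B, hB⟩ := (cpt S).bddAbove_image (dt_cont w).continuousOn
  have hB0 : ∀ t : ℝ, 0 ≤ t → t * dt w w ≤ B := by
    intro t ht
    rw [← dt_smul]
    refine hB ⟨t • w, ?_, rfl⟩
    rw [h.rep]
    intro u hu
    rw [dt_smul]
    have := mul_nonneg ht (neg_nonneg.2 (hw u hu))
    linarith
  have hBn : 0 ≤ B := by
    have := hB0 0 le_rfl
    rwa [zero_mul] at this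
  have h2 := hB0 ((B + 1) / dt w w) (by positivity)
  rw [div_mul_cancel₀ _ hp.ne'] at h2
  linarith

theorem zero_mem {S U : Finset E} (h : Pr S U) : (0 : E) ∈ hl U := by
  by_contra h0
  obtain ⟨f, c, hf0, hf⟩ := geometric_hahn_banach_point_closed (convex_convexHull ℝ (U : Set E))
    (cpt U).isClosed h0
  rw [map_zero] at hf0
  obtain ⟨w, hw⟩ := repr f
  rcases U.eq_empty_or_nonempty with hU | ⟨u, hu⟩
  · have h1 := unb h (1, 0, 0) (fun u hu => by
      rw [hU] at hu
      simp at hu)
    have h2 := congrArg Prod.fst h1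
    exact one_ne_zero h2
  · have h1 := unb h (-w) (fun u hu => by
      have h2 := hf u (subset_convexHull ℝ _ hu)
      rw [hw] at h2
      have h3 : dt u (-w) = - dt w u := by
        have h4 := dt_smul u w (-1)
        rw [neg_one_smul] at h4
        rw [h4, dt_comm u w]
        ring
      rw [h3]
      linarith)
    have h2 := hf u (subset_convexHull ℝ _ hu)
    have h3 : w = 0 := neg_eq_zero.1 h1
    rw [hw, h3, dt_comm, dt_zero] at h2
    linarith

theorem polz_eq {S U : Finset E} (h : Pr S U) : polz (hl S) 0 = hl U := by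
  apply Set.Subset.antisymm
  · intro y hy
    by_contra hyU
    obtain ⟨f, c, hf, hfy⟩ := geometric_hahn_banach_closed_point
      (convex_convexHull ℝ (U : Set E)) (cpt U).isClosed hyU
    obtain ⟨w, hw⟩ := repr f
    have hc : 0 < c := by
      have := hf 0 (zero_mem h)
      rwa [map_zero] at this
    have hx : c⁻¹ • w ∈ hl S := by
      rw [h.rep]
      intro u hu
      rw [dt_smul, dt_comm]
      have h2 := hf u (subset_convexHull ℝ _ hu)
      rw [hw] at h2
      rw [inv_mul_le_iff₀ hc, mul_one]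
      exact h2.le
    have h3 : dt (c⁻¹ • w - 0) y ≤ 1 := hy _ hx
    rw [sub_zero, dt_comm, dt_smul, dt_comm, inv_mul_le_iff₀ hc, mul_one, ← hw] at h3
    linarith
  · have hconv : Convex ℝ (polz (hl S) 0) := by
      have e : polz (hl S) 0 = ⋂ x ∈ hl S, {y : E | dt (x - 0) y ≤ 1} := by
        ext y
        simp only [polz, mem_setOf_eq, mem_iInter]
      rw [e]
      exact convex_iInter fun x => convex_iInter fun _ => conv_le _ _
    refine convexHull_min ?_ hconv
    intro u hu x hx
    rw [h.rep] at hx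
    rw [sub_zero, dt_comm]
    exact hx u hu

theorem rep2 {S U : Finset E} (h : Pr S U) : hl U = {y | ∀ s ∈ S, dt s y ≤ 1} := by
  rw [← polz_eq h]
  ext y
  constructor
  · intro hy s hs
    have h1 : dt (s - 0) y ≤ 1 := hy s (subset_convexHull ℝ _ hs)
    rwa [sub_zero] at h1
  · intro hy x hx
    rw [sub_zero, dt_comm]
    have h1 : (S : Set E) ⊆ {x : E | dt y x ≤ 1} := by
      intro s hs
      change dt y s ≤ 1
      rw [dt_comm]
      exact hy s hs
    exact convexHull_min h1 (conv_le y 1) hx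

end C0

theorem t_pol : S_pol where
  polz_hl := fun h => C0.polz_eq h
  swap := by
    intro S U h
    refine ⟨?_, C0.rep2 h⟩
    rw [mem_interior]
    refine ⟨⋂ s ∈ S, {y : E | dt s y < 1}, ?_, ?_, ?_⟩
    · intro y hy
      rw [C0.rep2 h]
      intro s hs
      have h1 := mem_iInter₂.1 hy s hs
      exact le_of_lt h1
    · exact isOpen_biInter_finset fun s _ => isOpen_lt (C0.dt_cont s) continuous_const
    · refine mem_iInter₂.2 fun s _ => ?_
      change dt s 0 < 1
      rw [C0.dt_zero]
      exact one_pos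

end H293M
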