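import Pool.Agent.H293R2.M3.Spec

set_option autoImplicit false

open MeasureTheory Set

namespace H293M

namespace C1

theorem hl_erase {S : Finset E} {s : E} (hc : s ∈ convexHull ℝ ((S : Set E) \ {s})) :
    hl (S.erase s) = hl S := by
  unfold hl
  rw [Finset.coe_erase]
  apply Set.Subset.antisymm
  · exact convexHull_mono Set.sdiff_subset
  · refine convexHull_min ?_ (convex_convexHull ℝ _)
    intro x hx
    by_cases h : x = s
    · rw [h]; exact hc
    · exact subset_convexHull ℝ _ ⟨hx, h⟩

theorem convex_half (x : E) : Convex ℝ {v : E | dt v x ≤ 1} := by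
  intro v hv w hw a b ha hb hab
  have hv' : dt v x ≤ 1 := hv
  have hw' : dt w x ≤ 1 := hw
  show dt (a • v + b • w) x ≤ 1
  have e : dt (a • v + b • w) x = a * dt v x + b * dt w x := by
    simp only [dt, Prod.fst_add, Prod.snd_add, Prod.smul_fst, Prod.smul_snd, smul_eq_mul]
    ring
  rw [e]
  nlinarith

end C1

theorem t_erase : S_erase where
  s := by
    intro S U h s _ hc
    have e := C1.hl_erase hc
    exact ⟨⟨by rw [e]; exact h.zero, by rw [e]; exact h.rep⟩, e⟩
  u := by
    intro S U h u hu hc
    refine ⟨⟨h.zero, ?_⟩, C1.hl_erase hc⟩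
    rw [h.rep]
    ext x
    constructor
    · intro hx v hv
      exact hx v (Finset.mem_of_mem_erase hv)
    · intro hx v hv
      by_cases hvu : v = u
      · rw [hvu]
        have h1 : ((U : Set E) \ {u}) ⊆ {v : E | dt v x ≤ 1} := by
          rintro w ⟨hw, hne⟩
          exact hx w (Finset.mem_erase.mpr ⟨hne, hw⟩)
        exact convexHull_min h1 (C1.convex_half x) hc
      · exact hx v (Finset.mem_erase.mpr ⟨hvu, hv⟩)

end H293M
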