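import Pool.Agent.H293R2.M3.Spec

set_option autoImplicit false

open MeasureTheory Set

namespace H293M

namespace C2a

theorem dt_sum (u : E) (S : Finset E) (w : E → ℝ) :
    dt u (∑ y ∈ S, w y • y) = ∑ y ∈ S, w y * dt u y := by
  have h1 : (∑ y ∈ S, w y • y).1 = ∑ y ∈ S, w y * y.1 := by
    rw [Prod.fst_sum]; rfl
  have h2 : (∑ y ∈ S, w y • y).2.1 = ∑ y ∈ S, w y * y.2.1 := by
    rw [Prod.snd_sum, Prod.fst_sum]; rfl
  have h3 : (∑ y ∈ S, w y • y).2.2 = ∑ y ∈ S, w y * y.2.2 := by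
    rw [Prod.snd_sum, Prod.snd_sum]; rfl
  unfold dt
  rw [h1, h2, h3, Finset.mul_sum, Finset.mul_sum, Finset.mul_sum, ← Finset.sum_add_distrib,
    ← Finset.sum_add_distrib]
  refine Finset.sum_congr rfl fun y _ => ?_
  ring

end C2a

theorem t_face : S_face := by
  intro S x hx u hS hux
  unfold hl at hx ⊢
  rw [Finset.mem_convexHull'] at hx ⊢
  obtain ⟨w, hw0, hw1, hwx⟩ := hx
  have hsum : ∑ y ∈ S, w y * (1 - dt u y) = 0 := by
    have h1 : ∑ y ∈ S, w y * (1 - dt u y) = ∑ y ∈ S, w y - ∑ y ∈ S, w y * dt u y := by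
      rw [← Finset.sum_sub_distrib]
      refine Finset.sum_congr rfl fun y _ => ?_
      ring
    rw [h1, hw1, ← C2a.dt_sum, hwx, hux, sub_self]
  have hz : ∀ y ∈ S, w y * (1 - dt u y) = 0 :=
    (Finset.sum_eq_zero_iff_of_nonneg
      (fun y hy => mul_nonneg (hw0 y hy) (by linarith [hS y hy]))).1 hsum
  have hw : ∀ y ∈ S, y ∉ fc S u → w y = 0 := by
    intro y hy hyf
    rcases mul_eq_zero.1 (hz y hy) with h | h
    · exact h
    · exact absurd (Finset.mem_filter.2 ⟨hy, by linarith⟩) hyf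
  have hsub : fc S u ⊆ S := Finset.filter_subset _ _
  refine ⟨w, fun y hy => hw0 y (hsub hy), ?_, ?_⟩
  · rw [← hw1]
    exact Finset.sum_subset hsub (fun y hy hyf => hw y hy hyf)
  · rw [← hwx]
    exact Finset.sum_subset hsub (fun y hy hyf => by rw [hw y hy hyf, zero_smul])

end H293M
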