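import Pool.Agent.H293R2.M3.Spec

set_option autoImplicit false

open MeasureTheory Set

namespace H293M

namespace C2b

theorem exists_eps (S : Finset E) (a b : E → ℝ) (hb : ∀ s ∈ S, 0 ≤ b s)
    (hab : ∀ s ∈ S, b s = 0 → a s = 0) : ∃ ε : ℝ, 0 < ε ∧ ∀ s ∈ S, ε * |a s| ≤ b s := by
  classical
  induction S using Finset.induction_on with
  | empty => exact ⟨1, one_pos, fun s hs => absurd hs (Finset.notMem_empty s)⟩
  | insert s S _ ih =>
    obtain ⟨ε, hε, h⟩ := ih (fun t ht => hb t (Finset.mem_insert_of_mem ht))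
      (fun t ht => hab t (Finset.mem_insert_of_mem ht))
    have hs := hb s (Finset.mem_insert_self s S)
    have hs' := hab s (Finset.mem_insert_self s S)
    obtain ⟨δ, hδ, hδ'⟩ : ∃ δ : ℝ, 0 < δ ∧ δ * |a s| ≤ b s := by
      rcases hs.eq_or_lt with h0 | h0
      · refine ⟨1, one_pos, ?_⟩
        rw [hs' h0.symm, abs_zero, mul_zero]
        exact hs
      · refine ⟨b s / (|a s| + 1), by positivity, ?_⟩
        rw [div_mul_eq_mul_div, div_le_iff₀ (by positivity)]
        nlinarith [abs_nonneg (a s)]
    refine ⟨min ε δ, lt_min hε hδ, ?_⟩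
    intro t ht
    rcases Finset.mem_insert.1 ht with rfl | ht
    · exact (mul_le_mul_of_nonneg_right (min_le_right _ _) (abs_nonneg _)).trans hδ'
    · exact (mul_le_mul_of_nonneg_right (min_le_left _ _) (abs_nonneg _)).trans (h t ht)

theorem dt_comm (u s : E) : dt u s = dt s u := by
  unfold dt
  ring

theorem dt_add (s u w : E) : dt s (u + w) = dt s u + dt s w := by
  unfold dt
  simp only [Prod.fst_add, Prod.snd_add]
  ring

theorem dt_smul (s w : E) (c : ℝ) : dt s (c • w) = c * dt s w := by
  unfold dt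
  simp only [Prod.smul_fst, Prod.smul_snd, smul_eq_mul]
  ring

theorem functional (f : E →ₗ[ℝ] ℝ) :
    ∀ x, f x = dt (f (1, 0, 0), f (0, 1, 0), f (0, 0, 1)) x := by
  intro x
  have hx : x = x.1 • ((1, 0, 0) : E) + x.2.1 • ((0, 1, 0) : E) + x.2.2 • ((0, 0, 1) : E) := by
    apply Prod.ext
    · simp
    · apply Prod.ext <;> simp
  conv_lhs => rw [hx]
  rw [map_add, map_add, map_smul, map_smul, map_smul]
  unfold dt
  simp only [smul_eq_mul]
  ring

end C2b

open C2b in
theorem t_span (h : S_pol) : S_span := by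
  intro S U hPr hIrr u hu
  by_contra hcon
  obtain ⟨f, hf0, hf⟩ := Submodule.exists_le_ker_of_lt_top _ (lt_top_iff_ne_top.2 hcon)
  set w : E := (f (1, 0, 0), f (0, 1, 0), f (0, 0, 1)) with hw
  have hfw : ∀ x, f x = dt w x := functional f
  have hw0 : w ≠ 0 := by
    intro h0
    apply hf0
    refine LinearMap.ext fun x => ?_
    rw [hfw, h0]
    simp [dt]
  have hfc : ∀ s ∈ S, dt u s = 1 → dt w s = 0 := by
    intro s hs hus
    rw [← hfw]
    have : s ∈ Submodule.span ℝ ((fc S u : Finset E) : Set E) := by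
      apply Submodule.subset_span
      rw [Finset.mem_coe, fc, Finset.mem_filter]
      exact ⟨hs, hus⟩
    exact LinearMap.mem_ker.1 (hf this)
  have hle : ∀ s ∈ S, dt u s ≤ 1 := by
    intro s hs
    have h1 : s ∈ hl S := subset_convexHull ℝ _ hs
    rw [hPr.rep] at h1
    exact h1 u hu
  obtain ⟨ε, hε, hεS⟩ := exists_eps S (fun s => dt w s) (fun s => 1 - dt u s)
    (fun s hs => sub_nonneg.2 (hle s hs)) (fun s hs h0 => hfc s hs (by linarith))
  have hrep := (h.swap hPr).rep
  have hmem : ∀ σ : ℝ, |σ| ≤ 1 → u + (σ * ε) • w ∈ hl U := by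
    intro σ hσ
    rw [hrep]
    intro s hs
    rw [dt_add, dt_smul, dt_comm s u, dt_comm s w]
    have h1 := hεS s hs
    have h2 : σ * ε * dt w s ≤ ε * |dt w s| := by
      calc σ * ε * dt w s ≤ |σ * ε * dt w s| := le_abs_self _
        _ = |σ| * (ε * |dt w s|) := by rw [abs_mul, abs_mul, abs_of_pos hε]; ring
        _ ≤ 1 * (ε * |dt w s|) := by
          apply mul_le_mul_of_nonneg_right hσ
          positivity
        _ = ε * |dt w s| := one_mul _
    linarith
  have ha := hmem 1 (by norm_num)
  have hb := hmem (-1) (by norm_num)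
  have hεw : ε • w ≠ 0 := smul_ne_zero hε.ne' hw0
  have hU : (U : Set E) = insert u ((U : Set E) \ {u}) := by
    rw [Set.insert_sdiff_singleton, Set.insert_eq_of_mem (Finset.mem_coe.2 hu)]
  have hnot := hIrr.lu u hu
  set C := convexHull ℝ ((U : Set E) \ {u}) with hC
  have hCc : Convex ℝ C := convex_convexHull ℝ _
  rcases ((U : Set E) \ {u}).eq_empty_or_nonempty with he | hne
  · have h1 : hl U = {u} := by
      unfold hl
      rw [hU, he, insert_empty_eq, convexHull_singleton]
    rw [h1, Set.mem_singleton_iff, one_mul] at ha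
    exact hεw (by simpa using ha)
  · have key : ∀ x ∈ hl U, ∃ t : ℝ, ∃ c ∈ C, 0 ≤ t ∧ x - u = t • (c - u) := by
      intro x hx
      unfold hl at hx
      rw [hU, convexHull_insert hne, mem_convexJoin] at hx
      obtain ⟨v, hv, c, hc, hx⟩ := hx
      rw [Set.mem_singleton_iff] at hv
      subst hv
      obtain ⟨α, t, hα, ht, hαt, rfl⟩ := hx
      refine ⟨t, c, hc, ht, ?_⟩
      have : α = 1 - t := by linarith
      subst this
      module
    obtain ⟨t, a', ha', ht, hta⟩ := key _ ha
    obtain ⟨s, b', hb', hs, hsb⟩ := key _ hb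
    rw [one_mul, add_sub_cancel_left] at hta
    rw [neg_one_mul, add_sub_cancel_left, neg_smul] at hsb
    have ht0 : t ≠ 0 := by
      rintro rfl
      rw [zero_smul] at hta
      exact hεw hta
    have htp : 0 < t := lt_of_le_of_ne ht (Ne.symm ht0)
    have hsum : t • (a' - u) + s • (b' - u) = 0 := by
      rw [← hta, ← hsb, add_neg_cancel]
    apply hnot
    have h3 : u = (t / (t + s)) • a' + (s / (t + s)) • b' := by
      have h4 : (t + s) • u = t • a' + s • b' := by
        have : t • a' + s • b' - (t + s) • u = 0 := by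
          rw [← hsum]
          module
        exact (sub_eq_zero.1 this).symm
      have hts : t + s ≠ 0 := by positivity
      calc u = (t + s)⁻¹ • ((t + s) • u) := by rw [smul_smul, inv_mul_cancel₀ hts, one_smul]
        _ = (t + s)⁻¹ • (t • a' + s • b') := by rw [h4]
        _ = _ := by
          rw [smul_add, smul_smul, smul_smul]
          congr 2 <;> ring
    rw [h3]
    exact hCc ha' hb' (by positivity) (by positivity) (by field_simp)

end H293M
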