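import Pool.Agent.H293R2.M3.Spec

set_option autoImplicit false

open MeasureTheory Set

namespace H293M

namespace C3

theorem dt_mk (a b c a' b' c' : ℝ) : dt (a, b, c) (a', b', c') = a * a' + b * b' + c * c' := rfl

theorem dt_add (w p q : E) : dt w (p + q) = dt w p + dt w q := by
  obtain ⟨w1, w2, w3⟩ := w; obtain ⟨p1, p2, p3⟩ := p; obtain ⟨q1, q2, q3⟩ := q
  simp only [Prod.mk_add_mk, dt_mk]; ring

theorem dt_sub (w p q : E) : dt w (p - q) = dt w p - dt w q := by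
  obtain ⟨w1, w2, w3⟩ := w; obtain ⟨p1, p2, p3⟩ := p; obtain ⟨q1, q2, q3⟩ := q
  simp only [Prod.mk_sub_mk, dt_mk]; ring

theorem dt_smul (w p : E) (a : ℝ) : dt w (a • p) = a * dt w p := by
  obtain ⟨w1, w2, w3⟩ := w; obtain ⟨p1, p2, p3⟩ := p
  simp only [Prod.smul_mk, dt_mk, smul_eq_mul]; ring

/-- two functionals vanishing on two independent vectors and equal to one at `s` agree -/
theorem key_eq (u u' s p q : E) (hs : dt u s = 1) (hs' : dt u' s = 1) (hp : dt u p = 0) (hq : dt u q = 0)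
    (hp' : dt u' p = 0) (hq' : dt u' q = 0)
    (hc : ¬ (p.2.1 * q.2.2 - p.2.2 * q.2.1 = 0 ∧ p.2.2 * q.1 - p.1 * q.2.2 = 0 ∧ p.1 * q.2.1 - p.2.1 * q.1 = 0)) :
    u = u' := by
  obtain ⟨u1, u2, u3⟩ := u; obtain ⟨v1, v2, v3⟩ := u'; obtain ⟨s1, s2, s3⟩ := s
  obtain ⟨p1, p2, p3⟩ := p; obtain ⟨q1, q2, q3⟩ := q
  rw [dt_mk] at hs hs' hp hq hp' hq'
  simp only at hc
  set c1 := p2 * q3 - p3 * q2 with hc1
  set c2 := p3 * q1 - p1 * q3 with hc2
  set c3 := p1 * q2 - p2 * q1 with hc3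
  have hN : 0 < c1 ^ 2 + c2 ^ 2 + c3 ^ 2 := by
    by_contra hcon
    push Not at hcon
    apply hc
    refine ⟨?_, ?_, ?_⟩ <;> nlinarith [sq_nonneg c1, sq_nonneg c2, sq_nonneg c3]
  set N := c1 ^ 2 + c2 ^ 2 + c3 ^ 2 with hNdef
  -- u × c = 0
  have a1 : u2 * c3 - u3 * c2 = 0 := by rw [hc2, hc3]; linear_combination p1 * hq - q1 * hp
  have a2 : u3 * c1 - u1 * c3 = 0 := by rw [hc1, hc3]; linear_combination p2 * hq - q2 * hp
  have a3 : u1 * c2 - u2 * c1 = 0 := by rw [hc1, hc2]; linear_combination p3 * hq - q3 * hp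
  have b1 : v2 * c3 - v3 * c2 = 0 := by rw [hc2, hc3]; linear_combination p1 * hq' - q1 * hp'
  have b2 : v3 * c1 - v1 * c3 = 0 := by rw [hc1, hc3]; linear_combination p2 * hq' - q2 * hp'
  have b3 : v1 * c2 - v2 * c1 = 0 := by rw [hc1, hc2]; linear_combination p3 * hq' - q3 * hp'
  -- N u = (u·c) c
  have e1 : N * u1 = (u1 * c1 + u2 * c2 + u3 * c3) * c1 := by rw [hNdef]; linear_combination c2 * a3 - c3 * a2
  have e2 : N * u2 = (u1 * c1 + u2 * c2 + u3 * c3) * c2 := by rw [hNdef]; linear_combination c3 * a1 - c1 * a3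
  have e3 : N * u3 = (u1 * c1 + u2 * c2 + u3 * c3) * c3 := by rw [hNdef]; linear_combination c1 * a2 - c2 * a1
  set k := u1 * c1 + u2 * c2 + u3 * c3 with hk
  -- u × u' = 0
  have f1 : N * (u2 * v3 - u3 * v2) = 0 := by linear_combination v3 * e2 - v2 * e3 - k * b1
  have f2 : N * (u3 * v1 - u1 * v3) = 0 := by linear_combination v1 * e3 - v3 * e1 - k * b2
  have f3 : N * (u1 * v2 - u2 * v1) = 0 := by linear_combination v2 * e1 - v1 * e2 - k * b3
  have g1 : u2 * v3 - u3 * v2 = 0 := (mul_eq_zero.mp f1).resolve_left hN.ne'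
  have g2 : u3 * v1 - u1 * v3 = 0 := (mul_eq_zero.mp f2).resolve_left hN.ne'
  have g3 : u1 * v2 - u2 * v1 = 0 := (mul_eq_zero.mp f3).resolve_left hN.ne'
  have h1 : u1 = v1 := by linear_combination v1 * hs - u1 * hs' - s3 * g2 + s2 * g3
  have h2 : u2 = v2 := by linear_combination v2 * hs - u2 * hs' - s1 * g3 + s3 * g1
  have h3 : u3 = v3 := by linear_combination v3 * hs - u3 * hs' - s2 * g1 + s1 * g2
  rw [h1, h2, h3]

theorem key_dep (w p q : E) (a b : ℝ) (hw : a * dt w p + b * dt w q = 0) (hwp : dt w p ≠ 0)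
    (hc : p.2.1 * q.2.2 - p.2.2 * q.2.1 = 0 ∧ p.2.2 * q.1 - p.1 * q.2.2 = 0 ∧ p.1 * q.2.1 - p.2.1 * q.1 = 0) :
    a • p + b • q = 0 := by
  obtain ⟨w1, w2, w3⟩ := w
  obtain ⟨p1, p2, p3⟩ := p; obtain ⟨q1, q2, q3⟩ := q
  rw [dt_mk] at hwp
  rw [dt_mk, dt_mk] at hw
  simp only at hc
  obtain ⟨c1, c2, c3⟩ := hc
  have h1 : a * p1 + b * q1 = 0 := by
    have : (w1 * p1 + w2 * p2 + w3 * p3) * (a * p1 + b * q1) = 0 := by
      linear_combination p1 * hw + b * (w3 * c2 - w2 * c3)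
    exact (mul_eq_zero.mp this).resolve_left hwp
  have h2 : a * p2 + b * q2 = 0 := by
    have : (w1 * p1 + w2 * p2 + w3 * p3) * (a * p2 + b * q2) = 0 := by
      linear_combination p2 * hw + b * (w1 * c3 - w3 * c1)
    exact (mul_eq_zero.mp this).resolve_left hwp
  have h3 : a * p3 + b * q3 = 0 := by
    have : (w1 * p1 + w2 * p2 + w3 * p3) * (a * p3 + b * q3) = 0 := by
      linear_combination p3 * hw + b * (w2 * c1 - w1 * c2)
    exact (mul_eq_zero.mp this).resolve_left hwp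
  simp only [Prod.smul_mk, Prod.mk_add_mk, smul_eq_mul, h1, h2, h3]
  rfl

theorem key_a (w u u' s p q : E) (a b : ℝ) (ha : 0 < a) (hb : 0 < b) (hs : dt u s = 1) (hs' : dt u' s = 1)
    (hne : u ≠ u') (hp : dt u p = 0) (hq : dt u q = 0) (hp' : dt u' p ≤ 0) (hq' : dt u' q ≤ 0)
    (hw : a * dt w p + b * dt w q = 0) (hwp : dt w p ≠ 0) (hd : a • p + b • q ≠ 0) :
    dt u' (a • p + b • q) < 0 := by
  by_contra hcon
  push Not at hcon
  rw [dt_add, dt_smul, dt_smul] at hcon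
  have h1 : a * dt u' p ≤ 0 := mul_nonpos_of_nonneg_of_nonpos ha.le hp'
  have h2 : b * dt u' q ≤ 0 := mul_nonpos_of_nonneg_of_nonpos hb.le hq'
  have h3 : a * dt u' p = 0 := by linarith
  have h4 : b * dt u' q = 0 := by linarith
  have h5 : dt u' p = 0 := (mul_eq_zero.mp h3).resolve_left ha.ne'
  have h6 : dt u' q = 0 := (mul_eq_zero.mp h4).resolve_left hb.ne'
  by_cases hc : p.2.1 * q.2.2 - p.2.2 * q.2.1 = 0 ∧ p.2.2 * q.1 - p.1 * q.2.2 = 0 ∧ p.1 * q.2.1 - p.2.1 * q.1 = 0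
  · exact hd (key_dep w p q a b hw hwp hc)
  · exact hne (key_eq u u' s p q hs hs' hp hq h5 h6 hc)

theorem key_b (w u1 u2 u3 d1 d2 d3 p : E) (hwp : dt w p ≠ 0) (hw1 : dt w d1 = 0) (hw2 : dt w d2 = 0)
    (hw3 : dt w d3 = 0) (h11 : dt u1 d1 = 0) (h22 : dt u2 d2 = 0) (h33 : dt u3 d3 = 0)
    (h12 : dt u1 d2 < 0) (h13 : dt u1 d3 < 0) (h21 : dt u2 d1 < 0) (h23 : dt u2 d3 < 0)
    (h31 : dt u3 d1 < 0) (h32 : dt u3 d2 < 0) : False := by
  have hdet : dt u1 d2 * dt u2 d3 * dt u3 d1 + dt u1 d3 * dt u2 d1 * dt u3 d2 = 0 := by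
    obtain ⟨w1, w2, w3⟩ := w; obtain ⟨p1, p2, p3⟩ := p
    obtain ⟨a1, a2, a3⟩ := u1; obtain ⟨b1, b2, b3⟩ := u2; obtain ⟨c1, c2, c3⟩ := u3
    obtain ⟨x1, x2, x3⟩ := d1; obtain ⟨y1, y2, y3⟩ := d2; obtain ⟨z1, z2, z3⟩ := d3
    simp only [dt_mk] at *
    have hD : (w1 * p1 + w2 * p2 + w3 * p3) *
        (x1 * (y2 * z3 - y3 * z2) - x2 * (y1 * z3 - y3 * z1) + x3 * (y1 * z2 - y2 * z1)) = 0 := by
      linear_combination (p1 * (y2 * z3 - y3 * z2) - p2 * (y1 * z3 - y3 * z1) + p3 * (y1 * z2 - y2 * z1)) * hw1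
        - (p1 * (x2 * z3 - x3 * z2) - p2 * (x1 * z3 - x3 * z1) + p3 * (x1 * z2 - x2 * z1)) * hw2
        + (p1 * (x2 * y3 - x3 * y2) - p2 * (x1 * y3 - x3 * y1) + p3 * (x1 * y2 - x2 * y1)) * hw3
    have hD0 := (mul_eq_zero.mp hD).resolve_left hwp
    set D := x1 * (y2 * z3 - y3 * z2) - x2 * (y1 * z3 - y3 * z1) + x3 * (y1 * z2 - y2 * z1) with hDdef
    have hprod : (a1 * x1 + a2 * x2 + a3 * x3) * ((b1 * y1 + b2 * y2 + b3 * y3) * (c1 * z1 + c2 * z2 + c3 * z3)
          - (b1 * z1 + b2 * z2 + b3 * z3) * (c1 * y1 + c2 * y2 + c3 * y3))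
        - (a1 * y1 + a2 * y2 + a3 * y3) * ((b1 * x1 + b2 * x2 + b3 * x3) * (c1 * z1 + c2 * z2 + c3 * z3)
          - (b1 * z1 + b2 * z2 + b3 * z3) * (c1 * x1 + c2 * x2 + c3 * x3))
        + (a1 * z1 + a2 * z2 + a3 * z3) * ((b1 * x1 + b2 * x2 + b3 * x3) * (c1 * y1 + c2 * y2 + c3 * y3)
          - (b1 * y1 + b2 * y2 + b3 * y3) * (c1 * x1 + c2 * x2 + c3 * x3))
        = (a1 * (b2 * c3 - b3 * c2) - a2 * (b1 * c3 - b3 * c1) + a3 * (b1 * c2 - b2 * c1)) * D := by
      rw [hDdef]; ring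
    rw [hD0, mul_zero, h11, h22, h33] at hprod
    linear_combination hprod
  have h1 : dt u1 d2 * dt u2 d3 * dt u3 d1 < 0 := mul_neg_of_pos_of_neg (mul_pos_of_neg_of_neg h12 h23) h31
  have h2 : dt u1 d3 * dt u2 d1 * dt u3 d2 < 0 := mul_neg_of_pos_of_neg (mul_pos_of_neg_of_neg h13 h21) h32
  linarith

/-- a linear functional injective on a finite set -/
theorem exists_w (S : Finset E) : ∃ w : E, ∀ x ∈ S, ∀ y ∈ S, dt w x = dt w y → x = y := by
  classical
  let P : E × E → Polynomial ℝ := fun q =>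
    Polynomial.C (q.1.1 - q.2.1) + Polynomial.C (q.1.2.1 - q.2.2.1) * Polynomial.X +
      Polynomial.C (q.1.2.2 - q.2.2.2) * Polynomial.X ^ 2
  have hP : ∀ q ∈ S.offDiag, P q ≠ 0 := by
    intro q hq h0
    rw [Finset.mem_offDiag] at hq
    apply hq.2.2
    have c0 := congrArg (fun f => Polynomial.eval 0 f) h0
    have c1 := congrArg (fun f => Polynomial.eval 1 f) h0
    have c2 := congrArg (fun f => Polynomial.eval (-1) f) h0
    simp only [P, Polynomial.eval_add, Polynomial.eval_mul, Polynomial.eval_C, Polynomial.eval_X,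
      Polynomial.eval_pow, Polynomial.eval_zero] at c0 c1 c2
    refine Prod.ext ?_ (Prod.ext ?_ ?_)
    · linarith
    · linarith
    · linarith
  have hprod : (∏ q ∈ S.offDiag, P q) ≠ 0 := Finset.prod_ne_zero_iff.mpr hP
  obtain ⟨t, ht⟩ := Infinite.exists_notMem_finset (∏ q ∈ S.offDiag, P q).roots.toFinset
  rw [Multiset.mem_toFinset, Polynomial.mem_roots hprod, Polynomial.IsRoot.def, Polynomial.eval_prod,
    Finset.prod_eq_zero_iff] at ht
  push Not at ht
  refine ⟨(1, t, t ^ 2), fun x hx y hy hxy => ?_⟩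
  by_contra hne
  apply ht (x, y) (Finset.mem_offDiag.mpr ⟨hx, hy, hne⟩)
  obtain ⟨x1, x2, x3⟩ := x; obtain ⟨y1, y2, y3⟩ := y
  simp only [dt_mk] at hxy
  simp only [P, Polynomial.eval_add, Polynomial.eval_mul, Polynomial.eval_C, Polynomial.eval_X, Polynomial.eval_pow]
  linarith

/-- `s` is strictly between two points of the facet `u` -/
def Mid (w : E) (S : Finset E) (u s : E) : Prop :=
  ∃ x ∈ fc S u, ∃ y ∈ fc S u, dt w s < dt w x ∧ dt w y < dt w s

theorem mem_fc {S : Finset E} {u s : E} : s ∈ fc S u ↔ s ∈ S ∧ dt u s = 1 := by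
  unfold fc; rw [Finset.mem_filter]

/-- data at a middle point -/
theorem mid_data {S U : Finset E} (hP : Pr S U) (hI : Irr S U) {w u s : E} (hs : s ∈ S) (hus : dt u s = 1)
    (hm : Mid w S u s) (hle : ∀ v ∈ U, ∀ x ∈ S, dt v x ≤ 1) :
    ∃ p : E, dt w p ≠ 0 ∧ ∃ d : E, dt w d = 0 ∧ dt u d = 0 ∧
      ∀ v ∈ U, dt v s = 1 → u ≠ v → dt v d < 0 := by
  obtain ⟨x, hx, y, hy, hwx, hwy⟩ := hm
  rw [mem_fc] at hx hy
  set A := dt w x - dt w s with hA
  set B := dt w s - dt w y with hB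
  have hApos : 0 < A := by rw [hA]; linarith
  have hBpos : 0 < B := by rw [hB]; linarith
  have hAB : 0 < A + B := by linarith
  have hwp : dt w (x - s) ≠ 0 := by rw [dt_sub]; exact hApos.ne'
  set a := B / (A + B) with ha
  set b := A / (A + B) with hb
  have ha0 : 0 < a := div_pos hBpos hAB
  have hb0 : 0 < b := div_pos hApos hAB
  have hab : a + b = 1 := by rw [ha, hb]; field_simp; ring
  have hw : a * dt w (x - s) + b * dt w (y - s) = 0 := by
    rw [dt_sub, dt_sub, ha, hb]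
    have : dt w y - dt w s = -B := by rw [hB]; ring
    rw [this, ← hA]; field_simp; ring
  have hxs : x ≠ s := by rintro rfl; exact lt_irrefl _ hwx
  have hys : y ≠ s := by rintro rfl; exact lt_irrefl _ hwy
  have hd : a • (x - s) + b • (y - s) ≠ 0 := by
    intro h0
    apply hI.ls s hs
    have e : s = a • x + b • y := by
      have e1 : a • (x - s) + b • (y - s) = (a • x + b • y) - (a + b) • s := by
        rw [smul_sub, smul_sub, add_smul]; abel
      rw [e1, hab, one_smul, sub_eq_zero] at h0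
      exact h0.symm
    rw [e]
    have hconv := convex_convexHull ℝ ((S : Set E) \ {s})
    have hx' : x ∈ convexHull ℝ ((S : Set E) \ {s}) := subset_convexHull ℝ _ ⟨hx.1, hxs⟩
    have hy' : y ∈ convexHull ℝ ((S : Set E) \ {s}) := subset_convexHull ℝ _ ⟨hy.1, hys⟩
    rw [e] at hx' hy' hconv
    exact hconv hx' hy' ha0.le hb0.le hab
  refine ⟨x - s, hwp, a • (x - s) + b • (y - s), ?_, ?_, ?_⟩
  · rw [dt_add, dt_smul, dt_smul]; exact hw
  · rw [dt_add, dt_smul, dt_smul, dt_sub, dt_sub, hx.2, hy.2, hus]; ring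
  · intro v hv hvs huv
    apply key_a w u v s (x - s) (y - s) a b ha0 hb0 hus hvs huv
    · rw [dt_sub, hx.2, hus, sub_self]
    · rw [dt_sub, hy.2, hus, sub_self]
    · rw [dt_sub, hvs]; linarith [hle v hv x hx.1]
    · rw [dt_sub, hvs]; linarith [hle v hv y hy.1]
    · exact hw
    · exact hwp
    · exact hd

end C3

open C3 in
theorem t_count (h : S_span) : S_count := by
  classical
  intro S U hP hI
  have hle : ∀ v ∈ U, ∀ x ∈ S, dt v x ≤ 1 := by
    intro v hv x hx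
    have hx' : x ∈ hl S := subset_convexHull ℝ _ hx
    rw [hP.rep] at hx'
    exact hx' v hv
  obtain ⟨w, hw⟩ := exists_w S
  -- `S` has at least two points
  have hne : S.Nonempty := by
    rw [Finset.nonempty_iff_ne_empty]
    rintro rfl
    have h0 := hP.zero
    unfold hl at h0
    simp at h0
  obtain ⟨T, hTS, hT⟩ := Finset.exists_max_image S (fun s => dt w s) hne
  obtain ⟨B, hBS, hB⟩ := Finset.exists_min_image S (fun s => dt w s) hne
  have hTB : T ≠ B := by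
    intro hTB
    have hall : ∀ s ∈ S, s = T := by
      intro s hs
      apply hw s hs T hTS
      have h1 := hT s hs
      have h2 := hB s hs
      rw [← hTB] at h2
      exact le_antisymm h1 h2
    have hS : S = {T} := by
      ext s; rw [Finset.mem_singleton]
      exact ⟨hall s, fun h => h ▸ hTS⟩
    have h0 := hP.zero
    unfold hl at h0
    rw [hS] at h0
    simp at h0
  -- middles
  let M : E → Finset E := fun u => (fc S u).filter (fun s => Mid w S u s)
  have hM : ∀ u, (fc S u).card ≤ (M u).card + 2 := by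
    intro u
    rcases (fc S u).eq_empty_or_nonempty with h0 | h0
    · rw [h0]; simp
    obtain ⟨t, ht, htm⟩ := Finset.exists_max_image (fc S u) (fun s => dt w s) h0
    obtain ⟨b, hb, hbm⟩ := Finset.exists_min_image (fc S u) (fun s => dt w s) h0
    have hsub : fc S u ⊆ M u ∪ {t, b} := by
      intro s hs
      rw [Finset.mem_union]
      by_cases h1 : s = t
      · right; simp [h1]
      by_cases h2 : s = b
      · right; simp [h2]
      left
      rw [Finset.mem_filter]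
      refine ⟨hs, t, ht, b, hb, ?_, ?_⟩
      · refine lt_of_le_of_ne (htm s hs) fun e => h1 (hw s (mem_fc.mp hs).1 t (mem_fc.mp ht).1 e)
      · refine lt_of_le_of_ne (hbm s hs) fun e => h2 (hw b (mem_fc.mp hb).1 s (mem_fc.mp hs).1 e).symm
    have h1 := Finset.card_le_card hsub
    have h2 := Finset.card_union_le (M u) {t, b}
    have h3 : ({t, b} : Finset E).card ≤ 2 := Finset.card_le_two
    omega
  -- number of facets having `s` as a middle
  let N : E → ℕ := fun s => (U.filter (fun u => s ∈ M u)).card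
  have hMS : ∀ u, M u ⊆ S := fun u s hs => (mem_fc.mp (Finset.mem_filter.mp hs).1).1
  have hdc : ∑ u ∈ U, (M u).card = ∑ s ∈ S, N s := by
    have e1 : ∀ u ∈ U, (M u).card = ∑ s ∈ S, if s ∈ M u then 1 else 0 := by
      intro u _
      rw [Finset.sum_boole]
      simp only [Nat.cast_id]
      congr 1
      ext s; simp only [Finset.mem_filter]
      exact ⟨fun hs => ⟨hMS u hs, hs⟩, fun hs => hs.2⟩
    rw [Finset.sum_congr rfl e1, Finset.sum_comm]
    refine Finset.sum_congr rfl fun s _ => ?_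
    rw [Finset.sum_boole]; simp [N]
  have hN2 : ∀ s ∈ S, N s ≤ 2 := by
    intro s hs
    by_contra hcon
    push Not at hcon
    obtain ⟨u1, u2, u3, hu1, hu2, hu3, h12, h13, h23⟩ := Finset.two_lt_card_iff.mp hcon
    rw [Finset.mem_filter, Finset.mem_filter] at hu1 hu2 hu3
    have e1 := (mem_fc.mp hu1.2.1).2
    have e2 := (mem_fc.mp hu2.2.1).2
    have e3 := (mem_fc.mp hu3.2.1).2
    obtain ⟨p, hp, d1, a1, b1, c1⟩ := mid_data hP hI hs e1 hu1.2.2 hle
    obtain ⟨_, _, d2, a2, b2, c2⟩ := mid_data hP hI hs e2 hu2.2.2 hle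
    obtain ⟨_, _, d3, a3, b3, c3⟩ := mid_data hP hI hs e3 hu3.2.2 hle
    exact key_b w u1 u2 u3 d1 d2 d3 p hp a1 a2 a3 b1 b2 b3
      (c2 u1 hu1.1 e1 h12.symm) (c3 u1 hu1.1 e1 h13.symm)
      (c1 u2 hu2.1 e2 h12) (c3 u2 hu2.1 e2 h23.symm)
      (c1 u3 hu3.1 e3 h13) (c2 u3 hu3.1 e3 h23)
  have hNT : N T = 0 := by
    rw [Finset.card_eq_zero, Finset.filter_eq_empty_iff]
    intro u _ hTM
    obtain ⟨x, hx, -, -, h1, -⟩ := (Finset.mem_filter.mp hTM).2
    exact absurd (hT x (mem_fc.mp hx).1) (not_le.mpr h1)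
  have hNB : N B = 0 := by
    rw [Finset.card_eq_zero, Finset.filter_eq_empty_iff]
    intro u _ hBM
    obtain ⟨-, -, y, hy, -, h1⟩ := (Finset.mem_filter.mp hBM).2
    exact absurd (hB y (mem_fc.mp hy).1) (not_le.mpr h1)
  have hBe : B ∈ S.erase T := Finset.mem_erase.mpr ⟨hTB.symm, hBS⟩
  have hsum : ∑ s ∈ S, N s ≤ 2 * ((S.erase T).erase B).card := by
    rw [← Finset.add_sum_erase S N hTS, hNT, zero_add, ← Finset.add_sum_erase (S.erase T) N hBe, hNB, zero_add]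
    calc ∑ s ∈ (S.erase T).erase B, N s ≤ ∑ _s ∈ (S.erase T).erase B, 2 :=
          Finset.sum_le_sum fun s hs => hN2 s (Finset.mem_of_mem_erase (Finset.mem_of_mem_erase hs))
      _ = 2 * ((S.erase T).erase B).card := by rw [Finset.sum_const, smul_eq_mul, mul_comm]
  have hcard : ((S.erase T).erase B).card + 2 = S.card := by
    have h1 := Finset.card_erase_add_one hBe
    have h2 := Finset.card_erase_add_one hTS
    omega
  have hinc : inc S U ≤ ∑ u ∈ U, (M u).card + 2 * U.card := by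
    unfold inc
    calc ∑ u ∈ U, (fc S u).card ≤ ∑ u ∈ U, ((M u).card + 2) := Finset.sum_le_sum fun u _ => hM u
      _ = ∑ u ∈ U, (M u).card + 2 * U.card := by
          rw [Finset.sum_add_distrib, Finset.sum_const, smul_eq_mul, mul_comm]
  rw [hdc] at hinc
  omega

end H293M
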