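import Pool.Agent.H293R2.M3.Spec
set_option autoImplicit false
open MeasureTheory Set
namespace H293M

theorem C4a.finrank_E : Module.finrank ℝ E = 3 := by
  simp [E]

theorem t_four : S_four := by
  classical
  intro S U h
  have h1 : (interior (convexHull ℝ (S : Set E))).Nonempty := ⟨0, h.zero⟩
  rw [interior_convexHull_nonempty_iff_affineSpan_eq_top] at h1
  have h2 : vectorSpan ℝ (S : Set E) = ⊤ := by
    rw [← direction_affineSpan, h1, AffineSubspace.direction_top]
  have hne : S.card ≠ 0 := by
    intro h0
    rw [Finset.card_eq_zero] at h0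
    subst h0
    have := h.zero
    unfold hl at this
    simp at this
  obtain ⟨n, hn⟩ := Nat.exists_eq_succ_of_ne_zero hne
  have h3 := finrank_vectorSpan_image_finset_le ℝ (id : E → E) S hn
  rw [Finset.image_id, h2, finrank_top, C4a.finrank_E] at h3
  omega

end H293M
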