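import Pool.Agent.H293R2.M3.Spec

set_option autoImplicit false

open MeasureTheory Set

namespace H293M

namespace C4b

/-- evaluation of the linear forms `dt g` on a finite set -/
noncomputable def j (T : Finset E) : E →ₗ[ℝ] (T → ℝ) where
  toFun g := fun s => dt g s.1
  map_add' a b := by
    funext s
    simp only [dt, Prod.fst_add, Prod.snd_add, Pi.add_apply]
    ring
  map_smul' c a := by
    funext s
    simp only [dt, Prod.smul_fst, Prod.smul_snd, smul_eq_mul, Pi.smul_apply, RingHom.id_apply]
    ring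

theorem j_inj {T : Finset E} (h : Submodule.span ℝ (T : Set E) = ⊤) :
    Function.Injective (j T) := by
  rw [← LinearMap.ker_eq_bot, LinearMap.ker_eq_bot']
  intro g hg
  have h1 : ∀ x : E, dt g x = 0 := by
    intro x
    have hx : x ∈ Submodule.span ℝ (T : Set E) := by rw [h]; trivial
    induction hx using Submodule.span_induction with
    | mem x hx => exact congrFun hg ⟨x, hx⟩
    | zero => simp [dt]
    | add x y _ _ hx hy =>
      simp only [dt, Prod.fst_add, Prod.snd_add] at *
      linarith
    | smul a x _ hx =>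
      simp only [dt, Prod.smul_fst, Prod.smul_snd, smul_eq_mul] at *
      linear_combination a * hx
  have h2 := h1 g
  simp only [dt] at h2
  have e1 : g.1 = 0 := by nlinarith [sq_nonneg g.1, sq_nonneg g.2.1, sq_nonneg g.2.2]
  have e2 : g.2.1 = 0 := by nlinarith [sq_nonneg g.1, sq_nonneg g.2.1, sq_nonneg g.2.2]
  have e3 : g.2.2 = 0 := by nlinarith [sq_nonneg g.1, sq_nonneg g.2.1, sq_nonneg g.2.2]
  exact Prod.ext e1 (Prod.ext e2 e3)

theorem finrank_E : Module.finrank ℝ E = 3 := by
  simp [Module.finrank_prod]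

/-- restriction to a facet -/
noncomputable def res (S : Finset E) (u : E) : (S → ℝ) →ₗ[ℝ] (fc S u → ℝ) where
  toFun b := fun s => b ⟨s.1, (Finset.mem_filter.1 s.2).1⟩
  map_add' _ _ := rfl
  map_smul' _ _ := rfl

/-- the affine functions -/
noncomputable def aff (S : Finset E) : (E × ℝ) →ₗ[ℝ] (S → ℝ) where
  toFun p := fun s => dt p.1 s.1 + p.2
  map_add' a b := by
    funext s
    simp only [dt, Prod.fst_add, Prod.snd_add, Pi.add_apply]
    ring
  map_smul' c a := by
    funext s
    simp only [dt, Prod.smul_fst, Prod.smul_snd, smul_eq_mul, Pi.smul_apply, RingHom.id_apply]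
    ring

/-- the conditions for all facets except one -/
noncomputable def cond (S : Finset E) (V : Finset E) :
    (S → ℝ) →ₗ[ℝ] ((u : V) → ((fc S u.1 → ℝ) ⧸ LinearMap.range (j (fc S u.1)))) :=
  LinearMap.pi fun u => (LinearMap.range (j (fc S u.1))).mkQ ∘ₗ res S u.1

theorem finrank_quot {T : Finset E} (h : Submodule.span ℝ (T : Set E) = ⊤) :
    Module.finrank ℝ ((T → ℝ) ⧸ LinearMap.range (j T)) + 3 = T.card := by
  have h1 := Submodule.finrank_quotient_add_finrank (LinearMap.range (j T))
  rw [LinearMap.finrank_range_of_inj (j_inj h), finrank_E] at h1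
  rw [h1]
  simp

theorem finrank_cond (S V : Finset E)
    (h : ∀ u ∈ V, Submodule.span ℝ ((fc S u : Finset E) : Set E) = ⊤) :
    Module.finrank ℝ ((u : V) → ((fc S u.1 → ℝ) ⧸ LinearMap.range (j (fc S u.1)))) + 3 * V.card =
      ∑ u ∈ V, (fc S u).card := by
  rw [Module.finrank_pi_fintype]
  have h1 : ∑ u ∈ V, (fc S u).card = ∑ u : V, (fc S u.1).card := by
    rw [Finset.sum_coe_sort V (fun u => (fc S u).card)]
  rw [h1]
  have h2 : ∀ u : V, (fc S u.1).card =
      Module.finrank ℝ ((fc S u.1 → ℝ) ⧸ LinearMap.range (j (fc S u.1))) + 3 :=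
    fun u => (finrank_quot (h u.1 u.2)).symm
  rw [Finset.sum_congr rfl fun u _ => h2 u, Finset.sum_add_distrib]
  simp
  ring

theorem exists_dir (u : E) : ∃ θ : E, θ ≠ 0 ∧ dt u θ = 0 := by
  by_cases h : u.1 = 0
  · exact ⟨(1, 0, 0), by simp [Prod.ext_iff], by simp [dt, h]⟩
  · refine ⟨(u.2.1, -u.1, 0), ?_, by simp [dt]; ring⟩
    intro h0
    have := congrArg (fun x : E => x.2.1) h0
    simp at this
    exact h this

end C4b

open C4b in
theorem t_beta (h1 : S_count) (h2 : S_span) : S_beta := by
  classical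
  intro S U hP hI h5 hSU
  have hne : U.Nonempty := by
    rw [← Finset.card_pos]; omega
  obtain ⟨u0, hu0, hmax⟩ := Finset.exists_max_image U (fun u => (fc S u).card) hne
  obtain ⟨θ, hθ, hθ0⟩ := exists_dir u0
  have hspan : ∀ u ∈ U, Submodule.span ℝ ((fc S u : Finset E) : Set E) = ⊤ :=
    fun u hu => h2 hP hI hu
  have hcount := h1 hP hI
  have hinc : inc S U = (fc S u0).card + ∑ u ∈ U.erase u0, (fc S u).card := by
    unfold inc
    exact (Finset.add_sum_erase U (fun u => (fc S u).card) hu0).symm
  have hge : ∀ u ∈ U, 3 ≤ (fc S u).card := by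
    intro u hu
    have := finrank_quot (hspan u hu)
    omega
  have hq := finrank_cond S (U.erase u0) (fun u hu => hspan u (Finset.mem_of_mem_erase hu))
  have hce : (U.erase u0).card + 1 = U.card := Finset.card_erase_add_one hu0
  -- dimension of the kernel
  have hker := LinearMap.finrank_range_add_finrank_ker (cond S (U.erase u0))
  have hran := Submodule.finrank_le (LinearMap.range (cond S (U.erase u0)))
  have hV : Module.finrank ℝ (S → ℝ) = S.card := by simp
  rw [hV] at hker
  have haff : Module.finrank ℝ (LinearMap.range (aff S)) ≤ 4 := by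
    refine (LinearMap.finrank_range_le (aff S)).trans ?_
    rw [Module.finrank_prod, finrank_E]
    simp
  have hbig : Module.finrank ℝ (LinearMap.range (aff S)) <
      Module.finrank ℝ (LinearMap.ker (cond S (U.erase u0))) := by
    by_cases hm : 4 ≤ (fc S u0).card
    · omega
    · have hall : ∀ u ∈ U.erase u0, (fc S u).card = 3 := by
        intro u hu
        have a1 := hge u (Finset.mem_of_mem_erase hu)
        have a2 := hmax u (Finset.mem_of_mem_erase hu)
        omega
      rw [Finset.sum_congr rfl hall, Finset.sum_const, smul_eq_mul] at hq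
      have : (U.erase u0).card * 3 = 3 * (U.erase u0).card := mul_comm _ _
      omega
  have hnle : ¬ LinearMap.ker (cond S (U.erase u0)) ≤ LinearMap.range (aff S) := by
    intro hle
    exact absurd (Submodule.finrank_mono hle) (not_le.2 hbig)
  obtain ⟨b, hb, hb'⟩ := SetLike.not_le_iff_exists.1 hnle
  refine ⟨θ, fun s => if h : s ∈ S then b ⟨s, h⟩ else 0, hθ, ?_, ?_⟩
  · intro u hu hud
    have hne : u ≠ u0 := by
      rintro rfl
      exact hud hθ0
    have hmem : u ∈ U.erase u0 := Finset.mem_erase.2 ⟨hne, hu⟩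
    have hz := congrFun (LinearMap.mem_ker.1 hb) ⟨u, hmem⟩
    have hz' : (LinearMap.range (j (fc S u))).mkQ (res S u b) = 0 := hz
    rw [Submodule.mkQ_apply, Submodule.Quotient.mk_eq_zero] at hz'
    obtain ⟨g, hg⟩ := hz'
    refine ⟨g, ?_⟩
    intro s hs hus
    have hsf : s ∈ fc S u := Finset.mem_filter.2 ⟨hs, hus⟩
    have := congrFun hg ⟨s, hsf⟩
    simp only [dif_pos hs]
    exact this.symm
  · rintro ⟨g, c, hgc⟩
    apply hb'
    refine ⟨(g, c), ?_⟩
    funext s
    have := hgc s.1 s.2
    simp only [dif_pos s.2] at this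
    exact this.symm

end H293M
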