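import Pool.Agent.H293R2.M3.Spec

set_option autoImplicit false

open MeasureTheory Set

namespace H293M

namespace C5

theorem dt_add_left (x y z : E) : dt (x + y) z = dt x z + dt y z := by
  simp only [dt, Prod.fst_add, Prod.snd_add]
  ring

theorem dt_smul_left (c : ℝ) (x z : E) : dt (c • x) z = c * dt x z := by
  simp only [dt, Prod.smul_fst, Prod.smul_snd, smul_eq_mul]
  ring

theorem dt_comm (x y : E) : dt x y = dt y x := by
  simp only [dt]
  ring

theorem dt_add_right (x y z : E) : dt z (x + y) = dt z x + dt z y := by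
  rw [dt_comm, dt_add_left, dt_comm x, dt_comm y]

theorem dt_smul_right (c : ℝ) (x z : E) : dt z (c • x) = c * dt z x := by
  rw [dt_comm, dt_smul_left, dt_comm x]

theorem dt_sub_right (x y z : E) : dt z (x - y) = dt z x - dt z y := by
  simp only [dt, Prod.fst_sub, Prod.snd_sub]
  ring

theorem dt_self_eq_zero {v : E} (h : dt v v = 0) : v = 0 := by
  simp only [dt] at h
  have h1 : v.1 = 0 := by nlinarith [mul_self_nonneg v.1, mul_self_nonneg v.2.1, mul_self_nonneg v.2.2]
  have h2 : v.2.1 = 0 := by nlinarith [mul_self_nonneg v.1, mul_self_nonneg v.2.1, mul_self_nonneg v.2.2]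
  have h3 : v.2.2 = 0 := by nlinarith [mul_self_nonneg v.1, mul_self_nonneg v.2.1, mul_self_nonneg v.2.2]
  exact Prod.ext h1 (Prod.ext h2 h3)

theorem dt_self_nonneg (v : E) : 0 ≤ dt v v := by
  simp only [dt]
  nlinarith [mul_self_nonneg v.1, mul_self_nonneg v.2.1, mul_self_nonneg v.2.2]

/-- reflection -/
noncomputable def rf (v x : E) : E := x - (2 * dt v x / dt v v) • v

theorem rf_add (v x y : E) : rf v (x + y) = rf v x + rf v y := by
  unfold rf
  rw [dt_add_right]
  have : 2 * (dt v x + dt v y) / dt v v = 2 * dt v x / dt v v + 2 * dt v y / dt v v := by ring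
  rw [this, add_smul]
  abel

theorem rf_smul (v x : E) (c : ℝ) : rf v (c • x) = c • rf v x := by
  unfold rf
  rw [dt_smul_right, smul_sub, smul_smul]
  congr 2
  ring

theorem rf_rf (v x : E) : rf v (rf v x) = x := by
  by_cases h : dt v v = 0
  · have h1 := dt_self_eq_zero h
    subst h1
    simp [rf]
  · have h1 : dt v (rf v x) = - dt v x := by
      unfold rf
      rw [dt_sub_right, dt_smul_right, div_mul_cancel₀ _ h]
      ring
    have h2 : rf v (rf v x) = rf v x - (2 * dt v (rf v x) / dt v v) • v := rfl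
    rw [h2, h1]
    unfold rf
    have h3 : 2 * -dt v x / dt v v = -(2 * dt v x / dt v v) := by ring
    rw [h3, neg_smul, sub_neg_eq_add, sub_add_cancel]

theorem rf_sym (v x y : E) : dt (rf v x) y = dt x (rf v y) := by
  unfold rf
  rw [dt_comm, dt_sub_right, dt_smul_right, dt_sub_right, dt_smul_right, dt_comm y x,
    dt_comm y v, dt_comm x v]
  ring

/-- the symmetric change of coordinates -/
theorem exists_map {θ : E} (hθ : θ ≠ 0) : ∃ A : E ≃ₗ[ℝ] E,
    (∀ x y, dt (A x) y = dt x (A y)) ∧ A θ = (0, 0, 1) := by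
  have h0 : 0 < dt θ θ := lt_of_le_of_ne (dt_self_nonneg θ) fun h => hθ (dt_self_eq_zero h.symm)
  set n := Real.sqrt (dt θ θ) with hn
  have hn0 : 0 < n := Real.sqrt_pos.2 h0
  have hnn : n * n = dt θ θ := Real.mul_self_sqrt h0.le
  set v : E := θ - n • (0, 0, 1) with hv
  have hθv : rf v θ = n • ((0, 0, 1) : E) := by
    by_cases h : dt v v = 0
    · have h1 := dt_self_eq_zero h
      rw [h1]
      rw [hv, sub_eq_zero] at h1
      unfold rf
      rw [smul_zero, sub_zero]
      exact h1
    · have e1 : dt v θ = n * n - n * θ.2.2 := by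
        rw [hnn, hv]
        simp only [dt, Prod.fst_sub, Prod.snd_sub, Prod.smul_mk, smul_eq_mul, mul_zero, mul_one]
        ring
      have e2 : dt v v = 2 * (n * n - n * θ.2.2) := by
        have : dt v v = dt θ θ - 2 * n * θ.2.2 + n * n := by
          rw [hv]
          simp only [dt, Prod.fst_sub, Prod.snd_sub, Prod.smul_mk, smul_eq_mul, mul_zero, mul_one]
          ring
        rw [this, ← hnn]
        ring
      have e3 : 2 * dt v θ / dt v v = 1 := by
        rw [e1, e2]
        refine div_self ?_
        rw [← e2]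
        exact h
      unfold rf
      rw [e3, one_smul, hv]
      abel
  refine ⟨{ toFun := fun x => n⁻¹ • rf v x
            invFun := fun x => n • rf v x
            map_add' := fun x y => by rw [rf_add, smul_add]
            map_smul' := fun c x => by rw [rf_smul, smul_comm, RingHom.id_apply]
            left_inv := fun x => by
              simp only
              rw [rf_smul, rf_rf, smul_smul, mul_inv_cancel₀ hn0.ne', one_smul]
            right_inv := fun x => by
              simp only
              rw [rf_smul, rf_rf, smul_smul, inv_mul_cancel₀ hn0.ne', one_smul] }, ?_, ?_⟩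
  · intro x y
    change dt (n⁻¹ • rf v x) y = dt x (n⁻¹ • rf v y)
    rw [dt_smul_left, dt_smul_right, rf_sym]
  · change n⁻¹ • rf v θ = (0, 0, 1)
    rw [hθv, smul_smul, inv_mul_cancel₀ hn0.ne', one_smul]

open scoped Classical in
theorem hl_image (S : Finset E) (A : E ≃ₗ[ℝ] E) : hl (S.image A) = A '' hl S := by
  unfold hl
  rw [Finset.coe_image]
  exact ((A : E →ₗ[ℝ] E).image_convexHull (S : Set E)).symm

theorem haar2 : (volume : Measure (ℝ × ℝ)).IsAddHaarMeasure := by
  rw [Measure.volume_eq_prod]
  infer_instance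

theorem haar3 : (volume : Measure E).IsAddHaarMeasure := by
  have := haar2
  rw [Measure.volume_eq_prod]
  infer_instance

theorem vl_image (X : Set E) (A : E ≃ₗ[ℝ] E) :
    vl (A '' X) = |LinearMap.det (A : E →ₗ[ℝ] E)| * vl X := by
  unfold vl
  have := haar3
  have h := MeasureTheory.Measure.addHaar_image_linearMap (volume : Measure E)
    (A : E →ₗ[ℝ] E) X
  have h2 : (A : E →ₗ[ℝ] E) '' X = A '' X := rfl
  rw [h2] at h
  rw [h, ENNReal.toReal_mul, ENNReal.toReal_ofReal (abs_nonneg _)]

end C5

open C5

theorem t_coord : S_coord := by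
  classical
  intro S U hP hI θ β hθ hβ hA
  obtain ⟨A, hsym, hAθ⟩ := exists_map hθ
  have hdt : ∀ u s, dt (A.symm u) (A s) = dt u s := by
    intro u s
    rw [← hsym, A.apply_symm_apply]
  refine ⟨S.image A, U.image A.symm, fun x => β (A.symm x), ⟨?_, ?_⟩, ⟨?_, ?_⟩, ?_, ?_, ?_, ?_,
    ?_, ?_⟩
  · rw [hl_image]
    have h1 : A '' interior (hl S) = interior (A '' hl S) :=
      A.toContinuousLinearEquiv.toHomeomorph.image_interior (hl S)
    rw [← h1]
    exact ⟨0, hP.zero, map_zero A⟩
  · rw [hl_image, hP.rep]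
    ext x
    simp only [mem_image, mem_ofPred_eq, Finset.mem_image]
    constructor
    · rintro ⟨y, hy, rfl⟩ _ ⟨u, hu, rfl⟩
      rw [hdt]
      exact hy u hu
    · intro h
      refine ⟨A.symm x, fun u hu => ?_, A.apply_symm_apply x⟩
      have h1 := h _ ⟨u, hu, rfl⟩
      rw [← hdt, A.apply_symm_apply]
      exact h1
  · intro s' hs'
    obtain ⟨s, hs, rfl⟩ := Finset.mem_image.1 hs'
    intro h
    have h1 : ((S.image A : Finset E) : Set E) \ {A s} = A '' ((S : Set E) \ {s}) := by
      rw [Finset.coe_image, image_sdiff A.injective, image_singleton]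
    rw [h1] at h
    have h2 : convexHull ℝ (A '' ((S : Set E) \ {s})) = A '' convexHull ℝ ((S : Set E) \ {s}) :=
      ((A : E →ₗ[ℝ] E).image_convexHull _).symm
    rw [h2] at h
    exact hI.ls s hs ((A.injective.mem_set_image).1 h)
  · intro s' hs'
    obtain ⟨s, hs, rfl⟩ := Finset.mem_image.1 hs'
    intro h
    have h1 : ((U.image A.symm : Finset E) : Set E) \ {A.symm s} =
        A.symm '' ((U : Set E) \ {s}) := by
      rw [Finset.coe_image, image_sdiff A.symm.injective, image_singleton]
    rw [h1] at h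
    have h2 : convexHull ℝ (A.symm '' ((U : Set E) \ {s})) =
        A.symm '' convexHull ℝ ((U : Set E) \ {s}) :=
      ((A.symm : E →ₗ[ℝ] E).image_convexHull _).symm
    rw [h2] at h
    exact hI.lu s hs ((A.symm.injective.mem_set_image).1 h)
  · exact Finset.card_image_of_injective S A.injective
  · exact Finset.card_image_of_injective U A.symm.injective
  · unfold inc
    rw [Finset.sum_image fun x _ y _ h => A.symm.injective h]
    refine Finset.sum_congr rfl fun u _ => ?_
    unfold fc
    rw [Finset.filter_image, Finset.card_image_of_injective _ A.injective]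
    congr 1
    refine Finset.filter_congr fun s _ => ?_
    rw [hdt]
  · rw [hl_image, hl_image, vl_image, vl_image]
    have h1 : |LinearMap.det (A : E →ₗ[ℝ] E)| * |LinearMap.det (A.symm : E →ₗ[ℝ] E)| = 1 := by
      rw [← abs_mul, A.det_mul_det_symm, abs_one]
    calc |LinearMap.det (A : E →ₗ[ℝ] E)| * vl (hl S) *
          (|LinearMap.det (A.symm : E →ₗ[ℝ] E)| * vl (hl U)) =
          (|LinearMap.det (A : E →ₗ[ℝ] E)| * |LinearMap.det (A.symm : E →ₗ[ℝ] E)|) *
          (vl (hl S) * vl (hl U)) := by ring
      _ = _ := by rw [h1, one_mul]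
  · intro u' hu' hne
    obtain ⟨u, hu, rfl⟩ := Finset.mem_image.1 hu'
    have h1 : (A.symm u).2.2 = dt u θ := by
      rw [← hdt u θ, hAθ]
      simp [dt]
    rw [h1] at hne
    obtain ⟨g, hg⟩ := hβ u hu hne
    refine ⟨A.symm g, fun s' hs' h2 => ?_⟩
    obtain ⟨s, hs, rfl⟩ := Finset.mem_image.1 hs'
    rw [hdt] at h2 ⊢
    change β (A.symm (A s)) = dt g s
    rw [A.symm_apply_apply]
    exact hg s hs h2
  · rintro ⟨g, c, hg⟩
    refine hA ⟨A g, c, fun s hs => ?_⟩
    have h1 : β (A.symm (A s)) = dt g (A s) + c := hg (A s) (Finset.mem_image_of_mem _ hs)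
    rw [A.symm_apply_apply] at h1
    rw [h1, hsym]

end H293M
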