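import Pool.Agent.H293R2.M3.Spec

set_option autoImplicit false

open MeasureTheory Set

namespace H293M

namespace C7a

theorem av_neg (g x : E) : av (-g) x = -av g x := by
  simp only [av, Prod.fst_neg, Prod.snd_neg]
  ring

theorem lin_form (f : E →ₗ[ℝ] ℝ) (x : E) :
    f x = x.1 * f (1, 0, 0) + x.2.1 * f (0, 1, 0) + x.2.2 * f (0, 0, 1) := by
  have h : x = x.1 • ((1, 0, 0) : E) + x.2.1 • ((0, 1, 0) : E) + x.2.2 • ((0, 0, 1) : E) := by
    ext <;> simp
  conv_lhs => rw [h]
  rw [map_add, map_add, map_smul, map_smul, map_smul]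
  simp only [smul_eq_mul]

/-- a functional constant on a set with `0` in the interior is zero -/
theorem const_zero {K : Set E} (h0 : (0 : E) ∈ interior K) (f : E →ₗ[ℝ] ℝ) (c : ℝ)
    (hf : ∀ x ∈ K, f x = c) (v : E) : f v = 0 := by
  have hc : c = 0 := by
    rw [← hf 0 (interior_subset h0), map_zero]
  have hcont : Continuous fun t : ℝ => t • v := by fun_prop
  have hnh : ∀ᶠ t : ℝ in nhds 0, t • v ∈ K := by
    have h1 : Filter.Tendsto (fun t : ℝ => t • v) (nhds 0) (nhds 0) := by
      have := hcont.tendsto 0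
      rwa [zero_smul] at this
    exact h1.eventually (mem_interior_iff_mem_nhds.mp h0)
  have hnh' : ∀ᶠ t : ℝ in nhdsWithin 0 {0}ᶜ, t • v ∈ K := hnh.filter_mono nhdsWithin_le_nhds
  obtain ⟨t, ht, ht0⟩ := (hnh'.and self_mem_nhdsWithin).exists
  have h2 := hf _ ht
  rw [map_smul, hc, smul_eq_mul] at h2
  rcases mul_eq_zero.mp h2 with h3 | h3
  · exact absurd h3 ht0
  · exact h3

end C7a

theorem t_neg : S_neg := by
  intro S U β G h
  refine ⟨?_, ?_, ?_, ?_⟩
  · intro u hu s hs
    have h1 := h.slack u hu s hs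
    rw [C7a.av_neg]
    have e : u.2.2 * (-β s - -av (G u) s) = -(u.2.2 * (β s - av (G u) s)) := by ring
    rw [e, abs_neg]
    exact h1
  · obtain ⟨u, hu, s, hs, h1, h2⟩ := h.minus
    refine ⟨u, hu, s, hs, h1, ?_⟩
    rw [C7a.av_neg, ← h2]
    ring
  · obtain ⟨u, hu, s, hs, h1, h2⟩ := h.plus
    refine ⟨u, hu, s, hs, h1, ?_⟩
    rw [C7a.av_neg, ← h2]
    ring
  · rintro ⟨g, c, hg⟩
    refine h.naff ⟨-g, -c, fun s hs => ?_⟩
    have h1 := hg s hs
    simp only [dt, Prod.fst_neg, Prod.snd_neg] at h1 ⊢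
    linarith

theorem t_int : S_int := by
  classical
  intro S U β G hP hD
  unfold hl
  rw [interior_convexHull_nonempty_iff_affineSpan_eq_top]
  by_contra hne
  -- `S` is nonempty
  have hS : S.Nonempty := by
    by_contra hS
    rw [Finset.not_nonempty_iff_eq_empty] at hS
    have := interior_subset hP.zero
    rw [hS] at this
    simp [hl] at this
  obtain ⟨s₀, hs₀⟩ := hS
  have hmem : ∀ s ∈ S, mv β s ∈ ((SM S β : Finset E) : Set E) := by
    intro s hs
    simp only [SM, Finset.coe_image]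
    exact ⟨s, hs, rfl⟩
  have hvs : vectorSpan ℝ ((SM S β : Finset E) : Set E) < ⊤ := by
    rw [lt_top_iff_ne_top]
    intro htop
    apply hne
    rw [AffineSubspace.affineSpan_eq_top_iff_vectorSpan_eq_top_of_nonempty ℝ E E
      ⟨_, hmem s₀ hs₀⟩]
    exact htop
  obtain ⟨f, hf0, hf⟩ := Submodule.exists_le_ker_of_lt_top _ hvs
  have hconst : ∀ s ∈ S, f (mv β s) = f (mv β s₀) := by
    intro s hs
    have h1 : mv β s -ᵥ mv β s₀ ∈ vectorSpan ℝ ((SM S β : Finset E) : Set E) :=
      vsub_mem_vectorSpan ℝ (hmem s hs) (hmem s₀ hs₀)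
    have h2 := hf h1
    rw [LinearMap.mem_ker, vsub_eq_sub, map_sub, sub_eq_zero] at h2
    exact h2
  set c := f (mv β s₀) with hc
  set w3 := f (0, 0, 1) with hw3
  have hform : ∀ s ∈ S, f s + β s * w3 = c := by
    intro s hs
    rw [← hconst s hs, C7a.lin_form f s, C7a.lin_form f (mv β s)]
    simp only [mv]
    ring
  by_cases h0 : w3 = 0
  · have h1 : ∀ s ∈ S, f s = c := by
      intro s hs
      have := hform s hs
      rw [h0] at this
      linarith
    have h2 : ∀ x ∈ hl S, f x = c := by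
      intro x hx
      have hsub : hl S ⊆ {x | f x = c} := by
        refine convexHull_min ?_ ?_
        · intro s hs
          exact h1 s hs
        · intro x hx y hy a b _ _ hab
          simp only [Set.mem_ofPred_eq] at hx hy ⊢
          rw [map_add, map_smul, map_smul, hx, hy, smul_eq_mul, smul_eq_mul, ← add_mul, hab,
            one_mul]
      exact hsub hx
    apply hf0
    ext
    · exact C7a.const_zero hP.zero f c h2 _
    · exact C7a.const_zero hP.zero f c h2 _
    · exact C7a.const_zero hP.zero f c h2 _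
  · apply hD.naff
    refine ⟨(-(f (1, 0, 0)) / w3, -(f (0, 1, 0)) / w3, -1), c / w3, fun s hs => ?_⟩
    have h1 := hform s hs
    rw [C7a.lin_form f s, ← hw3] at h1
    simp only [dt]
    field_simp
    linarith

end H293M
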