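import Pool.Agent.H293R2.M3.Spec

set_option autoImplicit false

open MeasureTheory Set

namespace H293M

namespace C7b

/-- the graph map over a facet lands in the moved polytope -/
lemma lift_mem {S U : Finset E} {β : E → ℝ} {G : E → E} (hD : Dec S U β G) {u x : E}
    (hu : u ∈ U) (hu3 : u.2.2 ≠ 0) (hx : x ∈ hl (fc S u)) :
    ((x.1, x.2.1, x.2.2 + av (G u) x) : E) ∈ hl (SM S β) := by
  have hconv : Convex ℝ {x : E | ((x.1, x.2.1, x.2.2 + av (G u) x) : E) ∈ hl (SM S β)} := by
    intro a ha b hb p q hp hq hpq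
    have h1 := convex_convexHull ℝ ((SM S β : Finset E) : Set E) ha hb hp hq hpq
    change ((_, _, _) : E) ∈ convexHull ℝ ((SM S β : Finset E) : Set E)
    convert h1 using 1
    ext
    · simp
    · simp
    · simp only [av, Prod.snd_add, Prod.smul_snd, Prod.fst_add, Prod.smul_fst, smul_eq_mul,
        Prod.smul_mk, Prod.mk_add_mk]
      linear_combination (-(G u).2.2) * hpq
  have hsub : ((fc S u : Finset E) : Set E) ⊆
      {x : E | ((x.1, x.2.1, x.2.2 + av (G u) x) : E) ∈ hl (SM S β)} := by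
    intro s hs
    have hs' : s ∈ fc S u := hs
    rw [fc, Finset.mem_filter] at hs'
    obtain ⟨hsS, hs1⟩ := hs'
    have h2 := hD.slack u hu s hsS
    rw [hs1, sub_self] at h2
    have h3 : u.2.2 * (β s - av (G u) s) = 0 := abs_eq_zero.1 (le_antisymm h2 (abs_nonneg _))
    have h4 : β s = av (G u) s := by
      rcases mul_eq_zero.1 h3 with h | h
      · exact absurd h hu3
      · linarith
    apply subset_convexHull ℝ _
    rw [SM, Finset.coe_image]
    refine ⟨s, hsS, ?_⟩
    rw [mv, h4]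
  exact convexHull_min hsub hconv hx

/-- the half spaces contain the moved polytope -/
lemma half {S U : Finset E} {β : E → ℝ} {G : E → E} (hD : Dec S U β G) {u y : E}
    (hu : u ∈ U) (hy : y ∈ hl (SM S β)) : dt u y - u.2.2 * av (G u) y ≤ 1 := by
  have hconv : Convex ℝ {y : E | dt u y - u.2.2 * av (G u) y ≤ 1} := by
    intro a ha b hb p q hp hq hpq
    simp only [mem_setOf_eq] at ha hb ⊢
    have e : dt u (p • a + q • b) - u.2.2 * av (G u) (p • a + q • b) =
        p * (dt u a - u.2.2 * av (G u) a) + q * (dt u b - u.2.2 * av (G u) b) := by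
      simp only [dt, av, Prod.snd_add, Prod.smul_snd, Prod.fst_add, Prod.smul_fst, smul_eq_mul]
      linear_combination (u.2.2 * (G u).2.2) * hpq
    rw [e]
    calc p * (dt u a - u.2.2 * av (G u) a) + q * (dt u b - u.2.2 * av (G u) b)
        ≤ p * 1 + q * 1 := by gcongr
      _ = 1 := by linarith
  have hsub : ((SM S β : Finset E) : Set E) ⊆ {y : E | dt u y - u.2.2 * av (G u) y ≤ 1} := by
    intro t ht
    rw [SM, Finset.coe_image] at ht
    obtain ⟨s, hs, rfl⟩ := ht
    have h2 := (abs_le.1 (hD.slack u hu s hs)).2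
    simp only [mem_setOf_eq, mv, dt, av] at h2 ⊢
    linarith
  exact convexHull_min hsub hconv hy

/-- an active half space pointing in the direction `σ` -/
lemma exists_active {S U : Finset E} (hP : Pr S U) {σ : ℝ} {x : E} (hx : x ∈ hl S)
    (hne : ∀ ε : ℝ, 0 < ε → ((x.1, x.2.1, x.2.2 + σ * ε) : E) ∉ hl S) :
    ∃ u ∈ U, 0 < σ * u.2.2 ∧ dt u x = 1 := by
  by_contra hcon
  push Not at hcon
  have hx' : ∀ u ∈ U, dt u x ≤ 1 := by
    have := hx
    rw [hP.rep] at this
    exact this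
  have hev : ∀ᶠ ε : ℝ in nhdsWithin 0 (Ioi 0), ∀ u ∈ U, dt u x + ε * (σ * u.2.2) ≤ 1 := by
    rw [Filter.eventually_all_finset]
    intro u hu
    by_cases h : 0 < σ * u.2.2
    · have hlt : dt u x < 1 := lt_of_le_of_ne (hx' u hu) (hcon u hu h)
      have hc : Filter.Tendsto (fun ε : ℝ => dt u x + ε * (σ * u.2.2)) (nhds 0)
          (nhds (dt u x + 0 * (σ * u.2.2))) := by
        apply Continuous.tendsto
        fun_prop
      rw [zero_mul, add_zero] at hc
      have h5 := (hc.eventually (gt_mem_nhds hlt)).filter_mono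
        (nhdsWithin_le_nhds (a := (0:ℝ)) (s := Ioi 0))
      exact h5.mono fun ε hε => le_of_lt hε
    · push Not at h
      filter_upwards [self_mem_nhdsWithin] with ε hε
      have hε' : (0:ℝ) < ε := hε
      have : ε * (σ * u.2.2) ≤ 0 := mul_nonpos_of_nonneg_of_nonpos hε'.le h
      linarith [hx' u hu]
  obtain ⟨ε, hε, hε0⟩ := (hev.and self_mem_nhdsWithin).exists
  have hε' : (0:ℝ) < ε := hε0
  apply hne ε hε'
  rw [hP.rep]
  intro u hu
  have := hε u hu
  simp only [dt] at this ⊢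
  linarith

/-- the common core of top and bottom -/
lemma core (h : S_face) {S U : Finset E} {β : E → ℝ} {G : E → E} (hP : Pr S U)
    (hD : Dec S U β G) {σ : ℝ} (hσ : σ ≠ 0) {x : E} (hx : x ∈ hl S)
    (hne : ∀ ε : ℝ, 0 < ε → ((x.1, x.2.1, x.2.2 + σ * ε) : E) ∉ hl S) :
    ∃ u ∈ U, 0 < σ * u.2.2 ∧ dt u x = 1 ∧
      ((x.1, x.2.1, x.2.2 + av (G u) x) : E) ∈ hl (SM S β) ∧
      ∀ y ∈ hl (SM S β), y.1 = x.1 → y.2.1 = x.2.1 →
        u.2.2 * (y.2.2 - (x.2.2 + av (G u) x)) ≤ 0 := by
  obtain ⟨u, hu, hpos, h1⟩ := exists_active hP hx hne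
  have hu3 : u.2.2 ≠ 0 := by
    intro h0
    rw [h0, mul_zero] at hpos
    exact lt_irrefl _ hpos
  have hle : ∀ s ∈ S, dt u s ≤ 1 := by
    intro s hs
    have : s ∈ hl S := subset_convexHull ℝ _ hs
    rw [hP.rep] at this
    exact this u hu
  refine ⟨u, hu, hpos, h1, lift_mem hD hu hu3 (h hx hle h1), ?_⟩
  intro y hy hy1 hy2
  have h6 := half hD hu hy
  simp only [dt, av, hy1, hy2] at h6 h1 ⊢
  linarith

end C7b

theorem t_top (h : S_face) : S_top := by
  intro S U β G hP hD x hx hne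
  obtain ⟨u, hu, hpos, h1, hm, hb⟩ := C7b.core h hP hD (σ := 1) one_ne_zero hx
    (by intro ε hε; rw [one_mul]; exact hne ε hε)
  rw [one_mul] at hpos
  refine ⟨u, hu, hpos, h1, hm, ?_⟩
  intro y hy hy1 hy2
  have := hb y hy hy1 hy2
  by_contra hc
  push Not at hc
  have : 0 < u.2.2 * (y.2.2 - (x.2.2 + av (G u) x)) := mul_pos hpos (by linarith)
  linarith

theorem t_bot (h : S_face) : S_bot := by
  intro S U β G hP hD x hx hne
  obtain ⟨u, hu, hpos, h1, hm, hb⟩ := C7b.core h hP hD (σ := -1) (by norm_num) hx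
    (by
      intro ε hε
      have e : x.2.2 + (-1) * ε = x.2.2 - ε := by ring
      rw [e]
      exact hne ε hε)
  have hneg : u.2.2 < 0 := by linarith
  refine ⟨u, hu, hneg, h1, hm, ?_⟩
  intro y hy hy1 hy2
  have := hb y hy hy1 hy2
  by_contra hc
  push Not at hc
  have : 0 < u.2.2 * (y.2.2 - (x.2.2 + av (G u) x)) :=
    mul_pos_of_neg_of_neg hneg (by linarith)
  linarith

end H293M
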