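import Pool.Agent.H293R2.M3.Spec

set_option autoImplicit false

open MeasureTheory Set

namespace H293M

namespace C7c

/-- the affine function of a half space of the moved polytope -/
def w (G : E → E) (u x : E) : ℝ := dt u x - u.2.2 * av (G u) x

theorem w_comb (G : E → E) (u x y : E) (a b : ℝ) (hab : a + b = 1) :
    w G u (a • x + b • y) = a * w G u x + b * w G u y := by
  have hb : b = 1 - a := by linarith
  subst hb
  simp only [w, dt, av, Prod.fst_add, Prod.snd_add, Prod.smul_fst, Prod.smul_snd, smul_eq_mul]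
  ring

theorem hl_le (G : E → E) (u : E) (T : Finset E) (h : ∀ s ∈ T, w G u s ≤ 1) :
    ∀ x ∈ hl T, w G u x ≤ 1 := by
  intro x hx
  have hc : Convex ℝ {x : E | w G u x ≤ 1} := by
    intro x hx y hy a b ha hb hab
    simp only [mem_ofPred_eq] at *
    rw [w_comb G u x y a b hab]
    nlinarith
  exact convexHull_min (fun s hs => h s hs) hc hx

theorem lift (S T : Finset E) (h : ∀ s ∈ S, ∃ t, ((s.1, s.2.1, t) : E) ∈ hl T) :
    ∀ s ∈ hl S, ∃ t, ((s.1, s.2.1, t) : E) ∈ hl T := by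
  intro s hs
  have hc : Convex ℝ {s : E | ∃ t, ((s.1, s.2.1, t) : E) ∈ hl T} := by
    rintro x ⟨t, ht⟩ y ⟨t', ht'⟩ a b ha hb hab
    refine ⟨a * t + b * t', ?_⟩
    exact (convex_convexHull ℝ (T : Set E)) ht ht' ha hb hab
  exact convexHull_min (fun s hs => h s hs) hc hs

theorem mv_mem {S : Finset E} (β : E → ℝ) {s : E} (hs : s ∈ S) : mv β s ∈ hl (SM S β) := by
  classical
  apply subset_convexHull
  rw [Finset.mem_coe]
  unfold SM
  exact Finset.mem_image_of_mem _ hs

theorem lift1 (S : Finset E) (β : E → ℝ) : ∀ s ∈ hl S, ∃ t, ((s.1, s.2.1, t) : E) ∈ hl (SM S β) :=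
  lift S (SM S β) fun s hs => ⟨s.2.2 + β s, mv_mem β hs⟩

theorem lift2 (S : Finset E) (β : E → ℝ) : ∀ s ∈ hl (SM S β), ∃ t, ((s.1, s.2.1, t) : E) ∈ hl S := by
  classical
  apply lift (SM S β) S
  intro s hs
  unfold SM at hs
  obtain ⟨s', hs', rfl⟩ := Finset.mem_image.1 hs
  exact ⟨s'.2.2, subset_convexHull ℝ _ hs'⟩

theorem compact_hl (T : Finset E) : IsCompact (hl T) := T.finite_toSet.isCompact_convexHull ℝ

theorem fib_compact (T : Finset E) (x : E) :
    IsCompact (hl T ∩ {y : E | y.1 = x.1 ∧ y.2.1 = x.2.1}) := by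
  refine (compact_hl T).inter_right ?_
  exact (isClosed_eq (by fun_prop) continuous_const).inter
    (isClosed_eq (by fun_prop) continuous_const)

theorem top_exists (T : Finset E) (x : E) (h : ∃ t, ((x.1, x.2.1, t) : E) ∈ hl T) :
    ∃ t, ((x.1, x.2.1, t) : E) ∈ hl T ∧ ∀ t', ((x.1, x.2.1, t') : E) ∈ hl T → t' ≤ t := by
  obtain ⟨t₀, ht₀⟩ := h
  obtain ⟨y, hy, hmax⟩ := (fib_compact T x).exists_isMaxOn ⟨_, ht₀, rfl, rfl⟩
    (f := fun y : E => y.2.2) (by fun_prop)
  obtain ⟨y1, y2, y3⟩ := y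
  obtain ⟨hy1, hy2, hy3⟩ := hy
  simp only at hy2 hy3
  subst hy2 hy3
  exact ⟨y3, hy1, fun t' ht' => hmax ⟨ht', rfl, rfl⟩⟩

theorem bot_exists (T : Finset E) (x : E) (h : ∃ t, ((x.1, x.2.1, t) : E) ∈ hl T) :
    ∃ t, ((x.1, x.2.1, t) : E) ∈ hl T ∧ ∀ t', ((x.1, x.2.1, t') : E) ∈ hl T → t ≤ t' := by
  obtain ⟨t₀, ht₀⟩ := h
  obtain ⟨y, hy, hmax⟩ := (fib_compact T x).exists_isMinOn ⟨_, ht₀, rfl, rfl⟩
    (f := fun y : E => y.2.2) (by fun_prop)
  obtain ⟨y1, y2, y3⟩ := y
  obtain ⟨hy1, hy2, hy3⟩ := hy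
  simp only at hy2 hy3
  subst hy2 hy3
  exact ⟨y3, hy1, fun t' ht' => hmax ⟨ht', rfl, rfl⟩⟩

theorem fibre (h3 : S_top) (h4 : S_bot) {S U : Finset E} {β : E → ℝ} {G : E → E} (hP : Pr S U)
    (hD : Dec S U β G) (x : E) (hp : ∃ t, ((x.1, x.2.1, t) : E) ∈ hl S) :
    ∃ t b : ℝ, ((x.1, x.2.1, t) : E) ∈ hl S ∧ ((x.1, x.2.1, b) : E) ∈ hl S ∧ b ≤ t ∧
      (∃ u ∈ U, 0 < u.2.2 ∧ dt u (x.1, x.2.1, t) = 1 ∧
        ((x.1, x.2.1, t + av (G u) x) : E) ∈ hl (SM S β)) ∧
      ∃ u ∈ U, u.2.2 < 0 ∧ dt u (x.1, x.2.1, b) = 1 ∧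
        ((x.1, x.2.1, b + av (G u) x) : E) ∈ hl (SM S β) := by
  obtain ⟨t, ht, htm⟩ := top_exists S x hp
  obtain ⟨b, hb, hbm⟩ := bot_exists S x hp
  refine ⟨t, b, ht, hb, hbm t ht, ?_, ?_⟩
  · obtain ⟨u, hu, hu3, h5, h6, _⟩ := h3 hP hD ht (by
      intro ε hε hcon
      have := htm _ hcon
      simp only at this
      linarith)
    exact ⟨u, hu, hu3, h5, h6⟩
  · obtain ⟨u, hu, hu3, h5, h6, _⟩ := h4 hP hD hb (by
      intro ε hε hcon
      have := hbm _ hcon
      simp only at this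
      linarith)
    exact ⟨u, hu, hu3, h5, h6⟩

theorem seg (T : Finset E) (x1 x2 a b c : ℝ) (ha : ((x1, x2, a) : E) ∈ hl T)
    (hb : ((x1, x2, b) : E) ∈ hl T) (h1 : a ≤ c) (h2 : c ≤ b) : ((x1, x2, c) : E) ∈ hl T := by
  rcases eq_or_lt_of_le (h1.trans h2) with h | h
  · have : c = a := by linarith
    rw [this]; exact ha
  · have h3 : 0 < b - a := by linarith
    have h4 := (convex_convexHull ℝ (T : Set E)) ha hb
      (div_nonneg (by linarith : (0 : ℝ) ≤ b - c) h3.le)
      (div_nonneg (by linarith : (0 : ℝ) ≤ c - a) h3.le) (by field_simp; ring)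
    have h5 : ((b - c) / (b - a)) • ((x1, x2, a) : E) + ((c - a) / (b - a)) • ((x1, x2, b) : E) =
        (x1, x2, c) := by
      simp only [Prod.smul_mk, smul_eq_mul, Prod.mk_add_mk]
      refine Prod.ext ?_ (Prod.ext ?_ ?_)
      · simp only; field_simp; ring
      · simp only; field_simp; ring
      · simp only; field_simp; ring
    rw [h5] at h4
    exact h4

theorem caseA (h3 : S_top) (h4 : S_bot) {S U : Finset E} {β : E → ℝ} {G : E → E} (hP : Pr S U)
    (hD : Dec S U β G) (x : E) (hx : ∀ u ∈ U, w G u x ≤ 1)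
    (hp : ∃ t, ((x.1, x.2.1, t) : E) ∈ hl S) : x ∈ hl (SM S β) := by
  obtain ⟨t, b, _, _, _, ⟨u, hu, hu3, h5, h6⟩, ⟨v, hv, hv3, h7, h8⟩⟩ := fibre h3 h4 hP hD x hp
  have h9 : x.2.2 ≤ t + av (G u) x := by
    have := hx u hu
    simp only [w, dt] at this h5
    by_contra hcon
    push Not at hcon
    nlinarith
  have h10 : b + av (G v) x ≤ x.2.2 := by
    have := hx v hv
    simp only [w, dt] at this h7
    by_contra hcon
    push Not at hcon
    nlinarith
  exact seg (SM S β) x.1 x.2.1 _ _ x.2.2 h8 h6 h10 h9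

theorem w_lt (G : E → E) (u : E) (K : Set E) (hK : ∀ x ∈ K, w G u x ≤ 1) (c : E)
    (hc : c ∈ interior K) : w G u c < 1 := by
  set v : E := (u.1 - u.2.2 * (G u).1, u.2.1 - u.2.2 * (G u).2.1, u.2.2) with hv
  have hform : ∀ d : ℝ, w G u (c + d • v) = w G u c + d * dt v v := by
    intro d
    simp only [w, dt, av, hv, Prod.fst_add, Prod.snd_add, Prod.smul_fst, Prod.smul_snd, smul_eq_mul]
    ring
  by_cases h0 : dt v v = 0
  · have h1 : v.1 = 0 ∧ v.2.1 = 0 ∧ v.2.2 = 0 := by
      unfold dt at h0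
      refine ⟨?_, ?_, ?_⟩ <;> nlinarith [mul_self_nonneg v.1, mul_self_nonneg v.2.1,
        mul_self_nonneg v.2.2]
    obtain ⟨h2, h3, h4⟩ := h1
    simp only [hv] at h2 h3 h4
    rw [h4] at h2 h3
    simp only [w, dt, h4]
    have h5 : u.1 = 0 := by linarith
    have h6 : u.2.1 = 0 := by linarith
    rw [h5, h6]
    norm_num
  · have hpos : 0 < dt v v := by
      refine lt_of_le_of_ne ?_ (Ne.symm h0)
      unfold dt
      nlinarith [mul_self_nonneg v.1, mul_self_nonneg v.2.1, mul_self_nonneg v.2.2]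
    have hcont : Continuous fun d : ℝ => c + d • v := by fun_prop
    have h1 : ∀ᶠ d in nhdsWithin (0 : ℝ) (Ioi 0), c + d • v ∈ K := by
      have h2 : Filter.Tendsto (fun d : ℝ => c + d • v) (nhds 0) (nhds c) := by
        have := hcont.tendsto 0
        simpa using this
      exact (h2.eventually (mem_interior_iff_mem_nhds.1 hc)).filter_mono nhdsWithin_le_nhds
    obtain ⟨d, hd, hd0⟩ := (h1.and self_mem_nhdsWithin).exists
    have h2 := hK _ hd
    rw [hform] at h2
    have hd0' : 0 < d := hd0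
    nlinarith [mul_pos hd0' hpos]

end C7c

open C7c in
theorem t_rep (h1 : S_neg) (h2 : S_int) (h3 : S_top) (h4 : S_bot) : S_rep := by
  intro S U β G hP hD
  classical
  have hsub : ∀ x ∈ hl (SM S β), ∀ u ∈ U, w G u x ≤ 1 := by
    intro x hx u hu
    refine hl_le G u (SM S β) ?_ x hx
    intro s hs
    unfold SM at hs
    obtain ⟨s', hs', rfl⟩ := Finset.mem_image.1 hs
    have h5 := (abs_le.1 (hD.slack u hu s' hs')).2
    simp only [w, dt, av, mv] at h5 ⊢
    nlinarith
  apply Subset.antisymm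
  · intro x hx u hu
    exact hsub x hx u hu
  · intro x hx
    have hx' : ∀ u ∈ U, w G u x ≤ 1 := hx
    by_contra hxK
    have hxP : ¬ ∃ t, ((x.1, x.2.1, t) : E) ∈ hl S := fun hp => hxK (caseA h3 h4 hP hD x hx' hp)
    obtain ⟨c, hc⟩ := h2 hP hD
    have hcK : c ∈ hl (SM S β) := interior_subset hc
    have hwc : ∀ u ∈ U, w G u c < 1 := fun u hu =>
      w_lt G u (hl (SM S β)) (fun y hy => hsub y hy u hu) c hc
    let y : ℝ → E := fun l => (1 - l) • c + l • x
    have hproj : IsCompact ((fun s : E => (s.1, s.2.1)) '' hl S) :=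
      (compact_hl S).image (by fun_prop)
    have hcomp : IsCompact (Icc (0 : ℝ) 1 ∩
        (fun l => ((y l).1, (y l).2.1)) ⁻¹' ((fun s : E => (s.1, s.2.1)) '' hl S)) := by
      refine isCompact_Icc.inter_right (hproj.isClosed.preimage ?_)
      simp only [y]
      fun_prop
    have hmemP : ∀ l : ℝ, ((y l).1, (y l).2.1) ∈ ((fun s : E => (s.1, s.2.1)) '' hl S) ↔
        ∃ t, (((y l).1, (y l).2.1, t) : E) ∈ hl S := by
      intro l
      constructor
      · rintro ⟨s, hs, he⟩
        refine ⟨s.2.2, ?_⟩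
        have h5 : s.1 = (y l).1 := (Prod.ext_iff.1 he).1
        have h6 : s.2.1 = (y l).2.1 := (Prod.ext_iff.1 he).2
        rw [← h5, ← h6]
        exact hs
      · rintro ⟨t, ht⟩
        exact ⟨_, ht, rfl⟩
    have hy0 : y 0 = c := by simp [y]
    have hy1 : y 1 = x := by simp [y]
    have h0mem : (0 : ℝ) ∈ Icc (0 : ℝ) 1 ∩
        (fun l => ((y l).1, (y l).2.1)) ⁻¹' ((fun s : E => (s.1, s.2.1)) '' hl S) := by
      refine ⟨⟨le_refl _, zero_le_one⟩, ?_⟩
      rw [mem_preimage, hmemP, hy0]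
      exact lift2 S β c hcK
    obtain ⟨l, ⟨hlI, hlP⟩, hmax⟩ := hcomp.exists_isMaxOn ⟨0, h0mem⟩ (f := fun l => l)
      (by fun_prop)
    rw [mem_preimage, hmemP] at hlP
    have hl1 : l < 1 := by
      rcases eq_or_lt_of_le hlI.2 with h | h
      · exfalso
        rw [h, hy1] at hlP
        exact hxP hlP
      · exact h
    have hbey : ∀ l', l < l' → l' ≤ 1 → ¬ ∃ t, (((y l').1, (y l').2.1, t) : E) ∈ hl S := by
      intro l' h5 h6 h7
      have h8 : l' ≤ l := hmax (show l' ∈ Icc (0 : ℝ) 1 ∩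
        (fun l => ((y l).1, (y l).2.1)) ⁻¹' ((fun s : E => (s.1, s.2.1)) '' hl S) from
        ⟨⟨by linarith [hlI.1], h6⟩, (hmemP l').2 h7⟩)
      linarith
    have hwy : ∀ u ∈ U, w G u (y l) < 1 := by
      intro u hu
      simp only [y]
      rw [w_comb G u c x (1 - l) l (by ring)]
      have h5 := hwc u hu
      have h6 := hx' u hu
      have h7 := hlI.1
      nlinarith
    obtain ⟨t, b, ht, hb, hbt, ⟨u, hu, hu3, h5, h6⟩, ⟨v, hv, hv3, h7, h8⟩⟩ :=
      fibre h3 h4 hP hD (y l) hlP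
    rcases eq_or_lt_of_le hbt with hbt' | hbt'
    · -- the fibre is one point
      subst hbt'
      obtain ⟨t', ht'⟩ := lift1 S (fun s => -β s) _ ht
      have hneg : ∀ u ∈ U, dt u ((y l).1, (y l).2.1, t') +
          u.2.2 * av (G u) ((y l).1, (y l).2.1, t') ≤ 1 := by
        intro u hu
        have h9 := hl_le (fun u => - G u) u (SM S fun s => -β s) (by
          intro s hs
          unfold SM at hs
          obtain ⟨s', hs', rfl⟩ := Finset.mem_image.1 hs
          have h5 := (abs_le.1 (hD.slack u hu s' hs')).1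
          simp only [w, dt, av, mv, Prod.fst_neg, Prod.snd_neg] at h5 ⊢
          nlinarith) _ ht'
        simp only [w, dt, av, Prod.fst_neg, Prod.snd_neg] at h9 ⊢
        nlinarith
      have h9 := hneg u hu
      have h10 := hneg v hv
      have h11 := hwy u hu
      have h12 := hwy v hv
      simp only [w, dt, av] at h5 h7 h9 h10 h11 h12
      -- t' ≤ b - av u, t' ≥ b - av v ; y3 < b + av u, y3 > b + av v
      have e1 : t' + ((G u).1 * (y l).1 + (G u).2.1 * (y l).2.1 + (G u).2.2) ≤ b := by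
        by_contra hcon
        push Not at hcon
        nlinarith
      have e2 : b ≤ t' + ((G v).1 * (y l).1 + (G v).2.1 * (y l).2.1 + (G v).2.2) := by
        by_contra hcon
        push Not at hcon
        nlinarith
      have e3 : (y l).2.2 < b + ((G u).1 * (y l).1 + (G u).2.1 * (y l).2.1 + (G u).2.2) := by
        by_contra hcon
        push Not at hcon
        nlinarith
      have e4 : b + ((G v).1 * (y l).1 + (G v).2.1 * (y l).2.1 + (G v).2.2) < (y l).2.2 := by
        by_contra hcon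
        push Not at hcon
        nlinarith
      linarith
    · -- the fibre is a segment
      set m : E := ((y l).1, (y l).2.1, (b + t) / 2) with hm
      have hmu : ∀ u ∈ U, dt u m < 1 := by
        intro u hu
        have hrt : ((y l).1, (y l).2.1, t) ∈ {x : E | ∀ u ∈ U, dt u x ≤ 1} := hP.rep ▸ ht
        have hrb : ((y l).1, (y l).2.1, b) ∈ {x : E | ∀ u ∈ U, dt u x ≤ 1} := hP.rep ▸ hb
        have h9 := hrt u hu
        have h10 := hrb u hu
        simp only [dt, hm] at h9 h10 ⊢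
        rcases lt_trichotomy u.2.2 0 with h | h | h
        · nlinarith
        · have h11 := hwy u hu
          simp only [w, dt, h] at h11
          rw [h]
          linarith
        · nlinarith
      have hev : ∀ᶠ d in nhdsWithin (0 : ℝ) (Ioi 0), ∀ u ∈ U, dt u m + d * dt u (x - c) < 1 := by
        rw [Filter.eventually_all_finset]
        intro u hu
        have h9 : Filter.Tendsto (fun d : ℝ => dt u m + d * dt u (x - c)) (nhds 0)
            (nhds (dt u m + 0 * dt u (x - c))) := by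
          apply Continuous.tendsto
          fun_prop
        rw [zero_mul, add_zero] at h9
        exact (h9.eventually_lt_const (hmu u hu)).filter_mono nhdsWithin_le_nhds
      have hev2 : ∀ᶠ d in nhdsWithin (0 : ℝ) (Ioi 0), d < 1 - l :=
        (Filter.Tendsto.eventually_lt_const (by linarith : (0 : ℝ) < 1 - l)
          (Filter.tendsto_id)).filter_mono nhdsWithin_le_nhds
      obtain ⟨d, ⟨hd1, hd2⟩, hd3⟩ := ((hev.and hev2).and self_mem_nhdsWithin).exists
      have hd3' : 0 < d := hd3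
      refine hbey (l + d) (by linarith) (by linarith) ⟨(b + t) / 2 + d * (x - c).2.2, ?_⟩
      rw [hP.rep]
      intro u hu
      have h9 := hd1 u hu
      simp only [dt, hm, y, Prod.fst_add, Prod.snd_add, Prod.smul_fst, Prod.smul_snd, smul_eq_mul,
        Prod.fst_sub, Prod.snd_sub] at h9 ⊢
      nlinarith

end H293M
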