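import Pool.Agent.H293R2.M3.Spec

set_option autoImplicit false

open MeasureTheory Set Pointwise

namespace H293M

namespace C8

/-- the linear part of the moved half space -/
def W (G : E → E) (u : E) : E := (u.1 - u.2.2 * (G u).1, u.2.1 - u.2.2 * (G u).2.1, u.2.2)

/-- the slack of the point `z` -/
def dl (G : E → E) (z u : E) : ℝ := 1 + u.2.2 * (G u).2.2 - dt (W G u) z

theorem dt_sub (u x y : E) : dt u (x - y) = dt u x - dt u y := by
  simp only [dt, Prod.fst_sub, Prod.snd_sub]; ring

theorem dt_add (u x y : E) : dt u (x + y) = dt u x + dt u y := by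
  simp only [dt, Prod.fst_add, Prod.snd_add]; ring

theorem dt_smul (u x : E) (c : ℝ) : dt u (c • x) = c * dt u x := by
  simp only [dt, Prod.smul_fst, Prod.smul_snd, smul_eq_mul]; ring

theorem smul_dt (u x : E) (c : ℝ) : dt (c • u) x = c * dt u x := by
  simp only [dt, Prod.smul_fst, Prod.smul_snd, smul_eq_mul]; ring

theorem half (G : E → E) (u x : E) :
    dt u x - u.2.2 * av (G u) x = dt (W G u) x - u.2.2 * (G u).2.2 := by
  simp only [dt, av, W]; ring

theorem mvd (G : E → E) (β : E → ℝ) (u s : E) :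
    dt (W G u) (mv β s) = dt u s + u.2.2 * (β s - av (G u) s) + u.2.2 * (G u).2.2 := by
  simp only [dt, av, W, mv]; ring

theorem dt_self_pos {w : E} (h : w ≠ 0) : 0 < dt w w := by
  rcases w with ⟨a, b, c⟩
  simp only [dt]
  by_contra hn
  push Not at hn
  apply h
  have ha := mul_self_nonneg a
  have hb := mul_self_nonneg b
  have hc := mul_self_nonneg c
  have a0 : a = 0 := mul_self_eq_zero.1 (by linarith)
  have b0 : b = 0 := mul_self_eq_zero.1 (by linarith)
  have c0 : c = 0 := mul_self_eq_zero.1 (by linarith)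
  rw [a0, b0, c0]
  rfl

/-- a small step from an interior point stays inside -/
theorem step {K : Set E} {z v : E} (hz : z ∈ interior K) : ∃ ε : ℝ, 0 < ε ∧ z + ε • v ∈ K := by
  have hc : Filter.Tendsto (fun t : ℝ => z + t • v) (nhds 0) (nhds z) := by
    have : Continuous (fun t : ℝ => z + t • v) := by fun_prop
    have h := this.tendsto 0
    simpa using h
  have h1 := hc.eventually (mem_interior_iff_mem_nhds.1 hz)
  obtain ⟨ε, he, h2⟩ := Metric.eventually_nhds_iff.1 h1
  refine ⟨ε / 2, by positivity, h2 ?_⟩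
  rw [Real.dist_eq, sub_zero, abs_of_pos (by positivity)]
  linarith

theorem dl_pos {G : E → E} {U : Finset E} {K : Set E}
    (hK : K = {x | ∀ u ∈ U, dt u x - u.2.2 * av (G u) x ≤ 1}) {z : E} (hz : z ∈ interior K)
    {u : E} (hu : u ∈ U) : 0 < dl G z u := by
  by_cases h : W G u = 0
  · have h3 : u.2.2 = 0 := congrArg (fun x : E => x.2.2) h
    unfold dl
    rw [h, h3]
    simp [dt]
  · obtain ⟨ε, he, h1⟩ := step (v := W G u) hz
    rw [hK] at h1
    have h2 := h1 u hu
    rw [half, dt_add, dt_smul] at h2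
    have h3 := mul_pos he (dt_self_pos h)
    unfold dl
    linarith

theorem iv : (volume : Measure (ℝ × ℝ × ℝ)).IsAddLeftInvariant := by
  have h2 : (volume : Measure (ℝ × ℝ)).IsAddLeftInvariant := inferInstance
  have h3 : SFinite (volume : Measure (ℝ × ℝ)) := inferInstance
  exact (Measure.prod.instIsAddLeftInvariant :
    ((volume : Measure ℝ).prod (volume : Measure (ℝ × ℝ))).IsAddLeftInvariant)

end C8

open C8 in
theorem t_new (h1 : S_rep) (h2 : S_pol) : S_new := by
  classical
  intro S U β G hP hD z hz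
  have hK := h1 hP hD
  set K := hl (SM S β) with hKdef
  have hδ : ∀ u ∈ U, 0 < dl G z u := fun u hu => dl_pos hK hz hu
  set ψ : E → E := fun s => mv β s - z with hψ
  set φ : E → E := fun u => (dl G z u)⁻¹ • W G u with hφ
  set S' : Finset E := S.image ψ with hS'
  set U' : Finset E := U.image φ with hU'
  have hmem : ∀ y : E, y ∈ hl S' ↔ y + z ∈ K := by
    intro y
    have e1 : ((S' : Finset E) : Set E) = (-z) +ᵥ ((SM S β : Finset E) : Set E) := by
      ext x
      rw [Set.mem_vadd_set]
      simp only [hS', SM, Finset.coe_image, Set.mem_image, vadd_eq_add]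
      constructor
      · rintro ⟨s, hs, rfl⟩
        exact ⟨mv β s, ⟨s, hs, rfl⟩, by simp only [hψ]; abel⟩
      · rintro ⟨_, ⟨s, hs, rfl⟩, rfl⟩
        exact ⟨s, hs, by simp only [hψ]; abel⟩
    have e2 : hl S' = (-z) +ᵥ K := by
      rw [hKdef]
      unfold hl
      rw [e1, convexHull_vadd]
    rw [e2, Set.mem_vadd_set_iff_neg_vadd_mem, neg_neg, vadd_eq_add, add_comm]
  have hpre : hl S' = (fun y => y + z) ⁻¹' K := by
    ext y; exact hmem y
  have hrep : hl S' = {x | ∀ u ∈ U', dt u x ≤ 1} := by
    ext y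
    rw [hmem y, hK]
    simp only [Set.mem_ofPred_eq, hU', Finset.mem_image, forall_exists_index, and_imp,
      forall_apply_eq_imp_iff₂]
    refine forall₂_congr fun u hu => ?_
    rw [half, dt_add]
    simp only [hφ]
    rw [smul_dt, inv_mul_le_iff₀ (hδ u hu), mul_one]
    unfold dl
    constructor <;> intro h <;> linarith
  have hPr : Pr S' U' := by
    refine ⟨?_, hrep⟩
    rw [hpre]
    change (0 : E) ∈ interior ((Homeomorph.addRight z) ⁻¹' K)
    rw [← (Homeomorph.addRight z).preimage_interior]
    simpa using hz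
  refine ⟨S', U', hPr, Finset.card_image_le, Finset.card_image_le, ?_, ?_, ?_⟩
  · intro hSc hUc
    have hψi : Set.InjOn ψ S := Finset.card_image_iff.1 hSc
    have hφi : Set.InjOn φ U := Finset.card_image_iff.1 hUc
    have key : ∀ u ∈ U, ∀ s ∈ S, dt (φ u) (ψ s) = 1 ↔
        dt u s + u.2.2 * (β s - av (G u) s) = 1 := by
      intro u hu s _
      simp only [hφ, hψ]
      rw [smul_dt, dt_sub, mvd, inv_mul_eq_one₀ (hδ u hu).ne']
      unfold dl
      constructor <;> intro h <;> linarith
    have old : ∀ u ∈ U, ∀ s ∈ S, dt u s = 1 → dt (φ u) (ψ s) = 1 := by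
      intro u hu s hs h
      rw [key u hu s hs]
      have h3 := hD.slack u hu s hs
      rw [h, sub_self] at h3
      have h4 := abs_nonpos_iff.1 h3
      rw [h4, h, add_zero]
    have hsub : ∀ u ∈ U, (fc S u).image ψ ⊆ fc S' (φ u) := by
      intro u hu x hx
      rw [Finset.mem_image] at hx
      obtain ⟨s, hs, rfl⟩ := hx
      simp only [fc, Finset.mem_filter] at hs ⊢
      exact ⟨Finset.mem_image_of_mem _ hs.1, old u hu s hs.1 hs.2⟩
    have hcard : ∀ u ∈ U, (fc S u).card ≤ (fc S' (φ u)).card := by
      intro u hu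
      rw [← Finset.card_image_of_injOn (s := fc S u) (f := ψ)
        (hψi.mono (by intro x hx; exact (Finset.mem_filter.1 hx).1))]
      exact Finset.card_le_card (hsub u hu)
    unfold inc
    rw [hU', Finset.sum_image hφi]
    obtain ⟨u0, hu0, s0, hs0, hlt, heq⟩ := hD.plus
    refine Finset.sum_lt_sum hcard ⟨u0, hu0, ?_⟩
    rw [← Finset.card_image_of_injOn (s := fc S u0) (f := ψ)
      (hψi.mono (by intro x hx; exact (Finset.mem_filter.1 hx).1))]
    refine Finset.card_lt_card ?_
    rw [Finset.ssubset_iff_of_subset (hsub u0 hu0)]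
    refine ⟨ψ s0, ?_, ?_⟩
    · simp only [fc, Finset.mem_filter]
      refine ⟨Finset.mem_image_of_mem _ hs0, ?_⟩
      rw [key u0 hu0 s0 hs0]
      linarith
    · intro hx
      rw [Finset.mem_image] at hx
      obtain ⟨s, hs, hs2⟩ := hx
      have hs3 := (Finset.mem_filter.1 hs)
      have : s = s0 := hψi hs3.1 hs0 hs2
      subst this
      linarith [hs3.2]
  · unfold vl
    have e : (fun y : E => y + z) ⁻¹' K = (fun y : E => z + y) ⁻¹' K := by
      ext y; simp only [Set.mem_preimage, add_comm]
    have : (volume : Measure E).IsAddLeftInvariant := iv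
    rw [hpre, e, measure_preimage_add]
  · rw [← h2.polz_hl hPr]
    ext y
    simp only [polz, Set.mem_ofPred_eq, sub_zero]
    constructor
    · intro h x hx
      exact h (x - z) ((hmem _).2 (by simpa using hx))
    · intro h x hx
      have := h (x + z) ((hmem _).1 hx)
      simpa using this

end H293M
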