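import Pool.Agent.H293R2.M3.Spec

set_option autoImplicit false

open MeasureTheory Set

namespace H293M

namespace C9

lemma compact_hl (S : Finset E) : IsCompact (hl S) := S.finite_toSet.isCompact_convexHull (𝕜 := ℝ)

lemma convex_hl (S : Finset E) : Convex ℝ (hl S) := convex_convexHull ℝ _

/-- the fibre over `(a, b)` -/
def fib (X : Set E) (a b : ℝ) : Set ℝ := {z | ((a, b, z) : E) ∈ X}

lemma volume_eq {X : Set E} (hX : MeasurableSet X) :
    volume X = ∫⁻ a, ∫⁻ b, volume (fib X a b) := by
  rw [Measure.volume_eq_prod, Measure.prod_apply hX]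
  refine lintegral_congr fun a => ?_
  rw [Measure.volume_eq_prod, Measure.prod_apply (measurable_prodMk_left hX)]
  rfl

/-- the projection of a moved polytope is contained in the projection of the polytope -/
lemma proj_sub (S : Finset E) (β : E → ℝ) :
    hl (SM S β) ⊆ {y : E | ∃ z : ℝ, ((y.1, y.2.1, z) : E) ∈ hl S} := by
  classical
  refine convexHull_min ?_ ?_
  · intro y hy
    simp only [SM, Finset.coe_image, Set.mem_image, Finset.mem_coe] at hy
    obtain ⟨s, hs, rfl⟩ := hy
    exact ⟨s.2.2, subset_convexHull ℝ _ hs⟩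
  · rintro x ⟨z, hz⟩ y ⟨w, hw⟩ a b ha hb hab
    refine ⟨a * z + b * w, ?_⟩
    have := convex_hl S hz hw ha hb hab
    simpa using this

/-- half spaces of the polytope moved downwards -/
lemma slack_neg {S U : Finset E} {β : E → ℝ} {G : E → E} (D : Dec S U β G) {u : E} (hu : u ∈ U) :
    hl (SM S fun s => -β s) ⊆ {y : E | dt u y + u.2.2 * av (G u) y ≤ 1} := by
  classical
  refine convexHull_min ?_ ?_
  · intro y hy
    simp only [SM, Finset.coe_image, Set.mem_image, Finset.mem_coe] at hy
    obtain ⟨s, hs, rfl⟩ := hy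
    have h := (abs_le.mp (D.slack u hu s hs)).1
    simp only [mv, dt, av, Set.mem_setOf_eq] at h ⊢
    linarith
  · intro x hx y hy a b ha hb hab
    simp only [Set.mem_setOf_eq, dt, av, Prod.fst_add, Prod.snd_add, Prod.smul_fst, Prod.smul_snd,
      smul_eq_mul] at hx hy ⊢
    have h1 := mul_le_mul_of_nonneg_left hx ha
    have h2 := mul_le_mul_of_nonneg_left hy hb
    have h3 : u.2.2 * (G u).2.2 = a * (u.2.2 * (G u).2.2) + b * (u.2.2 * (G u).2.2) := by
      rw [← add_mul, hab, one_mul]
    nlinarith [h1, h2, h3]

lemma fib_le (h1 : S_neg) (h2 : S_top) (h3 : S_bot) {S U : Finset E} {β : E → ℝ} {G : E → E}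
    (hP : Pr S U) (D : Dec S U β G) (a b : ℝ) :
    volume (fib (hl (SM S β)) a b) + volume (fib (hl (SM S fun s => -β s)) a b) ≤
      2 * volume (fib (hl S) a b) := by
  rcases (fib (hl S) a b).eq_empty_or_nonempty with he | hne
  · have e1 : fib (hl (SM S β)) a b = ∅ := by
      rw [Set.eq_empty_iff_forall_notMem]
      intro z hz
      obtain ⟨w, hw⟩ := proj_sub S β hz
      have : w ∈ fib (hl S) a b := hw
      rw [he] at this
      exact this
    have e2 : fib (hl (SM S fun s => -β s)) a b = ∅ := by
      rw [Set.eq_empty_iff_forall_notMem]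
      intro z hz
      obtain ⟨w, hw⟩ := proj_sub S _ hz
      have : w ∈ fib (hl S) a b := hw
      rw [he] at this
      exact this
    simp [e1, e2]
  · -- the fibre is a compact interval
    have hcl : IsClosed (fib (hl S) a b) :=
      (compact_hl S).isClosed.preimage (by fun_prop : Continuous fun z : ℝ => ((a, b, z) : E))
    have hbd : Bornology.IsBounded (fib (hl S) a b) := by
      have hb := (((compact_hl S).image (continuous_snd.comp continuous_snd)).isBounded)
      refine hb.subset ?_
      intro z hz
      exact ⟨(a, b, z), hz, rfl⟩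
    have hcp : IsCompact (fib (hl S) a b) := Metric.isCompact_of_isClosed_isBounded hcl hbd
    obtain ⟨t, ht⟩ := hcp.exists_isGreatest hne
    obtain ⟨l, hl'⟩ := hcp.exists_isLeast hne
    have hIcc : fib (hl S) a b = Icc l t := by
      apply Subset.antisymm
      · intro z hz
        exact ⟨hl'.2 hz, ht.2 hz⟩
      · intro z hz
        have hcv : Convex ℝ (fib (hl S) a b) := by
          intro x hx y hy p q hp hq hpq
          have := convex_hl S hx hy hp hq hpq
          have e : p • ((a, b, x) : E) + q • ((a, b, y) : E) = (a, b, p • x + q • y) := by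
            simp only [Prod.smul_mk, Prod.mk_add_mk, smul_eq_mul, Prod.mk.injEq]
            refine ⟨?_, ?_, trivial⟩
            · rw [← add_mul, hpq, one_mul]
            · rw [← add_mul, hpq, one_mul]
          rw [e] at this
          exact this
        exact hcv.ordConnected.out hl'.1 ht.1 hz
    have hD' := h1 D
    -- top
    obtain ⟨ut, hut, hut0, hut1, hmem, htop⟩ := h2 hP D (x := (a, b, t)) ht.1 (fun ε hε hmem => by
      have : t + ε ≤ t := ht.2 hmem
      linarith)
    obtain ⟨ut', -, -, -, hmem', -⟩ := h2 hP hD' (x := (a, b, t)) ht.1 (fun ε hε hmem => by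
      have : t + ε ≤ t := ht.2 hmem
      linarith)
    -- bottom
    obtain ⟨ub, hub, hub0, hub1, hmemb, hbot⟩ := h3 hP D (x := (a, b, l)) hl'.1 (fun ε hε hmem => by
      have : l ≤ l - ε := hl'.2 hmem
      linarith)
    set A := av (G ut) ((a, b, t) : E) with hA
    set B := av (G ub) ((a, b, l) : E) with hB
    simp only at hmem htop hmemb hbot
    have hsubp : fib (hl (SM S β)) a b ⊆ Icc (l + B) (t + A) := fun z hz =>
      ⟨hbot (a, b, z) hz rfl rfl, htop (a, b, z) hz rfl rfl⟩
    have hsubm : fib (hl (SM S fun s => -β s)) a b ⊆ Icc (l - B) (t - A) := by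
      intro z hz
      constructor
      · have h := slack_neg D hub hz
        simp only [Set.mem_setOf_eq] at h
        have e1 : dt ub (a, b, z) = dt ub (a, b, l) + ub.2.2 * (z - l) := by
          simp only [dt]; ring
        have e2 : av (G ub) ((a, b, z) : E) = B := rfl
        rw [e1, hub1, e2] at h
        have h5 : ub.2.2 * (z - l + B) ≤ 0 := by linarith
        by_contra hcon
        push Not at hcon
        have h6 : 0 < ub.2.2 * (z - l + B) := mul_pos_of_neg_of_neg hub0 (by linarith)
        linarith
      · have h := slack_neg D hut hz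
        simp only [Set.mem_setOf_eq] at h
        have e1 : dt ut (a, b, z) = dt ut (a, b, t) + ut.2.2 * (z - t) := by
          simp only [dt]; ring
        have e2 : av (G ut) ((a, b, z) : E) = A := rfl
        rw [e1, hut1, e2] at h
        have h5 : ut.2.2 * (z - t + A) ≤ 0 := by linarith
        by_contra hcon
        push Not at hcon
        have h6 : 0 < ut.2.2 * (z - t + A) := mul_pos hut0 (by linarith)
        linarith
    have hp0 : 0 ≤ (t + A) - (l + B) := by
      have := hsubp (show t + A ∈ fib (hl (SM S β)) a b from hmem)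
      linarith [this.1, this.2]
    have hm0 : 0 ≤ (t - A) - (l - B) := by
      have := hsubm (show _ ∈ fib (hl (SM S fun s => -β s)) a b from hmem')
      linarith [this.1, this.2]
    calc volume (fib (hl (SM S β)) a b) + volume (fib (hl (SM S fun s => -β s)) a b)
        ≤ volume (Icc (l + B) (t + A)) + volume (Icc (l - B) (t - A)) :=
          add_le_add (measure_mono hsubp) (measure_mono hsubm)
      _ = ENNReal.ofReal ((t + A) - (l + B)) + ENNReal.ofReal ((t - A) - (l - B)) := by
          rw [Real.volume_Icc, Real.volume_Icc]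
      _ = ENNReal.ofReal (2 * (t - l)) := by
          rw [← ENNReal.ofReal_add hp0 hm0]
          congr 1; ring
      _ = 2 * volume (fib (hl S) a b) := by
          rw [hIcc, Real.volume_Icc, ENNReal.ofReal_mul (by norm_num)]
          simp

end C9

theorem t_vol (h1 : S_neg) (h2 : S_top) (h3 : S_bot) : S_vol := by
  intro S U β G hP D
  have hm : ∀ S : Finset E, MeasurableSet (hl S) := fun S => (C9.compact_hl S).isClosed.measurableSet
  have hf : ∀ S : Finset E, volume (hl S) ≠ ⊤ := fun S => (C9.compact_hl S).measure_lt_top.ne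
  have key : volume (hl (SM S β)) + volume (hl (SM S fun s => -β s)) ≤ 2 * volume (hl S) := by
    rw [C9.volume_eq (hm _), C9.volume_eq (hm (SM S fun s => -β s)), C9.volume_eq (hm S)]
    calc (∫⁻ a, ∫⁻ b, volume (C9.fib (hl (SM S β)) a b)) +
          ∫⁻ a, ∫⁻ b, volume (C9.fib (hl (SM S fun s => -β s)) a b)
        ≤ ∫⁻ a, ((∫⁻ b, volume (C9.fib (hl (SM S β)) a b)) +
          ∫⁻ b, volume (C9.fib (hl (SM S fun s => -β s)) a b)) := le_lintegral_add _ _
      _ ≤ ∫⁻ a, ∫⁻ b, (volume (C9.fib (hl (SM S β)) a b) +
          volume (C9.fib (hl (SM S fun s => -β s)) a b)) :=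
          lintegral_mono fun a => le_lintegral_add _ _
      _ ≤ ∫⁻ a, ∫⁻ b, 2 * volume (C9.fib (hl S) a b) :=
          lintegral_mono fun a => lintegral_mono fun b => C9.fib_le h1 h2 h3 hP D a b
      _ = 2 * ∫⁻ a, ∫⁻ b, volume (C9.fib (hl S) a b) := by
          rw [← lintegral_const_mul' _ _ (by norm_num)]
          refine lintegral_congr fun a => ?_
          rw [lintegral_const_mul' _ _ (by norm_num)]
  have h := ENNReal.toReal_mono (ENNReal.mul_ne_top (by norm_num) (hf S)) key
  rw [ENNReal.toReal_add (hf _) (hf _), ENNReal.toReal_mul] at h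
  unfold vl
  simp at h
  linarith

end H293M
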