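import Pool.Agent.H293R2.M3.Spec

set_option autoImplicit false

open MeasureTheory Set

namespace H293M

namespace F1

theorem dt_comm (u s : E) : dt u s = dt s u := by unfold dt; ring

theorem dt_add (u s t : E) : dt u (s + t) = dt u s + dt u t := by
  simp only [dt, Prod.fst_add, Prod.snd_add]; ring

theorem dt_smul (u s : E) (c : ℝ) : dt u (c • s) = c * dt u s := by
  simp only [dt, Prod.smul_fst, Prod.smul_snd, smul_eq_mul]; ring

theorem dt_sub (u s t : E) : dt u (s - t) = dt u s - dt u t := by
  simp only [dt, Prod.fst_sub, Prod.snd_sub]; ring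

theorem dt_cont (u : E) : Continuous fun s => dt u s := by
  unfold dt; fun_prop

theorem dt_half_convex (u : E) : Convex ℝ {s : E | dt u s ≤ 1} := by
  intro x hx y hy a b ha hb hab
  simp only [Set.mem_ofPred_eq] at hx hy ⊢
  rw [dt_add, dt_smul, dt_smul]
  calc a * dt u x + b * dt u y ≤ a * 1 + b * 1 :=
        add_le_add (mul_le_mul_of_nonneg_left hx ha) (mul_le_mul_of_nonneg_left hy hb)
    _ = 1 := by rw [mul_one, mul_one, hab]

/-- the polar set -/
def Q (S : Finset E) : Set E := {y | ∀ s ∈ S, dt s y ≤ 1}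

theorem Q_hull (S : Finset E) {y : E} (hy : y ∈ Q S) {x : E} (hx : x ∈ hl S) : dt x y ≤ 1 := by
  have h : (S : Set E) ⊆ {s : E | dt y s ≤ 1} := by
    intro s hs
    simp only [Set.mem_ofPred_eq]
    rw [dt_comm]; exact hy s hs
  have := convexHull_min h (dt_half_convex y) hx
  rw [dt_comm]; exact this

theorem Q_closed (S : Finset E) : IsClosed (Q S) := by
  have : Q S = ⋂ s ∈ S, {y | dt s y ≤ 1} := by
    ext y; simp [Q]
  rw [this]
  exact isClosed_biInter fun s _ => isClosed_le (dt_cont s) continuous_const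

theorem Q_convex (S : Finset E) : Convex ℝ (Q S) := by
  have : Q S = ⋂ s ∈ S, {y | dt s y ≤ 1} := by
    ext y; simp [Q]
  rw [this]
  exact convex_iInter₂ fun s _ => dt_half_convex s

theorem Q_compact {S : Finset E} (h0 : (0 : E) ∈ interior (hl S)) : IsCompact (Q S) := by
  refine Metric.isCompact_of_isClosed_isBounded (Q_closed S) ?_
  obtain ⟨ρ, hρ, hball⟩ := Metric.mem_nhds_iff.1 (mem_interior_iff_mem_nhds.1 h0)
  rw [isBounded_iff_forall_norm_le]
  refine ⟨2 / ρ, fun y hy => ?_⟩
  have key : ∀ x : E, ‖x‖ < ρ → dt x y ≤ 1 := fun x hx =>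
    Q_hull S hy (hball (by rwa [Metric.mem_ball, dist_zero_right]))
  have hn : ∀ c : ℝ, |c| = ρ / 2 → ‖((c, 0, 0) : E)‖ < ρ ∧ ‖((0, c, 0) : E)‖ < ρ ∧
      ‖((0, 0, c) : E)‖ < ρ := by
    intro c hc
    simp only [Prod.norm_def, norm_zero, Real.norm_eq_abs, hc]
    refine ⟨?_, ?_, ?_⟩ <;> simp <;> linarith
  have hp : |ρ / 2| = ρ / 2 := abs_of_pos (by positivity)
  have hm : |-(ρ / 2)| = ρ / 2 := by rw [abs_neg, hp]
  have a1 := key _ (hn _ hp).1
  have a2 := key _ (hn _ hm).1
  have b1 := key _ (hn _ hp).2.1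
  have b2 := key _ (hn _ hm).2.1
  have c1 := key _ (hn _ hp).2.2
  have c2 := key _ (hn _ hm).2.2
  simp only [dt, zero_mul, add_zero, zero_add] at a1 a2 b1 b2 c1 c2
  have hdiv : ∀ t : ℝ, ρ / 2 * t ≤ 1 → -(ρ / 2) * t ≤ 1 → |t| ≤ 2 / ρ := by
    intro t h1 h2
    rw [abs_le, le_div_iff₀ hρ, neg_le, le_div_iff₀ hρ]
    constructor <;> nlinarith
  simp only [Prod.norm_def, Real.norm_eq_abs]
  exact max_le (hdiv _ a1 a2) (max_le (hdiv _ b1 b2) (hdiv _ c1 c2))

open scoped Classical in
theorem ext_finite {S : Finset E} : ((Q S).extremePoints ℝ).Finite := by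
  refine Set.Finite.of_injOn (f := fun y => S.filter (fun s => dt s y = 1))
    (t := (S.powerset : Set (Finset E))) ?_ ?_ (Finset.finite_toSet _)
  · intro y _
    rw [Finset.mem_coe, Finset.mem_powerset]
    exact Finset.filter_subset _ _
  · intro y hy y' hy' h
    by_contra hne
    set w : E := y' - y with hw
    have hw0 : w ≠ 0 := sub_ne_zero.2 (Ne.symm hne)
    have hact : ∀ s ∈ S, dt s y = 1 → dt s w = 0 := by
      intro s hs h1
      have h2 : s ∈ S.filter (fun s => dt s y' = 1) := by
        have h3 : s ∈ S.filter (fun s => dt s y = 1) := Finset.mem_filter.2 ⟨hs, h1⟩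
        have h4 : S.filter (fun s => dt s y = 1) = S.filter (fun s => dt s y' = 1) := h
        rw [← h4]; exact h3
      rw [hw, dt_sub, h1, (Finset.mem_filter.1 h2).2, sub_self]
    have hev : ∀ s ∈ S, ∀ᶠ e in nhdsWithin (0 : ℝ) (Set.Ioi 0),
        dt s (y + e • w) ≤ 1 ∧ dt s (y - e • w) ≤ 1 := by
      intro s hs
      by_cases h1 : dt s y = 1
      · refine Filter.Eventually.of_forall fun e => ?_
        rw [dt_add, dt_sub, dt_smul, hact s hs h1, h1]
        constructor <;> simp
      · have hlt : dt s y < 1 := lt_of_le_of_ne (hy.1 s hs) h1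
        have c1 : Filter.Tendsto (fun e : ℝ => dt s (y + e • w)) (nhds 0) (nhds (dt s y)) := by
          have : Continuous fun e : ℝ => dt s (y + e • w) := (dt_cont s).comp (by fun_prop)
          have h := this.tendsto 0
          simpa using h
        have c2 : Filter.Tendsto (fun e : ℝ => dt s (y - e • w)) (nhds 0) (nhds (dt s y)) := by
          have : Continuous fun e : ℝ => dt s (y - e • w) := (dt_cont s).comp (by fun_prop)
          have h := this.tendsto 0
          simpa using h
        have d1 : ∀ᶠ e in nhdsWithin (0 : ℝ) (Set.Ioi 0), dt s (y + e • w) < 1 :=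
          (c1.eventually (gt_mem_nhds hlt)).filter_mono nhdsWithin_le_nhds
        have d2 : ∀ᶠ e in nhdsWithin (0 : ℝ) (Set.Ioi 0), dt s (y - e • w) < 1 :=
          (c2.eventually (gt_mem_nhds hlt)).filter_mono nhdsWithin_le_nhds
        filter_upwards [d1, d2] with e he1 he2
        exact ⟨he1.le, he2.le⟩
    have hall := (Filter.eventually_all_finset S).2 hev
    obtain ⟨e, he, hepos⟩ := (hall.and self_mem_nhdsWithin).exists
    have hepos' : (0 : ℝ) < e := hepos
    have m1 : y + e • w ∈ Q S := fun s hs => (he s hs).1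
    have m2 : y - e • w ∈ Q S := fun s hs => (he s hs).2
    have hseg : y ∈ openSegment ℝ (y + e • w) (y - e • w) := by
      refine ⟨1 / 2, 1 / 2, by norm_num, by norm_num, by norm_num, ?_⟩
      rw [← smul_add, add_add_sub_cancel, ← two_smul ℝ y, smul_smul]
      norm_num
    have hz := hy.2 m1 m2 hseg
    have : e • w = 0 := by
      have h5 : y + e • w = y := hz
      simpa using h5
    rcases smul_eq_zero.1 this with h6 | h6
    · exact hepos'.ne' h6
    · exact hw0 h6

end F1

open F1 in
theorem t_exU : S_exU := by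
  intro S h0
  classical
  set U : Finset E := (ext_finite (S := S)).toFinset with hU
  have hUc : (U : Set E) = (Q S).extremePoints ℝ := (ext_finite (S := S)).coe_toFinset
  have hQ : Q S = convexHull ℝ (U : Set E) := by
    have h1 := closure_convexHull_extremePoints (Q_compact h0) (Q_convex S)
    rw [← hUc] at h1
    rw [← h1]
    exact ((U.finite_toSet.isCompact_convexHull (𝕜 := ℝ)).isClosed).closure_eq
  refine ⟨U, h0, ?_⟩
  have hcl : IsClosed (hl S) := (S.finite_toSet.isCompact_convexHull (𝕜 := ℝ)).isClosed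
  ext x
  constructor
  · intro hx u hu
    have huQ : u ∈ Q S := by rw [hQ]; exact subset_convexHull ℝ _ hu
    rw [dt_comm]
    exact Q_hull S huQ hx
  · intro hx
    by_contra hxS
    obtain ⟨f, c, hf1, hf2⟩ :=
      geometric_hahn_banach_closed_point (convex_convexHull ℝ (S : Set E)) hcl hxS
    have hc : 0 < c := by
      have := hf1 0 (interior_subset h0)
      simpa using this
    set w : E := (f (1, 0, 0), f (0, 1, 0), f (0, 0, 1)) with hw
    have hfw : ∀ a : E, f a = dt w a := by
      intro a
      have e : a = a.1 • ((1, 0, 0) : E) + a.2.1 • ((0, 1, 0) : E) + a.2.2 • ((0, 0, 1) : E) := by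
        ext <;> simp
      conv_lhs => rw [e]
      rw [map_add, map_add, map_smul, map_smul, map_smul, hw]
      simp only [dt, smul_eq_mul]
      ring
    set y : E := (1 / c) • w with hy
    have hyQ : y ∈ Q S := by
      intro s hs
      rw [hy, dt_smul, dt_comm, ← hfw, one_div, inv_mul_le_iff₀ hc, mul_one]
      exact (hf1 s (subset_convexHull ℝ _ hs)).le
    have hyx : 1 < dt y x := by
      rw [dt_comm, hy, dt_smul, dt_comm, ← hfw, one_div, lt_inv_mul_iff₀ hc, mul_one]
      exact hf2
    have hsub : Q S ⊆ {s : E | dt x s ≤ 1} := by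
      rw [hQ]
      refine convexHull_min ?_ (dt_half_convex x)
      intro u hu
      simp only [Set.mem_ofPred_eq]
      rw [dt_comm]
      exact hx u hu
    have := hsub hyQ
    simp only [Set.mem_ofPred_eq] at this
    rw [dt_comm] at this
    linarith

end H293M
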