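import Pool.Agent.H293R2.M3.Spec

set_option autoImplicit false

open MeasureTheory Set

namespace H293M

theorem t_approx : S_approx := by
  intro K hK hc h0 ε hε
  classical
  have hnhds : K ∈ nhds (0 : E) := mem_interior_iff_mem_nhds.1 h0
  obtain ⟨b, hb1, hb2⟩ := exists_mem_interior_convexHull_affineBasis hnhds
  have hbfin : (Set.range b).Finite := Set.finite_range b
  set S0 : Finset E := hbfin.toFinset with hS0
  have hS0c : (S0 : Set E) = Set.range b := hbfin.coe_toFinset
  have hS0K : (S0 : Set E) ⊆ K := by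
    rw [hS0c]
    exact (subset_convexHull ℝ _).trans hb2
  obtain ⟨ρ, hρ, hball⟩ := Metric.mem_nhds_iff.1 (mem_interior_iff_mem_nhds.1 hb1)
  have hδ : 0 < ε * ρ / 2 := by positivity
  obtain ⟨T, hTK, hTfin, hcov⟩ := hK.finite_cover_balls hδ
  set S : Finset E := S0 ∪ hTfin.toFinset with hS
  have hS0S : (S0 : Set E) ⊆ (S : Set E) := by
    rw [hS, Finset.coe_union]; exact Set.subset_union_left
  have hTS : T ⊆ (S : Set E) := by
    rw [hS, Finset.coe_union, hTfin.coe_toFinset]; exact Set.subset_union_right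
  have hh0 : convexHull ℝ (S0 : Set E) ⊆ hl S := convexHull_mono hS0S
  refine ⟨S, ?_, ?_, ?_⟩
  · rw [hS, Finset.coe_union, hTfin.coe_toFinset]
    exact Set.union_subset hS0K hTK
  · refine interior_mono hh0 ?_
    rw [hS0c]; exact hb1
  · intro x hx
    obtain ⟨t, htT, hxt⟩ := Set.mem_iUnion₂.1 (hcov hx)
    rw [Metric.mem_ball, dist_eq_norm] at hxt
    have h1 : (1 / ε) • (x - t) ∈ hl S := by
      apply hh0
      rw [hS0c]
      apply hball
      rw [Metric.mem_ball, dist_zero_right, norm_smul, Real.norm_of_nonneg (by positivity)]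
      calc 1 / ε * ‖x - t‖ < 1 / ε * (ε * ρ / 2) :=
            mul_lt_mul_of_pos_left hxt (by positivity)
        _ = ρ / 2 := by field_simp
        _ < ρ := by linarith
    have h2 : t ∈ hl S := subset_convexHull ℝ _ (hTS htT)
    have h3 : (1 / (1 + ε)) • t + (ε / (1 + ε)) • ((1 / ε) • (x - t)) ∈ hl S := by
      refine (convex_convexHull ℝ (S : Set E)) h2 h1 (by positivity) (by positivity) ?_
      field_simp
    refine ⟨_, h3, ?_⟩
    have e1 : (1 + ε) * (1 / (1 + ε)) = 1 := by field_simp
    have e2 : (1 + ε) * (ε / (1 + ε)) * (1 / ε) = 1 := by field_simp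
    change (1 + ε) • ((1 / (1 + ε)) • t + (ε / (1 + ε)) • ((1 / ε) • (x - t))) = x
    rw [smul_add, smul_smul, smul_smul, smul_smul, e1, e2, one_smul, one_smul]
    abel

end H293M
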