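import Pool.Agent.H293R2.M3.Spec

set_option autoImplicit false

open MeasureTheory Set
open scoped Pointwise

namespace H293M

namespace F3

theorem dt_smul_smul (c : ℝ) (hc : c ≠ 0) (u s : E) : dt (c • u) (c⁻¹ • s) = dt u s := by
  simp only [dt, Prod.smul_fst, Prod.smul_snd, smul_eq_mul]
  field_simp

theorem polz_anti {K L : Set E} (h : K ⊆ L) (z : E) : polz L z ⊆ polz K z :=
  fun _ hy x hx => hy x (h hx)

theorem finrank_E : Module.finrank ℝ E = 3 := by
  simp [E]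

theorem haar2 : (volume : Measure (ℝ × ℝ)).IsAddHaarMeasure :=
  Measure.prod.instIsAddHaarMeasure volume volume

theorem haar3 : (volume : Measure E).IsAddHaarMeasure :=
  haveI := haar2
  Measure.prod.instIsAddHaarMeasure volume volume

theorem main_eps (h1 : S_main) (h2 : S_exU) (h3 : S_approx) (h4 : S_pol) {K : Set E}
    (hK : IsCompact K) (hc : Convex ℝ K) (h0 : (0 : E) ∈ interior K) {ε : ℝ} (hε : 0 < ε) :
    64 / 9 ≤ (1 + ε) ^ 3 * (vl K * vl (polz K 0)) := by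
  haveI := haar3
  obtain ⟨S, hS, hS0, hKS⟩ := h3 hK hc h0 hε
  obtain ⟨U, hU⟩ := h2 hS0
  have hmain := h1 hU
  have hpol : polz (hl S) 0 = hl U := h4.polz_hl hU
  have hSK : hl S ⊆ K := convexHull_min hS hc
  have hcU : IsCompact (hl U) := U.finite_toSet.isCompact_convexHull (𝕜 := ℝ)
  have hv1 : vl (hl S) ≤ vl K :=
    ENNReal.toReal_mono hK.measure_lt_top.ne (measure_mono hSK)
  have hpK : polz K 0 ⊆ hl U := by
    rw [← hpol]; exact polz_anti hSK 0
  have hfin : volume (polz K 0) ≠ ⊤ :=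
    ((measure_mono hpK).trans_lt hcU.measure_lt_top).ne
  have hε1 : (0 : ℝ) < 1 + ε := by linarith
  have hsub : (1 + ε)⁻¹ • hl U ⊆ polz K 0 := by
    rw [← hpol]
    rintro _ ⟨y, hy, rfl⟩ x hx
    obtain ⟨s, hs, rfl⟩ := hKS hx
    have h5 := hy s hs
    rw [sub_zero] at h5 ⊢
    have h6 := dt_smul_smul (1 + ε) hε1.ne' s y
    show dt ((1 + ε) • s) ((1 + ε)⁻¹ • y) ≤ 1
    rw [h6]; exact h5
  have hv2 : ((1 + ε)⁻¹) ^ 3 * vl (hl U) ≤ vl (polz K 0) := by
    have h5 : volume ((1 + ε)⁻¹ • hl U) ≤ volume (polz K 0) := measure_mono hsub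
    rw [Measure.addHaar_smul, finrank_E] at h5
    have h6 := ENNReal.toReal_mono hfin h5
    rw [ENNReal.toReal_mul, ENNReal.toReal_ofReal (abs_nonneg _),
      abs_of_nonneg (by positivity)] at h6
    exact h6
  have hv3 : vl (hl U) ≤ (1 + ε) ^ 3 * vl (polz K 0) := by
    have h5 := mul_le_mul_of_nonneg_left hv2 (show (0 : ℝ) ≤ (1 + ε) ^ 3 by positivity)
    rw [← mul_assoc, ← mul_pow, mul_inv_cancel₀ hε1.ne', one_pow, one_mul] at h5
    exact h5
  have hK0 : 0 ≤ vl K := ENNReal.toReal_nonneg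
  have hU0 : 0 ≤ vl (hl U) := ENNReal.toReal_nonneg
  calc 64 / 9 ≤ vl (hl S) * vl (hl U) := hmain
    _ ≤ vl K * vl (hl U) := mul_le_mul_of_nonneg_right hv1 hU0
    _ ≤ vl K * ((1 + ε) ^ 3 * vl (polz K 0)) := mul_le_mul_of_nonneg_left hv3 hK0
    _ = (1 + ε) ^ 3 * (vl K * vl (polz K 0)) := by ring

end F3

theorem t_body (h1 : S_main) (h2 : S_exU) (h3 : S_approx) (h4 : S_pol) : S_body := by
  intro K hK hc h0
  have hlim : Filter.Tendsto (fun ε : ℝ => (1 + ε) ^ 3 * (vl K * vl (polz K 0)))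
      (nhdsWithin 0 (Ioi 0)) (nhds ((1 + 0) ^ 3 * (vl K * vl (polz K 0)))) :=
    ((by fun_prop : Continuous fun ε : ℝ =>
      (1 + ε) ^ 3 * (vl K * vl (polz K 0))).tendsto 0).mono_left nhdsWithin_le_nhds
  have h5 := ge_of_tendsto hlim (b := 64 / 9) (by
    filter_upwards [self_mem_nhdsWithin] with ε hε
    exact F3.main_eps h1 h2 h3 h4 hK hc h0 hε)
  simpa using h5

end H293M
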