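import Pool.Agent.H293R2.M3.Spec

set_option autoImplicit false

open MeasureTheory Set

namespace H293M

/-- coordinates -/
noncomputable def F4.lin : EuclideanSpace ℝ (Fin 3) ≃ₗ[ℝ] E where
  toFun x := (x 0, x 1, x 2)
  invFun p := !₂[p.1, p.2.1, p.2.2]
  map_add' x y := rfl
  map_smul' c x := rfl
  left_inv x := by
    ext i
    fin_cases i <;> rfl
  right_inv p := rfl

/-- coordinates, as a continuous linear equivalence -/
noncomputable def F4.phi : EuclideanSpace ℝ (Fin 3) ≃L[ℝ] E := F4.lin.toContinuousLinearEquiv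

theorem F4.phi_apply (x : EuclideanSpace ℝ (Fin 3)) : F4.phi x = (x 0, x 1, x 2) := rfl

theorem F4.mp : MeasurePreserving F4.phi (volume : Measure (EuclideanSpace ℝ (Fin 3)))
    (volume : Measure E) := by
  have h1 := PiLp.volume_preserving_ofLp (Fin 3)
  have h2 := volume_preserving_piFinSuccAbove (fun _ : Fin 3 => ℝ) 0
  have h3 : MeasurePreserving (Prod.map (id : ℝ → ℝ) (MeasurableEquiv.finTwoArrow (α := ℝ)))
      (volume : Measure (ℝ × (Fin 2 → ℝ))) (volume : Measure (ℝ × (ℝ × ℝ))) :=
    (MeasurePreserving.id (volume : Measure ℝ)).prod (volume_preserving_finTwoArrow ℝ)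
  have h4 := h3.comp (h2.comp h1)
  have h5 : (F4.phi : EuclideanSpace ℝ (Fin 3) → E) =
      (Prod.map (id : ℝ → ℝ) (MeasurableEquiv.finTwoArrow (α := ℝ))) ∘
        ((MeasurableEquiv.piFinSuccAbove (fun _ : Fin 3 => ℝ) 0) ∘ WithLp.ofLp) := by
    funext x
    rfl
  rw [h5]
  exact h4

theorem F4.vl_image (A : Set (EuclideanSpace ℝ (Fin 3))) :
    vl (F4.phi '' A) = (volume A).toReal := by
  unfold vl
  congr 1
  have h : MeasurePreserving (F4.phi.toHomeomorph.toMeasurableEquiv)
      (volume : Measure (EuclideanSpace ℝ (Fin 3))) (volume : Measure E) := F4.mp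
  have h2 := h.measure_preimage_equiv (F4.phi '' A)
  rw [← h2]
  congr 1
  exact Set.preimage_image_eq A F4.phi.injective

theorem F4.inner_eq (x y : EuclideanSpace ℝ (Fin 3)) :
    inner ℝ x y = dt (F4.phi x) (F4.phi y) := by
  rw [F4.phi_apply, F4.phi_apply]
  simp only [PiLp.inner_apply, Fin.sum_univ_three, dt, RCLike.inner_apply, conj_trivial]
  ring

theorem t_final (h : S_body) : S_final := by
  intro K hK hKc z hz
  set K0 : Set (EuclideanSpace ℝ (Fin 3)) := (fun x => x - z) '' K with hK0
  have hK0c : IsCompact K0 := hK.image (by fun_prop)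
  have hK0v : Convex ℝ K0 := by
    have : K0 = (fun x => -z + x) '' K := by
      rw [hK0]
      congr 1
      funext x
      abel
    rw [this]
    exact hKc.translate (-z)
  have hK0i : (0 : EuclideanSpace ℝ (Fin 3)) ∈ interior K0 := by
    have h1 : (Homeomorph.subRight z) '' (interior K) = interior ((Homeomorph.subRight z) '' K) :=
      (Homeomorph.subRight z).image_interior K
    have h2 : (0 : EuclideanSpace ℝ (Fin 3)) ∈ (Homeomorph.subRight z) '' (interior K) :=
      ⟨z, hz, by simp⟩
    rw [h1] at h2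
    exact h2
  have hvol : volume K0 = volume K := by
    have h1 : K0 = (fun x => x + z) ⁻¹' K := by
      ext x
      rw [hK0, Set.mem_image, Set.mem_preimage]
      constructor
      · rintro ⟨y, hy, rfl⟩
        simpa using hy
      · intro hx
        exact ⟨x + z, hx, by simp⟩
    rw [h1]
    exact measure_preimage_add_right volume z K
  have hpol : polz (F4.phi '' K0) 0 =
      F4.phi '' {y | ∀ x ∈ K, inner ℝ (x - z) y ≤ 1} := by
    ext y
    constructor
    · intro hy
      refine ⟨F4.phi.symm y, ?_, F4.phi.apply_symm_apply y⟩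
      intro x hx
      rw [F4.inner_eq, F4.phi.apply_symm_apply]
      have := hy (F4.phi (x - z)) ⟨x - z, ⟨x, hx, rfl⟩, rfl⟩
      rwa [sub_zero] at this
    · rintro ⟨y, hy, rfl⟩
      rintro _ ⟨_, ⟨x, hx, rfl⟩, rfl⟩
      rw [sub_zero, ← F4.inner_eq]
      exact hy x hx
  have hcompact : IsCompact (F4.phi '' K0) := hK0c.image F4.phi.continuous
  have hconv : Convex ℝ (F4.phi '' K0) := hK0v.linear_image F4.phi.toLinearMap
  have hint : (0 : E) ∈ interior (F4.phi '' K0) := by
    have h1 := F4.phi.toHomeomorph.image_interior K0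
    have h2 : (0 : E) ∈ F4.phi.toHomeomorph '' (interior K0) :=
      ⟨0, hK0i, map_zero F4.phi⟩
    rw [h1] at h2
    exact h2
  have hfin := h hcompact hconv hint
  rw [hpol, F4.vl_image, F4.vl_image, hvol] at hfin
  exact hfin

end H293M
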