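import Pool.Agent.H293R2.M3.Spec

/-!
The non-symmetric Mahler inequality in dimension three: the main induction.
-/

set_option autoImplicit false

open MeasureTheory Set

namespace H293M

namespace M

lemma dt_comm (u s : E) : dt u s = dt s u := by
  simp only [dt]; ring

lemma inc_le (S U : Finset E) : inc S U ≤ S.card * U.card := by
  classical
  unfold inc
  calc ∑ u ∈ U, (fc S u).card ≤ ∑ _u ∈ U, S.card := by
        apply Finset.sum_le_sum
        intro u _
        unfold fc
        exact Finset.card_filter_le _ _
    _ = S.card * U.card := by
        rw [Finset.sum_const, smul_eq_mul, mul_comm]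

lemma inc_comm (S U : Finset E) : inc S U = inc U S := by
  classical
  unfold inc fc
  simp only [Finset.card_filter]
  rw [Finset.sum_comm]
  apply Finset.sum_congr rfl
  intro s _
  apply Finset.sum_congr rfl
  intro u _
  rw [dt_comm u s]

/-- one step of the induction for an irredundant pair -/
lemma step (hpol : S_pol) (hbeta : S_beta) (hfour : S_four) (hcoord : S_coord) (hdec : S_dec)
    (hneg : S_neg) (hint : S_int) (hnew : S_new) (hvol : S_vol) (htool : S_tool)
    (htetra : S_tetra) {S U : Finset E} (hP : Pr S U) (hI : Irr S U) (hle : S.card ≤ U.card)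
    (IH : ∀ S' U' : Finset E, Pr S' U' → (S'.card + U'.card < S.card + U.card ∨
      (S'.card = S.card ∧ U'.card = U.card ∧ inc S U < inc S' U')) →
      64 / 9 ≤ vl (hl S') * vl (hl U')) :
    64 / 9 ≤ vl (hl S) * vl (hl U) := by
  rcases Nat.lt_or_ge S.card 5 with h5 | h5
  · have h4 : S.card = 4 := by
      have := hfour hP
      omega
    exact htetra hP h4
  · obtain ⟨θ, β, hθ, hβ, hnaff⟩ := hbeta hP hI h5 hle
    obtain ⟨S', U', β', hP', hI', hcS, hcU, hinc, hvv, hβ', hnaff'⟩ :=
      hcoord hP hI hθ hβ hnaff
    obtain ⟨γ, G, hD⟩ := hdec hP' hβ' hnaff'
    have hDn := hneg hD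
    rw [← hvv]
    have key : ∀ {γ : E → ℝ} {G : E → E}, Dec S' U' γ G → ∀ z ∈ interior (hl (SM S' γ)),
        64 / 9 ≤ vl (hl (SM S' γ)) * vl (polz (hl (SM S' γ)) z) := by
      intro γ G hD z hz
      obtain ⟨S'', U'', hP'', hc1, hc2, hc3, hv1, hv2⟩ := hnew hP' hD hz
      rw [← hv1, ← hv2]
      apply IH S'' U'' hP''
      by_cases hlt : S''.card + U''.card < S.card + U.card
      · exact Or.inl hlt
      · right
        have e1 : S''.card = S'.card := by omega
        have e2 : U''.card = U'.card := by omega
        refine ⟨by omega, by omega, ?_⟩
        rw [← hinc]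
        exact hc3 e1 e2
    have := htool (S := S') (β := γ) hP'.zero (hint hP' hD) (hint hP' hDn) (hvol hP' hD)
      (c := 64 / 9) (by norm_num) (key hD) (key hDn)
    rwa [hpol.polz_hl hP'] at this

end M

theorem t_main (hpol : S_pol) (herase : S_erase) (hbeta : S_beta) (hfour : S_four)
    (hcoord : S_coord) (hdec : S_dec) (hneg : S_neg) (hint : S_int) (hnew : S_new) (hvol : S_vol)
    (htool : S_tool) (htetra : S_tetra) : S_main := by
  have main : ∀ n : ℕ, ∀ m : ℕ, ∀ S U : Finset E, Pr S U → S.card + U.card = n →
      S.card * U.card - inc S U = m → 64 / 9 ≤ vl (hl S) * vl (hl U) := by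
    intro n
    induction n using Nat.strong_induction_on with
    | _ n IHn =>
      intro m
      induction m using Nat.strong_induction_on with
      | _ m IHm =>
        intro S U hP hn hm
        by_cases hI : Irr S U
        · rcases le_total S.card U.card with hle | hle
          · apply M.step hpol hbeta hfour hcoord hdec hneg hint hnew hvol htool htetra hP hI hle
            intro S' U' hP' hor
            rcases hor with h | ⟨h1, h2, h3⟩
            · exact IHn (S'.card + U'.card) (by omega) _ S' U' hP' rfl rfl
            · refine IHm (S'.card * U'.card - inc S' U') ?_ S' U' hP' (by omega) rfl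
              have := M.inc_le S' U'
              rw [h1, h2] at this ⊢
              omega
          · have hPs := hpol.swap hP
            have hIs : Irr U S := ⟨hI.lu, hI.ls⟩
            rw [mul_comm]
            apply M.step hpol hbeta hfour hcoord hdec hneg hint hnew hvol htool htetra hPs hIs hle
            intro S' U' hP' hor
            rcases hor with h | ⟨h1, h2, h3⟩
            · exact IHn (S'.card + U'.card) (by omega) _ S' U' hP' rfl rfl
            · refine IHm (S'.card * U'.card - inc S' U') ?_ S' U' hP' (by omega) rfl
              have h4 := M.inc_le S' U'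
              rw [h1, h2] at h4 ⊢
              rw [M.inc_comm U S] at h3
              rw [mul_comm U.card S.card] at h4 ⊢
              omega
        · have : (∃ s ∈ S, s ∈ convexHull ℝ ((S : Set E) \ {s})) ∨
              (∃ u ∈ U, u ∈ convexHull ℝ ((U : Set E) \ {u})) := by
            by_contra hcon
            push Not at hcon
            exact hI ⟨hcon.1, hcon.2⟩
          rcases this with ⟨s, hs, hsc⟩ | ⟨u, hu, huc⟩
          · obtain ⟨hP', he⟩ := herase.s hP hs hsc
            rw [← he]
            have hc := Finset.card_erase_lt_of_mem hs
            refine IHn ((S.erase s).card + U.card) ?_ _ (S.erase s) U ?_ rfl rfl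
            · have : (S.erase s).card < S.card := by
                convert hc
              omega
            · exact hP'
          · obtain ⟨hP', he⟩ := herase.u hP hu huc
            rw [← he]
            have hc := Finset.card_erase_lt_of_mem hu
            refine IHn (S.card + (U.erase u).card) ?_ _ S (U.erase u) ?_ rfl rfl
            · have : (U.erase u).card < U.card := by
                convert hc
              omega
            · exact hP'
  intro S U hP
  exact main _ _ S U hP rfl rfl

end H293M
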