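import Pool.Agent.H293R2.M3.A1
import Pool.Agent.H293R2.M3.A2a
import Pool.Agent.H293R2.M3.A2b
import Pool.Agent.H293R2.M3.A3a
import Pool.Agent.H293R2.M3.A3b
import Pool.Agent.H293R2.M3.A6
import Pool.Agent.H293R2.M3.A7
import Pool.Agent.H293R2.M3.B1
import Pool.Agent.H293R2.M3.B2
import Pool.Agent.H293R2.M3.C0
import Pool.Agent.H293R2.M3.C1
import Pool.Agent.H293R2.M3.C2a
import Pool.Agent.H293R2.M3.C2b
import Pool.Agent.H293R2.M3.C4a
import Pool.Agent.H293R2.M3.C4b
import Pool.Agent.H293R2.M3.C5
import Pool.Agent.H293R2.M3.C6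
import Pool.Agent.H293R2.M3.C7a
import Pool.Agent.H293R2.M3.C7b
import Pool.Agent.H293R2.M3.C7c
import Pool.Agent.H293R2.M3.C8
import Pool.Agent.H293R2.M3.C9
import Pool.Agent.H293R2.M3.F1
import Pool.Agent.H293R2.M3.F2
import Pool.Agent.H293R2.M3.F3
import Pool.Agent.H293R2.M3.F4
import Pool.Agent.H293R2.M3.M
import Pool.Agent.H293R2.M3.A5
import Pool.Agent.H293R2.M3.C3

set_option autoImplicit false

namespace H293M

/-- the non-symmetric Mahler inequality in dimension three -/
theorem all : S_final := by
  have hfpm : S_fpm := t_fpm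
  have h5 : S_axis := t_axis hfpm
  have hvlp : S_vlp := t_vlp hfpm
  have hpol : S_pol := t_pol
  have hspan : S_span := t_span hpol
  have h3 : S_count := t_count hspan
  have hface : S_face := t_face
  have htop : S_top := t_top hface
  have hbot : S_bot := t_bot hface
  have hneg : S_neg := t_neg
  have hint : S_int := t_int
  have hrep : S_rep := t_rep hneg hint htop hbot
  have hIc : S_Ic := t_Ic
  have hbbl1 : S_bbl1 := t_bbl1
  have hbbl2 : S_bbl2 := t_bbl2 hbbl1 hIc
  have hshift : S_shift := t_shift hIc
  have htool : S_tool := t_tool hIc hbbl2 hfpm hvlp h5 hshift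
  have herase : S_erase := t_erase
  have hbeta : S_beta := t_beta h3 hspan
  have hfour : S_four := t_four
  have hcoord : S_coord := t_coord
  have hdec : S_dec := t_dec
  have hnew : S_new := t_new hrep hpol
  have hvol : S_vol := t_vol hneg htop hbot
  have hsimp : S_simp := t_simp
  have htetra : S_tetra := t_tetra hpol hsimp
  have hmain : S_main := t_main hpol herase hbeta hfour hcoord hdec hneg hint hnew hvol htool htetra
  have hexU : S_exU := t_exU
  have happrox : S_approx := t_approx
  have hbody : S_body := t_body hmain hexU happrox hpol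
  exact t_final hbody

end H293M
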