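import Pool.Agent.H293R2.M3.Spec2

set_option autoImplicit false

open MeasureTheory Set

namespace H293M

namespace G1

open scoped ENNReal

/-! ### product integrals -/

theorem lint_prod : ∀ {n : ℕ} (f : Fin n → ℝ → ℝ≥0∞), (∀ i, Measurable (f i)) →
    ∫⁻ a : Fin n → ℝ, ∏ i, f i (a i) = ∏ i, ∫⁻ t, f i t
  | 0, f, _ => by
    simp only [Finset.univ_eq_empty, Finset.prod_empty, lintegral_const, one_mul]
    rw [volume_pi]
    exact Measure.pi_empty_univ _
  | n + 1, f, hf => by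
    have mp := volume_preserving_piFinSuccAbove (fun _ : Fin (n + 1) => ℝ) 0
    have hg : Measurable (fun b : Fin n → ℝ => ∏ j : Fin n, f j.succ (b j)) := 
      Finset.measurable_prod _ fun j _ => (hf j.succ).comp (measurable_pi_apply j)
    have h1 : ∫⁻ a : Fin (n + 1) → ℝ, ∏ i, f i (a i) = 
        ∫⁻ p : ℝ × (Fin n → ℝ), f 0 p.1 * ∏ j : Fin n, f j.succ (p.2 j) := by
      rw [← mp.lintegral_comp]
      · refine lintegral_congr fun a => ?_
        rw [Fin.prod_univ_succ]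
        rfl
      · exact ((hf 0).comp measurable_fst).mul (hg.comp measurable_snd)
    rw [h1, Fin.prod_univ_succ, ← lint_prod (fun j => f j.succ) (fun j => hf j.succ)]
    exact lintegral_prod_mul (hf 0).aemeasurable hg.aemeasurable

theorem lint_exp {m : ℝ} (hm : 0 < m) : 
    ∫⁻ t in Ioi (0 : ℝ), ENNReal.ofReal (Real.exp (-(m * t))) = ENNReal.ofReal (1 / m) := by
  have h1 : IntegrableOn (fun t : ℝ => Real.exp ((-m) * t)) (Ioi 0) := 
    integrableOn_exp_mul_Ioi (by linarith) 0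
  have h2 := integral_exp_mul_Ioi (a := -m) (by linarith) 0
  have h3 : ∀ t : ℝ, Real.exp (-(m * t)) = Real.exp ((-m) * t) := fun t => by rw [neg_mul]
  simp only [h3]
  rw [← ofReal_integral_eq_lintegral_ofReal h1 (Filter.Eventually.of_forall fun t => (Real.exp_pos _).le), 
    h2]
  congr 1
  simp

theorem lint_R0 {μ : Fin 4 → ℝ} (hμ : ∀ i, 0 < μ i) : 
    ∫⁻ a in {a : Fin 4 → ℝ | ∀ i, 0 < a i}, ENNReal.ofReal (Real.exp (-∑ i, μ i * a i)) = 
      ∏ i, ENNReal.ofReal (1 / μ i) := by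
  have hm : MeasurableSet {a : Fin 4 → ℝ | ∀ i, 0 < a i} := by
    rw [ofPred_forall]
    exact MeasurableSet.iInter fun i => measurableSet_lt measurable_const (measurable_pi_apply i)
  rw [← lintegral_indicator hm]
  have h1 : ∀ a : Fin 4 → ℝ, ({a : Fin 4 → ℝ | ∀ i, 0 < a i}.indicator 
      (fun a => ENNReal.ofReal (Real.exp (-∑ i, μ i * a i)))) a = 
      ∏ i, (Ioi (0 : ℝ)).indicator (fun t => ENNReal.ofReal (Real.exp (-(μ i * t)))) (a i) := by
    intro a
    by_cases ha : ∀ i, 0 < a i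
    · rw [indicator_of_mem (show a ∈ {a : Fin 4 → ℝ | ∀ i, 0 < a i} from ha)]
      have h2 : ∀ i, (Ioi (0 : ℝ)).indicator (fun t => ENNReal.ofReal (Real.exp (-(μ i * t)))) (a i) = 
          ENNReal.ofReal (Real.exp (-(μ i * a i))) := fun i => indicator_of_mem (ha i) _
      simp only [h2]
      rw [← ENNReal.ofReal_prod_of_nonneg (fun i _ => (Real.exp_pos _).le), ← Real.exp_sum, 
        Finset.sum_neg_distrib]
    · rw [indicator_of_notMem (show a ∉ {a : Fin 4 → ℝ | ∀ i, 0 < a i} from ha)]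
      push Not at ha
      obtain ⟨i, hi⟩ := ha
      symm
      apply Finset.prod_eq_zero (Finset.mem_univ i)
      exact indicator_of_notMem (by simpa using hi) _
  simp only [h1]
  rw [lint_prod]
  · refine Finset.prod_congr rfl fun i _ => ?_
    rw [lintegral_indicator measurableSet_Ioi, lint_exp (hμ i)]
  · intro i
    refine Measurable.indicator ?_ measurableSet_Ioi
    fun_prop

/-- the region over the facet `i` -/
def R (h : (Fin 3 → ℝ) → ℝ) (i : Fin 4) : Set (Fin 4 → ℝ) :=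
  {a | (∀ k, 0 < a (i.succAbove k)) ∧ a i < 0 ∧ -(h fun k => a (i.succAbove k)) < a i}

def S (h : (Fin 3 → ℝ) → ℝ) : Set (ℝ × (Fin 3 → ℝ)) :=
  {p | (∀ k, 0 < p.2 k) ∧ p.1 < 0 ∧ -(h p.2) < p.1}

theorem meas_S {h : (Fin 3 → ℝ) → ℝ} (hh : Continuous h) : MeasurableSet (S h) := by
  have h1 : S h = {p : ℝ × (Fin 3 → ℝ) | ∀ k, 0 < p.2 k} ∩ ({p : ℝ × (Fin 3 → ℝ) | p.1 < 0} ∩ 
    {p : ℝ × (Fin 3 → ℝ) | -(h p.2) < p.1}) := rfl
  rw [h1]
  refine MeasurableSet.inter ?_ (MeasurableSet.inter ?_ ?_)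
  · rw [ofPred_forall]
    exact MeasurableSet.iInter fun k => measurableSet_lt measurable_const 
      ((measurable_pi_apply k).comp measurable_snd)
  · exact measurableSet_lt measurable_fst measurable_const
  · exact measurableSet_lt (hh.measurable.comp measurable_snd).neg measurable_fst

theorem R_eq (h : (Fin 3 → ℝ) → ℝ) (i : Fin 4) : 
    R h i = (MeasurableEquiv.piFinSuccAbove (fun _ : Fin 4 => ℝ) i) ⁻¹' S h := rfl

theorem meas_R {h : (Fin 3 → ℝ) → ℝ} (hh : Continuous h) (i : Fin 4) : MeasurableSet (R h i) := by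
  rw [R_eq]
  exact (MeasurableEquiv.piFinSuccAbove (fun _ : Fin 4 => ℝ) i).measurable (meas_S hh)

theorem lint_R {μ : Fin 4 → ℝ} (hμ : ∀ i, 0 < μ i) {h : (Fin 3 → ℝ) → ℝ} (hh : Continuous h) 
    (i : Fin 4) : 
    ∫⁻ a in {a : Fin 3 → ℝ | ∀ k, 0 < a k}, 
      ENNReal.ofReal (Real.exp (-∑ k, μ (i.succAbove k) * a k) * h a) ≤ 
    ∫⁻ a in R h i, ENNReal.ofReal (Real.exp (-∑ j, μ j * a j)) := by
  have mp := volume_preserving_piFinSuccAbove (fun _ : Fin 4 => ℝ) i
  have hG : Measurable (fun p : ℝ × (Fin 3 → ℝ) => 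
      ENNReal.ofReal (Real.exp (-(μ i * p.1 + ∑ k, μ (i.succAbove k) * p.2 k)))) := by
    fun_prop
  have h1 : ∫⁻ a in R h i, ENNReal.ofReal (Real.exp (-∑ j, μ j * a j)) = 
      ∫⁻ p in S h, ENNReal.ofReal (Real.exp (-(μ i * p.1 + ∑ k, μ (i.succAbove k) * p.2 k))) := by
    rw [← mp.setLIntegral_comp_preimage (meas_S hh) hG, R_eq]
    refine lintegral_congr fun a => ?_
    rw [Fin.sum_univ_succAbove _ i]
    rfl
  rw [h1, ← lintegral_indicator (meas_S hh), 
    show (volume : Measure (ℝ × (Fin 3 → ℝ))) = volume.prod volume from rfl, 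
    lintegral_prod_symm' _ (hG.indicator (meas_S hh))]
  have hm : MeasurableSet {a : Fin 3 → ℝ | ∀ k, 0 < a k} := by
    rw [ofPred_forall]
    exact MeasurableSet.iInter fun i => measurableSet_lt measurable_const (measurable_pi_apply i)
  rw [← lintegral_indicator hm]
  refine lintegral_mono fun b => ?_
  by_cases hb : ∀ k, 0 < b k
  · rw [indicator_of_mem (show b ∈ {a : Fin 3 → ℝ | ∀ k, 0 < a k} from hb)]
    have h2 : ENNReal.ofReal (Real.exp (-∑ k, μ (i.succAbove k) * b k) * h b) = 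
        ∫⁻ t in Ioo (-(h b)) 0, ENNReal.ofReal (Real.exp (-∑ k, μ (i.succAbove k) * b k)) := by
      rw [setLIntegral_const, Real.volume_Ioo, ENNReal.ofReal_mul (Real.exp_pos _).le]
      congr 2
      ring
    rw [h2, ← lintegral_indicator measurableSet_Ioo]
    refine lintegral_mono fun t => ?_
    by_cases ht : t ∈ Ioo (-(h b)) 0
    · rw [indicator_of_mem ht, indicator_of_mem (show (t, b) ∈ S h from ⟨hb, ht.2, ht.1⟩)]
      refine ENNReal.ofReal_le_ofReal (Real.exp_le_exp.2 ?_)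
      have := mul_neg_of_pos_of_neg (hμ i) ht.2
      show _ ≤ -(μ i * t + ∑ k, μ (i.succAbove k) * b k)
      linarith
    · rw [indicator_of_notMem ht]
      exact bot_le
  · rw [indicator_of_notMem (show b ∉ {a : Fin 3 → ℝ | ∀ k, 0 < a k} from hb)]
    exact bot_le

/-! ### geometry -/

theorem lam_sum (x : E) : ∑ i, lam x i = 1 := by
  simp [lam, Fin.sum_univ_four]
  ring

theorem lam_nonneg {x : E} (hx : x ∈ Dl) (i : Fin 4) : 0 ≤ lam x i := by
  obtain ⟨h1, h2, h3, h4⟩ := hx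
  fin_cases i
  · show 0 ≤ 1 - x.1 - x.2.1 - x.2.2
    linarith
  · exact h1
  · exact h2
  · exact h3

theorem dt_key (z x : E) (a : Fin 4 → ℝ) (hr : 0 < ∑ i, lam z i * a i) : 
    ∑ j, lam x j * a j = (∑ i, lam z i * a i) * (1 - dt (x - z) (dpt (lam z) a)) := by
  have h1 : dt (x - z) (dpt (lam z) a) = ((x.1 - z.1) * (a 0 - a 1) + (x.2.1 - z.2.1) * (a 0 - a 2) + 
      (x.2.2 - z.2.2) * (a 0 - a 3)) / ∑ i, lam z i * a i := by
    simp only [dt, dpt, Prod.fst_sub, Prod.snd_sub]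
    ring
  rw [h1, mul_sub, mul_one, mul_div_cancel₀ _ hr.ne']
  simp only [lam, Fin.sum_univ_four, Matrix.cons_val]
  ring

theorem exists_ball {K : Set E} {z : E} (hz : z ∈ interior K) : 
    ∃ r : ℝ, 0 < r ∧ ∀ w : E, |w.1| ≤ r → |w.2.1| ≤ r → |w.2.2| ≤ r → z + w ∈ K := by
  rw [mem_interior_iff_mem_nhds, Metric.mem_nhds_iff] at hz
  obtain ⟨ε, hε, h⟩ := hz
  refine ⟨ε / 2, by linarith, fun w h1 h2 h3 => h ?_⟩
  rw [Metric.mem_ball, dist_eq_norm, add_sub_cancel_left, Prod.norm_def, Prod.norm_def, max_lt_iff, 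
    max_lt_iff]
  simp only [Real.norm_eq_abs]
  refine ⟨?_, ?_, ?_⟩ <;> linarith

theorem lam_pos {K : Set E} (hK : K ⊆ Dl) {z : E} (hz : z ∈ interior K) (i : Fin 4) : 0 < lam z i := by
  obtain ⟨r, hr, h⟩ := exists_ball hz
  have hr0 : |(0 : ℝ)| ≤ r := by rw [abs_zero]; exact hr.le
  have hrr : |r| ≤ r := by rw [abs_of_pos hr]
  have hrn : |(-r)| ≤ r := by rw [abs_neg, abs_of_pos hr]
  fin_cases i
  · have := (hK (h (r, 0, 0) hrr hr0 hr0)).2.2.2
    simp only [Prod.fst_add, Prod.snd_add, add_zero] at this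
    show 0 < 1 - z.1 - z.2.1 - z.2.2
    linarith
  · have := (hK (h (-r, 0, 0) hrn hr0 hr0)).1
    simp only [Prod.fst_add] at this
    show 0 < z.1
    linarith
  · have := (hK (h (0, -r, 0) hr0 hrn hr0)).2.1
    simp only [Prod.fst_add, Prod.snd_add] at this
    show 0 < z.2.1
    linarith
  · have := (hK (h (0, 0, -r) hr0 hr0 hrn)).2.2.1
    simp only [Prod.snd_add] at this
    show 0 < z.2.2
    linarith

theorem dt_cont (u : E) : Continuous (fun y : E => dt u y) := by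
  unfold dt
  fun_prop

theorem meas_polz (K : Set E) (z : E) : MeasurableSet (polz K z) := by
  have h1 : polz K z = ⋂ x ∈ K, {y | dt (x - z) y ≤ 1} := by
    ext y
    simp [polz]
  rw [h1]
  exact (isClosed_biInter fun x _ => isClosed_le (dt_cont (x - z)) continuous_const).measurableSet

theorem fin_polz {K : Set E} {z : E} (hz : z ∈ interior K) : volume (polz K z) ≠ ∞ := by
  obtain ⟨r, hr, h⟩ := exists_ball hz
  have hr0 : |(0 : ℝ)| ≤ r := by rw [abs_zero]; exact hr.le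
  have hrr : |r| ≤ r := by rw [abs_of_pos hr]
  have hrn : |(-r)| ≤ r := by rw [abs_neg, abs_of_pos hr]
  have hsub : polz K z ⊆ Metric.closedBall 0 (1 / r) := by
    intro y hy
    have g : ∀ w : E, |w.1| ≤ r → |w.2.1| ≤ r → |w.2.2| ≤ r → dt w y ≤ 1 := by
      intro w h1 h2 h3
      have := hy _ (h w h1 h2 h3)
      rwa [add_sub_cancel_left] at this
    have a1 := g (r, 0, 0) hrr hr0 hr0
    have a2 := g (-r, 0, 0) hrn hr0 hr0
    have a3 := g (0, r, 0) hr0 hrr hr0
    have a4 := g (0, -r, 0) hr0 hrn hr0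
    have a5 := g (0, 0, r) hr0 hr0 hrr
    have a6 := g (0, 0, -r) hr0 hr0 hrn
    simp only [dt, zero_mul, add_zero, zero_add] at a1 a2 a3 a4 a5 a6
    rw [mem_closedBall_zero_iff, Prod.norm_def, Prod.norm_def]
    simp only [Real.norm_eq_abs]
    have hab : ∀ t : ℝ, r * t ≤ 1 → -r * t ≤ 1 → |t| ≤ 1 / r := by
      intro t h1 h2
      rw [abs_le, ← neg_div, div_le_iff₀ hr, le_div_iff₀ hr]
      constructor <;> linarith
    exact max_le (hab _ a1 a2) (max_le (hab _ a3 a4) (hab _ a5 a6))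
  exact ((measure_mono hsub).trans_lt (isCompact_closedBall _ _).measure_lt_top).ne

end G1

open G1 in
open scoped ENNReal in
theorem t_bump (h : S_cone2) : S_bump := by
  intro K hK hKD z hz g hgc hg0 hadm
  have hμ : ∀ i, 0 < lam z i := lam_pos hKD hz
  have hzK : z ∈ K := interior_subset hz
  have hmain := h hμ (lam_sum z) (meas_polz K z)
  set A : Set (Fin 4 → ℝ) := {a : Fin 4 → ℝ | 0 < ∑ i, lam z i * a i ∧ dpt (lam z) a ∈ polz K z} with hA
  have hmem : ∀ a : Fin 4 → ℝ, 0 < ∑ i, lam z i * a i → (∀ x ∈ K, 0 ≤ ∑ j, lam x j * a j) → a ∈ A := by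
    intro a h1 h2
    refine ⟨h1, fun x hx => ?_⟩
    have h3 := h2 x hx
    rw [dt_key z x a h1] at h3
    have := nonneg_of_mul_nonneg_right h3 h1
    linarith
  have h0 : {a : Fin 4 → ℝ | ∀ i, 0 < a i} ⊆ A := by
    intro a ha
    refine hmem a (Finset.sum_pos (fun i _ => mul_pos (hμ i) (ha i)) Finset.univ_nonempty) 
      (fun x hx => Finset.sum_nonneg fun i _ => mul_nonneg (lam_nonneg (hKD hx) i) (ha i).le)
  have hR : ∀ i, R (g i) i ⊆ A := by
    rintro i a ⟨ha1, ha2, ha3⟩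
    have h4 : ∀ x ∈ K, lam x i * (a i + g i (fun k => a (i.succAbove k))) ≤ ∑ j, lam x j * a j := by
      intro x hx
      have h5 := hadm i (fun k => a (i.succAbove k)) (fun k => (ha1 k).le) x hx
      rw [Fin.sum_univ_succAbove _ i]
      linarith
    have h6 : 0 < a i + g i (fun k => a (i.succAbove k)) := by linarith
    refine hmem a (lt_of_lt_of_le (mul_pos (hμ i) h6) (h4 z hzK)) (fun x hx => ?_)
    exact (mul_nonneg (lam_nonneg (hKD hx) i) h6.le).trans (h4 x hx)
  -- disjointness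
  have hd0 : Disjoint {a : Fin 4 → ℝ | ∀ i, 0 < a i} (⋃ i, R (g i) i) := by
    rw [Set.disjoint_left]
    intro a ha hb
    rw [mem_iUnion] at hb
    obtain ⟨i, hi⟩ := hb
    exact lt_irrefl _ ((ha i).trans hi.2.1)
  have hdR : Pairwise (Function.onFun Disjoint fun i => R (g i) i) := by
    intro i j hij
    show Disjoint (R (g i) i) (R (g j) j)
    rw [Set.disjoint_left]
    intro a ha hb
    obtain ⟨k, hk⟩ := Fin.exists_succAbove_eq hij
    have h1 := hb.1 k
    rw [hk] at h1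
    exact lt_irrefl _ (h1.trans ha.2.1)
  have hle : (∏ i, ENNReal.ofReal (1 / lam z i)) + ∑ i, ∫⁻ a in {a : Fin 3 → ℝ | ∀ k, 0 < a k}, 
      ENNReal.ofReal (Real.exp (-∑ k, lam z (i.succAbove k) * a k) * g i a) ≤ 6 * volume (polz K z) := by
    rw [hmain, ← lint_R0 hμ]
    calc _ ≤ (∫⁻ a in {a : Fin 4 → ℝ | ∀ i, 0 < a i}, 
          ENNReal.ofReal (Real.exp (-∑ i, lam z i * a i))) + 
          ∑ i, ∫⁻ a in R (g i) i, ENNReal.ofReal (Real.exp (-∑ j, lam z j * a j)) := by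
          gcongr with i _
          exact lint_R hμ (hgc i) i
      _ = ∫⁻ a in {a : Fin 4 → ℝ | ∀ i, 0 < a i} ∪ ⋃ i, R (g i) i, 
          ENNReal.ofReal (Real.exp (-∑ i, lam z i * a i)) := by
          rw [lintegral_union (MeasurableSet.iUnion fun i => meas_R (hgc i) i) hd0, 
            lintegral_iUnion (fun i => meas_R (hgc i) i) hdR, tsum_fintype]
      _ ≤ _ := lintegral_mono_set (union_subset h0 (iUnion_subset hR))
  -- multiply by the product
  have hP : 0 < ∏ i, lam z i := Finset.prod_pos fun i _ => hμ i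
  have hfin := fin_polz hz
  have e1 : ENNReal.ofReal (6 * (∏ i, lam z i) * vl (polz K z)) = 
      ENNReal.ofReal (∏ i, lam z i) * (6 * volume (polz K z)) := by
    rw [ENNReal.ofReal_mul (by positivity), ENNReal.ofReal_mul (by norm_num), vl, 
      ENNReal.ofReal_toReal hfin]
    have : ENNReal.ofReal 6 = 6 := by norm_num
    rw [this]
    ring
  have e2 : ENNReal.ofReal (∏ i, lam z i) * ∏ i, ENNReal.ofReal (1 / lam z i) = 1 := by
    rw [ENNReal.ofReal_prod_of_nonneg (fun i _ => (hμ i).le), ← Finset.prod_mul_distrib]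
    refine Finset.prod_eq_one fun i _ => ?_
    rw [← ENNReal.ofReal_mul (hμ i).le, mul_one_div_cancel (hμ i).ne', ENNReal.ofReal_one]
  have e3 : ∀ i, ENNReal.ofReal (lam z i) * ∫⁻ a in {a : Fin 3 → ℝ | ∀ k, 0 < a k},
      ENNReal.ofReal ((∏ k, lam z (i.succAbove k) *
        Real.exp (-(lam z (i.succAbove k) * a k))) * g i a) = 
      ENNReal.ofReal (∏ i, lam z i) * ∫⁻ a in {a : Fin 3 → ℝ | ∀ k, 0 < a k}, 
      ENNReal.ofReal (Real.exp (-∑ k, lam z (i.succAbove k) * a k) * g i a) := by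
    intro i
    have hP' : 0 ≤ ∏ k, lam z (i.succAbove k) := Finset.prod_nonneg fun k _ => (hμ _).le
    have e4 : ∀ a : Fin 3 → ℝ, ENNReal.ofReal ((∏ k, lam z (i.succAbove k) *
        Real.exp (-(lam z (i.succAbove k) * a k))) * g i a) = 
        ENNReal.ofReal (∏ k, lam z (i.succAbove k)) * 
        ENNReal.ofReal (Real.exp (-∑ k, lam z (i.succAbove k) * a k) * g i a) := by
      intro a
      rw [← ENNReal.ofReal_mul hP']
      congr 1
      rw [Finset.prod_mul_distrib, ← Real.exp_sum, Finset.sum_neg_distrib, mul_assoc]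
    simp only [e4]
    rw [lintegral_const_mul' _ _ ENNReal.ofReal_ne_top, ← mul_assoc, ← ENNReal.ofReal_mul (hμ i).le, 
      Fin.prod_univ_succAbove _ i]
  rw [e1]
  calc _ = ENNReal.ofReal (∏ i, lam z i) * ((∏ i, ENNReal.ofReal (1 / lam z i)) + 
      ∑ i, ∫⁻ a in {a : Fin 3 → ℝ | ∀ k, 0 < a k}, 
      ENNReal.ofReal (Real.exp (-∑ k, lam z (i.succAbove k) * a k) * g i a)) := by
        rw [mul_add, e2, Finset.mul_sum]
        congr 1
        exact Finset.sum_congr rfl fun i _ => e3 i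
    _ ≤ _ := by gcongr

end H293M
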