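import Pool.Agent.H293R2.M3.Spec2

set_option autoImplicit false

open MeasureTheory Set

namespace H293M

namespace G2

theorem lam_sum (x : E) : ∑ i, lam x i = 1 := by
  simp only [lam, Fin.sum_univ_four]
  show 1 - x.1 - x.2.1 - x.2.2 + x.1 + x.2.1 + x.2.2 = 1
  ring

theorem lam_nn {x : E} (hx : x ∈ Dl) (i : Fin 4) : 0 ≤ lam x i := by
  obtain ⟨h1, h2, h3, h4⟩ := hx
  fin_cases i
  · show 0 ≤ 1 - x.1 - x.2.1 - x.2.2
    linarith
  · exact h1
  · exact h2
  · exact h3

theorem sum_succ (x : E) (i : Fin 4) : ∑ k : Fin 3, lam x (i.succAbove k) = 1 - lam x i := by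
  have h := lam_sum x
  rw [Fin.sum_univ_succAbove _ i] at h
  linarith

theorem min3_le (f : Fin 3 → ℝ) (l : Fin 3) : min3 f ≤ f l := by
  unfold min3
  fin_cases l
  · exact min_le_left _ _
  · exact (min_le_right _ _).trans (min_le_left _ _)
  · exact (min_le_right _ _).trans (min_le_right _ _)

theorem min3_nn (f : Fin 3 → ℝ) (h : ∀ l, 0 ≤ f l) : 0 ≤ min3 f :=
  le_min (h 0) (le_min (h 1) (h 2))

theorem wt_same (τ ρ : ℝ) (k : Fin 3) : wt τ ρ k k = 1 - 2 * τ := by
  unfold wt; rw [if_pos rfl]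

theorem wt_ne (τ ρ : ℝ) {k l : Fin 3} (h : l ≠ k) : wt τ ρ k l = ρ := by
  unfold wt; rw [if_neg h]

end G2

open G2 in
theorem t_adm : S_adm := by
  intro K hK ε σ τ ρ H hε hτ hτ2 hρ hσρ hH i0 hi0 i a ha x hx
  have hxD := hK hx
  have hσ : 0 < σ := by
    by_contra h
    have : σ * ρ ≤ 0 := mul_nonpos_of_nonpos_of_nonneg (not_lt.1 h) hρ.le
    linarith
  set p : Fin 3 → ℝ := fun k => lam x (i.succAbove k) with hp
  have hpn : ∀ k, 0 ≤ p k := fun k => lam_nn hxD _
  have hl0 : 0 ≤ lam x i := lam_nn hxD i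
  have hps : p 0 + p 1 + p 2 = 1 - lam x i := by
    have := sum_succ x i
    rw [Fin.sum_univ_three] at this
    exact this
  have habs : ∀ l, |a l| = a l := fun l => abs_of_nonneg (ha l)
  set c : Fin 3 → ℝ := fun k => min3 (fun l => wt τ ρ k l * |a l|) with hc
  have hwt : ∀ k l, 0 ≤ wt τ ρ k l := by
    intro k l; unfold wt; split_ifs
    · linarith
    · exact hρ.le
  have hcn : ∀ k, 0 ≤ c k := fun k => min3_nn _ fun l => mul_nonneg (hwt k l) (abs_nonneg _)
  have hc1 : ∀ k, c k ≤ (1 - 2 * τ) * a k := by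
    intro k
    have := min3_le (fun l => wt τ ρ k l * |a l|) k
    refine this.trans_eq ?_
    show wt τ ρ k k * |a k| = _
    rw [wt_same, habs]
  have hc2 : ∀ k l, l ≠ k → c k ≤ ρ * a l := by
    intro k l h
    have := min3_le (fun l => wt τ ρ k l * |a l|) l
    refine this.trans_eq ?_
    show wt τ ρ k l * |a l| = _
    rw [wt_ne τ ρ h, habs]
  have hHge : ∀ k, H i (i.succAbove k) * lam x i ≤ p k + σ * (1 - lam x i - p k) := fun k =>
    hH.ge i (i.succAbove k) (Fin.succAbove_ne i k).symm x hx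
  -- first part
  have e1 : lam x i * ∑ k : Fin 3, H i (i.succAbove k) * c k ≤ ∑ k, p k * a k := by
    rw [Fin.sum_univ_three, Fin.sum_univ_three]
    have g0 := mul_le_mul_of_nonneg_right (hHge 0) (hcn 0)
    have g1 := mul_le_mul_of_nonneg_right (hHge 1) (hcn 1)
    have g2 := mul_le_mul_of_nonneg_right (hHge 2) (hcn 2)
    have k0 : 1 - lam x i - p 0 = p 1 + p 2 := by linarith
    have k1 : 1 - lam x i - p 1 = p 0 + p 2 := by linarith
    have k2 : 1 - lam x i - p 2 = p 0 + p 1 := by linarith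
    rw [k0] at g0
    rw [k1] at g1
    rw [k2] at g2
    have q : ∀ l k k' : Fin 3, l ≠ k → l ≠ k' → c l + σ * (c k + c k') ≤ a l := by
      intro l k k' h1 h2
      have m1 := mul_le_mul_of_nonneg_left (hc2 k l h1) hσ.le
      have m2 := mul_le_mul_of_nonneg_left (hc2 k' l h2) hσ.le
      have m3 := hc1 l
      have m4 : σ * (ρ * a l) = τ * a l := by rw [← mul_assoc, hσρ]
      rw [m4] at m1 m2
      linarith
    have r0 := mul_le_mul_of_nonneg_left (q 0 1 2 (by decide) (by decide)) (hpn 0)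
    have r1 := mul_le_mul_of_nonneg_left (q 1 0 2 (by decide) (by decide)) (hpn 1)
    have r2 := mul_le_mul_of_nonneg_left (q 2 0 1 (by decide) (by decide)) (hpn 2)
    calc lam x i * (H i (i.succAbove 0) * c 0 + H i (i.succAbove 1) * c 1 +
          H i (i.succAbove 2) * c 2)
        = H i (i.succAbove 0) * lam x i * c 0 + H i (i.succAbove 1) * lam x i * c 1 +
          H i (i.succAbove 2) * lam x i * c 2 := by ring
      _ ≤ (p 0 + σ * (p 1 + p 2)) * c 0 + (p 1 + σ * (p 0 + p 2)) * c 1 +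
          (p 2 + σ * (p 0 + p 1)) * c 2 := by linarith
      _ = p 0 * (c 0 + σ * (c 1 + c 2)) + p 1 * (c 1 + σ * (c 0 + c 2)) +
          p 2 * (c 2 + σ * (c 0 + c 1)) := by ring
      _ ≤ _ := by linarith
  -- second part
  have e2 : lam x i * (if i = i0 then ε * min3 (fun l => |a l|) else 0) ≤ ∑ k, p k * a k := by
    have hpos : 0 ≤ ∑ k, p k * a k := Finset.sum_nonneg fun k _ => mul_nonneg (hpn k) (ha k)
    split_ifs with h
    · subst h
      have h1 := hi0 x hx
      have hm : ∀ l, min3 (fun l => |a l|) ≤ a l := by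
        intro l
        refine (min3_le (fun l => |a l|) l).trans_eq ?_
        show |a l| = _
        rw [habs]
      have hm0 : 0 ≤ min3 (fun l => |a l|) := min3_nn _ fun l => abs_nonneg _
      have hl1 : lam x i ≤ 1 := by
        have := hpn 0
        have := hpn 1
        have := hpn 2
        linarith
      set m := min3 (fun l => |a l|) with hmdef
      rw [Fin.sum_univ_three]
      have t0 := mul_le_mul_of_nonneg_left (hm 0) (hpn 0)
      have t1 := mul_le_mul_of_nonneg_left (hm 1) (hpn 1)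
      have t2 := mul_le_mul_of_nonneg_left (hm 2) (hpn 2)
      have t3 : lam x i * (ε * m) ≤ 1 * (ε * m) :=
        mul_le_mul_of_nonneg_right hl1 (mul_nonneg hε.le hm0)
      have t4 : ε * m ≤ (p 0 + p 1 + p 2) * m :=
        mul_le_mul_of_nonneg_right (by rw [hps]; exact h1) hm0
      linarith
    · rw [mul_zero]
      exact hpos
  unfold hb
  rw [mul_add]
  have e3 : lam x i * (5 / 6 * ∑ k : Fin 3, H i (i.succAbove k) *
      min3 (fun l => wt τ ρ k l * |a l|)) ≤ 5 / 6 * ∑ k, p k * a k := by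
    have : lam x i * (5 / 6 * ∑ k : Fin 3, H i (i.succAbove k) *
      min3 (fun l => wt τ ρ k l * |a l|)) = 5 / 6 * (lam x i * ∑ k : Fin 3,
        H i (i.succAbove k) * c k) := by
      rw [hc]; ring
    rw [this]
    exact mul_le_mul_of_nonneg_left e1 (by norm_num)
  have e4 : lam x i * (1 / 6 * (if i = i0 then ε * min3 (fun l => |a l|) else 0)) ≤
      1 / 6 * ∑ k, p k * a k := by
    have : lam x i * (1 / 6 * (if i = i0 then ε * min3 (fun l => |a l|) else 0)) =
        1 / 6 * (lam x i * (if i = i0 then ε * min3 (fun l => |a l|) else 0)) := by ring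
    rw [this]
    exact mul_le_mul_of_nonneg_left e2 (by norm_num)
  show _ ≤ ∑ k, p k * a k
  linarith

end H293M
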