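import Pool.Agent.H293R2.M3.Spec2

/-! Task G3 (helper180): lower bound for the volume of the polar. -/

set_option autoImplicit false

open MeasureTheory Set

namespace H293M

namespace G3

theorem lam_nonneg {x : E} (hx : x ∈ Dl) (i : Fin 4) : 0 ≤ lam x i := by
  obtain ⟨h1, h2, h3, h4⟩ := hx
  fin_cases i
  · show 0 ≤ 1 - x.1 - x.2.1 - x.2.2
    linarith
  · exact h1
  · exact h2
  · exact h3

/-- the integrand -/
noncomputable def f (μ w : Fin 3 → ℝ) (a : Fin 3 → ℝ) : ℝ :=
  (∏ k, μ k * Real.exp (-(μ k * a k))) * min3 (fun k => w k * a k)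

theorem min3_cont {g : (Fin 3 → ℝ) → Fin 3 → ℝ} (hg : ∀ k, Continuous fun a => g a k) :
    Continuous fun a => min3 (g a) := by
  unfold min3
  exact (hg 0).min ((hg 1).min (hg 2))

theorem min3_nonneg {a : Fin 3 → ℝ} (h : ∀ k, 0 ≤ a k) : 0 ≤ min3 a :=
  le_min (h 0) (le_min (h 1) (h 2))

theorem f_cont (μ w : Fin 3 → ℝ) : Continuous (f μ w) := by
  unfold f
  refine Continuous.mul (by fun_prop) (min3_cont fun k => by fun_prop)

theorem f_nonneg {μ w a : Fin 3 → ℝ} (hμ : ∀ k, 0 < μ k) (hw : ∀ k, 0 < w k) (ha : ∀ k, 0 < a k) :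
    0 ≤ f μ w a := by
  unfold f
  refine mul_nonneg (Finset.prod_nonneg fun k _ => mul_nonneg (hμ k).le (Real.exp_pos _).le) ?_
  exact min3_nonneg fun k => mul_nonneg (hw k).le (ha k).le

theorem pos_measurable : MeasurableSet {a : Fin 3 → ℝ | ∀ k, 0 < a k} := by
  have : {a : Fin 3 → ℝ | ∀ k, 0 < a k} = ⋂ k, {a : Fin 3 → ℝ | 0 < a k} := by
    ext a
    simp
  rw [this]
  exact MeasurableSet.iInter fun k => (isOpen_lt continuous_const (continuous_apply k)).measurableSet

theorem int_c (h3 : S_emin) {μ w : Fin 3 → ℝ} (hμ : ∀ k, 0 < μ k) (hw : ∀ k, 0 < w k) (c : ℝ) (hc : 0 ≤ c) :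
    ∫⁻ a in {a : Fin 3 → ℝ | ∀ k, 0 < a k}, ENNReal.ofReal (c * f μ w a) =
      ENNReal.ofReal (c * (1 / ∑ k, μ k / w k)) := by
  have h := h3.mn hμ hw
  have h1 : ∀ a, ENNReal.ofReal (c * f μ w a) = ENNReal.ofReal c * ENNReal.ofReal (f μ w a) :=
    fun a => ENNReal.ofReal_mul hc
  simp only [h1]
  rw [lintegral_const_mul _ (f_cont μ w).measurable.ennreal_ofReal]
  unfold f
  rw [h, ← ENNReal.ofReal_mul hc]

/-- the integral of a combination of four terms -/
theorem int_sum (h3 : S_emin) {μ : Fin 3 → ℝ} (hμ : ∀ k, 0 < μ k) (w : Fin 4 → Fin 3 → ℝ)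
    (hw : ∀ i k, 0 < w i k) (c : Fin 4 → ℝ) (hc : ∀ i, 0 ≤ c i) :
    ∫⁻ a in {a : Fin 3 → ℝ | ∀ k, 0 < a k}, ENNReal.ofReal (∑ i, c i * f μ (w i) a) =
      ENNReal.ofReal (∑ i, c i * (1 / ∑ k, μ k / w i k)) := by
  have h1 : ∫⁻ a in {a : Fin 3 → ℝ | ∀ k, 0 < a k}, ENNReal.ofReal (∑ i, c i * f μ (w i) a) =
      ∫⁻ a in {a : Fin 3 → ℝ | ∀ k, 0 < a k}, ∑ i, ENNReal.ofReal (c i * f μ (w i) a) := by
    refine setLIntegral_congr_fun pos_measurable fun a ha => ?_
    exact ENNReal.ofReal_sum_of_nonneg fun i _ => mul_nonneg (hc i) (f_nonneg hμ (hw i) ha)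
  rw [h1, lintegral_finsetSum]
  · rw [ENNReal.ofReal_sum_of_nonneg]
    · exact Finset.sum_congr rfl fun i _ => int_c h3 hμ (hw i) (c i) (hc i)
    · intro i _
      refine mul_nonneg (hc i) (one_div_nonneg.2 (Finset.sum_nonneg fun k _ => ?_))
      exact div_nonneg (hμ k).le (hw i k).le
  · intro i _
    exact ((f_cont μ (w i)).measurable.const_mul (c i)).ennreal_ofReal

/-- weights of the four terms -/
noncomputable def W (i : Fin 4) (l : Fin 3) : ℝ := Fin.cases 1 (fun k => wt (1 / 50) 100 k l) i

/-- coefficients of the four terms -/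
noncomputable def Cf (H : Fin 4 → Fin 4 → ℝ) (ε : ℝ) (i0 i : Fin 4) (j : Fin 4) : ℝ :=
  Fin.cases (1 / 6 * (if i = i0 then ε else 0)) (fun k => 5 / 6 * H i (i.succAbove k)) j

theorem W_pos (i : Fin 4) (l : Fin 3) : 0 < W i l := by
  unfold W
  refine Fin.cases ?_ (fun k => ?_) i
  · simp
  · simp only [Fin.cases_succ]
    unfold wt
    split_ifs <;> norm_num

theorem hb_eq {μ : Fin 3 → ℝ} (H : Fin 4 → Fin 4 → ℝ) (ε : ℝ) (i0 i : Fin 4) (a : Fin 3 → ℝ)
    (ha : ∀ k, 0 < a k) :
    (∏ k, μ k * Real.exp (-(μ k * a k))) * hb H (1 / 50) 100 ε i0 i a =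
      ∑ j, Cf H ε i0 i j * f μ (W j) a := by
  rw [Fin.sum_univ_succ]
  have habs : ∀ l, |a l| = a l := fun l => abs_of_pos (ha l)
  unfold hb f W Cf
  simp only [habs, Fin.cases_zero, Fin.cases_succ, one_mul]
  rw [mul_add, Finset.mul_sum, Finset.mul_sum, add_comm]
  congr 1
  · split_ifs <;> ring
  · refine Finset.sum_congr rfl fun k _ => ?_
    ring

end G3

theorem t_gain (h1 : S_bump) (h2 : S_adm) (h3 : S_emin) : S_gain := by
  intro K hK hKD ε H hε hH hi0 z hz
  obtain ⟨i0, hi0⟩ := hi0
  constructor
  · have h := h1 hK hKD hz (h := fun _ _ => 0) (fun i => continuous_const) (fun i a => le_rfl) (by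
      intro i a ha x hx
      rw [mul_zero]
      exact Finset.sum_nonneg fun k _ => mul_nonneg (G3.lam_nonneg (hKD hx) _) (ha k))
    simp only [mul_zero, ENNReal.ofReal_zero, lintegral_zero, Finset.sum_const_zero, add_zero] at h
    rw [← ENNReal.ofReal_one, ENNReal.ofReal_le_ofReal_iff'] at h
    rcases h with h | h
    · exact h
    · linarith
  · intro hz2
    have hlpos : ∀ i, 0 < lam z i := fun i => by have := (hz2 i).1; linarith
    have h := h1 hK hKD hz (h := fun i => hb H (1 / 50) 100 ε i0 i) ?_ ?_ ?_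
    · have hint : ∀ i : Fin 4, ∫⁻ a in {a : Fin 3 → ℝ | ∀ k, 0 < a k},
          ENNReal.ofReal ((∏ k, lam z (i.succAbove k) *
            Real.exp (-(lam z (i.succAbove k) * a k))) * hb H (1 / 50) 100 ε i0 i a) =
          ENNReal.ofReal (∑ j, G3.Cf H ε i0 i j * (1 / ∑ k, lam z (i.succAbove k) / G3.W j k)) := by
        intro i
        rw [← G3.int_sum h3 (μ := fun k => lam z (i.succAbove k)) (fun k => hlpos _) G3.W
          (fun j k => G3.W_pos j k) (G3.Cf H ε i0 i) ?_]
        · refine setLIntegral_congr_fun G3.pos_measurable fun a ha => ?_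
          rw [G3.hb_eq (μ := fun k => lam z (i.succAbove k)) H ε i0 i a ha]
        · intro j
          unfold G3.Cf
          refine Fin.cases ?_ (fun k => ?_) j
          · simp only [Fin.cases_zero]
            split_ifs <;> positivity
          · simp only [Fin.cases_succ]
            have := hH.nn i (i.succAbove k) (Fin.succAbove_ne i k).symm
            positivity
      simp only [hint] at h
      -- lower bounds
      have hlow : ∀ i : Fin 4, 724 / 1000 * (∑ k : Fin 3, H i (i.succAbove k)) +
          5 / 100 * (if i = i0 then ε else 0) ≤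
          lam z i * ∑ j, G3.Cf H ε i0 i j * (1 / ∑ k, lam z (i.succAbove k) / G3.W j k) := by
        intro i
        have e0 : ∑ j : Fin 4, G3.Cf H ε i0 i j * (1 / ∑ k, lam z (i.succAbove k) / G3.W j k) =
            G3.Cf H ε i0 i 0 * (1 / ∑ k, lam z (i.succAbove k) / G3.W 0 k) +
            ∑ j : Fin 3, G3.Cf H ε i0 i j.succ * (1 / ∑ k, lam z (i.succAbove k) / G3.W j.succ k) :=
          Fin.sum_univ_succ _
        rw [e0, mul_add, add_comm]
        have hi := hz2 i
        have hs0 := hz2 (i.succAbove 0)
        have hs1 := hz2 (i.succAbove 1)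
        have hs2 := hz2 (i.succAbove 2)
        have hl0 := hlpos (i.succAbove 0)
        have hl1 := hlpos (i.succAbove 1)
        have hl2 := hlpos (i.succAbove 2)
        apply add_le_add
        · -- the epsilon term
          have e1 : ∑ k, lam z (i.succAbove k) / G3.W 0 k = ∑ k, lam z (i.succAbove k) := by
            refine Finset.sum_congr rfl fun k _ => ?_
            simp [G3.W]
          have e2 : G3.Cf H ε i0 i 0 = 1 / 6 * (if i = i0 then ε else 0) := by
            simp [G3.Cf]
          rw [e1, e2]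
          have e3 : 0 < ∑ k, lam z (i.succAbove k) := by
            rw [Fin.sum_univ_three]; linarith
          have e4 : ∑ k, lam z (i.succAbove k) ≤ 78 / 100 := by
            rw [Fin.sum_univ_three]; linarith
          have e5 : 0 ≤ (if i = i0 then ε else 0) := by split_ifs <;> linarith
          have e6 : 24 / 78 ≤ lam z i * (1 / ∑ k, lam z (i.succAbove k)) := by
            rw [mul_one_div, le_div_iff₀ e3]
            linarith
          calc 5 / 100 * (if i = i0 then ε else 0) ≤
              1 / 6 * (if i = i0 then ε else 0) * (24 / 78) := by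
                nlinarith
            _ ≤ 1 / 6 * (if i = i0 then ε else 0) * (lam z i * (1 / ∑ k, lam z (i.succAbove k))) := by
                gcongr
            _ = _ := by ring
        · rw [Finset.mul_sum, Finset.mul_sum]
          refine Finset.sum_le_sum fun k _ => ?_
          have hHk := hH.nn i (i.succAbove k) (Fin.succAbove_ne i k).symm
          have e2 : G3.Cf H ε i0 i k.succ = 5 / 6 * H i (i.succAbove k) := by
            simp [G3.Cf]
          have e1 : ∑ l, lam z (i.succAbove l) / G3.W k.succ l ≤ 27604 / 100000 := by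
            rw [Fin.sum_univ_three]
            unfold G3.W
            simp only [Fin.cases_succ]
            unfold wt
            have hw : (1 - 2 * (1 / 50 : ℝ)) = 24 / 25 := by norm_num
            rw [hw]
            fin_cases k
            · simp
              linarith
            · simp
              linarith
            · simp
              linarith
          have e3 : 0 < ∑ l, lam z (i.succAbove l) / G3.W k.succ l :=
            Finset.sum_pos (fun l _ => div_pos (hlpos _) (G3.W_pos _ _)) Finset.univ_nonempty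
          have e6 : 24000 / 27604 ≤ lam z i * (1 / ∑ l, lam z (i.succAbove l) / G3.W k.succ l) := by
            rw [mul_one_div, le_div_iff₀ e3]
            linarith
          rw [e2]
          calc 724 / 1000 * H i (i.succAbove k) ≤ 5 / 6 * H i (i.succAbove k) * (24000 / 27604) := by
                nlinarith
            _ ≤ 5 / 6 * H i (i.succAbove k) *
                (lam z i * (1 / ∑ l, lam z (i.succAbove l) / G3.W k.succ l)) := by gcongr
            _ = _ := by ring
      have hsumH : ∑ i : Fin 4, ∑ k : Fin 3, H i (i.succAbove k) = SH H := by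
        unfold SH
        simp only [Fin.sum_univ_four, Fin.sum_univ_three]
        have a00 : (0 : Fin 4).succAbove (0 : Fin 3) = 1 := rfl
        have a01 : (0 : Fin 4).succAbove (1 : Fin 3) = 2 := rfl
        have a02 : (0 : Fin 4).succAbove (2 : Fin 3) = 3 := rfl
        have a10 : (1 : Fin 4).succAbove (0 : Fin 3) = 0 := rfl
        have a11 : (1 : Fin 4).succAbove (1 : Fin 3) = 2 := rfl
        have a12 : (1 : Fin 4).succAbove (2 : Fin 3) = 3 := rfl
        have a20 : (2 : Fin 4).succAbove (0 : Fin 3) = 0 := rfl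
        have a21 : (2 : Fin 4).succAbove (1 : Fin 3) = 1 := rfl
        have a22 : (2 : Fin 4).succAbove (2 : Fin 3) = 3 := rfl
        have a30 : (3 : Fin 4).succAbove (0 : Fin 3) = 0 := rfl
        have a31 : (3 : Fin 4).succAbove (1 : Fin 3) = 1 := rfl
        have a32 : (3 : Fin 4).succAbove (2 : Fin 3) = 2 := rfl
        rw [a00, a01, a02, a10, a11, a12, a20, a21, a22, a30, a31, a32]
        ring
      have hsum : 724 / 1000 * SH H + 5 / 100 * ε ≤
          ∑ i : Fin 4, lam z i * ∑ j, G3.Cf H ε i0 i j * (1 / ∑ k, lam z (i.succAbove k) / G3.W j k) := by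
        calc 724 / 1000 * SH H + 5 / 100 * ε = ∑ i : Fin 4, (724 / 1000 * (∑ k : Fin 3, H i (i.succAbove k)) +
              5 / 100 * (if i = i0 then ε else 0)) := by
              rw [Finset.sum_add_distrib, ← Finset.mul_sum, ← Finset.mul_sum, hsumH,
                Finset.sum_ite_eq' Finset.univ i0]
              simp
          _ ≤ _ := Finset.sum_le_sum fun i _ => hlow i
      have hnn : ∀ i : Fin 4, 0 ≤ ∑ j, G3.Cf H ε i0 i j * (1 / ∑ k, lam z (i.succAbove k) / G3.W j k) := by
        intro i
        refine Finset.sum_nonneg fun j _ => mul_nonneg ?_ (one_div_nonneg.2 (Finset.sum_nonneg fun k _ =>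
          div_nonneg (hlpos _).le (G3.W_pos _ _).le))
        unfold G3.Cf
        refine Fin.cases ?_ (fun k => ?_) j
        · simp only [Fin.cases_zero]
          split_ifs <;> positivity
        · simp only [Fin.cases_succ]
          have := hH.nn i (i.succAbove k) (Fin.succAbove_ne i k).symm
          positivity
      have h5 : 1 + ∑ i, ENNReal.ofReal (lam z i) *
          ENNReal.ofReal (∑ j, G3.Cf H ε i0 i j * (1 / ∑ k, lam z (i.succAbove k) / G3.W j k)) =
          ENNReal.ofReal (1 + ∑ i : Fin 4, lam z i *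
            ∑ j, G3.Cf H ε i0 i j * (1 / ∑ k, lam z (i.succAbove k) / G3.W j k)) := by
        rw [ENNReal.ofReal_add zero_le_one (Finset.sum_nonneg fun i _ => mul_nonneg (hlpos i).le (hnn i)),
          ENNReal.ofReal_one, ENNReal.ofReal_sum_of_nonneg fun i _ => mul_nonneg (hlpos i).le (hnn i)]
        congr 1
        refine Finset.sum_congr rfl fun i _ => ?_
        rw [ENNReal.ofReal_mul (hlpos i).le]
      rw [h5, ENNReal.ofReal_le_ofReal_iff'] at h
      rcases h with h | h
      · linarith
      · have h6 : 0 ≤ ∑ i : Fin 4, lam z i *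
            ∑ j, G3.Cf H ε i0 i j * (1 / ∑ k, lam z (i.succAbove k) / G3.W j k) :=
          Finset.sum_nonneg fun i _ => mul_nonneg (hlpos i).le (hnn i)
        linarith
    · intro i
      unfold hb
      refine Continuous.add (continuous_const.mul (continuous_finsetSum _ fun k _ =>
        continuous_const.mul (G3.min3_cont fun l => by fun_prop))) ?_
      refine continuous_const.mul ?_
      split_ifs
      · exact continuous_const.mul (G3.min3_cont fun l => by fun_prop)
      · exact continuous_const
    · intro i a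
      unfold hb
      have e1 : 0 ≤ ∑ k : Fin 3, H i (i.succAbove k) * min3 (fun l => wt (1 / 50) 100 k l * |a l|) := by
        refine Finset.sum_nonneg fun k _ => mul_nonneg (hH.nn i _ (Fin.succAbove_ne i k).symm) ?_
        refine G3.min3_nonneg fun l => mul_nonneg ?_ (abs_nonneg _)
        unfold wt
        split_ifs <;> norm_num
      have e2 : 0 ≤ (if i = i0 then ε * min3 (fun l => |a l|) else 0) := by
        split_ifs
        · exact mul_nonneg hε.le (G3.min3_nonneg fun l => abs_nonneg _)
        · exact le_rfl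
      linarith
    · exact h2 hKD hε (by norm_num) (by norm_num) (by norm_num) (by norm_num) hH hi0

end H293M
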