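import Pool.Agent.H293R2.M3.Spec2

/-!
The local theorem in standard position.
-/

set_option autoImplicit false

open MeasureTheory Set

namespace H293M

namespace G4

lemma amgm3 {a b c : ℝ} (ha : 0 ≤ a) (hb : 0 ≤ b) (hc : 0 ≤ c) :
    27 * (a * b * c) ≤ (a + b + c) ^ 3 := by
  nlinarith [mul_nonneg (add_nonneg (add_nonneg ha hb) hc) (sq_nonneg (a - b)),
    mul_nonneg (add_nonneg (add_nonneg ha hb) hc) (sq_nonneg (b - c)),
    mul_nonneg (add_nonneg (add_nonneg ha hb) hc) (sq_nonneg (a - c)),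
    mul_nonneg ha (sq_nonneg (b - c)), mul_nonneg hb (sq_nonneg (a - c)),
    mul_nonneg hc (sq_nonneg (a - b))]

lemma prodle {m a b c : ℝ} (hm : 0 ≤ m) (ha : 0 ≤ a) (hb : 0 ≤ b) (hc : 0 ≤ c)
    (h : m + a + b + c = 1) : 27 * (m * (a * b * c)) ≤ m * (1 - m) ^ 3 := by
  have h1 := amgm3 ha hb hc
  have h2 : a + b + c = 1 - m := by linarith
  rw [h2] at h1
  nlinarith [mul_le_mul_of_nonneg_left h1 hm]

lemma quad (m : ℝ) : 27 / 256 - m * (1 - m) ^ 3 =
    (m - 1 / 4) ^ 2 * ((m - 5 / 4) ^ 2 + 1 / 8) := by ring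

lemma prod256 {m a b c : ℝ} (hm : 0 ≤ m) (ha : 0 ≤ a) (hb : 0 ≤ b) (hc : 0 ≤ c)
    (h : m + a + b + c = 1) : 256 * (m * (a * b * c)) ≤ 1 := by
  have h1 := prodle hm ha hb hc h
  have h2 := quad m
  have h3 : 0 ≤ (m - 1 / 4) ^ 2 * ((m - 5 / 4) ^ 2 + 1 / 8) := by positivity
  linarith

lemma gap {m : ℝ} (hm : 0 ≤ m) (hm1 : m ≤ 1) (ho : m < 24 / 100 ∨ 26 / 100 < m) :
    m * (1 - m) ^ 3 ≤ 27 / 256 - 6 / 100000 := by
  have h2 := quad m
  have h0 : (1 / 100) ^ 2 ≤ (m - 1 / 4) ^ 2 := by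
    rcases ho with h | h <;> nlinarith
  have h3 : 6 / 100000 ≤ (m - 1 / 4) ^ 2 * ((m - 5 / 4) ^ 2 + 1 / 8) := by
    rcases le_total m (1 / 2) with h | h
    · have h4 : 9 / 16 ≤ (m - 5 / 4) ^ 2 := by nlinarith
      have h5 : (1 / 100) ^ 2 * (9 / 16 + 1 / 8) ≤
          (m - 1 / 4) ^ 2 * ((m - 5 / 4) ^ 2 + 1 / 8) :=
        mul_le_mul h0 (by linarith) (by norm_num) (by positivity)
      linarith [show (6 / 100000 : ℝ) ≤ (1 / 100) ^ 2 * (9 / 16 + 1 / 8) by norm_num]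
    · have h4 : 1 / 16 ≤ (m - 1 / 4) ^ 2 := by nlinarith
      have h5 : 1 / 16 * (1 / 8) ≤ (m - 1 / 4) ^ 2 * ((m - 5 / 4) ^ 2 + 1 / 8) :=
        mul_le_mul h4 (by linarith [sq_nonneg (m - 5 / 4)]) (by norm_num) (by positivity)
      linarith
  linarith

lemma prodgap {m a b c : ℝ} (hm : 0 ≤ m) (ha : 0 ≤ a) (hb : 0 ≤ b) (hc : 0 ≤ c)
    (h : m + a + b + c = 1) (ho : m < 24 / 100 ∨ 26 / 100 < m) :
    256 * (m * (a * b * c)) * (10005 / 10000) ≤ 1 := by
  have h1 := prodle hm ha hb hc h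
  have h2 := gap hm (by linarith) ho
  linarith

lemma lam_sum (z : E) : ∑ i, lam z i = 1 := by
  simp [lam, Fin.sum_univ_four]
  ring

lemma mem_shift {K : Set E} {z : E} (hz : z ∈ interior K) (v : E) :
    ∃ t : ℝ, 0 < t ∧ z + t • v ∈ K := by
  have hc : Continuous (fun t : ℝ => z + t • v) := by fun_prop
  have h0 : (fun t : ℝ => z + t • v) 0 ∈ interior K := by simpa using hz
  have h1 : ∀ᶠ t in nhds (0 : ℝ), z + t • v ∈ interior K :=
    hc.continuousAt.eventually (isOpen_interior.mem_nhds h0)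
  obtain ⟨δ, hδ, h2⟩ := Metric.eventually_nhds_iff.1 h1
  refine ⟨δ / 2, by linarith, interior_subset (h2 ?_)⟩
  rw [Real.dist_eq, sub_zero, abs_of_pos (by linarith)]
  linarith

lemma lam_pos {K : Set E} (hK : K ⊆ Dl) {z : E} (hz : z ∈ interior K) : ∀ i, 0 < lam z i := by
  obtain ⟨t1, p1, m1⟩ := mem_shift hz ((1, 0, 0) : E)
  obtain ⟨t2, p2, m2⟩ := mem_shift hz ((-1, 0, 0) : E)
  obtain ⟨t3, p3, m3⟩ := mem_shift hz ((0, -1, 0) : E)
  obtain ⟨t4, p4, m4⟩ := mem_shift hz ((0, 0, -1) : E)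
  obtain ⟨-, -, -, q1⟩ := hK m1
  obtain ⟨q2, -, -, -⟩ := hK m2
  obtain ⟨-, q3, -, -⟩ := hK m3
  obtain ⟨-, -, q4, -⟩ := hK m4
  simp at q1 q2 q3 q4
  intro i
  fin_cases i <;> simp [lam] <;> linarith

lemma lam_prod (z : E) : ∏ i, lam z i = lam z 0 * lam z 1 * lam z 2 * lam z 3 := by
  rw [Fin.prod_univ_four]

lemma prod_le (z : E) (hp : ∀ i, 0 < lam z i) : 256 * ∏ i, lam z i ≤ 1 := by
  have hs := lam_sum z
  rw [Fin.sum_univ_four] at hs
  have := prod256 (hp 0).le (hp 1).le (hp 2).le (hp 3).le hs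
  rw [lam_prod]
  linarith

lemma prod_gap (z : E) (hp : ∀ i, 0 < lam z i)
    (ho : ¬ ∀ i, 24 / 100 ≤ lam z i ∧ lam z i ≤ 26 / 100) :
    256 * (∏ i, lam z i) * (10005 / 10000) ≤ 1 := by
  have hs := lam_sum z
  rw [Fin.sum_univ_four] at hs
  rw [lam_prod]
  push Not at ho
  obtain ⟨i, hi⟩ := ho
  have ho : lam z i < 24 / 100 ∨ 26 / 100 < lam z i := by
    rcases lt_or_ge (lam z i) (24 / 100) with h | h
    · exact Or.inl h
    · exact Or.inr (hi h)
  fin_cases i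
  · have := prodgap (hp 0).le (hp 1).le (hp 2).le (hp 3).le (by linarith) ho
    linarith
  · have := prodgap (hp 1).le (hp 0).le (hp 2).le (hp 3).le (by linarith) ho
    linarith
  · have := prodgap (hp 2).le (hp 0).le (hp 1).le (hp 3).le (by linarith) ho
    linarith
  · have := prodgap (hp 3).le (hp 0).le (hp 1).le (hp 2).le (by linarith) ho
    linarith

lemma SH_bounds {K : Set E} {ε σ : ℝ} {H : Fin 4 → Fin 4 → ℝ} (h : HX K ε σ H) :
    0 ≤ SH H ∧ SH H ≤ 24 * ε := by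
  constructor
  · exact Finset.sum_nonneg fun j _ => Finset.sum_nonneg fun k _ =>
      h.nn _ _ (Fin.succAbove_ne j k)
  · have : SH H ≤ ∑ _j : Fin 4, ∑ _k : Fin 3, 2 * ε :=
      Finset.sum_le_sum fun j _ => Finset.sum_le_sum fun k _ =>
        h.up _ _ (Fin.succAbove_ne j k)
    simp at this
    linarith

end G4

open G4 in
theorem t_loc (h1 : S_HX) (h2 : S_loss) (h3 : S_gain) : S_loc := by
  intro K hB hK hc ε hε hε1 hv hi0
  have e1 : ε ≤ 1 / 1000000000000 := by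
    refine hε1.trans ?_
    norm_num
  obtain ⟨H, hH⟩ := h1 hB.cpt hK hε (by linarith) (show 4 * ε ≤ 1 / 5000 by linarith)
    (by norm_num) hv
  obtain ⟨s0, s1⟩ := SH_bounds hH
  have hl := h2 hB.cpt hB.cvx hK hc hε (by linarith) (show 4 * ε ≤ 1 / 5000 by linarith)
    (by norm_num) (show (10000 * ε) * (1 / 5000) = 2 * ε by ring) hv hH
  have hsq : 36 * (10000 * ε) ^ 2 ≤ 36 / 10000 * ε := by nlinarith
  have hfr : 2 / 3 * SH H / (1 - 3 * (1 / 5000)) ≤ 66708 / 100000 * SH H := by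
    rw [div_le_iff₀ (by norm_num)]
    nlinarith
  have hV : 1 - 66708 / 100000 * SH H - 36 / 10000 * ε ≤ 6 * vl K := by linarith
  have hV1 : 1 - 17 * ε ≤ 6 * vl K := by linarith
  refine ⟨hV1, fun z hz => ?_⟩
  have hp := lam_pos hK hz
  obtain ⟨w1, w2⟩ := h3 hB hK hε hH hi0 hz
  have hPp : 0 < ∏ i, lam z i := Finset.prod_pos fun i _ => hp i
  set P := ∏ i, lam z i with hPd
  set V := vl K with hVd
  set W := vl (polz K z) with hWd
  have hV0 : 0 ≤ V := ENNReal.toReal_nonneg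
  have hW0 : 0 ≤ W := ENNReal.toReal_nonneg
  by_cases hr : ∀ i, 24 / 100 ≤ lam z i ∧ lam z i ≤ 26 / 100
  · have hP := prod_le z hp
    rw [← hPd] at hP
    have w3 := w2 hr
    -- (6 V) (6 P W) ≥ 1 + ε / 40
    have hlow : 1 + ε / 40 ≤ (6 * V) * (6 * P * W) := by
      have a1 : (1 - 66708 / 100000 * SH H - 36 / 10000 * ε) *
          (1 + 724 / 1000 * SH H + 5 / 100 * ε) ≤ (6 * V) * (6 * P * W) :=
        mul_le_mul hV w3 (by positivity) (by positivity)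
      have a2 : (66708 / 100000 * SH H + 36 / 10000 * ε) *
          (724 / 1000 * SH H + 5 / 100 * ε) ≤ (17 * ε) * (18 * ε) :=
        mul_le_mul (by linarith) (by linarith) (by positivity) (by positivity)
      have a3 : (17 * ε) * (18 * ε) ≤ 1 / 1000 * ε := by nlinarith
      nlinarith
    have : (6 * V) * (6 * P * W) * 256 ≤ 36 * (V * W) := by
      have : (V * W) * (256 * P) ≤ (V * W) * 1 :=
        mul_le_mul_of_nonneg_left hP (mul_nonneg hV0 hW0)
      nlinarith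
    linarith
  · have hP := prod_gap z hp hr
    rw [← hPd] at hP
    have hlow : 1 - 17 * ε ≤ (6 * V) * (6 * P * W) := by
      have : (1 - 17 * ε) * 1 ≤ (6 * V) * (6 * P * W) :=
        mul_le_mul hV1 w1 (by norm_num) (by positivity)
      linarith
    have : (6 * V) * (6 * P * W) * (256 * (10005 / 10000)) ≤ 36 * (V * W) := by
      have : (V * W) * (256 * P * (10005 / 10000)) ≤ (V * W) * 1 :=
        mul_le_mul_of_nonneg_left hP (mul_nonneg hV0 hW0)
      nlinarith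
    linarith

end H293M
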