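import Pool.Agent.H293R2.M3.Spec2

/-! L1 (helper617): existence of the heights. -/

set_option autoImplicit false

open MeasureTheory Set

namespace H293M

namespace L1

theorem lam_cont (i : Fin 4) : Continuous (fun x : E => lam x i) := by
  fin_cases i
  · change Continuous (fun x : E => 1 - x.1 - x.2.1 - x.2.2)
    fun_prop
  · change Continuous (fun x : E => x.1)
    fun_prop
  · change Continuous (fun x : E => x.2.1)
    fun_prop
  · change Continuous (fun x : E => x.2.2)
    fun_prop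

theorem lam_sum (x : E) : ∑ i, lam x i = 1 := by
  rw [Fin.sum_univ_four]
  change (1 - x.1 - x.2.1 - x.2.2) + x.1 + x.2.1 + x.2.2 = 1
  ring

theorem lam_nonneg {x : E} (hx : x ∈ Dl) (i : Fin 4) : 0 ≤ lam x i := by
  obtain ⟨h1, h2, h3, h4⟩ := hx
  fin_cases i
  · change 0 ≤ 1 - x.1 - x.2.1 - x.2.2
    linarith
  · exact h1
  · exact h2
  · exact h3

theorem lam_two {x : E} (hx : x ∈ Dl) {i j : Fin 4} (hij : i ≠ j) : lam x i + lam x j ≤ 1 := by
  rw [← lam_sum x, ← Finset.sum_pair hij]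
  exact Finset.sum_le_sum_of_subset_of_nonneg (Finset.subset_univ _) (fun k _ _ => lam_nonneg hx k)

theorem one {K : Set E} (hK : IsCompact K) (hD : K ⊆ Dl) {ε σ : ℝ} (he : 0 < ε) (he2 : ε ≤ 1 / 4)
    (hs : 4 * ε ≤ σ) (hs2 : σ < 1) (hv : ∀ i, ∃ x ∈ K, 1 - lam x i ≤ ε) (i j : Fin 4)
    (hij : i ≠ j) : ∃ h : ℝ, 0 ≤ h ∧ h ≤ 2 * ε ∧
      (∃ x ∈ K, 0 < lam x i ∧ lam x j + σ * (1 - lam x i - lam x j) = h * lam x i) ∧
      ∀ x ∈ K, h * lam x i ≤ lam x j + σ * (1 - lam x i - lam x j) := by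
  obtain ⟨xi, hxi, hxe⟩ := hv i
  have hclosed : IsClosed {x : E | 1 / 2 ≤ lam x i} :=
    isClosed_le continuous_const (lam_cont i)
  have hK1 : IsCompact (K ∩ {x : E | 1 / 2 ≤ lam x i}) := hK.inter_right hclosed
  have hne : (K ∩ {x : E | 1 / 2 ≤ lam x i}).Nonempty := ⟨xi, hxi, by
    change 1 / 2 ≤ lam xi i
    linarith⟩
  have hcont : ContinuousOn (fun x : E => (lam x j + σ * (1 - lam x i - lam x j)) / lam x i)
      (K ∩ {x : E | 1 / 2 ≤ lam x i}) := by
    apply ContinuousOn.div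
    · have h1 := lam_cont i
      have h2 := lam_cont j
      fun_prop
    · exact (lam_cont i).continuousOn
    · intro x hx
      have h3 : 1 / 2 ≤ lam x i := hx.2
      linarith
  obtain ⟨Y, hY, hmin⟩ := hK1.exists_isMinOn hne hcont
  have hYi : 1 / 2 ≤ lam Y i := hY.2
  have hYp : 0 < lam Y i := by linarith
  have gnn : ∀ x ∈ K, 0 ≤ lam x j + σ * (1 - lam x i - lam x j) := by
    intro x hx
    have h1 := lam_nonneg (hD hx) j
    have h2 := lam_two (hD hx) hij
    have h3 : 0 ≤ σ * (1 - lam x i - lam x j) := mul_nonneg (by linarith) (by linarith)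
    linarith
  have hle : (lam Y j + σ * (1 - lam Y i - lam Y j)) / lam Y i ≤ 2 * ε := by
    have h1 : 1 / 2 ≤ lam xi i := by linarith
    have h2 : (lam Y j + σ * (1 - lam Y i - lam Y j)) / lam Y i ≤
        (lam xi j + σ * (1 - lam xi i - lam xi j)) / lam xi i := hmin ⟨hxi, h1⟩
    refine le_trans h2 ?_
    rw [div_le_iff₀ (by linarith)]
    have h3 := lam_two (hD hxi) hij
    have h4 := lam_nonneg (hD hxi) j
    have h5 : σ * (1 - lam xi i - lam xi j) ≤ 1 * (1 - lam xi i - lam xi j) :=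
      mul_le_mul_of_nonneg_right hs2.le (by linarith)
    nlinarith
  refine ⟨(lam Y j + σ * (1 - lam Y i - lam Y j)) / lam Y i, div_nonneg (gnn Y hY.1) hYp.le,
    hle, ⟨Y, hY.1, hYp, ?_⟩, ?_⟩
  · field_simp
  · intro x hx
    by_cases h : 1 / 2 ≤ lam x i
    · have h1 : (lam Y j + σ * (1 - lam Y i - lam Y j)) / lam Y i ≤
        (lam x j + σ * (1 - lam x i - lam x j)) / lam x i := hmin ⟨hx, h⟩
      rw [le_div_iff₀ (by linarith)] at h1
      exact h1
    · have h2 := lam_nonneg (hD hx) i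
      have h3 := lam_nonneg (hD hx) j
      have h4 : (lam Y j + σ * (1 - lam Y i - lam Y j)) / lam Y i * lam x i ≤
          2 * ε * lam x i := mul_le_mul_of_nonneg_right hle h2
      have h5 : 0 ≤ (1 - σ) * lam x j := mul_nonneg (by linarith) h3
      have h6 : σ * (1 / 2) ≤ σ * (1 - lam x i) :=
        mul_le_mul_of_nonneg_left (by linarith) (by linarith)
      have h7 : ε * lam x i ≤ ε * (1 / 2) := mul_le_mul_of_nonneg_left (by linarith) he.le
      nlinarith

end L1

theorem t_HX : S_HX := by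
  intro K hK hD ε σ he he2 hs hs2 hv
  have h := L1.one hK hD he he2 hs hs2 hv
  refine ⟨fun i j => if hij : i = j then 0 else (h i j hij).choose, ?_⟩
  constructor
  · intro i j hij
    rw [dif_neg hij]
    exact (h i j hij).choose_spec.1
  · intro i j hij
    rw [dif_neg hij]
    exact (h i j hij).choose_spec.2.1
  · intro i j hij
    rw [dif_neg hij]
    exact (h i j hij).choose_spec.2.2.1
  · intro i j hij
    rw [dif_neg hij]
    exact (h i j hij).choose_spec.2.2.2

end H293M
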