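import Pool.Agent.H293R2.M3.Spec2

/-!
Project h293m, task L2 (helper509): the complement of `K` in the standard tetrahedron.
-/

set_option autoImplicit false

open MeasureTheory Set

namespace H293M

namespace L2

theorem sum_lam (y : E) : ∑ k, lam y k = 1 := by
  rw [Fin.sum_univ_four]
  show (1 - y.1 - y.2.1 - y.2.2) + y.1 + y.2.1 + y.2.2 = 1
  ring

theorem lam_nonneg {y : E} (hy : y ∈ Dl) (k : Fin 4) : 0 ≤ lam y k := by
  obtain ⟨h1, h2, h3, h4⟩ := hy
  fin_cases k
  · show 0 ≤ 1 - y.1 - y.2.1 - y.2.2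
    linarith
  · exact h1
  · exact h2
  · exact h3

/-- separation by an affine function, in barycentric coordinates -/
theorem sep {K : Set E} (hK : IsCompact K) (hc : Convex ℝ K) {x : E} (hx : x ∉ K) :
    ∃ a : Fin 4 → ℝ, ∑ k, a k * lam x k < 0 ∧ ∀ y ∈ K, 0 < ∑ k, a k * lam y k := by
  obtain ⟨f, u, h1, h2⟩ := geometric_hahn_banach_point_closed hc hK.isClosed hx
  have hf : ∀ y : E, f y = y.1 * f (1, 0, 0) + y.2.1 * f (0, 1, 0) + y.2.2 * f (0, 0, 1) := by
    intro y
    have e : y = y.1 • ((1, 0, 0) : E) + y.2.1 • ((0, 1, 0) : E) + y.2.2 • ((0, 0, 1) : E) := by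
      ext <;> simp
    conv_lhs => rw [e]
    rw [map_add, map_add, map_smul, map_smul, map_smul, smul_eq_mul, smul_eq_mul, smul_eq_mul]
  refine ⟨![-u, f (1, 0, 0) - u, f (0, 1, 0) - u, f (0, 0, 1) - u], ?_, ?_⟩
  · have e : ∑ k, (![-u, f (1, 0, 0) - u, f (0, 1, 0) - u, f (0, 0, 1) - u] : Fin 4 → ℝ) k * lam x k =
        f x - u := by
      rw [Fin.sum_univ_four, hf x]
      show -u * (1 - x.1 - x.2.1 - x.2.2) + (f (1, 0, 0) - u) * x.1 + (f (0, 1, 0) - u) * x.2.1 +
        (f (0, 0, 1) - u) * x.2.2 = _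
      ring
    rw [e]
    linarith
  · intro y hy
    have e : ∑ k, (![-u, f (1, 0, 0) - u, f (0, 1, 0) - u, f (0, 0, 1) - u] : Fin 4 → ℝ) k * lam y k =
        f y - u := by
      rw [Fin.sum_univ_four, hf y]
      show -u * (1 - y.1 - y.2.1 - y.2.2) + (f (1, 0, 0) - u) * y.1 + (f (0, 1, 0) - u) * y.2.1 +
        (f (0, 0, 1) - u) * y.2.2 = _
      ring
    rw [e]
    have := h2 y hy
    linarith

/-- lower bound of a weighted sum outside one index -/
theorem sum_ge (a s : Fin 4 → ℝ) (c : ℝ) (i : Fin 4) (hs : ∀ k, 0 ≤ s k) (h1 : ∑ k, s k = 1)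
    (ha : ∀ k, c ≤ a k) : a i * s i + c * (1 - s i) ≤ ∑ k, a k * s k := by
  rw [Fin.sum_univ_succAbove _ i] at h1 ⊢
  have h2 : c * (1 - s i) = ∑ k : Fin 3, c * s (i.succAbove k) := by
    rw [← Finset.mul_sum]
    congr 1
    linarith
  rw [h2]
  have h3 : ∑ k : Fin 3, c * s (i.succAbove k) ≤ ∑ k : Fin 3, a (i.succAbove k) * s (i.succAbove k) :=
    Finset.sum_le_sum fun k _ => mul_le_mul_of_nonneg_right (ha _) (hs _)
  linarith

/-- upper bound of a weighted sum outside one index -/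
theorem sum_le (a s : Fin 4 → ℝ) (c : ℝ) (i : Fin 4) (hs : ∀ k, 0 ≤ s k) (h1 : ∑ k, s k = 1)
    (ha : ∀ k, a k ≤ c) : ∑ k, a k * s k ≤ a i * s i + c * (1 - s i) := by
  have := sum_ge (fun k => -a k) s (-c) i hs h1 (fun k => neg_le_neg (ha k))
  have e : ∑ k, -a k * s k = -∑ k, a k * s k := by
    rw [← Finset.sum_neg_distrib]
    exact Finset.sum_congr rfl fun k _ => by ring
  rw [e] at this
  linarith

/-- upper bound of a weighted sum outside two indices -/
theorem sum_le2 (a s : Fin 4 → ℝ) (c : ℝ) (i j : Fin 4) (hij : i ≠ j) (hs : ∀ k, 0 ≤ s k)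
    (h1 : ∑ k, s k = 1) (ha : ∀ k, k ≠ j → a k ≤ c) :
    ∑ k, a k * s k ≤ a i * s i + a j * s j + c * (1 - s i - s j) := by
  have h2 : ∑ k, a k * s k = ∑ k, (if k = i then a i * s i else 0) + ∑ k, (if k = j then a j * s j else 0) +
      ∑ k, (if k = i ∨ k = j then 0 else a k * s k) := by
    rw [← Finset.sum_add_distrib, ← Finset.sum_add_distrib]
    refine Finset.sum_congr rfl fun k _ => ?_
    by_cases hi : k = i
    · subst hi
      rw [if_pos rfl, if_neg hij, if_pos (Or.inl rfl)]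
      ring
    · by_cases hj : k = j
      · subst hj
        rw [if_neg hi, if_pos rfl, if_pos (Or.inr rfl)]
        ring
      · rw [if_neg hi, if_neg hj, if_neg (by rw [not_or]; exact ⟨hi, hj⟩)]
        ring
  have h3 : ∑ k, s k = ∑ k, (if k = i then s i else 0) + ∑ k, (if k = j then s j else 0) +
      ∑ k, (if k = i ∨ k = j then 0 else s k) := by
    rw [← Finset.sum_add_distrib, ← Finset.sum_add_distrib]
    refine Finset.sum_congr rfl fun k _ => ?_
    by_cases hi : k = i
    · subst hi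
      rw [if_pos rfl, if_neg hij, if_pos (Or.inl rfl)]
      ring
    · by_cases hj : k = j
      · subst hj
        rw [if_neg hi, if_pos rfl, if_pos (Or.inr rfl)]
        ring
      · rw [if_neg hi, if_neg hj, if_neg (by rw [not_or]; exact ⟨hi, hj⟩)]
        ring
  rw [Finset.sum_ite_eq' Finset.univ i, Finset.sum_ite_eq' Finset.univ j,
    if_pos (Finset.mem_univ i), if_pos (Finset.mem_univ j)] at h2 h3
  have h4 : ∑ k, (if k = i ∨ k = j then 0 else a k * s k) ≤
      c * ∑ k, (if k = i ∨ k = j then 0 else s k) := by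
    rw [Finset.mul_sum]
    refine Finset.sum_le_sum fun k _ => ?_
    by_cases h : k = i ∨ k = j
    · rw [if_pos h, if_pos h, mul_zero]
    · rw [if_neg h, if_neg h]
      rw [not_or] at h
      exact mul_le_mul_of_nonneg_right (ha k h.2) (hs k)
  have h5 : ∑ k, (if k = i ∨ k = j then 0 else s k) = 1 - s i - s j := by linarith
  rw [h5] at h4
  linarith

theorem min3_le (s : Fin 3 → ℝ) (k : Fin 3) : min3 s ≤ s k := by
  unfold min3
  fin_cases k
  · exact min_le_left _ _
  · exact (min_le_right _ _).trans (min_le_left _ _)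
  · exact (min_le_right _ _).trans (min_le_right _ _)

theorem min3_nonneg (s : Fin 3 → ℝ) (h : ∀ k, 0 ≤ s k) : 0 ≤ min3 s :=
  le_min (h 0) (le_min (h 1) (h 2))

/-- the statement in terms of a normalised affine function -/
theorem core {K : Set E} (hKD : K ⊆ Dl) {ε σ θ : ℝ} (hε : 0 < ε) (hεσ : 4 * ε ≤ σ)
    (hσ : σ ≤ 1 / 100) (hθ : θ * σ = 2 * ε) (hv : ∀ i, ∃ x ∈ K, 1 - lam x i ≤ ε)
    {H : Fin 4 → Fin 4 → ℝ} (hH : HX K ε σ H) {x : E} (hx : x ∈ Dl) (a : Fin 4 → ℝ)
    (ha1 : ∑ k, a k = 1) (ha : ∀ k, a k ≤ 1) (hax : ∑ k, a k * lam x k < 0)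
    (haK : ∀ y ∈ K, 0 < ∑ k, a k * lam y k) :
    (∃ i k, i ≠ k ∧ lam x i ≤ θ ∧ lam x k ≤ θ) ∨
      ∃ j, (1 - 3 * σ) * lam x j ≤ ∑ k : Fin 3, H (j.succAbove k) j *
        (lam x (j.succAbove k) - min3 (fun l => lam x (j.succAbove l))) := by
  by_cases hfirst : ∃ i k, i ≠ k ∧ lam x i ≤ θ ∧ lam x k ≤ θ
  · exact Or.inl hfirst
  right
  have hσ0 : 0 < σ := by linarith
  have hθ0 : 0 < θ := by
    by_contra h
    have : θ * σ ≤ 0 := mul_nonpos_of_nonpos_of_nonneg (not_lt.1 h) hσ0.le
    linarith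
  have hθε : 200 * ε ≤ θ := by nlinarith
  have hs0 : ∀ k, 0 ≤ lam x k := lam_nonneg hx
  have hs1 := sum_lam x
  -- lower bound of the coefficients
  have halow : ∀ i, -(2 * ε) ≤ a i := by
    intro i
    obtain ⟨y, hy, hyi⟩ := hv i
    have h1 := haK y hy
    have h2 := sum_le a (lam y) 1 i (lam_nonneg (hKD hy)) (sum_lam y) ha
    rcases le_or_gt 0 (a i) with h | h
    · linarith
    · have h3 : a i * lam y i ≤ a i * (1 / 2) := by
        apply mul_le_mul_of_nonpos_left _ h.le
        linarith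
      linarith
  -- the largest coefficient
  obtain ⟨j, hj⟩ := Finite.exists_max a
  have hj4 : 1 / 4 ≤ a j := by
    have : ∑ k, a k ≤ ∑ _k : Fin 4, a j := Finset.sum_le_sum fun k _ => hj k
    rw [ha1, Finset.sum_const, Finset.card_univ, Fintype.card_fin, nsmul_eq_mul] at this
    push_cast at this
    linarith
  have hle1 : ∀ k, lam x k ≤ 1 := by
    intro k
    rw [← hs1]
    exact Finset.single_le_sum (fun i _ => hs0 i) (Finset.mem_univ k)
  have hsj : lam x j ≤ θ := by
    have h1 := sum_ge a (lam x) (-(2 * ε)) j hs0 hs1 halow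
    have h2 := hs0 j
    nlinarith [hle1 j]
  have hsi : ∀ i, i ≠ j → θ < lam x i := by
    intro i hij
    by_contra h
    exact hfirst ⟨i, j, hij, not_lt.1 h, hsj⟩
  have hai : ∀ i, i ≠ j → a i ≤ σ := by
    intro i hij
    by_contra h
    rw [not_le] at h
    have h1 := sum_ge a (lam x) (-(2 * ε)) i hs0 hs1 halow
    have h2 := hsi i hij
    have h3 : σ * θ ≤ a i * lam x i := mul_le_mul h.le h2.le hθ0.le (by linarith)
    nlinarith [hs0 i]
  have haj : 1 - 3 * σ ≤ a j := by
    have h1 := ha1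
    rw [Fin.sum_univ_succAbove _ j, Fin.sum_univ_three] at h1
    have h2 := hai (j.succAbove 0) (Fin.succAbove_ne j 0)
    have h3 := hai (j.succAbove 1) (Fin.succAbove_ne j 1)
    have h4 := hai (j.succAbove 2) (Fin.succAbove_ne j 2)
    linarith
  -- comparison with the heights
  have hHb : ∀ i, i ≠ j → -a i ≤ H i j := by
    intro i hij
    obtain ⟨y, hy, hy0, hyH⟩ := hH.at' i j hij
    have h1 := haK y hy
    have hyn := lam_nonneg (hKD hy)
    have h2 := sum_le2 a (lam y) σ i j hij hyn (sum_lam y) hai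
    have h3 : a j * lam y j ≤ lam y j := mul_le_of_le_one_left (hyn j) (ha j)
    have h4 : 0 < (a i + H i j) * lam y i := by nlinarith
    have h5 : 0 < a i + H i j := by
      by_contra h
      have := mul_nonpos_of_nonpos_of_nonneg (not_lt.1 h) hy0.le
      linarith
    linarith
  refine ⟨j, ?_⟩
  set m := min3 (fun l => lam x (j.succAbove l)) with hm
  have hm0 : 0 ≤ m := min3_nonneg _ fun k => hs0 _
  have hmk : ∀ k, m ≤ lam x (j.succAbove k) := fun k => min3_le (fun l => lam x (j.succAbove l)) k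
  have hk : ∀ k : Fin 3, -a (j.succAbove k) * (lam x (j.succAbove k) - m) ≤
      H (j.succAbove k) j * (lam x (j.succAbove k) - m) := fun k =>
    mul_le_mul_of_nonneg_right (hHb _ (Fin.succAbove_ne j k)) (sub_nonneg.2 (hmk k))
  have hsum := hax
  rw [Fin.sum_univ_succAbove _ j, Fin.sum_univ_three] at hsum
  have h1 := ha1
  rw [Fin.sum_univ_succAbove _ j, Fin.sum_univ_three] at h1
  rw [Fin.sum_univ_three]
  have h2 : (1 - 3 * σ) * lam x j ≤ a j * lam x j := mul_le_mul_of_nonneg_right haj (hs0 j)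
  have h3 : m * (1 - a j) ≥ 0 := mul_nonneg hm0 (by linarith [ha j])
  have hk0 := hk 0
  have hk1 := hk 1
  have hk2 := hk 2
  have h4 : m * (1 - a j) = m * (a (j.succAbove 0) + a (j.succAbove 1) + a (j.succAbove 2)) := by
    congr 1
    linarith
  nlinarith

end L2

open L2 in
theorem t_cover : S_cover := by
  intro K hK hc hKD hg ε σ θ hε _ hεσ hσ hθ hv H hH x hx hxK
  obtain ⟨a, hax, haK⟩ := sep hK hc hxK
  set S := ∑ k, a k with hS
  have hj : ∀ j, a j < S := by
    intro j
    obtain ⟨y, hy, hyj⟩ := hg j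
    have h1 := haK y hy
    have h2 : ∑ k, a k * lam y k = (S - a j) / 3 := by
      rw [hS, Fin.sum_univ_succAbove _ j, Fin.sum_univ_succAbove a j, hyj j, if_pos rfl, mul_zero,
        zero_add, add_sub_cancel_left, Finset.sum_div]
      refine Finset.sum_congr rfl fun k _ => ?_
      rw [hyj, if_neg (Fin.succAbove_ne j k)]
      ring
    rw [h2] at h1
    linarith
  have hSpos : 0 < S := by
    have h1 := hj 0
    have h2 := hj 1
    have h3 := hj 2
    have h4 := hj 3
    have h5 : S = a 0 + a 1 + a 2 + a 3 := by rw [hS, Fin.sum_univ_four]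
    linarith
  refine core hKD hε hεσ hσ hθ hv hH hx (fun k => a k / S) ?_ ?_ ?_ ?_
  · rw [← Finset.sum_div, ← hS, div_self hSpos.ne']
  · intro k
    rw [div_le_one hSpos]
    exact (hj k).le
  · have : ∑ k, a k / S * lam x k = (∑ k, a k * lam x k) / S := by
      rw [Finset.sum_div]
      exact Finset.sum_congr rfl fun k _ => by ring
    rw [this]
    exact div_neg_of_neg_of_pos hax hSpos
  · intro y hy
    have : ∑ k, a k / S * lam y k = (∑ k, a k * lam y k) / S := by
      rw [Finset.sum_div]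
      exact Finset.sum_congr rfl fun k _ => by ring
    rw [this]
    exact div_pos (haK y hy) hSpos

end H293M
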