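import Pool.Agent.H293R2.M3.Spec2

set_option autoImplicit false

open MeasureTheory Set

namespace H293M

namespace L3

theorem cont_min3 : Continuous min3 := by
  unfold min3
  fun_prop

/-- the height function -/
noncomputable def Z (H : Fin 3 → ℝ) (a : Fin 3 → ℝ) : ℝ := ∑ k, H k * (a k - min3 a)

theorem cont_Z (H : Fin 3 → ℝ) : Continuous (Z H) := by
  unfold Z
  have := cont_min3
  fun_prop

theorem min3_le (a : Fin 3 → ℝ) (k : Fin 3) : min3 a ≤ a k := by
  unfold min3
  fin_cases k
  · exact min_le_left _ _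
  · exact (min_le_right _ _).trans (min_le_left _ _)
  · exact (min_le_right _ _).trans (min_le_right _ _)

theorem min3_nonneg {a : Fin 3 → ℝ} (h : ∀ k, 0 ≤ a k) : 0 ≤ min3 a :=
  le_min (h 0) (le_min (h 1) (h 2))

theorem min3_div {a : Fin 3 → ℝ} {S : ℝ} (hS : 0 < S) :
    min3 (fun k => a k / S) = min3 a / S := by
  unfold min3
  simp only
  rw [min_div_div_right hS.le, min_div_div_right hS.le]

theorem lam_pt {s : Fin 4 → ℝ} (hs : 0 < ∑ i, s i) (i : Fin 4) :
    lam (pt s) i = s i / ∑ i, s i := by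
  have e : ∑ i, s i = s 0 + s 1 + s 2 + s 3 := by
    rw [Fin.sum_univ_four]
  unfold lam pt
  rw [e] at hs ⊢
  fin_cases i
  · simp
    field_simp
    ring
  · simp
  · simp
  · simp

theorem cont_lam (i : Fin 4) : Continuous (fun x : E => lam x i) := by
  unfold lam
  fin_cases i
  · simp
    fun_prop
  · simp
    fun_prop
  · simp
    fun_prop
  · simp
    fun_prop

theorem closed_Dl : IsClosed Dl := by
  unfold Dl
  have h1 : IsClosed {x : E | 0 ≤ x.1} := isClosed_le (by fun_prop) (by fun_prop)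
  have h2 : IsClosed {x : E | 0 ≤ x.2.1} := isClosed_le (by fun_prop) (by fun_prop)
  have h3 : IsClosed {x : E | 0 ≤ x.2.2} := isClosed_le (by fun_prop) (by fun_prop)
  have h4 : IsClosed {x : E | x.1 + x.2.1 + x.2.2 ≤ 1} := isClosed_le (by fun_prop) (by fun_prop)
  exact h1.inter (h2.inter (h3.inter h4))

theorem lam_nonneg {x : E} (hx : x ∈ Dl) (i : Fin 4) : 0 ≤ lam x i := by
  obtain ⟨h1, h2, h3, h4⟩ := hx
  unfold lam
  fin_cases i
  · simp; linarith
  · simpa using h1
  · simpa using h2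
  · simpa using h3

theorem Z_div {H a : Fin 3 → ℝ} {S : ℝ} (hS : 0 < S) :
    Z H (fun k => a k / S) = Z H a / S := by
  unfold Z
  rw [min3_div hS, Finset.sum_div]
  refine Finset.sum_congr rfl fun k _ => ?_
  ring

/-- the integral over the layer in the cone coordinates -/
theorem outer (h2 : S_emin) {H : Fin 3 → ℝ} (hH : ∀ k, 0 ≤ H k) {t : ℝ} (ht : 0 < t) :
    ∫⁻ a in {a : Fin 3 → ℝ | ∀ k, 0 < a k},
      ENNReal.ofReal (Real.exp (-∑ k, a k) * (Z H a / t)) = ENNReal.ofReal (2 / 3 * (∑ k, H k) / t) := by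
  have hm := cont_min3
  have hprod : ∀ a : Fin 3 → ℝ, ∏ k, Real.exp (-a k) = Real.exp (-∑ k, a k) := by
    intro a
    rw [← Finset.sum_neg_distrib, Real.exp_sum]
  have hM := h2.mn (μ := fun _ => 1) (w := fun _ => 1) (fun _ => one_pos) (fun _ => one_pos)
  have hO := fun k => h2.one (μ := fun _ => 1) (fun _ => one_pos) k
  simp only [one_mul, hprod] at hM hO
  have hF : ∀ k : Fin 3, ∫⁻ a in {a : Fin 3 → ℝ | ∀ k, 0 < a k},
      ENNReal.ofReal (Real.exp (-∑ k, a k) * (a k - min3 a)) = ENNReal.ofReal (2 / 3) := by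
    intro k
    have hadd : ∫⁻ a in {a : Fin 3 → ℝ | ∀ k, 0 < a k},
        (ENNReal.ofReal (Real.exp (-∑ k, a k) * (a k - min3 a)) +
          ENNReal.ofReal (Real.exp (-∑ k, a k) * min3 a)) =
        ∫⁻ a in {a : Fin 3 → ℝ | ∀ k, 0 < a k},
          ENNReal.ofReal (Real.exp (-∑ k, a k) * a k) := by
      have hmeas : MeasurableSet {a : Fin 3 → ℝ | ∀ k, 0 < a k} := by
        have : {a : Fin 3 → ℝ | ∀ k, 0 < a k} = ⋂ k, {a : Fin 3 → ℝ | 0 < a k} := by
          ext a; simp
        rw [this]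
        exact MeasurableSet.iInter fun k => measurableSet_lt measurable_const (measurable_pi_apply k)
      refine setLIntegral_congr_fun hmeas ?_
      intro a ha
      simp only
      rw [← ENNReal.ofReal_add]
      · congr 1; ring
      · exact mul_nonneg (Real.exp_pos _).le (sub_nonneg.2 (min3_le a k))
      · exact mul_nonneg (Real.exp_pos _).le (min3_nonneg fun k => (ha k).le)
    rw [lintegral_add_left (by fun_prop), hM, hO k] at hadd
    have e1 : ENNReal.ofReal (1 / 1 : ℝ) = ENNReal.ofReal (2 / 3) + ENNReal.ofReal (1 / 3) := by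
      rw [← ENNReal.ofReal_add (by norm_num) (by norm_num)]
      congr 1; norm_num
    have e2 : (1 : ℝ) / ∑ k : Fin 3, (1 : ℝ) / 1 = 1 / 3 := by
      rw [Fin.sum_univ_three]; norm_num
    rw [e2, e1] at hadd
    exact (ENNReal.add_left_inj ENNReal.ofReal_ne_top).1 hadd
  have hmeas : MeasurableSet {a : Fin 3 → ℝ | ∀ k, 0 < a k} := by
    have : {a : Fin 3 → ℝ | ∀ k, 0 < a k} = ⋂ k, {a : Fin 3 → ℝ | 0 < a k} := by
      ext a; simp
    rw [this]
    exact MeasurableSet.iInter fun k => measurableSet_lt measurable_const (measurable_pi_apply k)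
  have hpt : ∀ a : Fin 3 → ℝ, ENNReal.ofReal (Real.exp (-∑ k, a k) * (Z H a / t)) =
      ∑ k, ENNReal.ofReal (H k / t) *
        ENNReal.ofReal (Real.exp (-∑ k, a k) * (a k - min3 a)) := by
    intro a
    have e : ∀ k : Fin 3, ENNReal.ofReal (H k / t) *
        ENNReal.ofReal (Real.exp (-∑ k, a k) * (a k - min3 a)) =
        ENNReal.ofReal (H k / t * (Real.exp (-∑ k, a k) * (a k - min3 a))) := by
      intro k
      rw [ENNReal.ofReal_mul (div_nonneg (hH k) ht.le)]
    simp only [e]
    rw [← ENNReal.ofReal_sum_of_nonneg]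
    · congr 1
      unfold Z
      rw [Finset.sum_div, Finset.mul_sum]
      refine Finset.sum_congr rfl fun k _ => ?_
      ring
    · intro k _
      exact mul_nonneg (div_nonneg (hH k) ht.le)
        (mul_nonneg (Real.exp_pos _).le (sub_nonneg.2 (min3_le a k)))
  simp only [hpt]
  rw [lintegral_finsetSum _ (fun k _ => by fun_prop)]
  have : ∀ k : Fin 3, ∫⁻ a in {a : Fin 3 → ℝ | ∀ k, 0 < a k}, ENNReal.ofReal (H k / t) *
        ENNReal.ofReal (Real.exp (-∑ k, a k) * (a k - min3 a)) =
      ENNReal.ofReal (H k / t * (2 / 3)) := by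
    intro k
    rw [lintegral_const_mul _ (by fun_prop), hF k, ENNReal.ofReal_mul (div_nonneg (hH k) ht.le)]
  simp only [this]
  rw [← ENNReal.ofReal_sum_of_nonneg]
  · congr 1
    rw [← Finset.sum_mul, ← Finset.sum_div]
    ring
  · intro k _
    exact mul_nonneg (div_nonneg (hH k) ht.le) (by norm_num)

end L3

theorem t_layer (h1 : S_cone1) (h2 : S_emin) : S_layer := by
  intro j H hH t ht
  set L : Set E := {x ∈ Dl | t * lam x j ≤ ∑ k : Fin 3, H k *
      (lam x (j.succAbove k) - min3 (fun l => lam x (j.succAbove l)))} with hL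
  have hLm : MeasurableSet L := by
    have hc : Continuous (fun x : E => ∑ k : Fin 3, H k *
        (lam x (j.succAbove k) - min3 (fun l => lam x (j.succAbove l)))) := by
      have c1 : Continuous (fun x : E => min3 (fun l => lam x (j.succAbove l))) :=
        L3.cont_min3.comp (continuous_pi fun l => L3.cont_lam _)
      have c2 := fun k : Fin 3 => L3.cont_lam (j.succAbove k)
      exact continuous_finsetSum _ fun k _ => continuous_const.mul ((c2 k).sub c1)
    exact (L3.closed_Dl.inter (isClosed_le (continuous_const.mul (L3.cont_lam j)) hc)).measurableSet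
  have key : 6 * volume L ≤ ENNReal.ofReal (2 / 3 * (∑ k, H k) / t) := by
    rw [h1 hLm, ← L3.outer h2 hH ht]
    -- the auxiliary function
    set B : Set (ℝ × (Fin 3 → ℝ)) :=
      {p | (0 ≤ p.1 ∧ p.1 ≤ L3.Z H p.2 / t) ∧ ∀ k, 0 ≤ p.2 k} with hB
    have hBm : MeasurableSet B := by
      have c1 := L3.cont_Z H
      have b1 : IsClosed {p : ℝ × (Fin 3 → ℝ) | 0 ≤ p.1} := isClosed_le (by fun_prop) (by fun_prop)
      have b2 : IsClosed {p : ℝ × (Fin 3 → ℝ) | p.1 ≤ L3.Z H p.2 / t} :=
        isClosed_le (by fun_prop) (by fun_prop)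
      have b3 : IsClosed {p : ℝ × (Fin 3 → ℝ) | ∀ k, 0 ≤ p.2 k} := by
        have : {p : ℝ × (Fin 3 → ℝ) | ∀ k, 0 ≤ p.2 k} =
            ⋂ k, {p : ℝ × (Fin 3 → ℝ) | 0 ≤ p.2 k} := by
          ext a; simp
        rw [this]
        exact isClosed_iInter fun k => isClosed_le (by fun_prop) (by fun_prop)
      exact ((b1.inter b2).inter b3).measurableSet
    set F : ℝ × (Fin 3 → ℝ) → ENNReal :=
      B.indicator (fun p => ENNReal.ofReal (Real.exp (-∑ k, p.2 k))) with hF
    have hFm : Measurable F := (by fun_prop : Measurable (fun p : ℝ × (Fin 3 → ℝ) =>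
      ENNReal.ofReal (Real.exp (-∑ k, p.2 k)))).indicator hBm
    have mp := volume_preserving_piFinSuccAbove (fun _ : Fin 4 => ℝ) j
    have e1 : ∫⁻ s in {s : Fin 4 → ℝ | 0 < ∑ i, s i ∧ pt s ∈ L},
        ENNReal.ofReal (Real.exp (-∑ i, s i)) ≤
        ∫⁻ s, F (MeasurableEquiv.piFinSuccAbove (fun _ : Fin 4 => ℝ) j s) := by
      refine (setLIntegral_mono (hFm.comp mp.measurable) ?_).trans (setLIntegral_le_lintegral _ _)
      rintro s ⟨hs, hsL⟩
      obtain ⟨hD, hin⟩ := hsL
      have hnn : ∀ i, 0 ≤ s i := by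
        intro i
        have := L3.lam_nonneg hD i
        rw [L3.lam_pt hs] at this
        by_contra hneg
        push Not at hneg
        have := div_neg_of_neg_of_pos hneg hs
        linarith
      have hZ : t * s j ≤ L3.Z H (fun k => s (j.succAbove k)) := by
        simp only [L3.lam_pt hs] at hin
        have e : ∑ k : Fin 3, H k * (s (j.succAbove k) / ∑ i, s i -
            min3 (fun l => s (j.succAbove l) / ∑ i, s i)) =
            L3.Z H (fun k => s (j.succAbove k) / ∑ i, s i) := rfl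
        rw [e, L3.Z_div (a := fun k => s (j.succAbove k)) hs, ← mul_div_assoc,
          div_le_div_iff_of_pos_right hs] at hin
        exact hin
      have hmem : (MeasurableEquiv.piFinSuccAbove (fun _ : Fin 4 => ℝ) j s) ∈ B := by
        refine ⟨⟨hnn j, ?_⟩, fun k => hnn _⟩
        rw [le_div_iff₀ ht, mul_comm]
        exact hZ
      show _ ≤ F (MeasurableEquiv.piFinSuccAbove (fun _ : Fin 4 => ℝ) j s)
      rw [hF, indicator_of_mem hmem]
      apply ENNReal.ofReal_le_ofReal
      apply Real.exp_le_exp.2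
      rw [Fin.sum_univ_succAbove s j]
      have := hnn j
      have e : ∑ k : Fin 3, (MeasurableEquiv.piFinSuccAbove (fun _ : Fin 4 => ℝ) j s).2 k =
          ∑ k : Fin 3, s (j.succAbove k) := rfl
      rw [e]
      linarith
    refine e1.trans ?_
    rw [mp.lintegral_comp hFm]
    have e2 : ∫⁻ p, F p = ∫⁻ a : Fin 3 → ℝ, ∫⁻ x : ℝ, F (x, a) :=
      lintegral_prod_symm F hFm.aemeasurable
    rw [e2]
    have hin : ∀ a : Fin 3 → ℝ, ∫⁻ x : ℝ, F (x, a) =
        ({a : Fin 3 → ℝ | ∀ k, 0 ≤ a k} : Set (Fin 3 → ℝ)).indicator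
          (fun a => ENNReal.ofReal (Real.exp (-∑ k, a k) * (L3.Z H a / t))) a := by
      intro a
      by_cases ha : ∀ k, 0 ≤ a k
      · rw [indicator_of_mem (show a ∈ {a : Fin 3 → ℝ | ∀ k, 0 ≤ a k} from ha)]
        have e : ∀ x : ℝ, F (x, a) = (Icc (0 : ℝ) (L3.Z H a / t)).indicator
            (fun _ => ENNReal.ofReal (Real.exp (-∑ k, a k))) x := by
          intro x
          by_cases hx : x ∈ Icc (0 : ℝ) (L3.Z H a / t)
          · rw [indicator_of_mem hx, hF, indicator_of_mem (show (x, a) ∈ B from ⟨hx, ha⟩)]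
          · rw [indicator_of_notMem hx, hF,
              indicator_of_notMem (show (x, a) ∉ B from fun h => hx h.1)]
        simp only [e]
        rw [lintegral_indicator measurableSet_Icc, setLIntegral_const, Real.volume_Icc, sub_zero,
          ← ENNReal.ofReal_mul (Real.exp_pos _).le]
      · rw [indicator_of_notMem (show a ∉ {a : Fin 3 → ℝ | ∀ k, 0 ≤ a k} from ha)]
        have e : ∀ x : ℝ, F (x, a) = 0 := by
          intro x
          rw [hF, indicator_of_notMem (show (x, a) ∉ B from fun h => ha h.2)]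
        simp [e]
    simp only [hin]
    have hm0 : MeasurableSet {a : Fin 3 → ℝ | ∀ k, 0 ≤ a k} := by
      have : {a : Fin 3 → ℝ | ∀ k, 0 ≤ a k} = ⋂ k, {a : Fin 3 → ℝ | 0 ≤ a k} := by
        ext a; simp
      rw [this]
      exact MeasurableSet.iInter fun k => measurableSet_le measurable_const (measurable_pi_apply k)
    rw [lintegral_indicator hm0]
    apply le_of_eq
    apply setLIntegral_congr
    have hae := Measure.univ_pi_Ioi_ae_eq_Ici (μ := fun _ : Fin 3 => (volume : Measure ℝ))
      (f := fun _ => (0 : ℝ))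
    have s1 : {a : Fin 3 → ℝ | ∀ k, 0 ≤ a k} = Ici (fun _ => (0 : ℝ)) := by
      ext a
      simp [Pi.le_def]
    have s2 : {a : Fin 3 → ℝ | ∀ k, 0 < a k} = Set.univ.pi fun _ => Ioi (0 : ℝ) := by
      ext a
      simp
    rw [s1, s2]
    exact hae.symm
  have h3 := ENNReal.toReal_mono ENNReal.ofReal_ne_top key
  rw [ENNReal.toReal_mul, ENNReal.toReal_ofReal] at h3
  · simpa [vl] using h3
  · exact div_nonneg (mul_nonneg (by norm_num) (Finset.sum_nonneg fun k _ => hH k)) ht.le

end H293M
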