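import Pool.Agent.H293R2.M3.Spec2

/-!
Volume of a neighbourhood of the edges of the standard tetrahedron.
-/

set_option autoImplicit false

open MeasureTheory Set

namespace H293M

namespace L4

/-- slicing bound -/
lemma slice {X Y : Type*} [MeasurableSpace X] [MeasurableSpace Y] (μ : Measure X) (ν : Measure Y)
    [SFinite μ] [SFinite ν] {A : Set (X × Y)} (hA : MeasurableSet A) {s : Set X}
    (hs : MeasurableSet s) {c : ENNReal} (h1 : ∀ x ∈ s, ν (Prod.mk x ⁻¹' A) ≤ c)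
    (h2 : ∀ x, x ∉ s → Prod.mk x ⁻¹' A = ∅) : (μ.prod ν) A ≤ μ s * c := by
  rw [Measure.prod_apply hA]
  calc ∫⁻ x, ν (Prod.mk x ⁻¹' A) ∂μ ≤ ∫⁻ x, s.indicator (fun _ => c) x ∂μ := by
        refine lintegral_mono fun x => ?_
        by_cases hx : x ∈ s
        · simp only [indicator_of_mem hx]
          exact h1 x hx
        · simp [indicator_of_notMem hx, h2 x hx]
    _ = μ s * c := by rw [lintegral_indicator_const hs, mul_comm]

/-- slicing bound, other coordinate -/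
lemma slice' {X Y : Type*} [MeasurableSpace X] [MeasurableSpace Y] (μ : Measure X) (ν : Measure Y)
    [SFinite μ] [SFinite ν] {A : Set (X × Y)} (hA : MeasurableSet A) {s : Set Y}
    (hs : MeasurableSet s) {c : ENNReal} (h1 : ∀ y ∈ s, μ ((fun x => (x, y)) ⁻¹' A) ≤ c)
    (h2 : ∀ y, y ∉ s → (fun x => (x, y)) ⁻¹' A = ∅) : (μ.prod ν) A ≤ ν s * c := by
  rw [Measure.prod_apply_symm hA]
  calc ∫⁻ y, μ ((fun x => (x, y)) ⁻¹' A) ∂ν ≤ ∫⁻ y, s.indicator (fun _ => c) y ∂ν := by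
        refine lintegral_mono fun x => ?_
        by_cases hx : x ∈ s
        · simp only [indicator_of_mem hx]
          exact h1 x hx
        · simp [indicator_of_notMem hx, h2 x hx]
    _ = ν s * c := by rw [lintegral_indicator_const hs, mul_comm]

/-- a set in the plane with first coordinate in an interval of length `p` and second in an
interval of length `q` depending on the first -/
lemma two {A : Set (ℝ × ℝ)} (hA : MeasurableSet A) {a b q : ℝ} (f : ℝ → ℝ)
    (h : ∀ x ∈ A, x.1 ∈ Icc a b ∧ x.2 ∈ Icc (f x.1) (f x.1 + q)) :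
    volume A ≤ ENNReal.ofReal (b - a) * ENNReal.ofReal q := by
  have := slice (volume : Measure ℝ) (volume : Measure ℝ) hA (s := Icc a b) measurableSet_Icc
    (c := ENNReal.ofReal q) (fun x _ => ?_) (fun x hx => ?_)
  · rw [Real.volume_Icc] at this
    exact this
  · calc volume (Prod.mk x ⁻¹' A) ≤ volume (Icc (f x) (f x + q)) :=
          measure_mono fun y hy => (h (x, y) hy).2
      _ = ENNReal.ofReal q := by rw [Real.volume_Icc]; congr 1; ring
  · rw [eq_empty_iff_forall_notMem]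
    exact fun y hy => hx (h (x, y) hy).1

/-- same with the coordinates interchanged -/
lemma two' {A : Set (ℝ × ℝ)} (hA : MeasurableSet A) {a b q : ℝ} (f : ℝ → ℝ)
    (h : ∀ x ∈ A, x.2 ∈ Icc a b ∧ x.1 ∈ Icc (f x.2) (f x.2 + q)) :
    volume A ≤ ENNReal.ofReal (b - a) * ENNReal.ofReal q := by
  have := slice' (volume : Measure ℝ) (volume : Measure ℝ) hA (s := Icc a b) measurableSet_Icc
    (c := ENNReal.ofReal q) (fun x _ => ?_) (fun x hx => ?_)
  · rw [Real.volume_Icc] at this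
    exact this
  · calc volume ((fun y => (y, x)) ⁻¹' A) ≤ volume (Icc (f x) (f x + q)) :=
          measure_mono fun y hy => (h (y, x) hy).2
      _ = ENNReal.ofReal q := by rw [Real.volume_Icc]; congr 1; ring
  · rw [eq_empty_iff_forall_notMem]
    exact fun y hy => hx (h (y, x) hy).1

/-- three dimensional version -/
lemma three {A : Set E} (hA : MeasurableSet A) {a b : ℝ} {c : ENNReal}
    (h1 : ∀ x ∈ A, x.1 ∈ Icc a b) (h2 : ∀ u : ℝ, volume (Prod.mk u ⁻¹' A) ≤ c) :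
    volume A ≤ ENNReal.ofReal (b - a) * c := by
  have := slice (volume : Measure ℝ) (volume : Measure (ℝ × ℝ)) hA (s := Icc a b)
    measurableSet_Icc (c := c) (fun x _ => h2 x) (fun x hx => ?_)
  · rw [Real.volume_Icc] at this
    exact this
  · rw [eq_empty_iff_forall_notMem]
    exact fun y hy => hx (h1 (x, y) hy)

/-- the set of points of the standard tetrahedron with two small barycentric coordinates -/
def P (θ : ℝ) (i k : Fin 4) : Set E := {x | x ∈ Dl ∧ lam x i ≤ θ ∧ lam x k ≤ θ}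

lemma lam_cont (i : Fin 4) : Continuous fun x : E => lam x i := by
  have h1 : Continuous fun x : E => x.1 := continuous_fst
  have h2 : Continuous fun x : E => x.2.1 := continuous_fst.comp continuous_snd
  have h3 : Continuous fun x : E => x.2.2 := continuous_snd.comp continuous_snd
  fin_cases i
  · have h4 : Continuous fun x : E => 1 - x.1 - x.2.1 - x.2.2 := by fun_prop
    simpa [lam] using h4
  · simpa [lam] using h1
  · simpa [lam] using h2
  · simpa [lam] using h3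

lemma Dl_eq : Dl = {x : E | ∀ i, 0 ≤ lam x i} := by
  ext x
  simp only [Dl, lam, mem_ofPred_eq, Fin.forall_fin_succ, Matrix.cons_val_zero,
    Matrix.cons_val_succ]
  constructor
  · rintro ⟨h1, h2, h3, h4⟩
    exact ⟨by linarith, h1, h2, h3, fun i => i.elim0⟩
  · rintro ⟨h1, h2, h3, h4, -⟩
    exact ⟨h2, h3, h4, by linarith⟩

lemma P_meas (θ : ℝ) (i k : Fin 4) : MeasurableSet (P θ i k) := by
  have h0 : IsClosed Dl := by
    rw [Dl_eq, ofPred_forall]
    exact isClosed_iInter fun i => isClosed_le continuous_const (lam_cont i)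
  have h1 : IsClosed {x : E | lam x i ≤ θ} := isClosed_le (lam_cont i) continuous_const
  have h2 : IsClosed {x : E | lam x k ≤ θ} := isClosed_le (lam_cont k) continuous_const
  exact (h0.inter (h1.inter h2)).measurableSet

lemma sl_meas (θ : ℝ) (i k : Fin 4) (u : ℝ) : MeasurableSet (Prod.mk u ⁻¹' P θ i k) :=
  measurable_prodMk_left (P_meas θ i k)

lemma P01 {θ : ℝ} (hθ : 0 ≤ θ) : volume (P θ 0 1) ≤ ENNReal.ofReal (θ ^ 2) := by
  have := three (P_meas θ 0 1) (a := 0) (b := θ) (c := ENNReal.ofReal θ) (fun x hx => ?_)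
    (fun u => ?_)
  · refine this.trans (le_of_eq ?_)
    rw [← ENNReal.ofReal_mul (by linarith)]
    congr 1; ring
  · obtain ⟨⟨h1, h2, h3, h4⟩, h5, h6⟩ := hx
    simp only [lam, Matrix.cons_val_zero, Matrix.cons_val_one] at h5 h6
    exact ⟨h1, h6⟩
  · refine (two (sl_meas θ 0 1 u) (a := 0) (b := 1) (q := θ) (fun v => 1 - θ - u - v)
      (fun x hx => ?_)).trans (le_of_eq (by simp))
    obtain ⟨⟨h1, h2, h3, h4⟩, h5, h6⟩ := hx
    simp only [lam, Matrix.cons_val_zero, Matrix.cons_val_one] at h1 h2 h3 h4 h5 h6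
    exact ⟨⟨h2, by linarith⟩, by linarith, by linarith⟩

lemma P02 {θ : ℝ} (hθ : 0 ≤ θ) : volume (P θ 0 2) ≤ ENNReal.ofReal (θ ^ 2) := by
  have := three (P_meas θ 0 2) (a := 0) (b := 1) (c := ENNReal.ofReal (θ ^ 2)) (fun x hx => ?_)
    (fun u => ?_)
  · refine this.trans (le_of_eq (by simp))
  · obtain ⟨⟨h1, h2, h3, h4⟩, h5, h6⟩ := hx
    exact ⟨h1, by linarith⟩
  · refine (two (sl_meas θ 0 2 u) (a := 0) (b := θ) (q := θ) (fun v => 1 - θ - u - v)
      (fun x hx => ?_)).trans (le_of_eq ?_)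
    · obtain ⟨⟨h1, h2, h3, h4⟩, h5, h6⟩ := hx
      simp only [lam, Matrix.cons_val_zero, Matrix.cons_val] at h1 h2 h3 h4 h5 h6
      exact ⟨⟨h2, by linarith⟩, by linarith, by linarith⟩
    · rw [← ENNReal.ofReal_mul (by linarith)]
      congr 1; ring

lemma P03 {θ : ℝ} (hθ : 0 ≤ θ) : volume (P θ 0 3) ≤ ENNReal.ofReal (θ ^ 2) := by
  have := three (P_meas θ 0 3) (a := 0) (b := 1) (c := ENNReal.ofReal (θ ^ 2)) (fun x hx => ?_)
    (fun u => ?_)
  · refine this.trans (le_of_eq (by simp))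
  · obtain ⟨⟨h1, h2, h3, h4⟩, h5, h6⟩ := hx
    exact ⟨h1, by linarith⟩
  · refine (two' (sl_meas θ 0 3 u) (a := 0) (b := θ) (q := θ) (fun v => 1 - θ - u - v)
      (fun x hx => ?_)).trans (le_of_eq ?_)
    · obtain ⟨⟨h1, h2, h3, h4⟩, h5, h6⟩ := hx
      simp only [lam, Matrix.cons_val_zero, Matrix.cons_val] at h1 h2 h3 h4 h5 h6
      exact ⟨⟨h3, by linarith⟩, by linarith, by linarith⟩
    · rw [← ENNReal.ofReal_mul (by linarith)]
      congr 1; ring

lemma P12 {θ : ℝ} (hθ : 0 ≤ θ) : volume (P θ 1 2) ≤ ENNReal.ofReal (θ ^ 2) := by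
  have := three (P_meas θ 1 2) (a := 0) (b := θ) (c := ENNReal.ofReal θ) (fun x hx => ?_)
    (fun u => ?_)
  · refine this.trans (le_of_eq ?_)
    rw [← ENNReal.ofReal_mul (by linarith)]
    congr 1; ring
  · obtain ⟨⟨h1, h2, h3, h4⟩, h5, h6⟩ := hx
    simp only [lam, Matrix.cons_val_one, Matrix.cons_val] at h5 h6
    exact ⟨h1, h5⟩
  · refine (two' (sl_meas θ 1 2 u) (a := 0) (b := 1) (q := θ) (fun v => 0)
      (fun x hx => ?_)).trans (le_of_eq (by simp))
    obtain ⟨⟨h1, h2, h3, h4⟩, h5, h6⟩ := hx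
    simp only [lam, Matrix.cons_val_one, Matrix.cons_val] at h1 h2 h3 h4 h5 h6
    exact ⟨⟨h3, by linarith⟩, by linarith, by linarith⟩

lemma P13 {θ : ℝ} (hθ : 0 ≤ θ) : volume (P θ 1 3) ≤ ENNReal.ofReal (θ ^ 2) := by
  have := three (P_meas θ 1 3) (a := 0) (b := θ) (c := ENNReal.ofReal θ) (fun x hx => ?_)
    (fun u => ?_)
  · refine this.trans (le_of_eq ?_)
    rw [← ENNReal.ofReal_mul (by linarith)]
    congr 1; ring
  · obtain ⟨⟨h1, h2, h3, h4⟩, h5, h6⟩ := hx
    simp only [lam, Matrix.cons_val_one, Matrix.cons_val] at h5 h6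
    exact ⟨h1, h5⟩
  · refine (two (sl_meas θ 1 3 u) (a := 0) (b := 1) (q := θ) (fun v => 0)
      (fun x hx => ?_)).trans (le_of_eq (by simp))
    obtain ⟨⟨h1, h2, h3, h4⟩, h5, h6⟩ := hx
    simp only [lam, Matrix.cons_val_one, Matrix.cons_val] at h1 h2 h3 h4 h5 h6
    exact ⟨⟨h2, by linarith⟩, by linarith, by linarith⟩

lemma P23 {θ : ℝ} (hθ : 0 ≤ θ) : volume (P θ 2 3) ≤ ENNReal.ofReal (θ ^ 2) := by
  have := three (P_meas θ 2 3) (a := 0) (b := 1) (c := ENNReal.ofReal (θ ^ 2)) (fun x hx => ?_)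
    (fun u => ?_)
  · refine this.trans (le_of_eq (by simp))
  · obtain ⟨⟨h1, h2, h3, h4⟩, h5, h6⟩ := hx
    exact ⟨h1, by linarith⟩
  · refine (two (sl_meas θ 2 3 u) (a := 0) (b := θ) (q := θ) (fun v => 0)
      (fun x hx => ?_)).trans (le_of_eq ?_)
    · obtain ⟨⟨h1, h2, h3, h4⟩, h5, h6⟩ := hx
      simp only [lam, Matrix.cons_val] at h1 h2 h3 h4 h5 h6
      exact ⟨⟨h2, by linarith⟩, by linarith, by linarith⟩
    · rw [← ENNReal.ofReal_mul (by linarith)]
      congr 1; ring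

lemma P_symm (θ : ℝ) (i k : Fin 4) : P θ i k = P θ k i := by
  ext x
  simp only [P, mem_ofPred_eq]
  tauto

lemma sub (θ : ℝ) : {x : E | x ∈ Dl ∧ ∃ i k, i ≠ k ∧ lam x i ≤ θ ∧ lam x k ≤ θ} ⊆
    P θ 0 1 ∪ (P θ 0 2 ∪ (P θ 0 3 ∪ (P θ 1 2 ∪ (P θ 1 3 ∪ P θ 2 3)))) := by
  rintro x ⟨hD, i, k, hik, hi, hk⟩
  have hx : x ∈ P θ i k := ⟨hD, hi, hk⟩
  simp only [mem_union]
  have s10 := P_symm θ 1 0
  have s20 := P_symm θ 2 0
  have s30 := P_symm θ 3 0
  have s21 := P_symm θ 2 1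
  have s31 := P_symm θ 3 1
  have s32 := P_symm θ 3 2
  clear hi hk
  fin_cases i <;> fin_cases k <;> simp at hik hx ⊢ <;> simp_all

end L4

open L4 in
theorem t_edge : S_edge := by
  intro θ hθ
  have h1 : volume {x : E | x ∈ Dl ∧ ∃ i k, i ≠ k ∧ lam x i ≤ θ ∧ lam x k ≤ θ} ≤
      ENNReal.ofReal (6 * θ ^ 2) := by
    refine (measure_mono (sub θ)).trans ?_
    refine (measure_union_le _ _).trans ?_
    have e6 : ENNReal.ofReal (6 * θ ^ 2) = ENNReal.ofReal (θ ^ 2) + (ENNReal.ofReal (θ ^ 2) +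
        (ENNReal.ofReal (θ ^ 2) + (ENNReal.ofReal (θ ^ 2) + (ENNReal.ofReal (θ ^ 2) +
        ENNReal.ofReal (θ ^ 2))))) := by
      have := sq_nonneg θ
      rw [← ENNReal.ofReal_add (by positivity) (by positivity),
        ← ENNReal.ofReal_add (by positivity) (by positivity),
        ← ENNReal.ofReal_add (by positivity) (by positivity),
        ← ENNReal.ofReal_add (by positivity) (by positivity),
        ← ENNReal.ofReal_add (by positivity) (by positivity)]
      congr 1; ring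
    rw [e6]
    refine add_le_add (P01 hθ) ((measure_union_le _ _).trans ?_)
    refine add_le_add (P02 hθ) ((measure_union_le _ _).trans ?_)
    refine add_le_add (P03 hθ) ((measure_union_le _ _).trans ?_)
    refine add_le_add (P12 hθ) ((measure_union_le _ _).trans ?_)
    exact add_le_add (P13 hθ) (P23 hθ)
  have h2 : vl {x : E | x ∈ Dl ∧ ∃ i k, i ≠ k ∧ lam x i ≤ θ ∧ lam x k ≤ θ} ≤ 6 * θ ^ 2 :=
    ENNReal.toReal_le_of_le_ofReal (by positivity) h1
  have : vl {x ∈ Dl | ∃ i k, i ≠ k ∧ lam x i ≤ θ ∧ lam x k ≤ θ} ≤ 6 * θ ^ 2 := h2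
  linarith

end H293M
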