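import Pool.Agent.H293R2.M3.Spec2

set_option autoImplicit false

open MeasureTheory Set

namespace H293M

namespace L5

/-- standard simplex -/
def Del : Set E := {v | 0 ≤ v.1 ∧ 0 ≤ v.2.1 ∧ 0 ≤ v.2.2 ∧ v.1 + v.2.1 + v.2.2 ≤ 1}

/-- triangle -/
def Tri (r : ℝ) : Set (ℝ × ℝ) := {v | 0 ≤ v.1 ∧ 0 ≤ v.2 ∧ v.1 + v.2 ≤ r}

theorem meas_Tri (r : ℝ) : MeasurableSet (Tri r) := by
  apply IsClosed.measurableSet
  unfold Tri
  refine IsClosed.inter (isClosed_le continuous_const continuous_fst) (IsClosed.inter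
    (isClosed_le continuous_const continuous_snd)
    (isClosed_le (continuous_fst.add continuous_snd) continuous_const))

theorem meas_Del : MeasurableSet Del := by
  apply IsClosed.measurableSet
  unfold Del
  refine IsClosed.inter (isClosed_le continuous_const continuous_fst) (IsClosed.inter
    (isClosed_le continuous_const (continuous_fst.comp continuous_snd)) (IsClosed.inter
    (isClosed_le continuous_const (continuous_snd.comp continuous_snd))
    (isClosed_le ((continuous_fst.add (continuous_fst.comp continuous_snd)).add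
      (continuous_snd.comp continuous_snd)) continuous_const)))

theorem vol_Tri (r : ℝ) (hr : 0 ≤ r) : volume (Tri r) = ENNReal.ofReal (r ^ 2 / 2) := by
  rw [Measure.volume_eq_prod, Measure.prod_apply (meas_Tri r)]
  have h1 : ∀ x : ℝ, volume (Prod.mk x ⁻¹' Tri r) =
      (Icc 0 r).indicator (fun x => ENNReal.ofReal (r - x)) x := by
    intro x
    by_cases hx : x ∈ Icc 0 r
    · rw [indicator_of_mem hx]
      have : Prod.mk x ⁻¹' Tri r = Icc 0 (r - x) := by
        ext y
        simp only [Tri, mem_preimage, mem_ofPred_eq, mem_Icc]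
        constructor
        · rintro ⟨_, h2, h3⟩
          exact ⟨h2, by linarith⟩
        · rintro ⟨h2, h3⟩
          exact ⟨hx.1, h2, by linarith⟩
      rw [this, Real.volume_Icc, sub_zero]
    · rw [indicator_of_notMem hx]
      have : Prod.mk x ⁻¹' Tri r = ∅ := by
        ext y
        simp only [Tri, mem_preimage, mem_ofPred_eq, mem_empty_iff_false, iff_false]
        rintro ⟨h1, h2, h3⟩
        exact hx ⟨h1, by linarith⟩
      rw [this, measure_empty]
  simp_rw [h1]
  rw [lintegral_indicator measurableSet_Icc]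
  rw [← ofReal_integral_eq_lintegral_ofReal]
  · congr 1
    rw [integral_Icc_eq_integral_Ioc, ← intervalIntegral.integral_of_le hr]
    have h2 : ∀ x ∈ uIcc 0 r, HasDerivAt (fun x : ℝ => r * x - x ^ 2 / 2) (r - x) x := by
      intro x _
      have h3 := ((hasDerivAt_id x).const_mul r).sub ((hasDerivAt_pow 2 x).div_const 2)
      refine h3.congr_deriv ?_
      norm_num
    rw [intervalIntegral.integral_eq_sub_of_hasDerivAt h2
      ((continuous_const.sub continuous_id).intervalIntegrable _ _)]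
    ring
  · exact (continuous_const.sub continuous_id).continuousOn.integrableOn_Icc
  · filter_upwards [ae_restrict_mem measurableSet_Icc] with x hx
    exact sub_nonneg.2 hx.2

theorem vol_Del : volume Del = ENNReal.ofReal (1 / 6) := by
  rw [Measure.volume_eq_prod, Measure.prod_apply meas_Del]
  have h1 : ∀ x : ℝ, volume (Prod.mk x ⁻¹' Del) =
      (Icc 0 1).indicator (fun x => ENNReal.ofReal ((1 - x) ^ 2 / 2)) x := by
    intro x
    by_cases hx : x ∈ Icc (0:ℝ) 1
    · rw [indicator_of_mem hx]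
      have : Prod.mk x ⁻¹' Del = Tri (1 - x) := by
        ext y
        simp only [Tri, Del, mem_preimage, mem_ofPred_eq]
        constructor
        · rintro ⟨_, h2, h3, h4⟩
          exact ⟨h2, h3, by linarith⟩
        · rintro ⟨h2, h3, h4⟩
          exact ⟨hx.1, h2, h3, by linarith⟩
      rw [this, vol_Tri _ (by linarith [hx.2])]
    · rw [indicator_of_notMem hx]
      have : Prod.mk x ⁻¹' Del = ∅ := by
        ext y
        simp only [Del, mem_preimage, mem_ofPred_eq, mem_empty_iff_false, iff_false]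
        rintro ⟨h1, h2, h3, h4⟩
        exact hx ⟨h1, by linarith⟩
      rw [this, measure_empty]
  simp_rw [h1]
  rw [lintegral_indicator measurableSet_Icc]
  rw [← ofReal_integral_eq_lintegral_ofReal]
  · congr 1
    rw [integral_Icc_eq_integral_Ioc, ← intervalIntegral.integral_of_le zero_le_one]
    have h2 : ∀ x ∈ uIcc (0:ℝ) 1, HasDerivAt (fun x : ℝ => -((1 - x) ^ 3 / 6)) ((1 - x) ^ 2 / 2) x := by
      intro x _
      have h3 := ((((hasDerivAt_id x).const_sub 1).pow 3).div_const 6).neg
      refine h3.congr_deriv ?_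
      simp only [id]
      norm_num
      ring
    rw [intervalIntegral.integral_eq_sub_of_hasDerivAt h2
      (Continuous.intervalIntegrable (by fun_prop) _ _)]
    norm_num
  · exact Continuous.integrableOn_Icc (by fun_prop)
  · filter_upwards with x
    positivity


theorem vol_Dl : volume Dl = ENNReal.ofReal (1 / 6) := vol_Del

end L5

open L5 in
theorem t_loss (h1 : S_cover) (h2 : S_layer) (h3 : S_edge) : S_loss := by
  intro K hKc hKv hKD hcen ε σ θ hε hε1 hσ hσ1 hθ hver H hH
  have hσ0 : 0 < σ := by linarith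
  have hθ0 : 0 ≤ θ := by
    by_contra hcon
    push Not at hcon
    nlinarith
  have ht : 0 < 1 - 3 * σ := by linarith
  set Ed : Set E := {x ∈ Dl | ∃ i k, i ≠ k ∧ lam x i ≤ θ ∧ lam x k ≤ θ} with hEd
  set A : Fin 4 → Set E := fun j => {x ∈ Dl | (1 - 3 * σ) * lam x j ≤
    ∑ k : Fin 3, (fun k => H (j.succAbove k) j) k *
      (lam x (j.succAbove k) - min3 (fun l => lam x (j.succAbove l)))} with hA
  have hsub : Dl ⊆ K ∪ (Ed ∪ ⋃ j, A j) := by
    intro x hx
    by_cases hxK : x ∈ K
    · exact Or.inl hxK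
    · rcases h1 hKc hKv hKD hcen hε hε1 hσ hσ1 hθ hver hH x hx hxK with h | ⟨j, hj⟩
      · exact Or.inr (Or.inl ⟨hx, h⟩)
      · exact Or.inr (Or.inr (mem_iUnion.mpr ⟨j, hx, hj⟩))
  have hDfin : volume Dl ≠ ⊤ := by
    rw [vol_Dl]
    exact ENNReal.ofReal_ne_top
  have hKfin : volume K ≠ ⊤ := ne_top_of_le_ne_top hDfin (measure_mono hKD)
  have hEfin : volume Ed ≠ ⊤ := ne_top_of_le_ne_top hDfin (measure_mono (fun x hx => hx.1))
  have hAfin : ∀ j, volume (A j) ≠ ⊤ := fun j =>
    ne_top_of_le_ne_top hDfin (measure_mono (fun x hx => hx.1))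
  have hle : volume Dl ≤ volume K + (volume Ed + ∑ j, volume (A j)) := by
    refine (measure_mono hsub).trans ((measure_union_le _ _).trans ?_)
    gcongr
    refine (measure_union_le _ _).trans ?_
    gcongr
    exact measure_iUnion_fintype_le _ _
  have hle2 : 1 / 6 ≤ vl K + (vl Ed + ∑ j, vl (A j)) := by
    have hs : ∑ j, volume (A j) ≠ ⊤ := ENNReal.sum_ne_top.mpr fun j _ => hAfin j
    have h4 := ENNReal.toReal_mono (ENNReal.add_ne_top.mpr ⟨hKfin,
      ENNReal.add_ne_top.mpr ⟨hEfin, hs⟩⟩) hle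
    rw [ENNReal.toReal_add hKfin (ENNReal.add_ne_top.mpr ⟨hEfin, hs⟩),
      ENNReal.toReal_add hEfin hs, ENNReal.toReal_sum fun j _ => hAfin j, vol_Dl,
      ENNReal.toReal_ofReal (by norm_num)] at h4
    exact h4
  have hE := h3 hθ0
  have hlay : ∀ j, 6 * vl (A j) ≤ 2 / 3 * (∑ k, H (j.succAbove k) j) / (1 - 3 * σ) := by
    intro j
    exact h2 j (H := fun k => H (j.succAbove k) j)
      (fun k => hH.nn _ _ (Fin.succAbove_ne j k)) ht
  have hsum : ∑ j, 6 * vl (A j) ≤ ∑ j, 2 / 3 * (∑ k, H (j.succAbove k) j) / (1 - 3 * σ) :=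
    Finset.sum_le_sum fun j _ => hlay j
  have hSH : ∑ j, 2 / 3 * (∑ k, H (j.succAbove k) j) / (1 - 3 * σ) =
      2 / 3 * SH H / (1 - 3 * σ) := by
    unfold SH
    rw [← Finset.sum_div, ← Finset.mul_sum]
  rw [hSH, ← Finset.mul_sum] at hsum
  have hE' : 6 * vl Ed ≤ 36 * θ ^ 2 := hE
  linarith

end H293M
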