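import Pool.Agent.H293R2.M3.Spec2

/-! N1: cone representations of volumes -/

set_option autoImplicit false

open MeasureTheory Set

namespace H293M

namespace N1

lemma gamma4 : ∫⁻ r in Ioi (0 : ℝ), ENNReal.ofReal (Real.exp (-r)) * ENNReal.ofReal (r ^ 3) = 6 := by
  have h1 : ∫⁻ r in Ioi (0 : ℝ), ENNReal.ofReal (Real.exp (-r)) * ENNReal.ofReal (r ^ 3) =
      ∫⁻ r in Ioi (0 : ℝ), ENNReal.ofReal (Real.exp (-r) * r ^ ((4 : ℝ) - 1)) := by
    apply setLIntegral_congr_fun measurableSet_Ioi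
    intro r hr
    simp only
    rw [← ENNReal.ofReal_mul (Real.exp_pos _).le]
    congr 2
    rw [show (4 : ℝ) - 1 = ((3 : ℕ) : ℝ) by norm_num, Real.rpow_natCast]
  rw [h1, ← ofReal_integral_eq_lintegral_ofReal (Real.GammaIntegral_convergent (by norm_num)),
    ← Real.Gamma_eq_integral (by norm_num)]
  · have h2 := Real.Gamma_nat_eq_factorial 3
    rw [show (4 : ℝ) = ((3 : ℕ) : ℝ) + 1 by norm_num, h2]
    norm_num [Nat.factorial]
  · filter_upwards [ae_restrict_mem measurableSet_Ioi] with r hr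
    have hr' : (0 : ℝ) < r := hr
    positivity

lemma measS {L : Set E} (hL : MeasurableSet L) :
    MeasurableSet {p : ℝ × E | 0 < p.1 ∧ p.1⁻¹ • p.2 ∈ L} := by
  have h1 : MeasurableSet {p : ℝ × E | 0 < p.1} := measurableSet_lt measurable_const measurable_fst
  have h2 : Measurable fun p : ℝ × E => p.1⁻¹ • p.2 := (measurable_fst.inv).smul measurable_snd
  exact h1.inter (h2 hL)

lemma haarE : (volume : Measure E).IsAddHaarMeasure := by
  rw [Measure.volume_eq_prod]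
  infer_instance

/-- cone representation -/
lemma gen {L : Set E} (hL : MeasurableSet L) :
    ∫⁻ p in {p : ℝ × E | 0 < p.1 ∧ p.1⁻¹ • p.2 ∈ L}, ENNReal.ofReal (Real.exp (-p.1)) =
      6 * volume L := by
  have hH := haarE
  have hS := measS hL
  have hm : Measurable fun p : ℝ × E => ENNReal.ofReal (Real.exp (-p.1)) := by fun_prop
  rw [← lintegral_indicator hS, Measure.volume_eq_prod,
    lintegral_prod _ (hm.indicator hS).aemeasurable]
  have h1 : ∀ r : ℝ, ∫⁻ ξ : E, ({p : ℝ × E | 0 < p.1 ∧ p.1⁻¹ • p.2 ∈ L}.indicator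
      (fun p : ℝ × E => ENNReal.ofReal (Real.exp (-p.1)))) (r, ξ) =
      (Ioi (0 : ℝ)).indicator (fun r => ENNReal.ofReal (Real.exp (-r)) * ENNReal.ofReal (r ^ 3) *
        volume L) r := by
    intro r
    by_cases hr : 0 < r
    · rw [indicator_of_mem (show r ∈ Ioi (0 : ℝ) from hr)]
      have h2 : ∀ ξ : E, ({p : ℝ × E | 0 < p.1 ∧ p.1⁻¹ • p.2 ∈ L}.indicator
          (fun p : ℝ × E => ENNReal.ofReal (Real.exp (-p.1)))) (r, ξ) =
          ((fun ξ : E => r⁻¹ • ξ) ⁻¹' L).indicator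
            (fun _ => ENNReal.ofReal (Real.exp (-r))) ξ := by
        intro ξ
        by_cases h : r⁻¹ • ξ ∈ L
        · rw [indicator_of_mem (show (r, ξ) ∈ {p : ℝ × E | 0 < p.1 ∧ p.1⁻¹ • p.2 ∈ L} from ⟨hr, h⟩),
            indicator_of_mem (show ξ ∈ (fun ξ : E => r⁻¹ • ξ) ⁻¹' L from h)]
        · rw [indicator_of_notMem
              (show (r, ξ) ∉ {p : ℝ × E | 0 < p.1 ∧ p.1⁻¹ • p.2 ∈ L} from fun h' => h h'.2),
            indicator_of_notMem (show ξ ∉ (fun ξ : E => r⁻¹ • ξ) ⁻¹' L from h)]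
      rw [lintegral_congr h2]
      have hm2 : MeasurableSet ((fun ξ : E => r⁻¹ • ξ) ⁻¹' L) :=
        (measurable_const_smul r⁻¹) hL
      rw [lintegral_indicator_const hm2, Measure.addHaar_preimage_smul _ (inv_ne_zero hr.ne')]
      have hf : Module.finrank ℝ E = 3 := by
        simp [Module.finrank_prod]
      rw [hf, mul_assoc]
      congr 2
      rw [inv_pow, inv_inv, abs_of_pos (pow_pos hr 3)]
    · rw [indicator_of_notMem (show r ∉ Ioi (0 : ℝ) from hr)]
      have h2 : ∀ ξ : E, ({p : ℝ × E | 0 < p.1 ∧ p.1⁻¹ • p.2 ∈ L}.indicator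
          (fun p : ℝ × E => ENNReal.ofReal (Real.exp (-p.1)))) (r, ξ) = 0 := by
        intro ξ
        exact indicator_of_notMem
          (show (r, ξ) ∉ {p : ℝ × E | 0 < p.1 ∧ p.1⁻¹ • p.2 ∈ L} from fun h' => hr h'.1) _
      rw [lintegral_congr h2, lintegral_zero]
  rw [lintegral_congr h1, lintegral_indicator measurableSet_Ioi, lintegral_mul_const _ (by fun_prop),
    gamma4]

/-- the coordinates -/
lemma base : MeasurePreserving
    (fun s : Fin 4 → ℝ => ((s 0, (s 1, s 2, s 3)) : ℝ × E)) volume volume := by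
  have h4 := volume_preserving_piFinSuccAbove (fun _ : Fin 4 => ℝ) 0
  have h3 := volume_preserving_piFinSuccAbove (fun _ : Fin 3 => ℝ) 0
  have h2 := volume_preserving_finTwoArrow ℝ
  have hid := MeasurePreserving.id (volume : Measure ℝ)
  exact (hid.prod ((hid.prod h2).comp h3)).comp h4

/-- transport along a measure preserving map -/
lemma trans {L : Set E} (hL : MeasurableSet L) {T : (Fin 4 → ℝ) → ℝ × E}
    (hT : MeasurePreserving T volume volume) :
    ∫⁻ s in {s | 0 < (T s).1 ∧ (T s).1⁻¹ • (T s).2 ∈ L}, ENNReal.ofReal (Real.exp (-(T s).1)) =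
      6 * volume L := by
  rw [← gen hL]
  exact hT.setLIntegral_comp_preimage (measS hL)
    (f := fun p : ℝ × E => ENNReal.ofReal (Real.exp (-p.1))) (by fun_prop)

/-- linear maps of determinant `±1` -/
lemma mat {M : Matrix (Fin 4) (Fin 4) ℝ} (h : |M.det| = 1) :
    MeasurePreserving (Matrix.toLin' M) volume volume := by
  have h0 : M.det ≠ 0 := by
    intro h0
    rw [h0] at h
    simp at h
  refine ⟨(Matrix.toLin' M).continuous_of_finiteDimensional.measurable, ?_⟩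
  rw [Real.map_matrix_volume_pi_eq_smul_volume_pi h0, abs_inv, h]
  simp

def M1 : Matrix (Fin 4) (Fin 4) ℝ := !![1, 1, 1, 1; 0, 1, 0, 0; 0, 0, 1, 0; 0, 0, 0, 1]

def M2 (μ : Fin 4 → ℝ) : Matrix (Fin 4) (Fin 4) ℝ :=
  !![μ 0, μ 1, μ 2, μ 3; 1, -1, 0, 0; 1, 0, -1, 0; 1, 0, 0, -1]

lemma det1 : M1.det = 1 := by
  simp [M1, Matrix.det_succ_row_zero, Fin.sum_univ_succ, Fin.succAbove]

lemma det2 (μ : Fin 4 → ℝ) : (M2 μ).det = -∑ i, μ i := by
  simp [M2, Matrix.det_succ_row_zero, Fin.sum_univ_succ, Fin.succAbove]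
  ring

end N1

theorem t_cone1 : S_cone1 := by
  intro L hL
  have hM : |N1.M1.det| = 1 := by rw [N1.det1, abs_one]
  have h := N1.trans hL (N1.base.comp (N1.mat hM))
  have hT : ∀ s : Fin 4 → ℝ, ((fun s : Fin 4 → ℝ => ((s 0, (s 1, s 2, s 3)) : ℝ × E)) ∘
      (Matrix.toLin' N1.M1)) s = (∑ i, s i, (s 1, s 2, s 3)) := by
    intro s
    simp [N1.M1, Matrix.toLin'_apply, Matrix.mulVec, dotProduct, Fin.sum_univ_succ]
  simp only [hT] at h
  rw [← h]
  congr 1
  congr 1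
  ext s
  simp only [mem_ofPred_eq, pt, Prod.smul_mk, smul_eq_mul, div_eq_inv_mul]

theorem t_cone2 : S_cone2 := by
  intro μ _ hs L hL
  have hM : |(N1.M2 μ).det| = 1 := by rw [N1.det2, hs, abs_neg, abs_one]
  have h := N1.trans hL (N1.base.comp (N1.mat hM))
  have hT : ∀ s : Fin 4 → ℝ, ((fun s : Fin 4 → ℝ => ((s 0, (s 1, s 2, s 3)) : ℝ × E)) ∘
      (Matrix.toLin' (N1.M2 μ))) s = (∑ i, μ i * s i, (s 0 - s 1, s 0 - s 2, s 0 - s 3)) := by
    intro s
    simp [N1.M2, Matrix.toLin'_apply, Matrix.mulVec, dotProduct, Fin.sum_univ_succ, sub_eq_add_neg]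
  simp only [hT] at h
  rw [← h]
  congr 1
  congr 1
  ext s
  simp only [mem_ofPred_eq, dpt, Prod.smul_mk, smul_eq_mul, div_eq_inv_mul]

end H293M
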