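import Pool.Agent.H293R2.M3.Spec2

/-!
# M3, task N2 (helper51): expectation of a minimum of exponential variables
-/

set_option autoImplicit false

open MeasureTheory Set

namespace H293M

namespace N2

/-- Tonelli for products of nonnegative functions on `ℝ³` -/
theorem prodl (f : Fin 3 → ℝ → ℝ) (hf : ∀ k, Integrable (f k)) (h0 : ∀ k x, 0 ≤ f k x) :
    ∫⁻ a : Fin 3 → ℝ, ENNReal.ofReal (∏ k, f k (a k)) = ENNReal.ofReal (∏ k, ∫ x, f k x) := by
  have hi : Integrable (fun a : Fin 3 → ℝ => ∏ k, f k (a k)) := by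
    rw [volume_pi]
    exact Integrable.fintype_prod hf
  rw [← ofReal_integral_eq_lintegral_ofReal hi
    (ae_of_all _ fun a => Finset.prod_nonneg fun k _ => h0 k _),
    integral_fintype_prod_volume_eq_prod]

theorem exp_int (c : ℝ) (hc : 0 < c) (t : ℝ) :
    IntegrableOn (fun x => c * Real.exp (-(c * x))) (Ioi t) ∧
      ∫ x in Ioi t, c * Real.exp (-(c * x)) = Real.exp (-(c * t)) := by
  have h1 := integrableOn_exp_mul_Ioi (a := -c) (by linarith) t
  have h2 := integral_exp_mul_Ioi (a := -c) (by linarith) t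
  simp only [neg_mul] at h1 h2
  refine ⟨h1.const_mul c, ?_⟩
  rw [integral_const_mul, h2]
  field_simp

theorem exp_lint (c : ℝ) (hc : 0 < c) :
    ∫⁻ t in Ioi (0 : ℝ), ENNReal.ofReal (Real.exp (-(c * t))) = ENNReal.ofReal (1 / c) := by
  have h1 := integrableOn_exp_mul_Ioi (a := -c) (by linarith) 0
  have h2 := integral_exp_mul_Ioi (a := -c) (by linarith) 0
  simp only [neg_mul] at h1 h2
  rw [← ofReal_integral_eq_lintegral_ofReal h1 (ae_of_all _ fun t => (Real.exp_pos _).le), h2]
  congr 1
  simp [neg_div_neg_eq]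

/-- the main computation -/
theorem gen {μ : Fin 3 → ℝ} (hμ : ∀ k, 0 < μ k) (φ : (Fin 3 → ℝ) → ℝ) (hm : Measurable φ)
    (g : Fin 3 → ℝ) (hg : ∀ k, 0 ≤ g k)
    (hφ : ∀ a : Fin 3 → ℝ, (∀ k, 0 < a k) → ∀ t, 0 < t → (t < φ a ↔ ∀ k, g k * t < a k))
    (hL : 0 < ∑ k, μ k * g k) :
    ∫⁻ a in {a : Fin 3 → ℝ | ∀ k, 0 < a k},
      ENNReal.ofReal ((∏ k, μ k * Real.exp (-(μ k * a k))) * φ a) =
        ENNReal.ofReal (1 / ∑ k, μ k * g k) := by
  have hS : MeasurableSet {a : Fin 3 → ℝ | ∀ k, 0 < a k} := by
    rw [ofPred_forall]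
    exact MeasurableSet.iInter fun k => measurableSet_lt measurable_const (measurable_pi_apply k)
  have hPm : Measurable (fun a : Fin 3 → ℝ => ∏ k, μ k * Real.exp (-(μ k * a k))) := by
    fun_prop
  have hP0 : ∀ a : Fin 3 → ℝ, 0 ≤ ∏ k, μ k * Real.exp (-(μ k * a k)) := fun a =>
    Finset.prod_nonneg fun k _ => mul_nonneg (hμ k).le (Real.exp_pos _).le
  -- layer cake
  have e1 : ∫⁻ a in {a : Fin 3 → ℝ | ∀ k, 0 < a k},
      ENNReal.ofReal ((∏ k, μ k * Real.exp (-(μ k * a k))) * φ a) =
      ∫⁻ a in {a : Fin 3 → ℝ | ∀ k, 0 < a k}, ∫⁻ t in Ioi (0 : ℝ),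
        {q : (Fin 3 → ℝ) × ℝ | q.2 < φ q.1}.indicator
          (fun q => ENNReal.ofReal (∏ k, μ k * Real.exp (-(μ k * q.1 k)))) (a, t) := by
    refine setLIntegral_congr_fun hS ?_
    intro a ha
    have : ∀ t : ℝ, {q : (Fin 3 → ℝ) × ℝ | q.2 < φ q.1}.indicator
          (fun q => ENNReal.ofReal (∏ k, μ k * Real.exp (-(μ k * q.1 k)))) (a, t) =
        (Iio (φ a)).indicator (fun _ => ENNReal.ofReal (∏ k, μ k * Real.exp (-(μ k * a k)))) t := by
      intro t
      rfl
    simp only [this]
    rw [lintegral_indicator measurableSet_Iio, Measure.restrict_restrict measurableSet_Iio,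
      lintegral_const, Measure.restrict_apply_univ, Iio_inter_Ioi, Real.volume_Ioo, sub_zero,
      ENNReal.ofReal_mul (hP0 a)]
  have hmeas : Measurable ({q : (Fin 3 → ℝ) × ℝ | q.2 < φ q.1}.indicator
          (fun q => ENNReal.ofReal (∏ k, μ k * Real.exp (-(μ k * q.1 k))))) := by
    refine Measurable.indicator ?_ ?_
    · exact ENNReal.measurable_ofReal.comp (hPm.comp measurable_fst)
    · exact measurableSet_lt measurable_snd (hm.comp measurable_fst)
  rw [e1, lintegral_lintegral_swap (by
    exact (hmeas.comp (measurable_fst.prodMk measurable_snd)).aemeasurable)]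
  -- the inner integral
  have e2 : ∀ t ∈ Ioi (0 : ℝ), ∫⁻ a in {a : Fin 3 → ℝ | ∀ k, 0 < a k},
        {q : (Fin 3 → ℝ) × ℝ | q.2 < φ q.1}.indicator
          (fun q => ENNReal.ofReal (∏ k, μ k * Real.exp (-(μ k * q.1 k)))) (a, t) =
        ENNReal.ofReal (Real.exp (-((∑ k, μ k * g k) * t))) := by
    intro t ht
    have ht : 0 < t := ht
    rw [← lintegral_indicator hS]
    have e3 : ∀ a : Fin 3 → ℝ, {a : Fin 3 → ℝ | ∀ k, 0 < a k}.indicator (fun a =>
        {q : (Fin 3 → ℝ) × ℝ | q.2 < φ q.1}.indicator
          (fun q => ENNReal.ofReal (∏ k, μ k * Real.exp (-(μ k * q.1 k)))) (a, t)) a =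
        ENNReal.ofReal (∏ k, (Ioi (g k * t)).indicator
          (fun x => μ k * Real.exp (-(μ k * x))) (a k)) := by
      intro a
      by_cases ha : ∀ k, 0 < a k
      · rw [indicator_of_mem (show a ∈ {a : Fin 3 → ℝ | ∀ k, 0 < a k} from ha)]
        by_cases hta : t < φ a
        · rw [indicator_of_mem (show (a, t) ∈ {q : (Fin 3 → ℝ) × ℝ | q.2 < φ q.1} from hta)]
          congr 1
          refine Finset.prod_congr rfl fun k _ => ?_
          rw [indicator_of_mem]
          exact (hφ a ha t ht).1 hta k
        · rw [indicator_of_notMem (show (a, t) ∉ {q : (Fin 3 → ℝ) × ℝ | q.2 < φ q.1} from hta)]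
          have : ¬ ∀ k, g k * t < a k := fun h => hta ((hφ a ha t ht).2 h)
          push Not at this
          obtain ⟨k, hk⟩ := this
          rw [Finset.prod_eq_zero (Finset.mem_univ k), ENNReal.ofReal_zero]
          rw [indicator_of_notMem]
          simpa using hk
      · rw [indicator_of_notMem (show a ∉ {a : Fin 3 → ℝ | ∀ k, 0 < a k} from ha)]
        push Not at ha
        obtain ⟨k, hk⟩ := ha
        rw [Finset.prod_eq_zero (Finset.mem_univ k), ENNReal.ofReal_zero]
        rw [indicator_of_notMem]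
        simp only [mem_Ioi, not_lt]
        exact hk.trans (mul_nonneg (hg k) ht.le)
    simp only [e3]
    rw [prodl]
    · congr 1
      rw [Finset.sum_mul, ← Finset.sum_neg_distrib, Real.exp_sum]
      refine Finset.prod_congr rfl fun k _ => ?_
      rw [integral_indicator measurableSet_Ioi, (exp_int (μ k) (hμ k) _).2, mul_assoc]
    · intro k
      exact (exp_int (μ k) (hμ k) _).1.integrable_indicator measurableSet_Ioi
    · intro k x
      refine indicator_nonneg ?_ _
      intro y _
      exact mul_nonneg (hμ k).le (Real.exp_pos _).le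
  rw [setLIntegral_congr_fun measurableSet_Ioi e2, exp_lint _ hL]

end N2

open N2 in
theorem t_emin : S_emin where
  mn := by
    intro μ w hμ hw
    have h := gen hμ (fun a => min3 (fun k => w k * a k))
      (by unfold min3; fun_prop) (fun k => 1 / w k) (fun k => by have := hw k; positivity)
      (by
        intro a ha t ht
        unfold min3
        simp only [lt_min_iff, Fin.forall_fin_succ, Fin.isValue, Fin.succ_zero_eq_one,
          Fin.succ_one_eq_two, IsEmpty.forall_iff, and_true]
        have key : ∀ k, t < w k * a k ↔ 1 / w k * t < a k := by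
          intro k
          rw [one_div, inv_mul_lt_iff₀ (hw k)]
        rw [key, key, key])
      (by
        refine Finset.sum_pos (fun k _ => ?_) Finset.univ_nonempty
        have := hw k
        have := hμ k
        positivity)
    simpa only [mul_one_div] using h
  one := by
    intro μ hμ j
    have h := gen hμ (fun a => a j) (measurable_pi_apply j) (fun k => if k = j then 1 else 0)
      (fun k => by split_ifs <;> norm_num)
      (by
        intro a ha t ht
        constructor
        · intro h k
          by_cases hk : k = j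
          · subst hk; simpa using h
          · simpa [hk] using ha k
        · intro h
          simpa using h j)
      (by simpa using hμ j)
    simpa using h

end H293M
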