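import Pool.Agent.H293R2.M3.Spec2
import Pool.Agent.H293R2.M3.B1

set_option autoImplicit false

open MeasureTheory Set

namespace H293M

namespace P1

/-- point of the tetrahedron with given coordinates -/
noncomputable def FF (p : E × E × E × E) (v : E) : E :=
  p.1 + (v.1 • (p.2.1 - p.1) + v.2.1 • (p.2.2.1 - p.1) + v.2.2 • (p.2.2.2 - p.1))

theorem mem_tet_iff (a b c e x : E) :
    x ∈ tet a b c e ↔ ∃ v ∈ B1.Del, x = FF (a, b, c, e) v := by
  unfold tet
  rw [B1.image_eq]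
  constructor
  · rintro ⟨_, ⟨v, hv, rfl⟩, rfl⟩
    exact ⟨v, hv, rfl⟩
  · rintro ⟨v, hv, rfl⟩
    exact ⟨_, ⟨v, hv, rfl⟩, rfl⟩

theorem closed_Del : IsClosed B1.Del := by
  unfold B1.Del
  refine IsClosed.inter (isClosed_le continuous_const continuous_fst) (IsClosed.inter
    (isClosed_le continuous_const (continuous_fst.comp continuous_snd)) (IsClosed.inter
    (isClosed_le continuous_const (continuous_snd.comp continuous_snd))
    (isClosed_le ((continuous_fst.add (continuous_fst.comp continuous_snd)).add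
      (continuous_snd.comp continuous_snd)) continuous_const)))

theorem compact_Del : IsCompact B1.Del := by
  refine (isCompact_closedBall (0 : E) 1).of_isClosed_subset closed_Del ?_
  rintro v ⟨h1, h2, h3, h4⟩
  rw [mem_closedBall_zero_iff, norm_prod_le_iff, norm_prod_le_iff, Real.norm_eq_abs,
    Real.norm_eq_abs, Real.norm_eq_abs, abs_of_nonneg h1, abs_of_nonneg h2, abs_of_nonneg h3]
  exact ⟨by linarith, by linarith, by linarith⟩

theorem closed_tet (x : E) :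
    IsClosed {p : E × E × E × E | x ∈ tet p.1 p.2.1 p.2.2.1 p.2.2.2} := by
  have : CompactSpace B1.Del := isCompact_iff_compactSpace.mp compact_Del
  have h1 : IsClosed {q : (E × E × E × E) × B1.Del | x = FF q.1 q.2} := by
    refine isClosed_eq continuous_const ?_
    unfold FF
    fun_prop
  have h2 := isClosedMap_fst_of_compactSpace (X := E × E × E × E) (Y := B1.Del) _ h1
  convert h2 using 1
  ext p
  constructor
  · intro hp
    obtain ⟨v, hv, h⟩ := (mem_tet_iff _ _ _ _ _).mp hp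
    exact ⟨(p, ⟨v, hv⟩), h, rfl⟩
  · rintro ⟨⟨p', v⟩, h, rfl⟩
    exact (mem_tet_iff _ _ _ _ _).mpr ⟨v, v.2, h⟩

theorem cont_vol :
    Continuous fun p : E × E × E × E => vl (tet p.1 p.2.1 p.2.2.1 p.2.2.2) := by
  have h : ∀ p : E × E × E × E, vl (tet p.1 p.2.1 p.2.2.1 p.2.2.2) =
      |d3 (p.2.1 - p.1) (p.2.2.1 - p.1) (p.2.2.2 - p.1)| / 6 := fun p => t_simp _ _ _ _
  simp only [h]
  unfold d3
  fun_prop

/-- monotonicity of volumes -/
theorem vl_mono {A : Set E} {a b c e : E} (h : A ⊆ tet a b c e) : vl A ≤ vl (tet a b c e) := by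
  unfold vl
  refine ENNReal.toReal_mono ?_ (measure_mono h)
  have hc : IsCompact (tet a b c e) := by
    unfold tet
    exact (Set.toFinite _).isCompact_convexHull ℝ
  have h1 : (volume : Measure (ℝ × ℝ)).IsAddHaarMeasure := by
    rw [Measure.volume_eq_prod]; infer_instance
  have h2 : (volume : Measure E).IsAddHaarMeasure := by
    rw [Measure.volume_eq_prod]; infer_instance
  exact hc.measure_lt_top.ne

theorem small {a b c e v q1 q2 q3 : E} (hv : v ∈ tet a b c e) (h1 : q1 ∈ tet a b c e)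
    (h2 : q2 ∈ tet a b c e) (h3 : q3 ∈ tet a b c e) :
    |d3 (q1 - v) (q2 - v) (q3 - v)| / 6 ≤ vl (tet a b c e) := by
  rw [← t_simp]
  apply vl_mono
  have hc : Convex ℝ (tet a b c e) := by
    unfold tet
    exact convex_convexHull ℝ _
  apply convexHull_min _ hc
  intro x hx
  simp only [mem_insert_iff, mem_singleton_iff] at hx
  rcases hx with rfl | rfl | rfl | rfl
  · exact hv
  · exact h1
  · exact h2
  · exact h3

/-- all points of a small tetrahedron around `K` are near to an interior point of `K` -/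
theorem bound {K : Set E} {x0 : E} {ρ : ℝ} (hρ : 0 < ρ) (h0 : x0 ∈ K)
    (h1 : x0 + (ρ, 0, 0) ∈ K) (h2 : x0 + (0, ρ, 0) ∈ K) (h3 : x0 + (0, 0, ρ) ∈ K)
    {a b c e : E} (hK : K ⊆ tet a b c e) {V : ℝ} (hV : vl (tet a b c e) ≤ V) {v : E}
    (hv : v ∈ tet a b c e) : ‖v - x0‖ ≤ 6 * V / ρ ^ 2 := by
  have hρ2 : 0 < ρ ^ 2 := by positivity
  rw [norm_prod_le_iff, norm_prod_le_iff, Real.norm_eq_abs, Real.norm_eq_abs, Real.norm_eq_abs]
  refine ⟨?_, ?_, ?_⟩
  · have h := (small hv (hK h0) (hK h2) (hK h3)).trans hV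
    have e1 : d3 (x0 - v) (x0 + (0, ρ, 0) - v) (x0 + (0, 0, ρ) - v) = -((v - x0).1 * ρ ^ 2) := by
      simp only [d3, Prod.fst_sub, Prod.snd_sub, Prod.fst_add, Prod.snd_add]
      ring
    rw [e1, abs_neg, abs_mul, abs_of_pos hρ2] at h
    rw [le_div_iff₀ hρ2]
    linarith
  · have h := (small hv (hK h0) (hK h1) (hK h3)).trans hV
    have e1 : d3 (x0 - v) (x0 + (ρ, 0, 0) - v) (x0 + (0, 0, ρ) - v) = (v - x0).2.1 * ρ ^ 2 := by
      simp only [d3, Prod.fst_sub, Prod.snd_sub, Prod.fst_add, Prod.snd_add]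
      ring
    rw [e1, abs_mul, abs_of_pos hρ2] at h
    rw [le_div_iff₀ hρ2]
    linarith
  · have h := (small hv (hK h0) (hK h1) (hK h2)).trans hV
    have e1 : d3 (x0 - v) (x0 + (ρ, 0, 0) - v) (x0 + (0, ρ, 0) - v) = -((v - x0).2.2 * ρ ^ 2) := by
      simp only [d3, Prod.fst_sub, Prod.snd_sub, Prod.fst_add, Prod.snd_add]
      ring
    rw [e1, abs_neg, abs_mul, abs_of_pos hρ2] at h
    rw [le_div_iff₀ hρ2]
    linarith

theorem exists_tet {K : Set E} (hK : IsCompact K) : ∃ a b c e : E, K ⊆ tet a b c e := by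
  obtain ⟨R0, hR0⟩ := hK.isBounded.subset_closedBall (0 : E)
  obtain ⟨R, hR⟩ : ∃ R : ℝ, R = max R0 1 := ⟨_, rfl⟩
  have hR1 : 1 ≤ R := by rw [hR]; exact le_max_right _ _
  have hRR : R0 ≤ R := by rw [hR]; exact le_max_left _ _
  refine ⟨(-R, -R, -R), (5 * R, -R, -R), (-R, 5 * R, -R), (-R, -R, 5 * R), ?_⟩
  intro x hx
  have h1 := hR0 hx
  rw [mem_closedBall_zero_iff] at h1
  have h2 := h1.trans hRR
  rw [norm_prod_le_iff, norm_prod_le_iff, Real.norm_eq_abs, Real.norm_eq_abs, Real.norm_eq_abs,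
    abs_le, abs_le, abs_le] at h2
  obtain ⟨⟨a1, a2⟩, ⟨b1, b2⟩, c1, c2⟩ := h2
  rw [mem_tet_iff]
  have h6 : 0 < 6 * R := by linarith
  refine ⟨((x.1 + R) / (6 * R), (x.2.1 + R) / (6 * R), (x.2.2 + R) / (6 * R)),
    ⟨?_, ?_, ?_, ?_⟩, ?_⟩
  · exact div_nonneg (by linarith) h6.le
  · exact div_nonneg (by linarith) h6.le
  · exact div_nonneg (by linarith) h6.le
  · simp only
    rw [← add_div, ← add_div, div_le_one h6]
    linarith
  · have hR0 : R ≠ 0 := by linarith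
    unfold FF
    refine Prod.ext ?_ (Prod.ext ?_ ?_)
    · simp only [Prod.fst_add, Prod.snd_add, Prod.smul_fst, Prod.smul_snd, Prod.fst_sub,
        Prod.snd_sub, smul_eq_mul]
      field_simp
      ring
    · simp only [Prod.fst_add, Prod.snd_add, Prod.smul_fst, Prod.smul_snd, Prod.fst_sub,
        Prod.snd_sub, smul_eq_mul]
      field_simp
      ring
    · simp only [Prod.fst_add, Prod.snd_add, Prod.smul_fst, Prod.smul_snd, Prod.fst_sub,
        Prod.snd_sub, smul_eq_mul]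
      field_simp
      ring

end P1

open P1 in
theorem t_minsimp : S_minsimp := by
  intro K hK
  obtain ⟨x0, hx0⟩ := hK.int
  obtain ⟨r, hr, hball⟩ := Metric.isOpen_iff.mp isOpen_interior x0 hx0
  obtain ⟨ρ, hρd⟩ : ∃ ρ : ℝ, ρ = r / 2 := ⟨_, rfl⟩
  have hρ : 0 < ρ := by rw [hρd]; linarith
  have hin : ∀ u : E, ‖u‖ ≤ ρ → x0 + u ∈ K := by
    intro u hu
    apply interior_subset
    apply hball
    rw [Metric.mem_ball, dist_eq_norm, add_sub_cancel_left]
    linarith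
  have h0 : x0 ∈ K := interior_subset hx0
  have h1 : x0 + (ρ, 0, 0) ∈ K := by
    apply hin
    rw [norm_prod_le_iff, norm_prod_le_iff]
    simp only [norm_zero, Real.norm_eq_abs, abs_of_pos hρ]
    exact ⟨le_rfl, hρ.le, hρ.le⟩
  have h2 : x0 + (0, ρ, 0) ∈ K := by
    apply hin
    rw [norm_prod_le_iff, norm_prod_le_iff]
    simp only [norm_zero, Real.norm_eq_abs, abs_of_pos hρ]
    exact ⟨hρ.le, le_rfl, hρ.le⟩
  have h3 : x0 + (0, 0, ρ) ∈ K := by
    apply hin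
    rw [norm_prod_le_iff, norm_prod_le_iff]
    simp only [norm_zero, Real.norm_eq_abs, abs_of_pos hρ]
    exact ⟨hρ.le, hρ.le, le_rfl⟩
  obtain ⟨a0, b0, c0, e0, hp0⟩ := exists_tet hK.cpt
  obtain ⟨V, hV⟩ : ∃ V, V = vl (tet a0 b0 c0 e0) := ⟨_, rfl⟩
  obtain ⟨C, hC⟩ : ∃ C : ℝ, C = 6 * V / ρ ^ 2 := ⟨_, rfl⟩
  obtain ⟨Z, hZ⟩ : ∃ Z : Set (E × E × E × E), Z = {p | K ⊆ tet p.1 p.2.1 p.2.2.1 p.2.2.2} :=
    ⟨_, rfl⟩
  have hZc : IsClosed Z := by
    have h4 : Z = ⋂ x ∈ K, {p : E × E × E × E | x ∈ tet p.1 p.2.1 p.2.2.1 p.2.2.2} := by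
      rw [hZ]
      ext p
      simp only [mem_iInter, mem_ofPred_eq]
      exact Iff.rfl
    rw [h4]
    exact isClosed_biInter fun x _ => closed_tet x
  obtain ⟨Q, hQ⟩ : ∃ Q : Set (E × E × E × E), Q = Z ∩
    Metric.closedBall ((x0, x0, x0, x0) : E × E × E × E) C := ⟨_, rfl⟩
  have hQc : IsCompact Q := by
    rw [hQ]
    exact (isCompact_closedBall _ _).inter_left hZc
  have hbd : ∀ p : E × E × E × E, p ∈ Z → vl (tet p.1 p.2.1 p.2.2.1 p.2.2.2) ≤ V → p ∈ Q := by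
    intro p hp hpV
    rw [hQ]
    refine ⟨hp, ?_⟩
    rw [hZ] at hp
    have hb : ∀ v ∈ ({p.1, p.2.1, p.2.2.1, p.2.2.2} : Set E), ‖v - x0‖ ≤ C := by
      intro v hv
      rw [hC]
      exact bound hρ h0 h1 h2 h3 hp hpV (subset_convexHull ℝ _ hv)
    rw [Metric.mem_closedBall, dist_eq_norm]
    exact norm_prod_le_iff.mpr ⟨hb p.1 (by simp), norm_prod_le_iff.mpr ⟨hb p.2.1 (by simp),
      norm_prod_le_iff.mpr ⟨hb p.2.2.1 (by simp), hb p.2.2.2 (by simp)⟩⟩⟩
  have hne : Q.Nonempty := ⟨(a0, b0, c0, e0), hbd _ (by rw [hZ]; exact hp0) (by rw [hV])⟩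
  obtain ⟨p, hp, hmin⟩ := hQc.exists_isMinOn hne cont_vol.continuousOn
  refine ⟨p.1, p.2.1, p.2.2.1, p.2.2.2, ?_, ?_⟩
  · rw [hQ, hZ] at hp
    exact hp.1
  · intro a' b' c' e' h'
    by_cases hle : vl (tet a' b' c' e') ≤ V
    · exact hmin (a := ((a', b', c', e') : E × E × E × E)) (hbd (a', b', c', e') (by rw [hZ]; exact h') hle)
    · have h5 : vl (tet p.1 p.2.1 p.2.2.1 p.2.2.2) ≤ V := by
        rw [hV]
        exact hmin (a := ((a0, b0, c0, e0) : E × E × E × E))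
          (hbd (a0, b0, c0, e0) (by rw [hZ]; exact hp0) (by rw [hV]))
      linarith

end H293M
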