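import Pool.Agent.H293R2.M3.Spec2

/-! Task P10: bodies with minimal volume product are tetrahedra (helper287). -/

set_option autoImplicit false

open MeasureTheory Set
open scoped Pointwise

namespace H293M

namespace P10

theorem dt_smul_smul (c : ℝ) (hc : c ≠ 0) (u s : E) : dt (c • u) (c⁻¹ • s) = dt u s := by
  simp only [dt, Prod.smul_fst, Prod.smul_snd, smul_eq_mul]
  field_simp

theorem polz_anti {K L : Set E} (h : K ⊆ L) (z : E) : polz L z ⊆ polz K z :=
  fun _ hy x hx => hy x (h hx)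

theorem finrank_E : Module.finrank ℝ E = 3 := by
  simp [E]

theorem haar2 : (volume : Measure (ℝ × ℝ)).IsAddHaarMeasure :=
  Measure.prod.instIsAddHaarMeasure volume volume

theorem haar3 : (volume : Measure E).IsAddHaarMeasure :=
  haveI := haar2
  Measure.prod.instIsAddHaarMeasure volume volume

theorem vl_smul (c : ℝ) (hc : 0 ≤ c) (K : Set E) : vl (c • K) = c ^ 3 * vl K := by
  haveI := haar3
  unfold vl
  rw [Measure.addHaar_smul, finrank_E, ENNReal.toReal_mul, ENNReal.toReal_ofReal (abs_nonneg _),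
    abs_of_nonneg (by positivity)]

theorem smul_tet (c : ℝ) (a b d e : E) : c • tet a b d e = tet (c • a) (c • b) (c • d) (c • e) := by
  unfold tet
  rw [← convexHull_smul]
  congr 1
  simp only [Set.smul_set_insert, Set.smul_set_singleton]

theorem tet_compact (a b d e : E) : IsCompact (tet a b d e) :=
  (Set.toFinite _).isCompact_convexHull (𝕜 := ℝ)

/-- comparison with a polytope -/
theorem approx_pair (h4 : S_exU) (h5 : S_approx) (h6 : S_pol) {K : Set E} (hK : IsCompact K)
    (hc : Convex ℝ K) (h0 : (0 : E) ∈ interior K) {ε : ℝ} (hε : 0 < ε) :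
    ∃ S U : Finset E, Pr S U ∧ hl S ⊆ K ∧ K ⊆ (1 + ε) • hl S ∧ vl (hl S) ≤ vl K ∧
      vl (hl U) ≤ (1 + ε) ^ 3 * vl (polz K 0) := by
  haveI := haar3
  obtain ⟨S, hS, hS0, hKS⟩ := h5 hK hc h0 hε
  obtain ⟨U, hU⟩ := h4 hS0
  have hpol : polz (hl S) 0 = hl U := h6.polz_hl hU
  have hSK : hl S ⊆ K := convexHull_min hS hc
  have hcU : IsCompact (hl U) := U.finite_toSet.isCompact_convexHull (𝕜 := ℝ)
  have hv1 : vl (hl S) ≤ vl K :=
    ENNReal.toReal_mono hK.measure_lt_top.ne (measure_mono hSK)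
  have hpK : polz K 0 ⊆ hl U := by
    rw [← hpol]; exact polz_anti hSK 0
  have hfin : volume (polz K 0) ≠ ⊤ :=
    ((measure_mono hpK).trans_lt hcU.measure_lt_top).ne
  have hε1 : (0 : ℝ) < 1 + ε := by linarith
  have hsub : (1 + ε)⁻¹ • hl U ⊆ polz K 0 := by
    rw [← hpol]
    rintro _ ⟨y, hy, rfl⟩ x hx
    obtain ⟨s, hs, rfl⟩ := hKS hx
    have h7 := hy s hs
    rw [sub_zero] at h7 ⊢
    have h8 := dt_smul_smul (1 + ε) hε1.ne' s y
    show dt ((1 + ε) • s) ((1 + ε)⁻¹ • y) ≤ 1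
    rw [h8]; exact h7
  have hv2 : ((1 + ε)⁻¹) ^ 3 * vl (hl U) ≤ vl (polz K 0) := by
    rw [← vl_smul _ (by positivity)]
    exact ENNReal.toReal_mono hfin (measure_mono hsub)
  have hv3 : vl (hl U) ≤ (1 + ε) ^ 3 * vl (polz K 0) := by
    have h7 := mul_le_mul_of_nonneg_left hv2 (show (0 : ℝ) ≤ (1 + ε) ^ 3 by positivity)
    rw [← mul_assoc, ← mul_pow, mul_inv_cancel₀ hε1.ne', one_pow, one_mul] at h7
    exact h7
  exact ⟨S, U, hU, hSK, hKS, hv1, hv3⟩

/-- a closed subset of full volume of a convex body is the whole body -/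
theorem eq_of_vl {K D : Set E} (hK : IsCompact K) (hD : IsCompact D) (hDc : Convex ℝ D)
    (hDi : (interior D).Nonempty) (hKD : K ⊆ D) (hv : vl D ≤ vl K) : K = D := by
  haveI := haar3
  refine Set.Subset.antisymm hKD fun x hx => ?_
  by_contra hxK
  have hopen : IsOpen (Kᶜ ∩ interior D) := hK.isClosed.isOpen_compl.inter isOpen_interior
  have hcl : x ∈ closure (interior D) := by
    rw [hDc.closure_interior_eq_closure_of_nonempty_interior hDi]
    exact subset_closure hx
  have hne : (Kᶜ ∩ interior D).Nonempty :=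
    mem_closure_iff.1 hcl Kᶜ hK.isClosed.isOpen_compl hxK
  have hpos : 0 < volume (Kᶜ ∩ interior D) := hopen.measure_pos volume hne
  have hdisj : Disjoint K (Kᶜ ∩ interior D) :=
    Set.disjoint_left.2 fun y hy hy' => hy'.1 hy
  have hun : volume K + volume (Kᶜ ∩ interior D) ≤ volume D := by
    rw [← measure_union hdisj hopen.measurableSet]
    exact measure_mono (union_subset hKD (inter_subset_right.trans interior_subset))
  have hDt : volume D ≠ ⊤ := hD.measure_lt_top.ne
  have hKt : volume K ≠ ⊤ := hK.measure_lt_top.ne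
  have hWt : volume (Kᶜ ∩ interior D) ≠ ⊤ :=
    ((measure_mono (inter_subset_right.trans interior_subset)).trans_lt hD.measure_lt_top).ne
  have h1 := ENNReal.toReal_mono hDt hun
  rw [ENNReal.toReal_add hKt hWt] at h1
  have h2 : 0 < (volume (Kᶜ ∩ interior D)).toReal := ENNReal.toReal_pos hpos.ne' hWt
  unfold vl at hv
  linarith

end P10

open P10 in
theorem t_eq (h1 : S_chain) (h2 : S_LT) (h3 : S_minsimp) (h4 : S_exU) (h5 : S_approx)
    (h6 : S_pol) : S_eq := by
  intro K hK hc h0 hP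
  have hB : Bd K := ⟨hK, hc, ⟨0, h0⟩⟩
  have hK0 : 0 ≤ vl K := ENNReal.toReal_nonneg
  have hp0 : 0 ≤ vl (polz K 0) := ENNReal.toReal_nonneg
  -- `K` is near to a tetrahedron
  have hnear : near K (2 * d1) := by
    obtain ⟨S, U, hSU, hSK, hKS, hv1, hv3⟩ :=
      approx_pair h4 h5 h6 hK hc h0 (show (0 : ℝ) < 1 / 10 ^ 44 by positivity)
    set ε : ℝ := 1 / 10 ^ 44 with hε
    have hS0 : 0 ≤ vl (hl S) := ENNReal.toReal_nonneg
    have hU0 : 0 ≤ vl (hl U) := ENNReal.toReal_nonneg
    have hcc : vl (hl S) * vl (hl U) < cc := by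
      calc vl (hl S) * vl (hl U) ≤ vl K * ((1 + ε) ^ 3 * vl (polz K 0)) :=
            mul_le_mul hv1 hv3 hU0 hK0
        _ = (1 + ε) ^ 3 * (vl K * vl (polz K 0)) := by ring
        _ ≤ (1 + ε) ^ 3 * (64 / 9) := mul_le_mul_of_nonneg_left hP (by positivity)
        _ < cc := by
            unfold cc
            rw [hε]
            norm_num
    obtain ⟨a, b, c, e, hsub, hvt⟩ := h1 hSU hcc
    refine ⟨(1 + ε) • a, (1 + ε) • b, (1 + ε) • c, (1 + ε) • e, ?_, ?_⟩
    · rw [← smul_tet]
      exact hKS.trans (Set.smul_set_mono hsub)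
    · rw [← smul_tet, vl_smul _ (by positivity)]
      have h7 : (1 + ε) ^ 3 * (1 + d0) ≤ 1 + 2 * d1 := by
        unfold d0 d1
        rw [hε]
        norm_num
      have hd0 : 0 ≤ 1 + d0 := by unfold d0; positivity
      calc (1 + ε) ^ 3 * vl (tet a b c e) ≤ (1 + ε) ^ 3 * ((1 + d0) * vl (hl S)) :=
            mul_le_mul_of_nonneg_left hvt (by positivity)
        _ ≤ (1 + ε) ^ 3 * ((1 + d0) * vl K) := by gcongr
        _ = ((1 + ε) ^ 3 * (1 + d0)) * vl K := by ring
        _ ≤ (1 + 2 * d1) * vl K := mul_le_mul_of_nonneg_right h7 hK0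
  -- `K` is arbitrarily near to tetrahedra
  have hall : ∀ d : ℝ, 0 < d → d ≤ 1 → near K d := by
    intro d hd hd1
    by_contra hcon
    have h7 := h2 hB hnear hd hd1 hcon 0 h0
    nlinarith
  obtain ⟨a, b, c, e, hsub, hmin⟩ := h3 hB
  have hle : ∀ d : ℝ, 0 < d → d ≤ 1 → vl (tet a b c e) ≤ (1 + d) * vl K := by
    intro d hd hd1
    obtain ⟨a', b', c', e', h7, h8⟩ := hall d hd hd1
    exact (hmin a' b' c' e' h7).trans h8
  have hv : vl (tet a b c e) ≤ vl K := by
    refine le_of_forall_pos_le_add fun δ hδ => ?_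
    have hd : 0 < min 1 (δ / (vl K + 1)) := lt_min one_pos (by positivity)
    have h7 := hle _ hd (min_le_left _ _)
    have h8 : min 1 (δ / (vl K + 1)) * vl K ≤ δ := by
      calc min 1 (δ / (vl K + 1)) * vl K ≤ (δ / (vl K + 1)) * vl K :=
            mul_le_mul_of_nonneg_right (min_le_right _ _) hK0
        _ ≤ (δ / (vl K + 1)) * (vl K + 1) :=
            mul_le_mul_of_nonneg_left (by linarith) (by positivity)
        _ = δ := by field_simp
    linarith
  exact ⟨a, b, c, e, eq_of_vl hK (tet_compact a b c e) (convex_convexHull ℝ _)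
    ⟨0, interior_mono hsub h0⟩ hsub hv⟩

end H293M
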