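import Pool.Agent.H293R2.M3.Spec2

/-!
Task P11: the volume product of a centred tetrahedron.
-/

set_option autoImplicit false

open MeasureTheory Set

namespace H293M

namespace P11

theorem haar : (volume : Measure E).IsAddHaarMeasure := by
  have h1 : (volume : Measure (ℝ × ℝ)).IsAddHaarMeasure := by
    rw [Measure.volume_eq_prod]; infer_instance
  rw [Measure.volume_eq_prod]; infer_instance

/-- the linear map -/
noncomputable def lin (u v w : E) : E →ₗ[ℝ] E where
  toFun x := x.1 • u + x.2.1 • v + x.2.2 • w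
  map_add' x y := by
    simp only [Prod.fst_add, Prod.snd_add, add_smul]
    abel
  map_smul' r x := by
    simp only [Prod.smul_fst, Prod.smul_snd, smul_eq_mul, mul_smul, RingHom.id_apply, smul_add]

/-- coordinates -/
noncomputable def coo : E ≃ₗ[ℝ] (Fin 3 → ℝ) where
  toFun x := ![x.1, x.2.1, x.2.2]
  map_add' x y := by
    ext i
    fin_cases i <;> simp
  map_smul' r x := by
    ext i
    fin_cases i <;> simp
  invFun f := (f 0, f 1, f 2)
  left_inv x := by simp
  right_inv f := by
    ext i
    fin_cases i <;> simp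

theorem det_lin (u v w : E) : LinearMap.det (lin u v w) = d3 u v w := by
  obtain ⟨b, hb⟩ : ∃ b, b = Module.Basis.ofEquivFun coo := ⟨_, rfl⟩
  rw [← LinearMap.det_toMatrix b, Matrix.det_fin_three]
  have hr : ∀ (x : E) (i : Fin 3), b.repr x i = coo x i := by
    intro x i
    rw [hb]
    rfl
  have hb0 : b 0 = (1, 0, 0) := by
    rw [hb, Module.Basis.coe_ofEquivFun]
    simp [coo]
  have hb1 : b 1 = (0, 1, 0) := by
    rw [hb, Module.Basis.coe_ofEquivFun]
    simp [coo]
  have hb2 : b 2 = (0, 0, 1) := by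
    rw [hb, Module.Basis.coe_ofEquivFun]
    simp [coo]
  simp only [LinearMap.toMatrix_apply, hr, hb0, hb1, hb2]
  simp [lin, coo, d3]
  ring

/-- affine map -/
noncomputable def aff (a u v w : E) (x : E) : E := a + lin u v w x

/-- integral over an affine image -/
theorem int_aff (a u v w : E) (hD : d3 u v w ≠ 0) {S : Set E} (hS : MeasurableSet S) :
    ∫ x in aff a u v w '' S, x = |d3 u v w| • ∫ y in S, (a + lin u v w y) := by
  have := haar
  have hinj : Function.Injective (aff a u v w) := by
    have h1 : Function.Injective (lin u v w) := by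
      have hu : IsUnit (LinearMap.det (lin u v w)) := by
        rw [det_lin]
        exact isUnit_iff_ne_zero.2 hD
      exact (LinearMap.equivOfDetNeZero (lin u v w) (by rw [det_lin]; exact hD)).injective
    intro x y hxy
    exact h1 (add_left_cancel hxy)
  have hder : ∀ x ∈ S, HasFDerivWithinAt (aff a u v w) (LinearMap.toContinuousLinearMap
      (lin u v w)) S x := by
    intro x _
    have h := (LinearMap.toContinuousLinearMap (lin u v w)).hasFDerivAt (x := x)
    exact (h.const_add a).hasFDerivWithinAt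
  rw [integral_image_eq_integral_abs_det_fderiv_smul volume hS hder hinj.injOn]
  have hdet : (LinearMap.toContinuousLinearMap (lin u v w)).det = d3 u v w := by
    rw [ContinuousLinearMap.det, ← det_lin]
    rfl
  simp only [hdet]
  rw [integral_smul]
  rfl

theorem closed_Dl : IsClosed Dl := by
  unfold Dl
  refine IsClosed.inter (isClosed_le continuous_const continuous_fst) (IsClosed.inter
    (isClosed_le continuous_const (continuous_fst.comp continuous_snd)) (IsClosed.inter
    (isClosed_le continuous_const (continuous_snd.comp continuous_snd))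
    (isClosed_le ((continuous_fst.add (continuous_fst.comp continuous_snd)).add
      (continuous_snd.comp continuous_snd)) continuous_const)))

theorem compact_Dl : IsCompact Dl := by
  refine (isCompact_Icc (a := ((0, 0, 0) : E)) (b := (1, 1, 1))).of_isClosed_subset closed_Dl ?_
  rintro x ⟨h1, h2, h3, h4⟩
  exact ⟨⟨h1, h2, h3⟩, ⟨by simp only; linarith, by simp only; linarith, by simp only; linarith⟩⟩

theorem int_id {S : Set E} (hS : IsCompact S) : IntegrableOn (fun x : E => x) S := by
  have := haar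
  exact continuous_id.continuousOn.integrableOn_compact hS

/-- integral of an affine map -/
theorem int_aff2 {S : Set E} (hS : IsCompact S) (a u v w : E) :
    ∫ y in S, (a + lin u v w y) = vl S • a + lin u v w (∫ y in S, y) := by
  have := haar
  have h1 : IntegrableOn (fun _ : E => a) S := by
    rw [integrableOn_const_iff]
    exact Or.inr hS.measure_lt_top
  have h2 : IntegrableOn (fun y : E => lin u v w y) S :=
    (LinearMap.toContinuousLinearMap (lin u v w)).integrable_comp (int_id hS)
  rw [integral_add h1 h2, setIntegral_const]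
  congr 1
  exact (LinearMap.toContinuousLinearMap (lin u v w)).integral_comp_comm (int_id hS)

theorem image_cyc : aff (1, 0, 0) (-1, 1, 0) (-1, 0, 1) (-1, 0, 0) '' Dl = Dl := by
  have e : ∀ x : E, aff (1, 0, 0) (-1, 1, 0) (-1, 0, 1) (-1, 0, 0) x =
      (1 - x.1 - x.2.1 - x.2.2, x.1, x.2.1) := by
    intro x
    simp only [aff, lin, LinearMap.coe_mk, AddHom.coe_mk]
    ext
    · simp; ring
    · simp
    · simp
  apply Subset.antisymm
  · rintro _ ⟨x, ⟨h1, h2, h3, h4⟩, rfl⟩
    rw [e]
    exact ⟨by simp only; linarith, h1, h2, by simp only; linarith⟩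
  · rintro x ⟨h1, h2, h3, h4⟩
    refine ⟨(x.2.1, x.2.2, 1 - x.1 - x.2.1 - x.2.2), ⟨h2, h3, by simp only; linarith,
      by simp only; linarith⟩, ?_⟩
    rw [e]
    ext
    · simp
    · simp
    · simp

/-- centroid of the standard simplex -/
theorem int_Dl : ∫ y in Dl, y = (vl Dl / 4, vl Dl / 4, vl Dl / 4) := by
  have hd : d3 (-1, 1, 0) (-1, 0, 1) (-1, 0, 0) = -1 := by
    unfold d3
    norm_num
  have h := int_aff (1, 0, 0) (-1, 1, 0) (-1, 0, 1) (-1, 0, 0) (by rw [hd]; norm_num)
    closed_Dl.measurableSet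
  rw [image_cyc, hd, int_aff2 compact_Dl] at h
  set m := ∫ y in Dl, y with hm
  have h1 := congrArg Prod.fst h
  have h2 := congrArg (fun p : E => p.2.1) h
  have h3 := congrArg (fun p : E => p.2.2) h
  simp [lin] at h1 h2 h3
  ext
  · simp only; linarith
  · simp only; linarith
  · simp only; linarith

theorem image_eq (a b c d : E) :
    tet a b c d = aff a (b - a) (c - a) (d - a) '' Dl := by
  unfold tet
  apply Subset.antisymm
  · apply convexHull_min
    · intro x hx
      simp only [mem_insert_iff, mem_singleton_iff] at hx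
      rcases hx with rfl | rfl | rfl | rfl
      · refine ⟨0, ?_, ?_⟩
        · simp [Dl]
        · simp [aff]
      · refine ⟨(1, 0, 0), ?_, ?_⟩
        · simp [Dl]
        · simp [aff, lin]
      · refine ⟨(0, 1, 0), ?_, ?_⟩
        · simp [Dl]
        · simp [aff, lin]
      · refine ⟨(0, 0, 1), ?_, ?_⟩
        · simp [Dl]
        · simp [aff, lin]
    · have h1 : Convex ℝ Dl := by
        rintro x ⟨x1, x2, x3, x4⟩ y ⟨y1, y2, y3, y4⟩ p q hp hq hpq
        refine ⟨?_, ?_, ?_, ?_⟩
        · simp only [Prod.fst_add, Prod.smul_fst, smul_eq_mul]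
          positivity
        · simp only [Prod.fst_add, Prod.smul_fst, Prod.snd_add, Prod.smul_snd, smul_eq_mul]
          positivity
        · simp only [Prod.snd_add, Prod.smul_snd, smul_eq_mul]
          positivity
        · simp only [Prod.fst_add, Prod.smul_fst, Prod.snd_add, Prod.smul_snd, smul_eq_mul]
          nlinarith
      have h2 := h1.linear_image (lin (b - a) (c - a) (d - a))
      have h3 := h2.translate a
      rwa [image_image] at h3
  · rintro _ ⟨x, ⟨x1, x2, x3, x4⟩, rfl⟩
    have hc := convex_convexHull ℝ ({a, b, c, d} : Set E)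
    have hs : ∀ y ∈ ({a, b, c, d} : Set E), y ∈ convexHull ℝ ({a, b, c, d} : Set E) :=
      fun y hy => subset_convexHull ℝ _ hy
    have h := hc.sum_mem (t := (Finset.univ : Finset (Fin 4)))
      (w := ![1 - x.1 - x.2.1 - x.2.2, x.1, x.2.1, x.2.2]) (z := ![a, b, c, d]) ?_ ?_ ?_
    · rw [Fin.sum_univ_four] at h
      simp only [Matrix.cons_val] at h
      convert h using 1
      simp only [aff, lin, LinearMap.coe_mk, AddHom.coe_mk]
      module
    · intro i _
      fin_cases i
      · simp only [Fin.zero_eta, Matrix.cons_val]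
        linarith
      · exact x1
      · exact x2
      · exact x3
    · rw [Fin.sum_univ_four]
      simp only [Matrix.cons_val]
      ring
    · intro i _
      fin_cases i
      · exact hs _ (by simp)
      · exact hs _ (by simp)
      · exact hs _ (by simp)
      · exact hs _ (by simp)

theorem vl_Dl (h1 : S_simp) : vl Dl = 1 / 6 := by
  have h := h1 (0, 0, 0) (1, 0, 0) (0, 1, 0) (0, 0, 1)
  have e : Dl = convexHull ℝ {((0, 0, 0) : E), (1, 0, 0), (0, 1, 0), (0, 0, 1)} := by
    have h := image_eq (0, 0, 0) (1, 0, 0) (0, 1, 0) (0, 0, 1)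
    unfold tet at h
    rw [h]
    have e : ∀ x : E, aff ((0, 0, 0) : E) ((1, 0, 0) - (0, 0, 0)) ((0, 1, 0) - (0, 0, 0))
        ((0, 0, 1) - (0, 0, 0)) x = x := by
      intro x
      simp [aff, lin]
    simp only [e, image_id']
  rw [e, h]
  simp [d3]

/-- the sum of the vertices of a centred tetrahedron -/
theorem sum_zero (h1 : S_simp) {a b c e : E} (hD : d3 (b - a) (c - a) (e - a) ≠ 0)
    (h0 : ∫ x in tet a b c e, x = 0) : a + b + c + e = 0 := by
  rw [image_eq, int_aff _ _ _ _ hD closed_Dl.measurableSet, int_aff2 compact_Dl, int_Dl,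
    vl_Dl h1, smul_eq_zero] at h0
  have h2 := h0.resolve_left (abs_ne_zero.2 hD)
  simp only [lin, LinearMap.coe_mk, AddHom.coe_mk] at h2
  have h3 : (1 / 24 : ℝ) • (a + b + c + e) = 0 := by
    rw [← h2]
    module
  exact (smul_eq_zero.1 h3).resolve_left (by norm_num)

/-- cross product -/
def cr (a b : E) : E := (a.2.1 * b.2.2 - a.2.2 * b.2.1, a.2.2 * b.1 - a.1 * b.2.2,
  a.1 * b.2.1 - a.2.1 * b.1)

/-- the dot product is linear on convex hulls -/
theorem dt_le_of_hull {A : Set E} {y : E} {c : ℝ} (h : ∀ s ∈ A, dt s y ≤ c) :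
    ∀ x ∈ convexHull ℝ A, dt x y ≤ c := by
  have hc : Convex ℝ {x : E | dt x y ≤ c} := by
    intro a ha b hb p q hp hq hpq
    have ha : dt a y ≤ c := ha
    have hb : dt b y ≤ c := hb
    change dt (p • a + q • b) y ≤ c
    have : dt (p • a + q • b) y = p * dt a y + q * dt b y := by
      simp only [dt, Prod.fst_add, Prod.snd_add, Prod.smul_fst, Prod.smul_snd, smul_eq_mul]
      ring
    rw [this]
    calc p * dt a y + q * dt b y ≤ p * c + q * c := by gcongr
      _ = c := by rw [← add_mul, hpq, one_mul]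
  exact convexHull_min h hc

theorem polz_tet (a b c e : E) : polz (tet a b c e) 0 =
    {y | dt a y ≤ 1 ∧ dt b y ≤ 1 ∧ dt c y ≤ 1 ∧ dt e y ≤ 1} := by
  ext y
  simp only [polz, mem_ofPred_eq, sub_zero]
  constructor
  · intro h
    have hs : ∀ v ∈ ({a, b, c, e} : Set E), dt v y ≤ 1 := fun v hv =>
      h v (subset_convexHull ℝ _ hv)
    exact ⟨hs _ (by simp), hs _ (by simp), hs _ (by simp), hs _ (by simp)⟩
  · rintro ⟨h1, h2, h3, h4⟩ x hx
    refine dt_le_of_hull (A := {a, b, c, e}) ?_ x hx
    rintro s (rfl | rfl | rfl | rfl)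
    · exact h1
    · exact h2
    · exact h3
    · exact h4

theorem convex_pol (a b c e : E) :
    Convex ℝ {y : E | dt a y ≤ 1 ∧ dt b y ≤ 1 ∧ dt c y ≤ 1 ∧ dt e y ≤ 1} := by
  have key : ∀ (v x y : E) (p q : ℝ), dt v x ≤ 1 → dt v y ≤ 1 → 0 ≤ p → 0 ≤ q → p + q = 1 →
      dt v (p • x + q • y) ≤ 1 := by
    intro v x y p q hx hy hp hq hpq
    have e : dt v (p • x + q • y) = p * dt v x + q * dt v y := by
      simp only [dt, Prod.fst_add, Prod.snd_add, Prod.smul_fst, Prod.smul_snd, smul_eq_mul]
      ring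
    rw [e]
    nlinarith
  rintro x ⟨x1, x2, x3, x4⟩ y ⟨y1, y2, y3, y4⟩ p q hp hq hpq
  exact ⟨key _ _ _ _ _ x1 y1 hp hq hpq, key _ _ _ _ _ x2 y2 hp hq hpq,
    key _ _ _ _ _ x3 y3 hp hq hpq, key _ _ _ _ _ x4 y4 hp hq hpq⟩

end P11

open P11 in
/-- task P11 -/
theorem t_val (h1 : S_simp) : S_val := by
  intro a b c e hpos h0
  have hv := h1 a b c e
  have hT : vl (tet a b c e) = |d3 (b - a) (c - a) (e - a)| / 6 := hv
  have hD1 : d3 (b - a) (c - a) (e - a) ≠ 0 := by
    intro h
    rw [hT, h, abs_zero, zero_div] at hpos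
    exact lt_irrefl _ hpos
  have hs := sum_zero h1 hD1 h0
  have e1 : a.1 = -(b.1 + c.1 + e.1) := by
    have := congrArg Prod.fst hs
    simp only [Prod.fst_add, Prod.fst_zero] at this
    linarith
  have e2 : a.2.1 = -(b.2.1 + c.2.1 + e.2.1) := by
    have := congrArg (fun p : E => p.2.1) hs
    simp only [Prod.fst_add, Prod.snd_add, Prod.snd_zero, Prod.fst_zero] at this
    linarith
  have e3 : a.2.2 = -(b.2.2 + c.2.2 + e.2.2) := by
    have := congrArg (fun p : E => p.2.2) hs
    simp only [Prod.snd_add, Prod.snd_zero] at this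
    linarith
  obtain ⟨D, hDD⟩ : ∃ D, D = d3 b c e := ⟨_, rfl⟩
  have hdD : d3 (b - a) (c - a) (e - a) = 4 * D := by
    rw [hDD]
    unfold d3
    simp only [Prod.fst_sub, Prod.snd_sub]
    rw [e1, e2, e3]
    ring
  have hD : D ≠ 0 := by
    intro h
    apply hD1
    rw [hdD, h, mul_zero]
  have hda : ∀ y : E, dt a y = -(dt b y + dt c y + dt e y) := by
    intro y
    unfold dt
    rw [e1, e2, e3]
    ring
  obtain ⟨u0, hu0⟩ : ∃ u0 : E, u0 = D⁻¹ • (cr c e + cr e b + cr b c) := ⟨_, rfl⟩
  obtain ⟨u1, hu1⟩ : ∃ u1 : E, u1 = u0 - (4 * D⁻¹) • cr c e := ⟨_, rfl⟩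
  obtain ⟨u2, hu2⟩ : ∃ u2 : E, u2 = u0 - (4 * D⁻¹) • cr e b := ⟨_, rfl⟩
  obtain ⟨u3, hu3⟩ : ∃ u3 : E, u3 = u0 - (4 * D⁻¹) • cr b c := ⟨_, rfl⟩
  have dsub : ∀ (s a b : E) (t : ℝ), dt s (a - t • b) = dt s a - t * dt s b := by
    intro s a b t
    simp only [dt, Prod.fst_sub, Prod.snd_sub, Prod.smul_fst, Prod.smul_snd, smul_eq_mul]
    ring
  have dadd : ∀ (s a b c : E) (t : ℝ), dt s (t • (a + b + c)) =
      t * (dt s a + dt s b + dt s c) := by
    intro s a b c t
    simp only [dt, Prod.fst_add, Prod.snd_add, Prod.smul_fst, Prod.smul_snd, smul_eq_mul]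
    ring
  have c11 : dt b (cr c e) = D := by rw [hDD]; unfold dt cr d3; ring
  have c12 : dt b (cr e b) = 0 := by unfold dt cr; ring
  have c13 : dt b (cr b c) = 0 := by unfold dt cr; ring
  have c21 : dt c (cr c e) = 0 := by unfold dt cr; ring
  have c22 : dt c (cr e b) = D := by rw [hDD]; unfold dt cr d3; ring
  have c23 : dt c (cr b c) = 0 := by unfold dt cr; ring
  have c31 : dt e (cr c e) = 0 := by unfold dt cr; ring
  have c32 : dt e (cr e b) = 0 := by unfold dt cr; ring
  have c33 : dt e (cr b c) = D := by rw [hDD]; unfold dt cr d3; ring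
  have hDi : D⁻¹ * D = 1 := inv_mul_cancel₀ hD
  have d10 : dt b u0 = 1 := by rw [hu0, dadd, c11, c12, c13, add_zero, add_zero, hDi]
  have d20 : dt c u0 = 1 := by rw [hu0, dadd, c21, c22, c23, add_zero, zero_add, hDi]
  have d30 : dt e u0 = 1 := by rw [hu0, dadd, c31, c32, c33, add_zero, zero_add, hDi]
  have d11 : dt b u1 = -3 := by rw [hu1, dsub, c11, d10, mul_assoc, hDi]; norm_num
  have d21 : dt c u1 = 1 := by rw [hu1, dsub, c21, d20]; ring
  have d31 : dt e u1 = 1 := by rw [hu1, dsub, c31, d30]; ring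
  have d12 : dt b u2 = 1 := by rw [hu2, dsub, c12, d10]; ring
  have d22 : dt c u2 = -3 := by rw [hu2, dsub, c22, d20, mul_assoc, hDi]; norm_num
  have d32 : dt e u2 = 1 := by rw [hu2, dsub, c32, d30]; ring
  have d13 : dt b u3 = 1 := by rw [hu3, dsub, c13, d10]; ring
  have d23 : dt c u3 = 1 := by rw [hu3, dsub, c23, d20]; ring
  have d33 : dt e u3 = -3 := by rw [hu3, dsub, c33, d30, mul_assoc, hDi]; norm_num
  have hset : polz (tet a b c e) 0 = convexHull ℝ {u0, u1, u2, u3} := by
    rw [polz_tet]
    apply Subset.antisymm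
    · rintro y ⟨y0, y1, y2, y3⟩
      have hc := convex_convexHull ℝ ({u0, u1, u2, u3} : Set E)
      have hs : ∀ y ∈ ({u0, u1, u2, u3} : Set E), y ∈ convexHull ℝ ({u0, u1, u2, u3} : Set E) :=
        fun y hy => subset_convexHull ℝ _ hy
      have h := hc.sum_mem (t := (Finset.univ : Finset (Fin 4)))
        (w := ![(1 - dt a y) / 4, (1 - dt b y) / 4, (1 - dt c y) / 4, (1 - dt e y) / 4])
        (z := ![u0, u1, u2, u3]) ?_ ?_ ?_
      · rw [Fin.sum_univ_four] at h
        simp only [Matrix.cons_val] at h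
        convert h using 1
        have hy : y = D⁻¹ • (dt b y • cr c e + dt c y • cr e b + dt e y • cr b c) := by
          have hy1 : D • y = dt b y • cr c e + dt c y • cr e b + dt e y • cr b c := by
            rw [hDD]
            ext
            · simp only [d3, dt, cr, Prod.fst_add, Prod.smul_fst, smul_eq_mul]
              ring
            · simp only [d3, dt, cr, Prod.fst_add, Prod.snd_add, Prod.smul_fst, Prod.smul_snd,
                smul_eq_mul]
              ring
            · simp only [d3, dt, cr, Prod.snd_add, Prod.smul_snd, smul_eq_mul]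
              ring
          rw [← hy1, smul_smul, hDi, one_smul]
        rw [hda y, hu1, hu2, hu3, hu0]
        generalize dt b y = β1 at *
        generalize dt c y = β2 at *
        generalize dt e y = β3 at *
        rw [hy]
        module
      · intro i _
        fin_cases i
        · change 0 ≤ (1 - dt a y) / 4
          linarith
        · change 0 ≤ (1 - dt b y) / 4
          linarith
        · change 0 ≤ (1 - dt c y) / 4
          linarith
        · change 0 ≤ (1 - dt e y) / 4
          linarith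
      · rw [Fin.sum_univ_four]
        simp only [Matrix.cons_val]
        rw [hda y]
        ring
      · intro i _
        fin_cases i
        · exact hs _ (by simp)
        · exact hs _ (by simp)
        · exact hs _ (by simp)
        · exact hs _ (by simp)
    · refine convexHull_min ?_ (convex_pol a b c e)
      rintro y (rfl | rfl | rfl | rfl)
      · exact ⟨by rw [hda, d10, d20, d30]; norm_num, d10.le, d20.le, d30.le⟩
      · exact ⟨by rw [hda, d11, d21, d31]; norm_num, by rw [d11]; norm_num, d21.le, d31.le⟩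
      · exact ⟨by rw [hda, d12, d22, d32]; norm_num, d12.le, by rw [d22]; norm_num, d32.le⟩
      · exact ⟨by rw [hda, d13, d23, d33]; norm_num, d13.le, d23.le, by rw [d33]; norm_num⟩
  have hdU : d3 (u1 - u0) (u2 - u0) (u3 - u0) = -(64 * D⁻¹) := by
    have f1 : u1 - u0 = -((4 * D⁻¹) • cr c e) := by rw [hu1]; abel
    have f2 : u2 - u0 = -((4 * D⁻¹) • cr e b) := by rw [hu2]; abel
    have f3 : u3 - u0 = -((4 * D⁻¹) • cr b c) := by rw [hu3]; abel
    rw [f1, f2, f3]
    have g1 : d3 (-((4 * D⁻¹) • cr c e)) (-((4 * D⁻¹) • cr e b))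
        (-((4 * D⁻¹) • cr b c)) =
        -(4 * D⁻¹ * (4 * D⁻¹) * (4 * D⁻¹)) * d3 (cr c e) (cr e b) (cr b c) := by
      simp only [d3, Prod.fst_neg, Prod.snd_neg, Prod.smul_fst, Prod.smul_snd, smul_eq_mul]
      ring
    have g2 : d3 (cr c e) (cr e b) (cr b c) = D ^ 2 := by
      rw [hDD]
      unfold d3 cr
      ring
    rw [g1, g2]
    calc -(4 * D⁻¹ * (4 * D⁻¹) * (4 * D⁻¹)) * D ^ 2
        = -(64 * D⁻¹) * (D⁻¹ * D) ^ 2 := by ring
      _ = _ := by rw [hDi]; ring
  have hvU : vl (polz (tet a b c e) 0) = 64 * |D|⁻¹ / 6 := by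
    rw [hset, h1, hdU, abs_neg, abs_mul, abs_inv]
    norm_num
  rw [hT, hvU, hdD, abs_mul]
  have hDp : |D| ≠ 0 := abs_ne_zero.2 hD
  rw [show |(4 : ℝ)| = 4 by norm_num]
  field_simp
  norm_num

end H293M
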