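import Pool.Agent.H293R2.M3.Spec2

set_option autoImplicit false

open MeasureTheory Set

namespace H293M

/-- coordinates -/
noncomputable def P12.lin : EuclideanSpace ℝ (Fin 3) ≃ₗ[ℝ] E where
  toFun x := (x 0, x 1, x 2)
  invFun p := !₂[p.1, p.2.1, p.2.2]
  map_add' x y := rfl
  map_smul' c x := rfl
  left_inv x := by
    ext i
    fin_cases i <;> rfl
  right_inv p := rfl

/-- coordinates, as a continuous linear equivalence -/
noncomputable def P12.phi : EuclideanSpace ℝ (Fin 3) ≃L[ℝ] E := P12.lin.toContinuousLinearEquiv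

theorem P12.phi_apply (x : EuclideanSpace ℝ (Fin 3)) : P12.phi x = (x 0, x 1, x 2) := rfl

theorem P12.mp : MeasurePreserving P12.phi (volume : Measure (EuclideanSpace ℝ (Fin 3)))
    (volume : Measure E) := by
  have h1 := PiLp.volume_preserving_ofLp (Fin 3)
  have h2 := volume_preserving_piFinSuccAbove (fun _ : Fin 3 => ℝ) 0
  have h3 : MeasurePreserving (Prod.map (id : ℝ → ℝ) (MeasurableEquiv.finTwoArrow (α := ℝ)))
      (volume : Measure (ℝ × (Fin 2 → ℝ))) (volume : Measure (ℝ × (ℝ × ℝ))) :=
    (MeasurePreserving.id (volume : Measure ℝ)).prod (volume_preserving_finTwoArrow ℝ)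
  have h4 := h3.comp (h2.comp h1)
  have h5 : (P12.phi : EuclideanSpace ℝ (Fin 3) → E) =
      (Prod.map (id : ℝ → ℝ) (MeasurableEquiv.finTwoArrow (α := ℝ))) ∘
        ((MeasurableEquiv.piFinSuccAbove (fun _ : Fin 3 => ℝ) 0) ∘ WithLp.ofLp) := by
    funext x
    rfl
  rw [h5]
  exact h4

theorem P12.emb : MeasurableEmbedding P12.phi :=
  P12.phi.toHomeomorph.toMeasurableEquiv.measurableEmbedding

theorem P12.vl_image (A : Set (EuclideanSpace ℝ (Fin 3))) :
    vl (P12.phi '' A) = (volume A).toReal := by
  unfold vl
  congr 1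
  have h : MeasurePreserving (P12.phi.toHomeomorph.toMeasurableEquiv)
      (volume : Measure (EuclideanSpace ℝ (Fin 3))) (volume : Measure E) := P12.mp
  have h2 := h.measure_preimage_equiv (P12.phi '' A)
  rw [← h2]
  congr 1
  exact Set.preimage_image_eq A P12.phi.injective

theorem P12.inner_eq (x y : EuclideanSpace ℝ (Fin 3)) :
    inner ℝ x y = dt (P12.phi x) (P12.phi y) := by
  rw [P12.phi_apply, P12.phi_apply]
  simp only [PiLp.inner_apply, Fin.sum_univ_three, dt, RCLike.inner_apply, conj_trivial]
  ring

theorem P12.polz_eq (K : Set (EuclideanSpace ℝ (Fin 3))) : polz (P12.phi '' K) 0 =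
    P12.phi '' {y | ∀ x ∈ K, inner ℝ x y ≤ 1} := by
  ext y
  constructor
  · intro hy
    refine ⟨P12.phi.symm y, ?_, P12.phi.apply_symm_apply y⟩
    intro x hx
    rw [P12.inner_eq, P12.phi.apply_symm_apply]
    have := hy (P12.phi x) ⟨x, hx, rfl⟩
    rwa [sub_zero] at this
  · rintro ⟨y, hy, rfl⟩
    rintro _ ⟨x, hx, rfl⟩
    rw [sub_zero, ← P12.inner_eq]
    exact hy x hx

/-- the origin is an interior point -/
theorem P12.zero_mem {K : Set (EuclideanSpace ℝ (Fin 3))} (hK : IsCompact K) (hc : Convex ℝ K)
    (hi : (interior K).Nonempty) (h0 : ∫ x in K, x = 0) :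
    (0 : EuclideanSpace ℝ (Fin 3)) ∈ interior K := by
  by_contra hcon
  obtain ⟨f, hf⟩ := geometric_hahn_banach_open_point hc.interior isOpen_interior hcon
  simp only [map_zero] at hf
  have hint : IntegrableOn (fun x : EuclideanSpace ℝ (Fin 3) => x) K :=
    continuousOn_id.integrableOn_compact hK
  have h1 : ∫ x in K, f x = 0 := by
    have := f.integral_comp_comm hint
    rw [h0, map_zero] at this
    exact this
  have hfr : volume (frontier K) = 0 := hc.addHaar_frontier volume
  have h2 : ∫ x in interior K, f x = 0 := by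
    rw [← h1]
    apply setIntegral_congr_set
    exact interior_ae_eq_of_null_frontier hfr
  have hpos : 0 < ∫ x in interior K, -f x := by
    rw [setIntegral_pos_iff_support_of_nonneg_ae]
    · have hsub : interior K ⊆ Function.support (fun x => -f x) ∩ interior K := by
        intro x hx
        refine ⟨?_, hx⟩
        have := hf x hx
        simp only [Function.mem_support]
        linarith
      exact lt_of_lt_of_le (isOpen_interior.measure_pos volume hi) (measure_mono hsub)
    · rw [Filter.EventuallyLE, ae_restrict_iff' isOpen_interior.measurableSet]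
      exact Filter.Eventually.of_forall fun x hx => by
        have := hf x hx
        simp only [Pi.zero_apply]
        linarith
    · have hi' : IntegrableOn (fun x => -f x) K := (f.integrable_comp hint).neg
      exact hi'.mono_set interior_subset
  rw [integral_neg, h2] at hpos
  simp at hpos

theorem t_final2 (h1 : S_final) (h2 : S_eq) (h3 : S_val) : S_final2 := by
  intro K hK hKc hKi h0
  have hz := P12.zero_mem hK hKc hKi h0
  have hcompact : IsCompact (P12.phi '' K) := hK.image P12.phi.continuous
  have hconv : Convex ℝ (P12.phi '' K) := hKc.linear_image P12.phi.toLinearMap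
  have hint : (0 : E) ∈ interior (P12.phi '' K) := by
    have h4 := P12.phi.toHomeomorph.image_interior K
    have h5 : (0 : E) ∈ P12.phi.toHomeomorph '' (interior K) := ⟨0, hz, map_zero P12.phi⟩
    rw [h4] at h5
    exact h5
  refine ⟨?_, ?_, ?_⟩
  · have := h1 K hK hKc 0 hz
    simpa only [sub_zero] using this
  · intro heq
    rw [← P12.vl_image, ← P12.vl_image, ← P12.polz_eq] at heq
    obtain ⟨a, b, c, e, ht⟩ := h2 hcompact hconv hint heq.le
    set v : Fin 4 → EuclideanSpace ℝ (Fin 3) :=
      ![P12.phi.symm a, P12.phi.symm b, P12.phi.symm c, P12.phi.symm e] with hv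
    have hr : Set.range v = P12.phi.symm '' {a, b, c, e} := by
      rw [hv]
      simp only [Matrix.range_cons, Matrix.range_empty, Set.image_insert_eq, Set.image_singleton,
        Set.union_empty, Set.singleton_union]
    have hKv : K = convexHull ℝ (Set.range v) := by
      have h4 : P12.phi.symm '' (P12.phi '' K) = K := by
        rw [Set.image_image]
        simp
      rw [← h4, ht, tet, hr]
      exact P12.phi.symm.toLinearMap.image_convexHull _
    refine ⟨v, ?_, hKv⟩
    have h5 : affineSpan ℝ (Set.range v) = ⊤ := by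
      rw [← interior_convexHull_nonempty_iff_affineSpan_eq_top, ← hKv]
      exact hKi
    rw [affineIndependent_iff_finrank_vectorSpan_eq ℝ v (n := 3) (by simp), ← direction_affineSpan,
      h5, AffineSubspace.direction_top, finrank_top]
    simp
  · rintro ⟨v, _, hv⟩
    have ht : P12.phi '' K = tet (P12.phi (v 0)) (P12.phi (v 1)) (P12.phi (v 2))
        (P12.phi (v 3)) := by
      rw [hv, tet]
      have h4 : P12.phi '' (convexHull ℝ (Set.range v)) = convexHull ℝ (P12.phi '' Set.range v) :=
        P12.phi.toLinearMap.image_convexHull _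
      rw [h4]
      congr 1
      ext y
      constructor
      · rintro ⟨_, ⟨i, rfl⟩, rfl⟩
        fin_cases i <;> simp
      · rintro (rfl | rfl | rfl | rfl)
        · exact ⟨_, ⟨0, rfl⟩, rfl⟩
        · exact ⟨_, ⟨1, rfl⟩, rfl⟩
        · exact ⟨_, ⟨2, rfl⟩, rfl⟩
        · exact ⟨_, ⟨3, rfl⟩, rfl⟩
    have hvol : 0 < vl (P12.phi '' K) := by
      rw [P12.vl_image]
      refine ENNReal.toReal_pos ?_ hK.measure_lt_top.ne
      exact (lt_of_lt_of_le (isOpen_interior.measure_pos volume hKi)
        (measure_mono interior_subset)).ne'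
    have hi0 : ∫ x in P12.phi '' K, x = 0 := by
      rw [P12.mp.setIntegral_image_emb P12.emb (fun x => x) K]
      have h4 := P12.phi.toContinuousLinearMap.integral_comp_comm
        (μ := volume.restrict K) (φ := fun x => x)
        (continuousOn_id.integrableOn_compact hK)
      rw [h0, map_zero] at h4
      exact h4
    rw [ht] at hvol hi0
    have h5 := h3 hvol hi0
    rw [← ht, P12.polz_eq, P12.vl_image, P12.vl_image] at h5
    exact h5

end H293M
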