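import Pool.Agent.H293R2.M3.Spec2
import Pool.Agent.H293R2.M3.P10
import Pool.Agent.H293R2.M3.P12

/-! Bodies with minimal volume product are tetrahedra, versions with an arbitrary centre, and
stability. -/

set_option autoImplicit false

open MeasureTheory Set
open scoped Pointwise

namespace H293M

/-- bodies whose volume product (with the infimum over the centre) is at most `64 / 9` are
tetrahedra -/
def S_eq2 : Prop := ∀ {K : Set E}, Bd K →
    (∀ ε : ℝ, 0 < ε → ∃ z ∈ interior K, vl K * vl (polz K z) ≤ 64 / 9 + ε) →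
    ∃ a b c e : E, K = tet a b c e

/-- stability, small case -/
def S_stab : Prop := ∀ {K : Set E}, Bd K → ∀ {z : E}, z ∈ interior K → ∀ {d : ℝ}, 0 < d →
    d ≤ 1 / 10 ^ 41 → vl K * vl (polz K z) < 64 / 9 * (1 + d / 2000) → near K d

namespace P13

theorem vl_sub (z : E) (K : Set E) : vl ((fun x => x - z) '' K) = vl K := by
  haveI := P10.haar3
  unfold vl
  have h1 : (fun x : E => x - z) '' K = (fun x => x + z) ⁻¹' K := by
    ext x
    rw [Set.mem_image, Set.mem_preimage]
    constructor
    · rintro ⟨y, hy, rfl⟩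
      simpa using hy
    · intro hx
      exact ⟨x + z, hx, by simp⟩
  rw [h1, measure_preimage_add_right]

theorem polz_sub (z : E) (K : Set E) : polz ((fun x => x - z) '' K) 0 = polz K z := by
  ext y
  constructor
  · intro hy x hx
    have := hy (x - z) ⟨x, hx, rfl⟩
    rwa [sub_zero] at this
  · rintro hy _ ⟨x, hx, rfl⟩
    rw [sub_zero]
    exact hy x hx

theorem near_add {K : Set E} {d : ℝ} (z : E) (h : near ((fun x => x - z) '' K) d) : near K d := by
  obtain ⟨a, b, c, e, h1, h2⟩ := h
  have h3 : tet a b c e = (fun x => x - z) '' (tet (a + z) (b + z) (c + z) (e + z)) := by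
    have : (fun x : E => x - z) = (fun x => x + -z) := by funext x; exact sub_eq_add_neg x z
    rw [this]
    have h4 : (fun x : E => x + -z) '' (tet (a + z) (b + z) (c + z) (e + z)) =
        convexHull ℝ ((fun x : E => x + -z) '' {a + z, b + z, c + z, e + z}) := by
      unfold tet
      simp only [Set.image_add_right]
      have h5 := convexHull_vadd (𝕜 := ℝ) (-z : E) ({a + z, b + z, c + z, e + z} : Set E)
      have h6 : ∀ A : Set E, (fun x : E => x + - -z) ⁻¹' A = (-z) +ᵥ A := by
        intro A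
        ext x
        rw [Set.mem_vadd_set_iff_neg_vadd_mem, Set.mem_preimage]
        simp [add_comm]
      rw [h6, h6, h5]
    rw [h4]
    unfold tet
    congr 1
    simp [Set.image_insert_eq]
  refine ⟨a + z, b + z, c + z, e + z, ?_, ?_⟩
  · rw [h3] at h1
    exact (Set.image_subset_image_iff (sub_left_injective)).1 h1
  · rw [h3, vl_sub, vl_sub] at h2
    exact h2

end P13

open P13 P10 in
theorem t_stab (h1 : S_chain) (h2 : S_LT) (h4 : S_exU) (h5 : S_approx) (h6 : S_pol) :
    S_stab := by
  intro K hB z hz d hd hd1 hP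
  have hK0 : 0 ≤ vl K := ENNReal.toReal_nonneg
  -- `K` is near to a tetrahedron
  have hnear : near K (2 * d1) := by
    refine near_add z ?_
    set K' : Set E := (fun x => x - z) '' K with hK'
    have hK'c : IsCompact K' := hB.cpt.image (by fun_prop)
    have hK'v : Convex ℝ K' := by
      have : K' = (fun x => -z + x) '' K := by
        rw [hK']
        congr 1
        funext x
        abel
      rw [this]
      exact hB.cvx.translate (-z)
    have h0 : (0 : E) ∈ interior K' := by
      have h1 : (Homeomorph.subRight z) '' (interior K) = interior ((Homeomorph.subRight z) '' K) :=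
        (Homeomorph.subRight z).image_interior K
      have h2 : (0 : E) ∈ (Homeomorph.subRight z) '' (interior K) := ⟨z, hz, by simp⟩
      rw [h1] at h2
      exact h2
    have hP' : vl K' * vl (polz K' 0) < 64 / 9 * (1 + d / 2000) := by
      rw [hK', vl_sub, polz_sub]
      exact hP
    have hK'0 : 0 ≤ vl K' := ENNReal.toReal_nonneg
    obtain ⟨S, U, hSU, hSK, hKS, hv1, hv3⟩ :=
      approx_pair h4 h5 h6 hK'c hK'v h0 (show (0 : ℝ) < 1 / 10 ^ 46 by positivity)
    set ε : ℝ := 1 / 10 ^ 46 with hε
    have hS0 : 0 ≤ vl (hl S) := ENNReal.toReal_nonneg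
    have hU0 : 0 ≤ vl (hl U) := ENNReal.toReal_nonneg
    have hcc : vl (hl S) * vl (hl U) < cc := by
      calc vl (hl S) * vl (hl U) ≤ vl K' * ((1 + ε) ^ 3 * vl (polz K' 0)) :=
            mul_le_mul hv1 hv3 hU0 hK'0
        _ = (1 + ε) ^ 3 * (vl K' * vl (polz K' 0)) := by ring
        _ ≤ (1 + ε) ^ 3 * (64 / 9 * (1 + (1 / 10 ^ 41) / 2000)) := by
            refine mul_le_mul_of_nonneg_left ?_ (by positivity)
            refine hP'.le.trans ?_
            gcongr
        _ < cc := by
            unfold cc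
            rw [hε]
            norm_num
    obtain ⟨a, b, c, e, hsub, hvt⟩ := h1 hSU hcc
    refine ⟨(1 + ε) • a, (1 + ε) • b, (1 + ε) • c, (1 + ε) • e, ?_, ?_⟩
    · rw [← smul_tet]
      exact hKS.trans (Set.smul_set_mono hsub)
    · rw [← smul_tet, vl_smul _ (by positivity)]
      have h7 : (1 + ε) ^ 3 * (1 + d0) ≤ 1 + 2 * d1 := by
        unfold d0 d1
        rw [hε]
        norm_num
      have hd0 : 0 ≤ 1 + d0 := by unfold d0; positivity
      calc (1 + ε) ^ 3 * vl (tet a b c e) ≤ (1 + ε) ^ 3 * ((1 + d0) * vl (hl S)) :=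
            mul_le_mul_of_nonneg_left hvt (by positivity)
        _ ≤ (1 + ε) ^ 3 * ((1 + d0) * vl K') := by gcongr
        _ = ((1 + ε) ^ 3 * (1 + d0)) * vl K' := by ring
        _ ≤ (1 + 2 * d1) * vl K' := mul_le_mul_of_nonneg_right h7 hK'0
  by_contra hcon
  have h7 := h2 hB hnear hd (hd1.trans (by norm_num)) hcon z hz
  linarith

open P13 P10 in
theorem t_eq2 (h1 : S_stab) (h3 : S_minsimp) : S_eq2 := by
  intro K hB hP
  have hK0 : 0 ≤ vl K := ENNReal.toReal_nonneg
  -- `K` is arbitrarily near to tetrahedra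
  have hall : ∀ d : ℝ, 0 < d → d ≤ 1 / 10 ^ 41 → near K d := by
    intro d hd hd1
    obtain ⟨z, hz, hzP⟩ := hP (64 / 9 * (d / 4000)) (by positivity)
    refine h1 hB hz hd hd1 (hzP.trans_lt ?_)
    nlinarith
  obtain ⟨a, b, c, e, hsub, hmin⟩ := h3 hB
  have hle : ∀ d : ℝ, 0 < d → d ≤ 1 / 10 ^ 41 → vl (tet a b c e) ≤ (1 + d) * vl K := by
    intro d hd hd1
    obtain ⟨a', b', c', e', h7, h8⟩ := hall d hd hd1
    exact (hmin a' b' c' e' h7).trans h8
  have hv : vl (tet a b c e) ≤ vl K := by
    refine le_of_forall_pos_le_add fun δ hδ => ?_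
    have hd : 0 < min (1 / 10 ^ 41) (δ / (vl K + 1)) := lt_min (by positivity) (by positivity)
    have h7 := hle _ hd (min_le_left _ _)
    have h8 : min (1 / 10 ^ 41) (δ / (vl K + 1)) * vl K ≤ δ := by
      calc min (1 / 10 ^ 41) (δ / (vl K + 1)) * vl K ≤ (δ / (vl K + 1)) * vl K :=
            mul_le_mul_of_nonneg_right (min_le_right _ _) hK0
        _ ≤ (δ / (vl K + 1)) * (vl K + 1) :=
            mul_le_mul_of_nonneg_left (by linarith) (by positivity)
        _ = δ := by field_simp
    linarith
  obtain ⟨z, hz⟩ := hB.int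
  exact ⟨a, b, c, e, eq_of_vl hB.cpt (tet_compact a b c e) (convex_convexHull ℝ _)
    ⟨z, interior_mono hsub hz⟩ hsub hv⟩

end H293M
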