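import Pool.Agent.H293R2.M3.P13

/-! Transfer of the results on the equality case and on stability to the Euclidean space. -/

set_option autoImplicit false

open MeasureTheory Set
open scoped Pointwise

namespace H293M

namespace P14

/-- three-dimensional Euclidean space -/
abbrev F : Type := EuclideanSpace ℝ (Fin 3)

/-- polar body with centre `z` -/
def pol (K : Set F) (z : F) : Set F := {y | ∀ x ∈ K, inner ℝ (x - z) y ≤ 1}

theorem polz_eq (K : Set F) (z : F) : polz (P12.phi '' K) (P12.phi z) = P12.phi '' pol K z := by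
  ext y
  constructor
  · intro hy
    refine ⟨P12.phi.symm y, ?_, P12.phi.apply_symm_apply y⟩
    intro x hx
    rw [P12.inner_eq, P12.phi.apply_symm_apply, map_sub]
    exact hy (P12.phi x) ⟨x, hx, rfl⟩
  · rintro ⟨y, hy, rfl⟩
    rintro _ ⟨x, hx, rfl⟩
    rw [← map_sub, ← P12.inner_eq]
    exact hy x hx

theorem image_int (K : Set F) : P12.phi '' interior K = interior (P12.phi '' K) :=
  P12.phi.toHomeomorph.image_interior K

theorem bd {K : Set F} (hK : IsCompact K) (hc : Convex ℝ K) (hi : (interior K).Nonempty) :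
    Bd (P12.phi '' K) := by
  refine ⟨hK.image P12.phi.continuous, hc.linear_image P12.phi.toLinearMap, ?_⟩
  rw [← image_int]
  exact hi.image _

/-- vertices in the Euclidean space -/
noncomputable def ver (a b c e : E) : Fin 4 → F :=
  ![P12.phi.symm a, P12.phi.symm b, P12.phi.symm c, P12.phi.symm e]

theorem ver_tet (a b c e : E) : P12.phi '' convexHull ℝ (Set.range (ver a b c e)) = tet a b c e := by
  have h4 : P12.phi '' (convexHull ℝ (Set.range (ver a b c e))) =
      convexHull ℝ (P12.phi '' Set.range (ver a b c e)) :=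
    P12.phi.toLinearMap.image_convexHull _
  rw [h4, tet]
  congr 1
  ext y
  constructor
  · rintro ⟨_, ⟨i, rfl⟩, rfl⟩
    fin_cases i <;> simp [ver]
  · rintro (rfl | rfl | rfl | rfl)
    · exact ⟨_, ⟨0, rfl⟩, by simp [ver]⟩
    · exact ⟨_, ⟨1, rfl⟩, by simp [ver]⟩
    · exact ⟨_, ⟨2, rfl⟩, by simp [ver]⟩
    · exact ⟨_, ⟨3, rfl⟩, by simp [ver]⟩

theorem affInd {v : Fin 4 → F} (h : (interior (convexHull ℝ (Set.range v))).Nonempty) :
    AffineIndependent ℝ v := by
  have h5 : affineSpan ℝ (Set.range v) = ⊤ := by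
    rw [← interior_convexHull_nonempty_iff_affineSpan_eq_top]
    exact h
  rw [affineIndependent_iff_finrank_vectorSpan_eq ℝ v (n := 3) (by simp), ← direction_affineSpan,
    h5, AffineSubspace.direction_top, finrank_top]
  simp

/-- equality with the infimum over the centres -/
theorem eq_inf (h : S_eq2) {K : Set F} (hK : IsCompact K) (hc : Convex ℝ K)
    (hi : (interior K).Nonempty)
    (hP : ∀ ε : ℝ, 0 < ε → ∃ z ∈ interior K,
      (volume K).toReal * (volume (pol K z)).toReal ≤ 64 / 9 + ε) :
    ∃ v : Fin 4 → F, AffineIndependent ℝ v ∧ K = convexHull ℝ (Set.range v) := by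
  obtain ⟨a, b, c, e, ht⟩ := h (bd hK hc hi) (by
    intro ε hε
    obtain ⟨z, hz, hzP⟩ := hP ε hε
    refine ⟨P12.phi z, ?_, ?_⟩
    · rw [← image_int]
      exact ⟨z, hz, rfl⟩
    · rw [polz_eq, P12.vl_image, P12.vl_image]
      exact hzP)
  have hK' : K = convexHull ℝ (Set.range (ver a b c e)) := by
    rw [← ver_tet] at ht
    exact P12.phi.injective.image_injective ht
  refine ⟨ver a b c e, affInd ?_, hK'⟩
  rw [← hK']
  exact hi

/-- stability, small case -/
theorem stab (h : S_stab) {K : Set F} (hK : IsCompact K) (hc : Convex ℝ K)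
    {z : F} (hz : z ∈ interior K) {d : ℝ} (hd : 0 < d) (hd1 : d ≤ 1 / 10 ^ 41)
    (hP : (volume K).toReal * (volume (pol K z)).toReal < 64 / 9 * (1 + d / 2000)) :
    ∃ v : Fin 4 → F, K ⊆ convexHull ℝ (Set.range v) ∧
      (volume (convexHull ℝ (Set.range v))).toReal ≤ (1 + d) * (volume K).toReal := by
  obtain ⟨a, b, c, e, h1, h2⟩ := h (bd hK hc ⟨z, hz⟩) (z := P12.phi z) (by
      rw [← image_int]
      exact ⟨z, hz, rfl⟩) hd hd1 (by
      rw [polz_eq, P12.vl_image, P12.vl_image]
      exact hP)
  rw [← ver_tet] at h1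
  rw [← ver_tet, P12.vl_image, P12.vl_image] at h2
  exact ⟨ver a b c e, (Set.image_subset_image_iff P12.phi.injective).1 h1, h2⟩

/-- the centroid of a convex body is an interior point -/
theorem centroid {K : Set F} (hK : IsCompact K) (hc : Convex ℝ K) (hi : (interior K).Nonempty) :
    ∃ z ∈ interior K, ∫ x in (fun x => x - z) '' K, x = 0 := by
  have hpos : 0 < (volume K).toReal := by
    refine ENNReal.toReal_pos ?_ hK.measure_lt_top.ne
    exact (lt_of_lt_of_le (isOpen_interior.measure_pos volume hi)
      (measure_mono interior_subset)).ne'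
  set z : F := (volume K).toReal⁻¹ • ∫ x in K, x with hz
  have h1 : ∫ x in (fun x => x - z) '' K, x = 0 := by
    have hmp : MeasurePreserving (fun x : F => x - z) volume volume :=
      measurePreserving_sub_right volume z
    have hemb : MeasurableEmbedding (fun x : F => x - z) :=
      (MeasurableEquiv.subRight z).measurableEmbedding
    rw [hmp.setIntegral_image_emb hemb (fun x => x) K]
    have hint : IntegrableOn (fun x : F => x) K := continuousOn_id.integrableOn_compact hK
    rw [integral_sub hint (integrableOn_const hK.measure_lt_top.ne), setIntegral_const, hz,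
      Measure.real, smul_smul, mul_inv_cancel₀ hpos.ne', one_smul, sub_self]
  refine ⟨z, ?_, h1⟩
  set K' : Set F := (fun x => x - z) '' K with hK'
  have hK'c : IsCompact K' := hK.image (by fun_prop)
  have hK'v : Convex ℝ K' := by
    have : K' = (fun x => -z + x) '' K := by
      rw [hK']
      congr 1
      funext x
      abel
    rw [this]
    exact hc.translate (-z)
  have h2 : (Homeomorph.subRight z) '' (interior K) = interior K' :=
    (Homeomorph.subRight z).image_interior K
  have h3 := P12.zero_mem hK'c hK'v (by rw [← h2]; exact hi.image _) h1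
  rw [← h2] at h3
  obtain ⟨x, hx, hxz⟩ := h3
  have hxz' : x - z = 0 := hxz
  rw [← sub_eq_zero.1 hxz']
  exact hx

theorem vol_sub (z : F) (K : Set F) : volume ((fun x => x - z) '' K) = volume K := by
  have h1 : (fun x : F => x - z) '' K = (fun x => x + z) ⁻¹' K := by
    ext x
    rw [Set.mem_image, Set.mem_preimage]
    constructor
    · rintro ⟨y, hy, rfl⟩
      simpa using hy
    · intro hx
      exact ⟨x + z, hx, by simp⟩
  rw [h1, measure_preimage_add_right]

theorem pol_sub (z : F) (K : Set F) :
    {y : F | ∀ x ∈ (fun x => x - z) '' K, inner ℝ x y ≤ 1} = pol K z := by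
  ext y
  constructor
  · intro hy x hx
    exact hy (x - z) ⟨x, hx, rfl⟩
  · rintro hy _ ⟨x, hx, rfl⟩
    exact hy x hx

/-- the value at a simplex, with the centroid as centre -/
theorem val (h : S_final2) {v : Fin 4 → F} (hv : AffineIndependent ℝ v) :
    ∃ z ∈ interior (convexHull ℝ (Set.range v)),
      (volume (convexHull ℝ (Set.range v))).toReal *
        (volume (pol (convexHull ℝ (Set.range v)) z)).toReal = 64 / 9 := by
  set K : Set F := convexHull ℝ (Set.range v) with hKdef
  have hK : IsCompact K := (Set.finite_range v).isCompact_convexHull (𝕜 := ℝ)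
  have hc : Convex ℝ K := convex_convexHull ℝ _
  have hi : (interior K).Nonempty := by
    rw [hKdef, interior_convexHull_nonempty_iff_affineSpan_eq_top]
    exact hv.affineSpan_eq_top_iff_card_eq_finrank_add_one.2 (by simp)
  obtain ⟨z, hz, hz0⟩ := centroid hK hc hi
  refine ⟨z, hz, ?_⟩
  set K' : Set F := (fun x => x - z) '' K with hK'
  have hK'c : IsCompact K' := hK.image (by fun_prop)
  have hK'e : K' = convexHull ℝ (Set.range fun i => v i - z) := by
    have h1 : K' = (-z) +ᵥ K := by
      rw [hK']
      ext x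
      constructor
      · rintro ⟨y, hy, rfl⟩
        exact ⟨y, hy, by simp [sub_eq_neg_add]⟩
      · rintro ⟨y, hy, rfl⟩
        exact ⟨y, hy, by simp [sub_eq_neg_add]⟩
    rw [h1, hKdef, ← convexHull_vadd]
    congr 1
    ext x
    constructor
    · rintro ⟨_, ⟨i, rfl⟩, rfl⟩
      exact ⟨i, by simp [sub_eq_neg_add]⟩
    · rintro ⟨i, rfl⟩
      exact ⟨v i, ⟨i, rfl⟩, by simp [sub_eq_neg_add]⟩
  have hK'v : Convex ℝ K' := by
    rw [hK'e]
    exact convex_convexHull ℝ _
  have h2 : (Homeomorph.subRight z) '' (interior K) = interior K' :=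
    (Homeomorph.subRight z).image_interior K
  have hK'i : (interior K').Nonempty := by rw [← h2]; exact hi.image _
  have h3 := ((h K' hK'c hK'v hK'i hz0).2).2
    ⟨fun i => v i - z, by
      rw [hK'e] at hK'i
      exact affInd hK'i, hK'e⟩
  rw [hK', pol_sub, vol_sub] at h3
  exact h3

end P14

end H293M
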