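import Pool.Agent.H293R2.M3.Spec2

set_option autoImplicit false

open MeasureTheory Set

namespace H293M

namespace P2

/-- points of a tetrahedron have barycentric coordinates -/
theorem mem_tet {a b c e x : E} (hx : x ∈ tet a b c e) : ∃ la lb lc le : ℝ, 0 ≤ la ∧ 0 ≤ lb ∧
    0 ≤ lc ∧ 0 ≤ le ∧ la + lb + lc + le = 1 ∧ x = la • a + lb • b + lc • c + le • e := by
  have hsub : tet a b c e ⊆ {x : E | ∃ la lb lc le : ℝ, 0 ≤ la ∧ 0 ≤ lb ∧
    0 ≤ lc ∧ 0 ≤ le ∧ la + lb + lc + le = 1 ∧ x = la • a + lb • b + lc • c + le • e} := by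
    refine convexHull_min ?_ ?_
    · intro y hy
      simp only [mem_insert_iff, mem_singleton_iff] at hy
      rcases hy with rfl | rfl | rfl | rfl
      · exact ⟨1, 0, 0, 0, by norm_num, by norm_num, by norm_num, by norm_num, by norm_num, by simp⟩
      · exact ⟨0, 1, 0, 0, by norm_num, by norm_num, by norm_num, by norm_num, by norm_num, by simp⟩
      · exact ⟨0, 0, 1, 0, by norm_num, by norm_num, by norm_num, by norm_num, by norm_num, by simp⟩
      · exact ⟨0, 0, 0, 1, by norm_num, by norm_num, by norm_num, by norm_num, by norm_num, by simp⟩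
    · rintro y ⟨a1, b1, c1, e1, h1, h2, h3, h4, h5, rfl⟩ z ⟨a2, b2, c2, e2, k1, k2, k3, k4, k5, rfl⟩
        s t hs ht hst
      refine ⟨s * a1 + t * a2, s * b1 + t * b2, s * c1 + t * c2, s * e1 + t * e2, by positivity,
        by positivity, by positivity, by positivity, ?_, ?_⟩
      · calc s * a1 + t * a2 + (s * b1 + t * b2) + (s * c1 + t * c2) + (s * e1 + t * e2)
            = s * (a1 + b1 + c1 + e1) + t * (a2 + b2 + c2 + e2) := by ring
          _ = 1 := by rw [h5, k5]; linarith
      · module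
  exact hsub hx

theorem comb_mem {a b c e : E} {la lb lc le : ℝ} (h1 : 0 ≤ la) (h2 : 0 ≤ lb) (h3 : 0 ≤ lc)
    (h4 : 0 ≤ le) (h5 : la + lb + lc + le = 1) : la • a + lb • b + lc • c + le • e ∈ tet a b c e := by
  have hc : Convex ℝ (tet a b c e) := convex_convexHull ℝ _
  have := hc.sum_mem (t := Finset.univ) (w := ![la, lb, lc, le]) (z := ![a, b, c, e])
    (by
      intro i _
      fin_cases i
      · exact h1
      · exact h2
      · exact h3
      · exact h4)
    (by rw [Fin.sum_univ_four]; exact h5)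
    (by
      intro i _
      apply subset_convexHull
      fin_cases i <;> simp)
  rw [Fin.sum_univ_four] at this
  exact this

theorem vl_tet (h : S_simp) (a b c e : E) : vl (tet a b c e) = |d3 (a - e) (b - e) (c - e)| / 6 := by
  have : tet a b c e = convexHull ℝ {e, a, b, c} := by
    unfold tet
    congr 1
    ext x
    simp only [mem_insert_iff, mem_singleton_iff]
    tauto
  rw [this]
  exact h e a b c

theorem d3_smul (r s t : ℝ) (u v w : E) : d3 (r • u) (s • v) (t • w) = r * s * t * d3 u v w := by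
  simp only [d3, Prod.smul_fst, Prod.smul_snd, smul_eq_mul]
  ring

theorem eta {A B C M : ℝ} (h : 0 < A + B + C) : ∃ η : ℝ, 0 < η ∧ 0 ≤ 1 - η * M ∧ 0 < 1 + η * A ∧
    0 < 1 + η * B ∧ 0 < 1 + η * C ∧ 1 < (1 + η * A) * (1 + η * B) * (1 + η * C) := by
  have ev : ∀ (g : ℝ → ℝ), Continuous g → 0 < g 0 → ∀ᶠ η in nhdsWithin (0:ℝ) (Ioi 0), 0 < g η := by
    intro g hg h0
    exact (hg.tendsto 0).mono_left nhdsWithin_le_nhds (lt_mem_nhds h0)
  have h1 := ev (fun η => 1 - η * M) (by fun_prop) (by norm_num)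
  have h2 := ev (fun η => 1 + η * A) (by fun_prop) (by norm_num)
  have h3 := ev (fun η => 1 + η * B) (by fun_prop) (by norm_num)
  have h4 := ev (fun η => 1 + η * C) (by fun_prop) (by norm_num)
  have h5 := ev (fun η => (A + B + C) + η * (A * B + B * C + C * A) + η ^ 2 * (A * B * C))
    (by fun_prop) (by simpa using h)
  have h6 : ∀ᶠ η in nhdsWithin (0:ℝ) (Ioi 0), η ∈ Ioi (0:ℝ) := self_mem_nhdsWithin
  obtain ⟨η, k1, k2, k3, k4, k5, k6⟩ := (h1.and (h2.and (h3.and (h4.and (h5.and h6))))).exists
  have k6' : 0 < η := k6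
  refine ⟨η, k6', k1.le, k2, k3, k4, ?_⟩
  have e : (1 + η * A) * (1 + η * B) * (1 + η * C) =
      1 + η * ((A + B + C) + η * (A * B + B * C + C * A) + η ^ 2 * (A * B * C)) := by ring
  rw [e]
  have := mul_pos k6' k5
  linarith

end P2

open P2 in
theorem t_cent (h : S_simp) : S_cent := by
  intro K hK a b c e hsub hmin
  by_contra hg
  obtain ⟨f, u, hf1, hf2⟩ := geometric_hahn_banach_closed_point hK.cvx hK.cpt.isClosed hg
  have hsum : 0 < (f a - u) + (f b - u) + (f c - u) := by
    rw [map_smul, map_add, map_add, smul_eq_mul] at hf2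
    linarith
  obtain ⟨η, hη, h1, h2, h3, h4, h5⟩ := eta (M := |f e - u|) hsum
  set A := f a - u with hA
  set B := f b - u with hB
  set C := f c - u with hC
  -- the new tetrahedron
  set a' : E := e + (1 + η * A)⁻¹ • (a - e) with ha'
  set b' : E := e + (1 + η * B)⁻¹ • (b - e) with hb'
  set c' : E := e + (1 + η * C)⁻¹ • (c - e) with hc'
  have hK' : K ⊆ tet a' b' c' e := by
    intro x hx
    obtain ⟨la, lb, lc, le, p1, p2, p3, p4, p5, p6⟩ := mem_tet (hsub hx)
    have hfx : f x - u < 0 := by have := hf1 x hx; linarith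
    have hfx2 : f x - u = la * A + lb * B + lc * C + le * (f e - u) := by
      rw [p6, map_add, map_add, map_add, map_smul, map_smul, map_smul, map_smul, smul_eq_mul,
        smul_eq_mul, smul_eq_mul, smul_eq_mul, hA, hB, hC]
      have : u = (la + lb + lc + le) * u := by rw [p5, one_mul]
      linear_combination (-1 : ℝ) * this
    have hQ : la * A + lb * B + lc * C ≤ le * |f e - u| := by
      have : -(le * (f e - u)) ≤ le * |f e - u| := by
        have := mul_le_mul_of_nonneg_left (neg_abs_le (f e - u)) p4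
        linarith
      linarith
    have hpos : 0 ≤ le - η * (la * A + lb * B + lc * C) := by
      have e1 : η * (la * A + lb * B + lc * C) ≤ η * (le * |f e - u|) :=
        mul_le_mul_of_nonneg_left hQ hη.le
      have e2 : 0 ≤ le * (1 - η * |f e - u|) := mul_nonneg p4 h1
      linarith
    have e3 : x = (la * (1 + η * A)) • a' + (lb * (1 + η * B)) • b' + (lc * (1 + η * C)) • c' +
        (le - η * (la * A + lb * B + lc * C)) • e := by
      rw [p6, ha', hb', hc', smul_add, smul_add, smul_add, smul_smul, smul_smul, smul_smul,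
        mul_assoc, mul_assoc, mul_assoc, mul_inv_cancel₀ h2.ne', mul_inv_cancel₀ h3.ne',
        mul_inv_cancel₀ h4.ne']
      have e4 : le - η * (la * A + lb * B + lc * C) = 1 - la * (1 + η * A) - lb * (1 + η * B) -
        lc * (1 + η * C) := by linear_combination p5
      have e5 : le = 1 - la - lb - lc := by linarith
      rw [e4, e5]
      module
    rw [e3]
    refine comb_mem (mul_nonneg p1 h2.le) (mul_nonneg p2 h3.le) (mul_nonneg p3 h4.le) hpos ?_
    linear_combination p5
  have hv := hmin a' b' c' e hK'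
  rw [vl_tet h, vl_tet h] at hv
  have hd : d3 (a' - e) (b' - e) (c' - e) =
      (1 + η * A)⁻¹ * (1 + η * B)⁻¹ * (1 + η * C)⁻¹ * d3 (a - e) (b - e) (c - e) := by
    rw [ha', hb', hc', add_sub_cancel_left, add_sub_cancel_left, add_sub_cancel_left, d3_smul]
  -- the volume is positive
  have hvpos : 0 < vl (tet a b c e) := by
    unfold vl
    refine ENNReal.toReal_pos ?_ ?_
    · have h6 : 0 < volume (interior K) := isOpen_interior.measure_pos volume hK.int
      exact (h6.trans_le (measure_mono (interior_subset.trans hsub))).ne'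
    · have h7 : IsCompact (tet a b c e) := (Set.toFinite {a, b, c, e}).isCompact_convexHull ℝ
      exact h7.measure_lt_top.ne
  rw [vl_tet h] at hvpos
  have hpp : 0 < (1 + η * A)⁻¹ * (1 + η * B)⁻¹ * (1 + η * C)⁻¹ :=
    mul_pos (mul_pos (inv_pos.2 h2) (inv_pos.2 h3)) (inv_pos.2 h4)
  rw [hd, abs_mul, abs_of_pos hpp] at hv
  have hP : (1 + η * A)⁻¹ * (1 + η * B)⁻¹ * (1 + η * C)⁻¹ < 1 := by
    rw [← mul_inv, ← mul_inv]
    exact inv_lt_one_of_one_lt₀ h5
  have hD : 0 < |d3 (a - e) (b - e) (c - e)| := by linarith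
  have := mul_lt_mul_of_pos_right hP hD
  linarith

end H293M
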