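import Pool.Agent.H293R2.M3.Spec2

set_option autoImplicit false

open MeasureTheory Set

namespace H293M

namespace P3

/-- the linear map with given images of the coordinate vectors -/
noncomputable def lin (u v w : E) : E →ₗ[ℝ] E where
  toFun x := x.1 • u + x.2.1 • v + x.2.2 • w
  map_add' x y := by
    simp only [Prod.fst_add, Prod.snd_add, add_smul]
    abel
  map_smul' r x := by
    simp only [Prod.smul_fst, Prod.smul_snd, smul_eq_mul, mul_smul, RingHom.id_apply, smul_add]

/-- coordinates -/
noncomputable def coo : E ≃ₗ[ℝ] (Fin 3 → ℝ) where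
  toFun x := ![x.1, x.2.1, x.2.2]
  map_add' x y := by
    ext i
    fin_cases i <;> simp
  map_smul' r x := by
    ext i
    fin_cases i <;> simp
  invFun f := (f 0, f 1, f 2)
  left_inv x := by simp
  right_inv f := by
    ext i
    fin_cases i <;> simp

theorem det_lin (u v w : E) : LinearMap.det (lin u v w) = d3 u v w := by
  obtain ⟨b, hb⟩ : ∃ b, b = Module.Basis.ofEquivFun coo := ⟨_, rfl⟩
  rw [← LinearMap.det_toMatrix b, Matrix.det_fin_three]
  have hr : ∀ (x : E) (i : Fin 3), b.repr x i = coo x i := by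
    intro x i
    rw [hb]
    rfl
  have hb0 : b 0 = (1, 0, 0) := by
    rw [hb, Module.Basis.coe_ofEquivFun]
    simp [coo]
  have hb1 : b 1 = (0, 1, 0) := by
    rw [hb, Module.Basis.coe_ofEquivFun]
    simp [coo]
  have hb2 : b 2 = (0, 0, 1) := by
    rw [hb, Module.Basis.coe_ofEquivFun]
    simp [coo]
  simp only [LinearMap.toMatrix_apply, hr, hb0, hb1, hb2]
  simp [lin, coo, d3]
  ring

/-- the transposed map -/
noncomputable def linT (u v w : E) : E →ₗ[ℝ] E :=
  lin (u.1, v.1, w.1) (u.2.1, v.2.1, w.2.1) (u.2.2, v.2.2, w.2.2)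

theorem det_linT (u v w : E) : LinearMap.det (linT u v w) = d3 u v w := by
  unfold linT
  rw [det_lin]
  unfold d3
  ring

theorem dt_lin (u v w x y : E) : dt (lin u v w x) y = dt x (linT u v w y) := by
  unfold linT
  simp only [dt, lin, LinearMap.coe_mk, AddHom.coe_mk, Prod.fst_add, Prod.snd_add, Prod.smul_fst,
    Prod.smul_snd, smul_eq_mul]
  ring

end P3

open P3 in
theorem t_aff (h : S_simp) : S_aff := by
  intro a b c e hpos
  haveI h1 : (volume : Measure (ℝ × ℝ)).IsAddHaarMeasure := by
    rw [Measure.volume_eq_prod]; infer_instance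
  haveI h2 : (volume : Measure E).IsAddHaarMeasure := by
    rw [Measure.volume_eq_prod]; infer_instance
  have hv : 6 * vl (tet a b c e) = |d3 (b - a) (c - a) (e - a)| := by
    unfold tet
    rw [h a b c e]; ring
  have hD : d3 (b - a) (c - a) (e - a) ≠ 0 := by
    intro h0
    rw [h0, abs_zero] at hv
    linarith
  set D := d3 (b - a) (c - a) (e - a) with hDdef
  have hdet : LinearMap.det (lin (b - a) (c - a) (e - a)) ≠ 0 := by
    rw [det_lin]; exact hD
  have hdetT : LinearMap.det (linT (b - a) (c - a) (e - a)) ≠ 0 := by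
    rw [det_linT]; exact hD
  set M : E ≃ₗ[ℝ] E := LinearMap.equivOfDetNeZero (lin (b - a) (c - a) (e - a)) hdet with hM
  set T : E ≃ₗ[ℝ] E := LinearMap.equivOfDetNeZero (linT (b - a) (c - a) (e - a)) hdetT with hT
  have hMa : ∀ x, M x = lin (b - a) (c - a) (e - a) x := fun x => rfl
  have hTa : ∀ x, T x = linT (b - a) (c - a) (e - a) x := fun x => rfl
  have hMc : (M : E →ₗ[ℝ] E) = lin (b - a) (c - a) (e - a) := by
    ext x <;> rfl
  have hsd : LinearMap.det (M.symm : E →ₗ[ℝ] E) = D⁻¹ := by
    rw [LinearEquiv.det_coe_symm, hMc, det_lin]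
  set A : E ≃ᵃ[ℝ] E := (AffineEquiv.constVAdd ℝ E (-a)).trans M.symm.toAffineEquiv with hA
  have hAa : ∀ x, A x = M.symm (-a + x) := fun x => rfl
  have hvol : ∀ K : Set E, volume (A '' K) = ENNReal.ofReal |D⁻¹| * volume K := by
    intro K
    have h3 : A '' K = (M.symm : E →ₗ[ℝ] E) '' ((fun x => -a + x) '' K) := by
      rw [← image_comp]
      rfl
    rw [h3, Measure.addHaar_image_linearMap, hsd, image_add_left, measure_preimage_add]
  have hpol : ∀ (K : Set E) (z : E), polz (A '' K) (A z) =
      (linT (b - a) (c - a) (e - a)) '' polz K z := by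
    intro K z
    ext y
    constructor
    · intro hy
      refine ⟨T.symm y, ?_, ?_⟩
      · intro x hx
        have h3 := hy (A x) (mem_image_of_mem A hx)
        have h4 : A x - A z = M.symm (x - z) := by
          rw [hAa, hAa, ← map_sub]
          congr 1
          abel
        rw [h4] at h3
        have h5 : dt (x - z) (T.symm y) = dt (M.symm (x - z)) y := by
          have h6 := dt_lin (b - a) (c - a) (e - a) (M.symm (x - z)) (T.symm y)
          rw [← hMa, ← hTa, M.apply_symm_apply, T.apply_symm_apply] at h6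
          exact h6
        rw [h5]; exact h3
      · rw [← hTa, T.apply_symm_apply]
    · rintro ⟨y', hy', rfl⟩
      rintro _ ⟨x, hx, rfl⟩
      have h4 : A x - A z = M.symm (x - z) := by
        rw [hAa, hAa, ← map_sub]
        congr 1
        abel
      rw [h4, ← dt_lin, ← hMa, M.apply_symm_apply]
      exact hy' x hx
  refine ⟨A, ?_, ?_, ?_, ?_, ?_, ?_⟩
  · rw [hAa, neg_add_cancel, map_zero]; rfl
  · rw [hAa, LinearEquiv.symm_apply_eq, hMa]
    simp [lin]
    abel
  · rw [hAa, LinearEquiv.symm_apply_eq, hMa]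
    simp [lin]
    abel
  · rw [hAa, LinearEquiv.symm_apply_eq, hMa]
    simp [lin]
    abel
  · intro K
    rw [hv]
    unfold vl
    rw [hvol, ENNReal.toReal_mul, ENNReal.toReal_ofReal (abs_nonneg _), abs_inv]
    have : |D| ≠ 0 := abs_ne_zero.mpr hD
    field_simp
  · intro K z
    unfold vl
    rw [hpol, hvol, Measure.addHaar_image_linearMap, det_linT, ENNReal.toReal_mul,
      ENNReal.toReal_mul, ENNReal.toReal_ofReal (abs_nonneg _),
      ENNReal.toReal_ofReal (abs_nonneg _), abs_inv, ← hDdef]
    have : |D| ≠ 0 := abs_ne_zero.mpr hD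
    field_simp

end H293M
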