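import Pool.Agent.H293R2.M3.Spec2

/-!
Task P4: bodies that are near to a tetrahedron but not very near.
-/

set_option autoImplicit false

open MeasureTheory Set

namespace H293M

namespace P4

/-- points of a tetrahedron -/
theorem mem_tet {a b c e x : E} : x ∈ tet a b c e ↔ ∃ l0 l1 l2 l3 : ℝ, 0 ≤ l0 ∧ 0 ≤ l1 ∧ 0 ≤ l2 ∧
    0 ≤ l3 ∧ l0 + l1 + l2 + l3 = 1 ∧ x = l0 • a + l1 • b + l2 • c + l3 • e := by
  constructor
  · intro hx
    have hc : Convex ℝ {x : E | ∃ l0 l1 l2 l3 : ℝ, 0 ≤ l0 ∧ 0 ≤ l1 ∧ 0 ≤ l2 ∧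
        0 ≤ l3 ∧ l0 + l1 + l2 + l3 = 1 ∧ x = l0 • a + l1 • b + l2 • c + l3 • e} := by
      rintro x ⟨l0, l1, l2, l3, h0, h1, h2, h3, hs, rfl⟩ y ⟨m0, m1, m2, m3, k0, k1, k2, k3, ks, rfl⟩
        p q hp hq hpq
      refine ⟨p * l0 + q * m0, p * l1 + q * m1, p * l2 + q * m2, p * l3 + q * m3,
        by positivity, by positivity, by positivity, by positivity, ?_, ?_⟩
      · linear_combination p * hs + q * ks + hpq
      · module
    refine convexHull_min ?_ hc hx
    rintro y (rfl | rfl | rfl | rfl)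
    · exact ⟨1, 0, 0, 0, by norm_num, by norm_num, by norm_num, by norm_num, by norm_num, by simp⟩
    · exact ⟨0, 1, 0, 0, by norm_num, by norm_num, by norm_num, by norm_num, by norm_num, by simp⟩
    · exact ⟨0, 0, 1, 0, by norm_num, by norm_num, by norm_num, by norm_num, by norm_num, by simp⟩
    · exact ⟨0, 0, 0, 1, by norm_num, by norm_num, by norm_num, by norm_num, by norm_num, by simp⟩
  · rintro ⟨l0, l1, l2, l3, h0, h1, h2, h3, hs, rfl⟩
    have h := (convex_convexHull ℝ ({a, b, c, e} : Set E)).sum_mem (t := Finset.univ)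
      (w := ![l0, l1, l2, l3]) (z := ![a, b, c, e])
      (by intro i _; fin_cases i <;> assumption)
      (by simp [Fin.sum_univ_four, hs])
      (by
        intro i _
        apply subset_convexHull
        fin_cases i <;> simp)
    simpa [Fin.sum_univ_four, tet] using h

/-- a tetrahedron is compact -/
theorem tet_compact (a b c e : E) : IsCompact (tet a b c e) :=
  Set.Finite.isCompact_convexHull (𝕜 := ℝ) (by simp)

theorem tet_fin (a b c e : E) : volume (tet a b c e) ≠ ⊤ := (tet_compact a b c e).measure_lt_top.ne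

/-- the standard tetrahedron as a convex hull -/
theorem tet_std : tet (0, 0, 0) (1, 0, 0) (0, 1, 0) (0, 0, 1) = Dl := by
  ext x
  rw [mem_tet]
  constructor
  · rintro ⟨l0, l1, l2, l3, h0, h1, h2, h3, hs, rfl⟩
    refine ⟨?_, ?_, ?_, ?_⟩ <;> simp <;> linarith
  · rintro ⟨h1, h2, h3, h4⟩
    refine ⟨1 - x.1 - x.2.1 - x.2.2, x.1, x.2.1, x.2.2, by linarith, h1, h2, h3, by ring, ?_⟩
    refine Prod.ext ?_ (Prod.ext ?_ ?_) <;> simp

/-- the vertices -/
def vx : Fin 4 → E := ![(0, 0, 0), (1, 0, 0), (0, 1, 0), (0, 0, 1)]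

theorem lam_nonneg {x : E} (hx : x ∈ Dl) (i : Fin 4) : 0 ≤ lam x i := by
  obtain ⟨h1, h2, h3, h4⟩ := hx
  fin_cases i <;> simp [lam] <;> linarith

theorem lam_sum (x : E) : ∑ i, lam x i = 1 := by
  simp [Fin.sum_univ_four, lam]
  ring

theorem lam_one {x : E} (hx : x ∈ Dl) {i : Fin 4} (h : 1 ≤ lam x i) : x = vx i := by
  obtain ⟨h1, h2, h3, h4⟩ := hx
  fin_cases i
  · have h : 1 ≤ 1 - x.1 - x.2.1 - x.2.2 := h
    refine Prod.ext ?_ (Prod.ext ?_ ?_) <;> simp [vx] <;> linarith
  · have h : 1 ≤ x.1 := h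
    refine Prod.ext ?_ (Prod.ext ?_ ?_) <;> simp [vx] <;> linarith
  · have h : 1 ≤ x.2.1 := h
    refine Prod.ext ?_ (Prod.ext ?_ ?_) <;> simp [vx] <;> linarith
  · have h : 1 ≤ x.2.2 := h
    refine Prod.ext ?_ (Prod.ext ?_ ?_) <;> simp [vx] <;> linarith

theorem lam_homothety (i : Fin 4) (r : ℝ) (w : E) (j : Fin 4) :
    lam (AffineMap.homothety (vx i) r w) j = (1 - r) * lam (vx i) j + r * lam w j := by
  have h : AffineMap.homothety (vx i) r w = r • (w - vx i) + vx i := by
    rw [AffineMap.homothety_apply]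
    rfl
  rw [h]
  fin_cases j <;> simp [lam] <;> ring

theorem lam_vx (i : Fin 4) : lam (vx i) i = 1 := by
  fin_cases i <;> simp [lam, vx]

theorem continuous_lam (i : Fin 4) : Continuous fun x : E => lam x i := by
  fin_cases i
  · change Continuous fun x : E => 1 - x.1 - x.2.1 - x.2.2
    fun_prop
  · change Continuous fun x : E => x.1
    fun_prop
  · change Continuous fun x : E => x.2.1
    fun_prop
  · change Continuous fun x : E => x.2.2
    fun_prop

theorem vx_mem (i : Fin 4) : vx i ∈ Dl := by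
  fin_cases i <;> simp [vx, Dl]

theorem convex_Dl : Convex ℝ Dl := by
  rw [← tet_std]
  exact convex_convexHull ℝ _

theorem Dl_compact : IsCompact Dl := by
  rw [← tet_std]
  exact tet_compact _ _ _ _

theorem haar2 : (volume : Measure (ℝ × ℝ)).IsAddHaarMeasure :=
  Measure.prod.instIsAddHaarMeasure volume volume

theorem haar3 : (volume : Measure E).IsAddHaarMeasure :=
  haveI := haar2
  Measure.prod.instIsAddHaarMeasure volume volume

/-- the corner bound -/
theorem corner {K : Set E} (hK : K ⊆ Dl) (hv : vl Dl = 1 / 6) {r : ℝ} (hr0 : 0 < r) (hr1 : r ≤ 1)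
    {i : Fin 4} (h : ∀ x ∈ K, r < 1 - lam x i) : 6 * vl K + r ^ 3 ≤ 1 := by
  obtain ⟨C, hC⟩ : ∃ C : Set E, C = AffineMap.homothety (vx i) r '' Dl := ⟨_, rfl⟩
  have hCc : IsCompact C := by
    rw [hC]
    exact Dl_compact.image (AffineMap.homothety_continuous _ _)
  have hCD : C ⊆ Dl := by
    rw [hC]
    rintro _ ⟨w, hw, rfl⟩
    have h' : AffineMap.homothety (vx i) r w = (1 - r) • vx i + r • w := by
      rw [AffineMap.homothety_apply]
      simp only [vsub_eq_sub, vadd_eq_add]
      module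
    rw [h']
    exact convex_Dl (vx_mem i) hw (by linarith) hr0.le (by ring)
  have hdis : Disjoint K C := by
    rw [Set.disjoint_left]
    intro x hx hxC
    rw [hC] at hxC
    obtain ⟨w, hw, rfl⟩ := hxC
    have h1 := h _ hx
    rw [lam_homothety, lam_vx] at h1
    have h2 := lam_nonneg hw i
    have h3 := mul_nonneg hr0.le h2
    linarith
  have hvC : vl C = r ^ 3 * vl Dl := by
    rw [hC]
    unfold vl
    haveI := haar3
    rw [Measure.addHaar_image_homothety]
    have : Module.finrank ℝ E = 3 := by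
      simp [E]
    rw [this, ENNReal.toReal_mul, ENNReal.toReal_ofReal (abs_nonneg _),
      abs_of_nonneg (by positivity)]
  have hfin : volume Dl ≠ ⊤ := Dl_compact.measure_lt_top.ne
  have hle : vl K + vl C ≤ vl Dl := by
    unfold vl
    rw [← ENNReal.toReal_add ((measure_mono hK).trans_lt hfin.lt_top).ne
      hCc.measure_lt_top.ne, ← measure_union hdis hCc.isClosed.measurableSet]
    exact ENNReal.toReal_mono hfin (measure_mono (union_subset hK hCD))
  rw [hvC, hv] at hle
  linarith

end P4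

open P4 in
/-- task P4 -/
theorem t_LT (h1 : S_minsimp) (h2 : S_cent) (h3 : S_aff) (h4 : S_loc) : S_LT := by
  intro K hK hnear d hd0 hd1 hfar z hz
  obtain ⟨a, b, c, e, hsub, hmin⟩ := h1 hK
  have hKfin : volume K ≠ ⊤ := hK.cpt.measure_lt_top.ne
  have hKpos : 0 < vl K := by
    have : 0 < volume K :=
      lt_of_lt_of_le (isOpen_interior.measure_pos volume hK.int) (measure_mono interior_subset)
    exact ENNReal.toReal_pos this.ne' hKfin
  have hle : vl (tet a b c e) ≤ (1 + 2 * d1) * vl K := by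
    obtain ⟨a', b', c', e', hs', hv'⟩ := hnear
    exact (hmin a' b' c' e' hs').trans hv'
  have hgt : (1 + d) * vl K < vl (tet a b c e) := by
    by_contra hc
    push Not at hc
    exact hfar ⟨a, b, c, e, hsub, hc⟩
  have hTpos : 0 < vl (tet a b c e) :=
    lt_of_lt_of_le hKpos (ENNReal.toReal_mono (tet_fin _ _ _ _) (measure_mono hsub))
  obtain ⟨A, Aa, Ab, Ac, Ae, hAv, hAp⟩ := h3 hTpos
  have hAimg : ∀ a' b' c' e' : E, A '' tet a' b' c' e' = tet (A a') (A b') (A c') (A e') := by
    intro a' b' c' e'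
    have := AffineMap.image_convexHull (A : E →ᵃ[ℝ] E) ({a', b', c', e'} : Set E)
    unfold tet
    rw [show (A '' (convexHull ℝ) {a', b', c', e'} : Set E) =
      (A : E →ᵃ[ℝ] E) '' (convexHull ℝ) {a', b', c', e'} from rfl, this]
    congr 1
    simp [Set.image_insert_eq]
  have hAD : A '' tet a b c e = Dl := by
    rw [hAimg, Aa, Ab, Ac, Ae, tet_std]
  have hcont : Continuous A := (AffineEquiv.toHomeomorphOfFiniteDimensional A).continuous
  obtain ⟨K', hK'⟩ : ∃ K' : Set E, K' = A '' K := ⟨_, rfl⟩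
  have hKD : K' ⊆ Dl := by
    rw [hK', ← hAD]
    exact Set.image_mono hsub
  have hK'int : interior K' = A '' interior K := by
    rw [hK']
    exact ((AffineEquiv.toHomeomorphOfFiniteDimensional A).image_interior K).symm
  have hBd : Bd K' := by
    refine ⟨?_, ?_, ?_⟩
    · rw [hK']; exact hK.cpt.image hcont
    · rw [hK']; exact hK.cvx.affine_image (A : E →ᵃ[ℝ] E)
    · rw [hK'int]; exact hK.int.image _
  have hvDl : vl Dl = 1 / 6 := by
    have := hAv (tet a b c e)
    rw [hAD] at this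
    have h' : (vl Dl * 6 - 1) * vl (tet a b c e) = 0 := by linarith
    have := (mul_eq_zero.mp h').resolve_right hTpos.ne'
    linarith
  have hvK' : vl K' * (6 * vl (tet a b c e)) = vl K := by rw [hK']; exact hAv K
  -- the centroids of the facets
  have hcomb : ∀ p q r : E, A ((1 / 3 : ℝ) • (p + q + r)) = (1 / 3 : ℝ) • (A p + A q + A r) := by
    intro p q r
    have hlin : ∀ y : E, A y = A.linear y + A 0 := by
      intro y
      have := A.map_vadd 0 y
      simpa using this
    rw [hlin, hlin p, hlin q, hlin r, map_smul, map_add, map_add]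
    module
  have hperm : ∀ a' b' c' e' : E, ({a', b', c', e'} : Set E) = {a, b, c, e} →
      (1 / 3 : ℝ) • (a' + b' + c') ∈ K := by
    intro a' b' c' e' heq
    have ht : tet a' b' c' e' = tet a b c e := by unfold tet; rw [heq]
    exact h2 hK (a := a') (b := b') (c := c') (e := e') (by rw [ht]; exact hsub)
      (by rw [ht]; exact hmin)
  have hcent : ∀ j, ∃ x ∈ K', ∀ k, lam x k = if k = j then 0 else 1 / 3 := by
    intro j
    fin_cases j
    · refine ⟨A ((1 / 3 : ℝ) • (b + c + e)), ?_, ?_⟩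
      · rw [hK']
        exact Set.mem_image_of_mem _ (hperm b c e a (by
          ext x; simp only [Set.mem_insert_iff, Set.mem_singleton_iff]; tauto))
      · rw [hcomb, Ab, Ac, Ae]
        intro k
        fin_cases k <;> simp [lam] <;> norm_num
    · refine ⟨A ((1 / 3 : ℝ) • (a + c + e)), ?_, ?_⟩
      · rw [hK']
        exact Set.mem_image_of_mem _ (hperm a c e b (by
          ext x; simp only [Set.mem_insert_iff, Set.mem_singleton_iff]; tauto))
      · rw [hcomb, Aa, Ac, Ae]
        intro k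
        fin_cases k <;> simp [lam] <;> norm_num
    · refine ⟨A ((1 / 3 : ℝ) • (a + b + e)), ?_, ?_⟩
      · rw [hK']
        exact Set.mem_image_of_mem _ (hperm a b e c (by
          ext x; simp only [Set.mem_insert_iff, Set.mem_singleton_iff]; tauto))
      · rw [hcomb, Aa, Ab, Ae]
        intro k
        fin_cases k <;> simp [lam] <;> norm_num
    · refine ⟨A ((1 / 3 : ℝ) • (a + b + c)), ?_, ?_⟩
      · rw [hK']
        exact Set.mem_image_of_mem _ (hperm a b c e rfl)
      · rw [hcomb, Aa, Ab, Ac]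
        intro k
        fin_cases k <;> simp [lam] <;> norm_num
  -- the minima of `1 - lam x i`
  have hne : K'.Nonempty := hBd.int.mono interior_subset
  have hmin' : ∀ i : Fin 4, ∃ x ∈ K', ∀ y ∈ K', 1 - lam x i ≤ 1 - lam y i := by
    intro i
    obtain ⟨x, hx, hxm⟩ := hBd.cpt.exists_isMinOn hne
      (continuous_const.sub (continuous_lam i)).continuousOn (f := fun x : E => (1 : ℝ) - lam x i)
    exact ⟨x, hx, fun y hy => hxm hy⟩
  choose X hX hXm using hmin'
  obtain ⟨i0, -, hi0⟩ := Finset.exists_max_image (Finset.univ : Finset (Fin 4))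
    (fun i => 1 - lam (X i) i) ⟨0, Finset.mem_univ _⟩
  obtain ⟨ε, hε⟩ : ∃ ε, ε = 1 - lam (X i0) i0 := ⟨_, rfl⟩
  have hεall : ∀ i, ∃ x ∈ K', 1 - lam x i ≤ ε := by
    intro i
    exact ⟨X i, hX i, by rw [hε]; exact hi0 i (Finset.mem_univ _)⟩
  have hεex : ∀ x ∈ K', ε ≤ 1 - lam x i0 := by
    intro x hx
    rw [hε]
    exact hXm i0 x hx
  have hε0 : 0 < ε := by
    by_contra hc
    push Not at hc
    have hall : ∀ i, vx i ∈ K' := by
      intro i
      obtain ⟨x, hx, hxi⟩ := hεall i
      have := lam_one (hKD hx) (i := i) (by linarith)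
      rw [← this]
      exact hx
    have hDK : Dl ⊆ K' := by
      rw [← tet_std]
      refine convexHull_min ?_ hBd.cvx
      rintro y (rfl | rfl | rfl | rfl)
      · exact hall 0
      · exact hall 1
      · exact hall 2
      · exact hall 3
    have hKe : K' = Dl := hKD.antisymm hDK
    rw [hKe, hvDl] at hvK'
    nlinarith
  have hr6 : 1 ≤ (1 + 2 * d1) * (6 * vl K') := by
    by_contra hc
    push Not at hc
    have := mul_lt_mul_of_pos_right hc hTpos
    have h' : (1 + 2 * d1) * (6 * vl K') * vl (tet a b c e) = (1 + 2 * d1) * vl K := by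
      rw [← hvK']; ring
    rw [h', one_mul] at this
    linarith
  have hεle : ε ≤ 1 / 10 ^ 12 := by
    by_contra hc
    push Not at hc
    have := corner hKD hvDl (r := 1 / 10 ^ 12) (by norm_num) (by norm_num) (i := i0)
      (fun x hx => lt_of_lt_of_le hc (hεex x hx))
    have h6 : 6 * vl K' ≤ 1 - (1 / 10 ^ 12) ^ 3 := by linarith
    have h7 : (1 + 2 * d1) * (6 * vl K') ≤ (1 + 2 * d1) * (1 - (1 / 10 ^ 12) ^ 3) :=
      mul_le_mul_of_nonneg_left h6 (by unfold d1; positivity)
    have h8 : (1 + 2 * d1) * (1 - (1 / 10 ^ 12) ^ 3 : ℝ) < 1 := by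
      unfold d1
      norm_num
    linarith
  obtain ⟨g1, g2⟩ := h4 hBd hKD hcent hε0 hεle hεall ⟨i0, hεex⟩
  have hlt : (1 + d) * (6 * vl K') < 1 := by
    by_contra hc
    push Not at hc
    have := mul_le_mul_of_nonneg_right hc hTpos.le
    have h' : (1 + d) * (6 * vl K') * vl (tet a b c e) = (1 + d) * vl K := by
      rw [← hvK']; ring
    rw [h', one_mul] at this
    linarith
  have hdε : d ≤ 34 * ε := by
    have h9 : (1 + d) * (1 - 17 * ε) < 1 :=
      lt_of_le_of_lt (mul_le_mul_of_nonneg_left g1 (by linarith)) hlt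
    nlinarith
  have hzA : A z ∈ interior K' := by
    rw [hK'int]
    exact Set.mem_image_of_mem _ hz
  have hfinal := g2 (A z) hzA
  rw [hK', hAp K z] at hfinal
  refine le_trans ?_ hfinal
  have : d / 2000 ≤ ε / 40 := by linarith
  linarith

end H293M
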