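import Pool.Agent.H293R2.M3.Spec2

/-!
Task P5: polarity and nearness.
-/

set_option autoImplicit false

open MeasureTheory Set

namespace H293M

namespace P5

/-- points of a tetrahedron -/
theorem mem_tet {a b c e x : E} : x ∈ tet a b c e ↔ ∃ l0 l1 l2 l3 : ℝ, 0 ≤ l0 ∧ 0 ≤ l1 ∧ 0 ≤ l2 ∧
    0 ≤ l3 ∧ l0 + l1 + l2 + l3 = 1 ∧ x = l0 • a + l1 • b + l2 • c + l3 • e := by
  constructor
  · intro hx
    have hc : Convex ℝ {x : E | ∃ l0 l1 l2 l3 : ℝ, 0 ≤ l0 ∧ 0 ≤ l1 ∧ 0 ≤ l2 ∧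
        0 ≤ l3 ∧ l0 + l1 + l2 + l3 = 1 ∧ x = l0 • a + l1 • b + l2 • c + l3 • e} := by
      rintro x ⟨l0, l1, l2, l3, h0, h1, h2, h3, hs, rfl⟩ y ⟨m0, m1, m2, m3, k0, k1, k2, k3, ks, rfl⟩
        p q hp hq hpq
      refine ⟨p * l0 + q * m0, p * l1 + q * m1, p * l2 + q * m2, p * l3 + q * m3,
        by positivity, by positivity, by positivity, by positivity, ?_, ?_⟩
      · linear_combination p * hs + q * ks + hpq
      · module
    refine convexHull_min ?_ hc hx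
    rintro y (rfl | rfl | rfl | rfl)
    · exact ⟨1, 0, 0, 0, by norm_num, by norm_num, by norm_num, by norm_num, by norm_num, by simp⟩
    · exact ⟨0, 1, 0, 0, by norm_num, by norm_num, by norm_num, by norm_num, by norm_num, by simp⟩
    · exact ⟨0, 0, 1, 0, by norm_num, by norm_num, by norm_num, by norm_num, by norm_num, by simp⟩
    · exact ⟨0, 0, 0, 1, by norm_num, by norm_num, by norm_num, by norm_num, by norm_num, by simp⟩
  · rintro ⟨l0, l1, l2, l3, h0, h1, h2, h3, hs, rfl⟩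
    have h := (convex_convexHull ℝ ({a, b, c, e} : Set E)).sum_mem (t := Finset.univ)
      (w := ![l0, l1, l2, l3]) (z := ![a, b, c, e])
      (by intro i _; fin_cases i <;> assumption)
      (by simp [Fin.sum_univ_four, hs])
      (by
        intro i _
        apply subset_convexHull
        fin_cases i <;> simp)
    simpa [Fin.sum_univ_four, tet] using h

/-- a tetrahedron is compact -/
theorem tet_compact (a b c e : E) : IsCompact (tet a b c e) :=
  Set.Finite.isCompact_convexHull (𝕜 := ℝ) (by simp)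

theorem tet_fin (a b c e : E) : volume (tet a b c e) ≠ ⊤ := (tet_compact a b c e).measure_lt_top.ne

theorem d3_bary {p q r s x : E} {l0 l1 l2 l3 : ℝ} (hs : l0 + l1 + l2 + l3 = 1)
    (hx : x = l0 • p + l1 • q + l2 • r + l3 • s) :
    d3 (q - x) (r - x) (s - x) = l0 * d3 (q - p) (r - p) (s - p) := by
  have h3 : l3 = 1 - l0 - l1 - l2 := by linarith
  subst hx
  subst h3
  simp only [d3, Prod.fst_sub, Prod.snd_sub, Prod.fst_add, Prod.snd_add, Prod.smul_fst,
    Prod.smul_snd, smul_eq_mul]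
  ring

/-- a convex set slightly larger than a tetrahedron inside it -/
theorem coord_ge (h3 : S_simp) {p q r s : E} (hpos : 0 < vl (tet p q r s)) {Q : Set E}
    (hQ : Convex ℝ Q) (hf : volume Q ≠ ⊤) (hp : p ∈ Q) (hq : q ∈ Q) (hr : r ∈ Q) (hs : s ∈ Q)
    {η : ℝ} (hη : vl Q ≤ (1 + η) * vl (tet p q r s)) {y : E} (hy : y ∈ Q)
    {l0 l1 l2 l3 : ℝ} (hl : l0 + l1 + l2 + l3 = 1)
    (hyl : y = l0 • p + l1 • q + l2 • r + l3 • s) : -η ≤ l0 := by
  have hv : ∀ a b c e : E, vl (tet a b c e) = |d3 (b - a) (c - a) (e - a)| / 6 := h3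
  have hN : d3 (q - p) (r - p) (s - p) ≠ 0 := by
    intro h
    rw [hv, h] at hpos
    simp at hpos
  have hsub1 : tet p q r s ⊆ Q := by
    refine convexHull_min ?_ hQ
    rintro x (rfl | rfl | rfl | rfl) <;> assumption
  have hη0 : 0 ≤ η := by
    have h1 : vl (tet p q r s) ≤ vl Q := ENNReal.toReal_mono hf (measure_mono hsub1)
    by_contra hc
    push Not at hc
    nlinarith
  by_contra hc
  push Not at hc
  have hl0 : l0 < 0 := by linarith
  have hsub2 : tet y q r s ⊆ Q := by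
    refine convexHull_min ?_ hQ
    rintro x (rfl | rfl | rfl | rfl) <;> assumption
  have hv2 : vl (tet y q r s) = -l0 * vl (tet p q r s) := by
    rw [hv, hv, d3_bary hl hyl, abs_mul, abs_of_neg hl0]
    ring
  have hint : tet p q r s ∩ tet y q r s ⊆ tet q r s s := by
    rintro x ⟨hx1, hx2⟩
    obtain ⟨m0, m1, m2, m3, k0, k1, k2, k3, ks, hx⟩ := mem_tet.mp hx1
    obtain ⟨n0, n1, n2, n3, j0, j1, j2, j3, js, hx'⟩ := mem_tet.mp hx2
    have e1 := d3_bary ks hx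
    have e2 := d3_bary js hx'
    rw [d3_bary hl hyl] at e2
    have e3 : (m0 - n0 * l0) * d3 (q - p) (r - p) (s - p) = 0 := by
      rw [sub_mul, ← e1, e2]; ring
    have e4 : m0 = n0 * l0 := by
      have := (mul_eq_zero.mp e3).resolve_right hN
      linarith
    have e5 : m0 = 0 := by
      have : n0 * l0 ≤ 0 := mul_nonpos_of_nonneg_of_nonpos j0 hl0.le
      linarith
    rw [mem_tet]
    refine ⟨m1, m2, m3, 0, k1, k2, k3, le_refl _, by rw [e5] at ks; linarith, ?_⟩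
    rw [hx, e5]
    simp
  have hnull : volume (tet q r s s) = 0 := by
    have h0 : vl (tet q r s s) = 0 := by
      rw [hv]
      have : d3 (r - q) (s - q) (s - q) = 0 := by
        unfold d3
        ring
      rw [this]
      simp
    unfold vl at h0
    rcases (ENNReal.toReal_eq_zero_iff _).mp h0 with h | h
    · exact h
    · exact absurd h (tet_fin q r s s)
  have hnull2 : volume (tet p q r s ∩ tet y q r s) = 0 :=
    measure_mono_null hint hnull
  have hun : volume (tet p q r s ∪ tet y q r s) = volume (tet p q r s) + volume (tet y q r s) := by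
    have := measure_union_add_inter (μ := volume) (tet p q r s)
      (tet_compact y q r s).isClosed.measurableSet
    rw [hnull2, add_zero] at this
    exact this
  have hle : vl (tet p q r s) + vl (tet y q r s) ≤ vl Q := by
    unfold vl
    rw [← ENNReal.toReal_add (tet_fin _ _ _ _) (tet_fin _ _ _ _), ← hun]
    exact ENNReal.toReal_mono hf (measure_mono (union_subset hsub1 hsub2))
  rw [hv2] at hle
  nlinarith

/-- barycentric coordinates -/
theorem exists_bary {p q r s : E} (hN : d3 (q - p) (r - p) (s - p) ≠ 0) (y : E) :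
    ∃ l0 l1 l2 l3 : ℝ, l0 + l1 + l2 + l3 = 1 ∧ y = l0 • p + l1 • q + l2 • r + l3 • s := by
  obtain ⟨N, hN'⟩ : ∃ N, N = d3 (q - p) (r - p) (s - p) := ⟨_, rfl⟩
  rw [← hN'] at hN
  have hsum : d3 (y - p) (r - p) (s - p) • (q - p) + d3 (q - p) (y - p) (s - p) • (r - p) +
      d3 (q - p) (r - p) (y - p) • (s - p) = N • (y - p) := by
    rw [hN']
    simp only [d3, Prod.fst_sub, Prod.snd_sub]
    refine Prod.ext ?_ (Prod.ext ?_ ?_) <;>
    · simp only [Prod.fst_sub, Prod.snd_sub, Prod.fst_add, Prod.snd_add, Prod.smul_fst,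
        Prod.smul_snd, smul_eq_mul]
      ring
  obtain ⟨l1, h1⟩ : ∃ l1, l1 = d3 (y - p) (r - p) (s - p) / N := ⟨_, rfl⟩
  obtain ⟨l2, h2⟩ : ∃ l2, l2 = d3 (q - p) (y - p) (s - p) / N := ⟨_, rfl⟩
  obtain ⟨l3, h3⟩ : ∃ l3, l3 = d3 (q - p) (r - p) (y - p) / N := ⟨_, rfl⟩
  refine ⟨1 - l1 - l2 - l3, l1, l2, l3, by ring, ?_⟩
  have h : y - p = l1 • (q - p) + l2 • (r - p) + l3 • (s - p) := by
    have h' : y - p = N⁻¹ • (N • (y - p)) := by rw [smul_smul, inv_mul_cancel₀ hN, one_smul]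
    rw [h', ← hsum, h1, h2, h3]
    simp only [smul_add, smul_smul, div_eq_inv_mul]
  have h' : y = p + (l1 • (q - p) + l2 • (r - p) + l3 • (s - p)) := by rw [← h]; abel
  rw [h']
  module

/-- the dilated tetrahedron -/
theorem dilate (h3 : S_simp) {p q r s : E} (hpos : 0 < vl (tet p q r s)) {Q : Set E}
    (hQ : Convex ℝ Q) (hf : volume Q ≠ ⊤) (hp : p ∈ Q) (hq : q ∈ Q) (hr : r ∈ Q) (hs : s ∈ Q)
    {η : ℝ} (hη0 : 0 ≤ η) (hη : vl Q ≤ (1 + η) * vl (tet p q r s)) :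
    ∃ a b c e : E, Q ⊆ tet a b c e ∧ vl (tet a b c e) = (1 + 4 * η) ^ 3 * vl (tet p q r s) := by
  have hv : ∀ a b c e : E, vl (tet a b c e) = |d3 (b - a) (c - a) (e - a)| / 6 := h3
  have hN : d3 (q - p) (r - p) (s - p) ≠ 0 := by
    intro h
    rw [hv, h] at hpos
    simp at hpos
  refine ⟨(1 + 4 * η) • p - η • (p + q + r + s), (1 + 4 * η) • q - η • (p + q + r + s),
    (1 + 4 * η) • r - η • (p + q + r + s), (1 + 4 * η) • s - η • (p + q + r + s), ?_, ?_⟩
  · intro y hy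
    obtain ⟨l0, l1, l2, l3, hl, hyl⟩ := exists_bary hN y
    have t1 : tet q p r s = tet p q r s := by
      unfold tet; rw [Set.insert_comm]
    have t2 : tet r p q s = tet p q r s := by
      unfold tet; congr 1; ext x; simp only [Set.mem_insert_iff, Set.mem_singleton_iff]; tauto
    have t3 : tet s p q r = tet p q r s := by
      unfold tet; congr 1; ext x; simp only [Set.mem_insert_iff, Set.mem_singleton_iff]; tauto
    have g0 : -η ≤ l0 := coord_ge h3 hpos hQ hf hp hq hr hs hη hy hl hyl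
    have g1 : -η ≤ l1 := coord_ge h3 (by rw [t1]; exact hpos) hQ hf hq hp hr hs
      (by rw [t1]; exact hη) hy (l1 := l0) (l2 := l2) (l3 := l3) (by linarith)
      (by rw [hyl]; module)
    have g2 : -η ≤ l2 := coord_ge h3 (by rw [t2]; exact hpos) hQ hf hr hp hq hs
      (by rw [t2]; exact hη) hy (l1 := l0) (l2 := l1) (l3 := l3) (by linarith)
      (by rw [hyl]; module)
    have g3 : -η ≤ l3 := coord_ge h3 (by rw [t3]; exact hpos) hQ hf hs hp hq hr
      (by rw [t3]; exact hη) hy (l1 := l0) (l2 := l1) (l3 := l2) (by linarith)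
      (by rw [hyl]; module)
    rw [mem_tet]
    have hc : 0 < 1 + 4 * η := by linarith
    have m0 : (l0 + η) / (1 + 4 * η) * (1 + 4 * η) = l0 + η := div_mul_cancel₀ _ hc.ne'
    have m1 : (l1 + η) / (1 + 4 * η) * (1 + 4 * η) = l1 + η := div_mul_cancel₀ _ hc.ne'
    have m2 : (l2 + η) / (1 + 4 * η) * (1 + 4 * η) = l2 + η := div_mul_cancel₀ _ hc.ne'
    have m3 : (l3 + η) / (1 + 4 * η) * (1 + 4 * η) = l3 + η := div_mul_cancel₀ _ hc.ne'
    have ms : (l0 + η) / (1 + 4 * η) + (l1 + η) / (1 + 4 * η) + (l2 + η) / (1 + 4 * η) +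
        (l3 + η) / (1 + 4 * η) = 1 := by
      rw [← add_div, ← add_div, ← add_div, div_eq_one_iff_eq hc.ne']
      linarith
    have n0 : 0 ≤ (l0 + η) / (1 + 4 * η) := div_nonneg (by linarith) hc.le
    have n1 : 0 ≤ (l1 + η) / (1 + 4 * η) := div_nonneg (by linarith) hc.le
    have n2 : 0 ≤ (l2 + η) / (1 + 4 * η) := div_nonneg (by linarith) hc.le
    have n3 : 0 ≤ (l3 + η) / (1 + 4 * η) := div_nonneg (by linarith) hc.le
    generalize (l0 + η) / (1 + 4 * η) = k0 at *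
    generalize (l1 + η) / (1 + 4 * η) = k1 at *
    generalize (l2 + η) / (1 + 4 * η) = k2 at *
    generalize (l3 + η) / (1 + 4 * η) = k3 at *
    refine ⟨k0, k1, k2, k3, n0, n1, n2, n3, ms, ?_⟩
    have e0 : l0 = k0 * (1 + 4 * η) - η := by linarith
    have e1 : l1 = k1 * (1 + 4 * η) - η := by linarith
    have e2 : l2 = k2 * (1 + 4 * η) - η := by linarith
    have e3 : l3 = k3 * (1 + 4 * η) - η := by linarith
    have e4 : k3 = 1 - k0 - k1 - k2 := by linarith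
    rw [hyl, e0, e1, e2, e3, e4]
    module
  · rw [hv, hv]
    have f1 : (1 + 4 * η) • q - η • (p + q + r + s) - ((1 + 4 * η) • p - η • (p + q + r + s)) =
      (1 + 4 * η) • (q - p) := by module
    have f2 : (1 + 4 * η) • r - η • (p + q + r + s) - ((1 + 4 * η) • p - η • (p + q + r + s)) =
      (1 + 4 * η) • (r - p) := by module
    have f3 : (1 + 4 * η) • s - η • (p + q + r + s) - ((1 + 4 * η) • p - η • (p + q + r + s)) =
      (1 + 4 * η) • (s - p) := by module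
    rw [f1, f2, f3]
    have f4 : d3 ((1 + 4 * η) • (q - p)) ((1 + 4 * η) • (r - p)) ((1 + 4 * η) • (s - p)) =
        (1 + 4 * η) ^ 3 * d3 (q - p) (r - p) (s - p) := by
      simp only [d3, Prod.smul_fst, Prod.smul_snd, smul_eq_mul]
      ring
    rw [f4, abs_mul, abs_of_nonneg (by positivity)]
    ring

/-- cross product -/
def cr (a b : E) : E := (a.2.1 * b.2.2 - a.2.2 * b.2.1, a.2.2 * b.1 - a.1 * b.2.2,
  a.1 * b.2.1 - a.2.1 * b.1)

/-- arithmetic and geometric means -/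
theorem amgm {a b c d : ℝ} (ha : 0 < a) (hb : 0 < b) (hc : 0 < c) (hd : 0 < d)
    (h : a + b + c + d = 1) : a * b * c * d ≤ 1 / 256 := by
  have h1 : a * b ≤ ((a + b) / 2) ^ 2 := by nlinarith [sq_nonneg (a - b)]
  have h2 : c * d ≤ ((c + d) / 2) ^ 2 := by nlinarith [sq_nonneg (c - d)]
  have h3 : (a + b) * (c + d) ≤ 1 / 4 := by nlinarith [sq_nonneg (a + b - (c + d))]
  have h4 : a * b * (c * d) ≤ ((a + b) / 2) ^ 2 * ((c + d) / 2) ^ 2 :=
    mul_le_mul h1 h2 (by positivity) (by positivity)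
  have h5 : ((a + b) / 2) ^ 2 * ((c + d) / 2) ^ 2 = ((a + b) * (c + d)) ^ 2 / 16 := by ring
  have h6 : ((a + b) * (c + d)) ^ 2 ≤ (1 / 4) ^ 2 :=
    pow_le_pow_left₀ (by positivity) h3 2
  nlinarith

/-- the polar tetrahedron -/
theorem polar_tet (h3 : S_simp) {s0 s1 s2 s3 : E} {l0 l1 l2 l3 : ℝ} (p0 : 0 < l0) (p1 : 0 < l1)
    (p2 : 0 < l2) (p3 : 0 < l3) (hw1 : l0 + l1 + l2 + l3 = 1)
    (hw2 : l0 • s0 + l1 • s1 + l2 • s2 + l3 • s3 = 0)
    (hN : d3 (s1 - s0) (s2 - s0) (s3 - s0) ≠ 0) :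
    ∃ u0 u1 u2 u3 : E, (∀ u ∈ ({u0, u1, u2, u3} : Set E), ∀ s ∈ ({s0, s1, s2, s3} : Set E),
      dt s u ≤ 1) ∧ 64 / 9 ≤ vl (tet s0 s1 s2 s3) * vl (tet u0 u1 u2 u3) := by
  have e1 : l0 * s0.1 + l1 * s1.1 + l2 * s2.1 + l3 * s3.1 = 0 := by
    have := congrArg Prod.fst hw2
    simpa using this
  have e2 : l0 * s0.2.1 + l1 * s1.2.1 + l2 * s2.2.1 + l3 * s3.2.1 = 0 := by
    have := congrArg (fun p : E => p.2.1) hw2
    simpa using this
  have e3 : l0 * s0.2.2 + l1 * s1.2.2 + l2 * s2.2.2 + l3 * s3.2.2 = 0 := by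
    have := congrArg (fun p : E => p.2.2) hw2
    simpa using this
  have hlin : ∀ y : E, l0 * dt s0 y + (l1 * dt s1 y + (l2 * dt s2 y + l3 * dt s3 y)) = 0 := by
    intro y
    unfold dt
    linear_combination y.1 * e1 + y.2.1 * e2 + y.2.2 * e3
  have hd : d3 (s1 - s0) (s2 - s0) (s3 - s0) = d3 s1 s2 s3 / l0 := by
    rw [eq_div_iff p0.ne']
    have h0 : s0.1 = -(l1 * s1.1 + l2 * s2.1 + l3 * s3.1) / l0 := by
      rw [eq_div_iff p0.ne']; linarith
    have h0' : s0.2.1 = -(l1 * s1.2.1 + l2 * s2.2.1 + l3 * s3.2.1) / l0 := by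
      rw [eq_div_iff p0.ne']; linarith
    have h0'' : s0.2.2 = -(l1 * s1.2.2 + l2 * s2.2.2 + l3 * s3.2.2) / l0 := by
      rw [eq_div_iff p0.ne']; linarith
    have hl3 : l3 = 1 - l0 - l1 - l2 := by linarith
    unfold d3
    simp only [Prod.fst_sub, Prod.snd_sub]
    rw [h0, h0', h0'', hl3]
    field_simp
    ring
  have hD : d3 s1 s2 s3 ≠ 0 := by
    intro h
    rw [hd, h] at hN
    simp at hN
  have hvS : vl (tet s0 s1 s2 s3) = |d3 s1 s2 s3| / l0 / 6 := by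
    unfold tet
    rw [h3, hd, abs_div, abs_of_pos p0]
  obtain ⟨D, hDD⟩ : ∃ D, D = d3 s1 s2 s3 := ⟨_, rfl⟩
  rw [← hDD] at hD hvS
  obtain ⟨u0, hu0⟩ : ∃ u0 : E, u0 = D⁻¹ • (cr s2 s3 + cr s3 s1 + cr s1 s2) := ⟨_, rfl⟩
  obtain ⟨u1, hu1⟩ : ∃ u1 : E, u1 = u0 - (l1⁻¹ * D⁻¹) • cr s2 s3 := ⟨_, rfl⟩
  obtain ⟨u2, hu2⟩ : ∃ u2 : E, u2 = u0 - (l2⁻¹ * D⁻¹) • cr s3 s1 := ⟨_, rfl⟩
  obtain ⟨u3, hu3⟩ : ∃ u3 : E, u3 = u0 - (l3⁻¹ * D⁻¹) • cr s1 s2 := ⟨_, rfl⟩
  have dsub : ∀ (s a b : E) (t : ℝ), dt s (a - t • b) = dt s a - t * dt s b := by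
    intro s a b t
    simp only [dt, Prod.fst_sub, Prod.snd_sub, Prod.smul_fst, Prod.smul_snd, smul_eq_mul]
    ring
  have dadd : ∀ (s a b c : E) (t : ℝ), dt s (t • (a + b + c)) =
      t * (dt s a + dt s b + dt s c) := by
    intro s a b c t
    simp only [dt, Prod.fst_add, Prod.snd_add, Prod.smul_fst, Prod.smul_snd, smul_eq_mul]
    ring
  have c11 : dt s1 (cr s2 s3) = D := by rw [hDD]; unfold dt cr d3; ring
  have c12 : dt s1 (cr s3 s1) = 0 := by unfold dt cr; ring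
  have c13 : dt s1 (cr s1 s2) = 0 := by unfold dt cr; ring
  have c21 : dt s2 (cr s2 s3) = 0 := by unfold dt cr; ring
  have c22 : dt s2 (cr s3 s1) = D := by rw [hDD]; unfold dt cr d3; ring
  have c23 : dt s2 (cr s1 s2) = 0 := by unfold dt cr; ring
  have c31 : dt s3 (cr s2 s3) = 0 := by unfold dt cr; ring
  have c32 : dt s3 (cr s3 s1) = 0 := by unfold dt cr; ring
  have c33 : dt s3 (cr s1 s2) = D := by rw [hDD]; unfold dt cr d3; ring
  have d10 : dt s1 u0 = 1 := by rw [hu0, dadd, c11, c12, c13]; field_simp; ring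
  have d20 : dt s2 u0 = 1 := by rw [hu0, dadd, c21, c22, c23]; field_simp; ring
  have d30 : dt s3 u0 = 1 := by rw [hu0, dadd, c31, c32, c33]; field_simp; ring
  have d11 : dt s1 u1 = 1 - l1⁻¹ := by rw [hu1, dsub, c11, d10]; field_simp
  have d21 : dt s2 u1 = 1 := by rw [hu1, dsub, c21, d20]; ring
  have d31 : dt s3 u1 = 1 := by rw [hu1, dsub, c31, d30]; ring
  have d12 : dt s1 u2 = 1 := by rw [hu2, dsub, c12, d10]; ring
  have d22 : dt s2 u2 = 1 - l2⁻¹ := by rw [hu2, dsub, c22, d20]; field_simp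
  have d32 : dt s3 u2 = 1 := by rw [hu2, dsub, c32, d30]; ring
  have d13 : dt s1 u3 = 1 := by rw [hu3, dsub, c13, d10]; ring
  have d23 : dt s2 u3 = 1 := by rw [hu3, dsub, c23, d20]; ring
  have d33 : dt s3 u3 = 1 - l3⁻¹ := by rw [hu3, dsub, c33, d30]; field_simp
  have m1 : l1 * l1⁻¹ = 1 := mul_inv_cancel₀ p1.ne'
  have m2 : l2 * l2⁻¹ = 1 := mul_inv_cancel₀ p2.ne'
  have m3 : l3 * l3⁻¹ = 1 := mul_inv_cancel₀ p3.ne'
  have i1 : 0 < l1⁻¹ := inv_pos.mpr p1
  have i2 : 0 < l2⁻¹ := inv_pos.mpr p2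
  have i3 : 0 < l3⁻¹ := inv_pos.mpr p3
  have d00 : dt s0 u0 ≤ 1 := by
    have h := hlin u0
    rw [d10, d20, d30] at h
    by_contra hc
    push Not at hc
    have h' := mul_lt_mul_of_pos_left hc p0
    linarith
  have d01 : dt s0 u1 ≤ 1 := by
    have h := hlin u1
    rw [d11, d21, d31] at h
    by_contra hc
    push Not at hc
    have h' := mul_lt_mul_of_pos_left hc p0
    linarith
  have d02 : dt s0 u2 ≤ 1 := by
    have h := hlin u2
    rw [d12, d22, d32] at h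
    by_contra hc
    push Not at hc
    have h' := mul_lt_mul_of_pos_left hc p0
    linarith
  have d03 : dt s0 u3 ≤ 1 := by
    have h := hlin u3
    rw [d13, d23, d33] at h
    by_contra hc
    push Not at hc
    have h' := mul_lt_mul_of_pos_left hc p0
    linarith
  refine ⟨u0, u1, u2, u3, ?_, ?_⟩
  · rintro u (rfl | rfl | rfl | rfl) s (rfl | rfl | rfl | rfl)
    · exact d00
    · exact d10.le
    · exact d20.le
    · exact d30.le
    · exact d01
    · rw [d11]; linarith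
    · exact d21.le
    · exact d31.le
    · exact d02
    · exact d12.le
    · rw [d22]; linarith
    · exact d32.le
    · exact d03
    · exact d13.le
    · exact d23.le
    · rw [d33]; linarith
  have hdU : d3 (u1 - u0) (u2 - u0) (u3 - u0) = -(l1⁻¹ * l2⁻¹ * l3⁻¹ * D⁻¹) := by
    have f1 : u1 - u0 = -((l1⁻¹ * D⁻¹) • cr s2 s3) := by rw [hu1]; abel
    have f2 : u2 - u0 = -((l2⁻¹ * D⁻¹) • cr s3 s1) := by rw [hu2]; abel
    have f3 : u3 - u0 = -((l3⁻¹ * D⁻¹) • cr s1 s2) := by rw [hu3]; abel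
    rw [f1, f2, f3]
    have g1 : d3 (-((l1⁻¹ * D⁻¹) • cr s2 s3)) (-((l2⁻¹ * D⁻¹) • cr s3 s1))
        (-((l3⁻¹ * D⁻¹) • cr s1 s2)) =
        -(l1⁻¹ * D⁻¹ * (l2⁻¹ * D⁻¹) * (l3⁻¹ * D⁻¹)) * d3 (cr s2 s3) (cr s3 s1) (cr s1 s2) := by
      simp only [d3, Prod.fst_neg, Prod.snd_neg, Prod.smul_fst, Prod.smul_snd, smul_eq_mul]
      ring
    have g2 : d3 (cr s2 s3) (cr s3 s1) (cr s1 s2) = D ^ 2 := by
      rw [hDD]
      unfold d3 cr
      ring
    rw [g1, g2]
    have hDD' : D⁻¹ * D = 1 := inv_mul_cancel₀ hD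
    calc -(l1⁻¹ * D⁻¹ * (l2⁻¹ * D⁻¹) * (l3⁻¹ * D⁻¹)) * D ^ 2
        = -(l1⁻¹ * l2⁻¹ * l3⁻¹ * D⁻¹) * (D⁻¹ * D) ^ 2 := by ring
      _ = _ := by rw [hDD']; ring
  have hvU : vl (tet u0 u1 u2 u3) = l1⁻¹ * l2⁻¹ * l3⁻¹ * |D|⁻¹ / 6 := by
    unfold tet
    rw [h3, hdU, abs_neg, abs_mul, abs_of_pos (by positivity), abs_inv]
  have hDpos : 0 < |D| := abs_pos.mpr hD
  rw [hvS, hvU]
  have e : |D| / l0 / 6 * (l1⁻¹ * l2⁻¹ * l3⁻¹ * |D|⁻¹ / 6) = 1 / (36 * (l0 * l1 * l2 * l3)) := by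
    field_simp
    ring
  rw [e]
  have ham := amgm p0 p1 p2 p3 (by linarith)
  rw [le_div_iff₀ (by positivity)]
  nlinarith

/-- positive barycentric coordinates of an interior point -/
theorem pos_bary {a b c e : E} (h0 : (0 : E) ∈ interior (tet a b c e)) :
    ∃ l0 l1 l2 l3 : ℝ, 0 < l0 ∧ 0 < l1 ∧ 0 < l2 ∧ 0 < l3 ∧ l0 + l1 + l2 + l3 = 1 ∧
      l0 • a + l1 • b + l2 • c + l3 • e = 0 := by
  have hn : tet a b c e ∈ nhds (0 : E) := mem_interior_iff_mem_nhds.mp h0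
  have ht : Filter.Tendsto (fun ε : ℝ => -(ε • (a + b + c + e))) (nhds 0) (nhds 0) := by
    have : Continuous (fun ε : ℝ => -(ε • (a + b + c + e))) := by fun_prop
    have h := this.tendsto 0
    simpa using h
  have h1 : ∀ᶠ ε : ℝ in nhds 0, -(ε • (a + b + c + e)) ∈ tet a b c e := ht.eventually hn
  have h2 : ∀ᶠ ε : ℝ in nhdsWithin 0 (Ioi 0), -(ε • (a + b + c + e)) ∈ tet a b c e :=
    h1.filter_mono nhdsWithin_le_nhds
  obtain ⟨ε, hε, hε0⟩ := (h2.and self_mem_nhdsWithin).exists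
  have hε0 : 0 < ε := hε0
  obtain ⟨m0, m1, m2, m3, k0, k1, k2, k3, ks, hx⟩ := mem_tet.mp hε
  have hc : 0 < 1 + 4 * ε := by linarith
  refine ⟨(m0 + ε) / (1 + 4 * ε), (m1 + ε) / (1 + 4 * ε), (m2 + ε) / (1 + 4 * ε),
    (m3 + ε) / (1 + 4 * ε), by positivity, by positivity, by positivity, by positivity, ?_, ?_⟩
  · rw [← add_div, ← add_div, ← add_div, div_eq_one_iff_eq hc.ne']
    linarith
  · have : (m0 + ε) • a + (m1 + ε) • b + (m2 + ε) • c + (m3 + ε) • e = 0 := by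
      have h : (m0 • a + m1 • b + m2 • c + m3 • e) + ε • (a + b + c + e) = 0 := by
        rw [← hx]; module
      rw [← h]
      module
    have h' : ((m0 + ε) / (1 + 4 * ε)) • a + ((m1 + ε) / (1 + 4 * ε)) • b +
        ((m2 + ε) / (1 + 4 * ε)) • c + ((m3 + ε) / (1 + 4 * ε)) • e =
        (1 + 4 * ε)⁻¹ • ((m0 + ε) • a + (m1 + ε) • b + (m2 + ε) • c + (m3 + ε) • e) := by
      simp only [div_eq_inv_mul, smul_add, smul_smul]
    rw [h', this, smul_zero]

/-- the dot product is linear on convex hulls -/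
theorem dt_le_of_hull {A : Set E} {y : E} {c : ℝ} (h : ∀ s ∈ A, dt s y ≤ c) :
    ∀ x ∈ convexHull ℝ A, dt x y ≤ c := by
  have hc : Convex ℝ {x : E | dt x y ≤ c} := by
    intro a ha b hb p q hp hq hpq
    have ha : dt a y ≤ c := ha
    have hb : dt b y ≤ c := hb
    change dt (p • a + q • b) y ≤ c
    have : dt (p • a + q • b) y = p * dt a y + q * dt b y := by
      simp only [dt, Prod.fst_add, Prod.snd_add, Prod.smul_fst, Prod.smul_snd, smul_eq_mul]
      ring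
    rw [this]
    calc p * dt a y + q * dt b y ≤ p * c + q * c := by gcongr
      _ = c := by rw [← add_mul, hpq, one_mul]
  exact convexHull_min h hc

end P5

open P5 in
/-- task P5 -/
theorem t_dualnear (h1 : S_pol) (_h2 : S_body) (h3 : S_simp) : S_dualnear := by
  intro S U hP hcc hnear
  obtain ⟨a, b, c, e, hsub, hvol⟩ := hnear
  have hint : (0 : E) ∈ interior (tet a b c e) := interior_mono hsub hP.zero
  obtain ⟨l0, l1, l2, l3, p0, p1, p2, p3, hs, h0⟩ := pos_bary hint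
  have hSfin : volume (hl S) ≠ ⊤ :=
    (Set.Finite.isCompact_convexHull (𝕜 := ℝ) S.finite_toSet).measure_lt_top.ne
  have hUfin : volume (hl U) ≠ ⊤ :=
    (Set.Finite.isCompact_convexHull (𝕜 := ℝ) U.finite_toSet).measure_lt_top.ne
  have hSpos : 0 < vl (hl S) := by
    have hne : (interior (hl S)).Nonempty := ⟨0, hP.zero⟩
    have : 0 < volume (hl S) :=
      lt_of_lt_of_le (isOpen_interior.measure_pos volume hne) (measure_mono interior_subset)
    exact ENNReal.toReal_pos this.ne' hSfin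
  have hTpos : 0 < vl (tet a b c e) :=
    lt_of_lt_of_le hSpos (ENNReal.toReal_mono (tet_fin _ _ _ _) (measure_mono hsub))
  have hN : d3 (b - a) (c - a) (e - a) ≠ 0 := by
    intro h
    have hv : vl (tet a b c e) = |d3 (b - a) (c - a) (e - a)| / 6 := h3 _ _ _ _
    rw [hv, h] at hTpos
    simp at hTpos
  obtain ⟨u0, u1, u2, u3, hu, hprod⟩ := polar_tet h3 p0 p1 p2 p3 hs h0 hN
  have hin : ∀ u ∈ ({u0, u1, u2, u3} : Set E), u ∈ hl U := by
    intro u hu'
    rw [← h1.polz_hl hP]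
    intro x hx
    rw [sub_zero]
    exact dt_le_of_hull (hu u hu') x (hsub hx)
  have hconv : Convex ℝ (hl U) := convex_convexHull ℝ _
  have hDsub : tet u0 u1 u2 u3 ⊆ hl U := convexHull_min hin hconv
  have hDle : vl (tet u0 u1 u2 u3) ≤ vl (hl U) := ENNReal.toReal_mono hUfin (measure_mono hDsub)
  have hDnn : 0 ≤ vl (tet u0 u1 u2 u3) := ENNReal.toReal_nonneg
  have hDpos : 0 < vl (tet u0 u1 u2 u3) := by
    rcases hDnn.lt_or_eq with h | h
    · exact h
    · rw [← h] at hprod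
      norm_num at hprod
  have hη : vl (hl U) ≤ (1 + 2 / 10 ^ 39) * vl (tet u0 u1 u2 u3) := by
    by_contra hcon
    push Not at hcon
    have k1 : vl (tet a b c e) * vl (hl U) ≤ (1 + d0) * (vl (hl S) * vl (hl U)) := by
      have := mul_le_mul_of_nonneg_right hvol (le_trans hDnn hDle)
      linarith
    have k2 : (1 + d0) * (vl (hl S) * vl (hl U)) ≤ (1 + d0) * cc := by
      have : (0 : ℝ) ≤ 1 + d0 := by unfold d0; positivity
      exact mul_le_mul_of_nonneg_left hcc.le this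
    have k3 : vl (tet a b c e) * ((1 + 2 / 10 ^ 39) * vl (tet u0 u1 u2 u3)) ≤
        vl (tet a b c e) * vl (hl U) := mul_le_mul_of_nonneg_left hcon.le hTpos.le
    have k4 : (1 + 2 / 10 ^ 39) * (64 / 9 : ℝ) ≤
        vl (tet a b c e) * ((1 + 2 / 10 ^ 39) * vl (tet u0 u1 u2 u3)) := by
      have := mul_le_mul_of_nonneg_left hprod (by positivity : (0 : ℝ) ≤ 1 + 2 / 10 ^ 39)
      linarith
    have k5 : (1 + 2 / 10 ^ 39) * (64 / 9 : ℝ) ≤ (1 + d0) * cc := by linarith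
    unfold d0 cc at k5
    norm_num at k5
  obtain ⟨a', b', c', e', hQ, hvQ⟩ := dilate h3 hDpos hconv hUfin (hin u0 (by simp))
    (hin u1 (by simp)) (hin u2 (by simp)) (hin u3 (by simp)) (by positivity) hη
  refine ⟨a', b', c', e', hQ, ?_⟩
  rw [hvQ]
  have k6 : (1 + 4 * (2 / 10 ^ 39 : ℝ)) ^ 3 ≤ 1 + d1 := by
    unfold d1
    norm_num
  have k7 : 0 ≤ 1 + d1 := by unfold d1; positivity
  calc (1 + 4 * (2 / 10 ^ 39 : ℝ)) ^ 3 * vl (tet u0 u1 u2 u3)
      ≤ (1 + d1) * vl (tet u0 u1 u2 u3) := mul_le_mul_of_nonneg_right k6 hDnn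
    _ ≤ (1 + d1) * vl (hl U) := mul_le_mul_of_nonneg_left hDle k7

end H293M
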