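import Pool.Agent.H293R2.M3.Spec2

set_option autoImplicit false

open MeasureTheory Set

namespace H293M

namespace P7

/-- the slack condition -/
def Sl (S U : Finset E) (β : E → ℝ) (G : E → E) : Prop :=
  ∀ u ∈ U, ∀ s ∈ S, |u.2.2 * (β s - av (G u) s)| ≤ 1 - dt u s

theorem av_neg (g x : E) : av (-g) x = -av g x := by
  simp only [av, Prod.fst_neg, Prod.snd_neg]
  ring

theorem lin_form (f : E →ₗ[ℝ] ℝ) (x : E) :
    f x = x.1 * f (1, 0, 0) + x.2.1 * f (0, 1, 0) + x.2.2 * f (0, 0, 1) := by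
  have h : x = x.1 • ((1, 0, 0) : E) + x.2.1 • ((0, 1, 0) : E) + x.2.2 • ((0, 0, 1) : E) := by
    ext <;> simp
  conv_lhs => rw [h]
  rw [map_add, map_add, map_smul, map_smul, map_smul]
  simp only [smul_eq_mul]

/-- a functional constant on a set with `0` in the interior is zero -/
theorem const_zero {K : Set E} (h0 : (0 : E) ∈ interior K) (f : E →ₗ[ℝ] ℝ) (c : ℝ)
    (hf : ∀ x ∈ K, f x = c) (v : E) : f v = 0 := by
  have hc : c = 0 := by
    rw [← hf 0 (interior_subset h0), map_zero]
  have hcont : Continuous fun t : ℝ => t • v := by fun_prop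
  have hnh : ∀ᶠ t : ℝ in nhds 0, t • v ∈ K := by
    have h1 : Filter.Tendsto (fun t : ℝ => t • v) (nhds 0) (nhds 0) := by
      have := hcont.tendsto 0
      rwa [zero_smul] at this
    exact h1.eventually (mem_interior_iff_mem_nhds.mp h0)
  have hnh' : ∀ᶠ t : ℝ in nhdsWithin 0 {0}ᶜ, t • v ∈ K := hnh.filter_mono nhdsWithin_le_nhds
  obtain ⟨t, ht, ht0⟩ := (hnh'.and self_mem_nhdsWithin).exists
  have h2 := hf _ ht
  rw [map_smul, hc, smul_eq_mul] at h2
  rcases mul_eq_zero.mp h2 with h3 | h3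
  · exact absurd h3 ht0
  · exact h3

theorem sl_neg {S U : Finset E} {β : E → ℝ} {G : E → E} (h : Sl S U β G) :
    Sl S U (fun s => -β s) (fun u => -G u) := by
  intro u hu s hs
  have h1 := h u hu s hs
  rw [av_neg]
  have e : u.2.2 * (-β s - -av (G u) s) = -(u.2.2 * (β s - av (G u) s)) := by ring
  rw [e, abs_neg]
  exact h1

/-- the graph map over a facet lands in the moved polytope -/
lemma lift_mem {S U : Finset E} {β : E → ℝ} {G : E → E} (hD : Sl S U β G) {u x : E}
    (hu : u ∈ U) (hu3 : u.2.2 ≠ 0) (hx : x ∈ hl (fc S u)) :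
    ((x.1, x.2.1, x.2.2 + av (G u) x) : E) ∈ hl (SM S β) := by
  have hconv : Convex ℝ {x : E | ((x.1, x.2.1, x.2.2 + av (G u) x) : E) ∈ hl (SM S β)} := by
    intro a ha b hb p q hp hq hpq
    have h1 := convex_convexHull ℝ ((SM S β : Finset E) : Set E) ha hb hp hq hpq
    change ((_, _, _) : E) ∈ convexHull ℝ ((SM S β : Finset E) : Set E)
    convert h1 using 1
    ext
    · simp
    · simp
    · simp only [av, Prod.snd_add, Prod.smul_snd, Prod.fst_add, Prod.smul_fst, smul_eq_mul,
        Prod.smul_mk, Prod.mk_add_mk]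
      linear_combination (-(G u).2.2) * hpq
  have hsub : ((fc S u : Finset E) : Set E) ⊆
      {x : E | ((x.1, x.2.1, x.2.2 + av (G u) x) : E) ∈ hl (SM S β)} := by
    intro s hs
    have hs' : s ∈ fc S u := hs
    rw [fc, Finset.mem_filter] at hs'
    obtain ⟨hsS, hs1⟩ := hs'
    have h2 := hD u hu s hsS
    rw [hs1, sub_self] at h2
    have h3 : u.2.2 * (β s - av (G u) s) = 0 := abs_eq_zero.1 (le_antisymm h2 (abs_nonneg _))
    have h4 : β s = av (G u) s := by
      rcases mul_eq_zero.1 h3 with h | h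
      · exact absurd h hu3
      · linarith
    apply subset_convexHull ℝ _
    rw [SM, Finset.coe_image]
    refine ⟨s, hsS, ?_⟩
    rw [mv, h4]
  exact convexHull_min hsub hconv hx

/-- the half spaces contain the moved polytope -/
lemma half {S U : Finset E} {β : E → ℝ} {G : E → E} (hD : Sl S U β G) {u y : E}
    (hu : u ∈ U) (hy : y ∈ hl (SM S β)) : dt u y - u.2.2 * av (G u) y ≤ 1 := by
  have hconv : Convex ℝ {y : E | dt u y - u.2.2 * av (G u) y ≤ 1} := by
    intro a ha b hb p q hp hq hpq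
    simp only [Set.mem_ofPred_eq] at ha hb ⊢
    have e : dt u (p • a + q • b) - u.2.2 * av (G u) (p • a + q • b) =
        p * (dt u a - u.2.2 * av (G u) a) + q * (dt u b - u.2.2 * av (G u) b) := by
      simp only [dt, av, Prod.snd_add, Prod.smul_snd, Prod.fst_add, Prod.smul_fst, smul_eq_mul]
      linear_combination (u.2.2 * (G u).2.2) * hpq
    rw [e]
    calc p * (dt u a - u.2.2 * av (G u) a) + q * (dt u b - u.2.2 * av (G u) b)
        ≤ p * 1 + q * 1 := by gcongr
      _ = 1 := by linarith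
  have hsub : ((SM S β : Finset E) : Set E) ⊆ {y : E | dt u y - u.2.2 * av (G u) y ≤ 1} := by
    intro t ht
    rw [SM, Finset.coe_image] at ht
    obtain ⟨s, hs, rfl⟩ := ht
    have h2 := (abs_le.1 (hD u hu s hs)).2
    simp only [Set.mem_ofPred_eq, mv, dt, av] at h2 ⊢
    linarith
  exact convexHull_min hsub hconv hy

/-- an active half space pointing in the direction `σ` -/
lemma exists_active {S U : Finset E} (hP : Pr S U) {σ : ℝ} {x : E} (hx : x ∈ hl S)
    (hne : ∀ ε : ℝ, 0 < ε → ((x.1, x.2.1, x.2.2 + σ * ε) : E) ∉ hl S) :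
    ∃ u ∈ U, 0 < σ * u.2.2 ∧ dt u x = 1 := by
  by_contra hcon
  push Not at hcon
  have hx' : ∀ u ∈ U, dt u x ≤ 1 := by
    have := hx
    rw [hP.rep] at this
    exact this
  have hev : ∀ᶠ ε : ℝ in nhdsWithin 0 (Ioi 0), ∀ u ∈ U, dt u x + ε * (σ * u.2.2) ≤ 1 := by
    rw [Filter.eventually_all_finset]
    intro u hu
    by_cases h : 0 < σ * u.2.2
    · have hlt : dt u x < 1 := lt_of_le_of_ne (hx' u hu) (hcon u hu h)
      have hc : Filter.Tendsto (fun ε : ℝ => dt u x + ε * (σ * u.2.2)) (nhds 0)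
          (nhds (dt u x + 0 * (σ * u.2.2))) := by
        apply Continuous.tendsto
        fun_prop
      rw [zero_mul, add_zero] at hc
      have h5 := (hc.eventually (gt_mem_nhds hlt)).filter_mono
        (nhdsWithin_le_nhds (a := (0:ℝ)) (s := Ioi 0))
      exact h5.mono fun ε hε => le_of_lt hε
    · push Not at h
      filter_upwards [self_mem_nhdsWithin] with ε hε
      have hε' : (0:ℝ) < ε := hε
      have : ε * (σ * u.2.2) ≤ 0 := mul_nonpos_of_nonneg_of_nonpos hε'.le h
      linarith [hx' u hu]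
  obtain ⟨ε, hε, hε0⟩ := (hev.and self_mem_nhdsWithin).exists
  have hε' : (0:ℝ) < ε := hε0
  apply hne ε hε'
  rw [hP.rep]
  intro u hu
  have := hε u hu
  simp only [dt] at this ⊢
  linarith

/-- the common core of top and bottom -/
lemma core (h : S_face) {S U : Finset E} {β : E → ℝ} {G : E → E} (hP : Pr S U)
    (hD : Sl S U β G) {σ : ℝ} (_hσ : σ ≠ 0) {x : E} (hx : x ∈ hl S)
    (hne : ∀ ε : ℝ, 0 < ε → ((x.1, x.2.1, x.2.2 + σ * ε) : E) ∉ hl S) :
    ∃ u ∈ U, 0 < σ * u.2.2 ∧ dt u x = 1 ∧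
      ((x.1, x.2.1, x.2.2 + av (G u) x) : E) ∈ hl (SM S β) ∧
      ∀ y ∈ hl (SM S β), y.1 = x.1 → y.2.1 = x.2.1 →
        u.2.2 * (y.2.2 - (x.2.2 + av (G u) x)) ≤ 0 := by
  obtain ⟨u, hu, hpos, h1⟩ := exists_active hP hx hne
  have hu3 : u.2.2 ≠ 0 := by
    intro h0
    rw [h0, mul_zero] at hpos
    exact lt_irrefl _ hpos
  have hle : ∀ s ∈ S, dt u s ≤ 1 := by
    intro s hs
    have : s ∈ hl S := subset_convexHull ℝ _ hs
    rw [hP.rep] at this
    exact this u hu
  refine ⟨u, hu, hpos, h1, lift_mem hD hu hu3 (h hx hle h1), ?_⟩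
  intro y hy hy1 hy2
  have h6 := half hD hu hy
  simp only [dt, av, hy1, hy2] at h6 h1 ⊢
  linarith

theorem top (h : S_face) {S U : Finset E} {β : E → ℝ} {G : E → E} (hP : Pr S U) (hD : Sl S U β G)
    {x : E} (hx : x ∈ hl S) (hne : ∀ ε : ℝ, 0 < ε → ((x.1, x.2.1, x.2.2 + ε) : E) ∉ hl S) :
    ∃ u ∈ U, 0 < u.2.2 ∧ dt u x = 1 ∧ ((x.1, x.2.1, x.2.2 + av (G u) x) : E) ∈ hl (SM S β) ∧
      ∀ y ∈ hl (SM S β), y.1 = x.1 → y.2.1 = x.2.1 → y.2.2 ≤ x.2.2 + av (G u) x := by
  obtain ⟨u, hu, hpos, h1, hm, hb⟩ := core h hP hD (σ := 1) one_ne_zero hx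
    (by intro ε hε; rw [one_mul]; exact hne ε hε)
  rw [one_mul] at hpos
  refine ⟨u, hu, hpos, h1, hm, ?_⟩
  intro y hy hy1 hy2
  have := hb y hy hy1 hy2
  by_contra hc
  push Not at hc
  have : 0 < u.2.2 * (y.2.2 - (x.2.2 + av (G u) x)) := mul_pos hpos (by linarith)
  linarith

theorem bot (h : S_face) {S U : Finset E} {β : E → ℝ} {G : E → E} (hP : Pr S U) (hD : Sl S U β G)
    {x : E} (hx : x ∈ hl S) (hne : ∀ ε : ℝ, 0 < ε → ((x.1, x.2.1, x.2.2 - ε) : E) ∉ hl S) :
    ∃ u ∈ U, u.2.2 < 0 ∧ dt u x = 1 ∧ ((x.1, x.2.1, x.2.2 + av (G u) x) : E) ∈ hl (SM S β) ∧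
      ∀ y ∈ hl (SM S β), y.1 = x.1 → y.2.1 = x.2.1 → x.2.2 + av (G u) x ≤ y.2.2 := by
  obtain ⟨u, hu, hpos, h1, hm, hb⟩ := core h hP hD (σ := -1) (by norm_num) hx
    (by
      intro ε hε
      have e : x.2.2 + (-1) * ε = x.2.2 - ε := by ring
      rw [e]
      exact hne ε hε)
  have hneg : u.2.2 < 0 := by linarith
  refine ⟨u, hu, hneg, h1, hm, ?_⟩
  intro y hy hy1 hy2
  have := hb y hy hy1 hy2
  by_contra hc
  push Not at hc
  have : 0 < u.2.2 * (y.2.2 - (x.2.2 + av (G u) x)) :=
    mul_pos_of_neg_of_neg hneg (by linarith)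
  linarith

lemma compact_hl (S : Finset E) : IsCompact (hl S) := S.finite_toSet.isCompact_convexHull (𝕜 := ℝ)

lemma convex_hl (S : Finset E) : Convex ℝ (hl S) := convex_convexHull ℝ _

/-- the fibre over `(a, b)` -/
def fib (X : Set E) (a b : ℝ) : Set ℝ := {z | ((a, b, z) : E) ∈ X}

lemma volume_eq {X : Set E} (hX : MeasurableSet X) :
    volume X = ∫⁻ a, ∫⁻ b, volume (fib X a b) := by
  rw [Measure.volume_eq_prod, Measure.prod_apply hX]
  refine lintegral_congr fun a => ?_
  rw [Measure.volume_eq_prod, Measure.prod_apply (measurable_prodMk_left hX)]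
  rfl

/-- the projection of a moved polytope is contained in the projection of the polytope -/
lemma proj_sub (S : Finset E) (β : E → ℝ) :
    hl (SM S β) ⊆ {y : E | ∃ z : ℝ, ((y.1, y.2.1, z) : E) ∈ hl S} := by
  classical
  refine convexHull_min ?_ ?_
  · intro y hy
    simp only [SM, Finset.coe_image, Set.mem_image, Finset.mem_coe] at hy
    obtain ⟨s, hs, rfl⟩ := hy
    exact ⟨s.2.2, subset_convexHull ℝ _ hs⟩
  · rintro x ⟨z, hz⟩ y ⟨w, hw⟩ a b ha hb hab
    refine ⟨a * z + b * w, ?_⟩
    have := convex_hl S hz hw ha hb hab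
    simpa using this

/-- half spaces of the polytope moved downwards -/
lemma slack_neg {S U : Finset E} {β : E → ℝ} {G : E → E} (D : Sl S U β G) {u : E} (hu : u ∈ U) :
    hl (SM S fun s => -β s) ⊆ {y : E | dt u y + u.2.2 * av (G u) y ≤ 1} := by
  classical
  refine convexHull_min ?_ ?_
  · intro y hy
    simp only [SM, Finset.coe_image, Set.mem_image, Finset.mem_coe] at hy
    obtain ⟨s, hs, rfl⟩ := hy
    have h := (abs_le.mp (D u hu s hs)).1
    simp only [mv, dt, av, Set.mem_ofPred_eq] at h ⊢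
    linarith
  · intro x hx y hy a b ha hb hab
    simp only [Set.mem_ofPred_eq, dt, av, Prod.fst_add, Prod.snd_add, Prod.smul_fst, Prod.smul_snd,
      smul_eq_mul] at hx hy ⊢
    have h1 := mul_le_mul_of_nonneg_left hx ha
    have h2 := mul_le_mul_of_nonneg_left hy hb
    have h3 : u.2.2 * (G u).2.2 = a * (u.2.2 * (G u).2.2) + b * (u.2.2 * (G u).2.2) := by
      rw [← add_mul, hab, one_mul]
    nlinarith [h1, h2, h3]

lemma fib_le (h : S_face) {S U : Finset E} {β : E → ℝ} {G : E → E}
    (hP : Pr S U) (D : Sl S U β G) (a b : ℝ) :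
    volume (fib (hl (SM S β)) a b) + volume (fib (hl (SM S fun s => -β s)) a b) ≤
      2 * volume (fib (hl S) a b) := by
  rcases (fib (hl S) a b).eq_empty_or_nonempty with he | hne
  · have e1 : fib (hl (SM S β)) a b = ∅ := by
      rw [Set.eq_empty_iff_forall_notMem]
      intro z hz
      obtain ⟨w, hw⟩ := proj_sub S β hz
      have : w ∈ fib (hl S) a b := hw
      rw [he] at this
      exact this
    have e2 : fib (hl (SM S fun s => -β s)) a b = ∅ := by
      rw [Set.eq_empty_iff_forall_notMem]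
      intro z hz
      obtain ⟨w, hw⟩ := proj_sub S _ hz
      have : w ∈ fib (hl S) a b := hw
      rw [he] at this
      exact this
    simp [e1, e2]
  · -- the fibre is a compact interval
    have hcl : IsClosed (fib (hl S) a b) :=
      (compact_hl S).isClosed.preimage (by fun_prop : Continuous fun z : ℝ => ((a, b, z) : E))
    have hbd : Bornology.IsBounded (fib (hl S) a b) := by
      have hb := (((compact_hl S).image (continuous_snd.comp continuous_snd)).isBounded)
      refine hb.subset ?_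
      intro z hz
      exact ⟨(a, b, z), hz, rfl⟩
    have hcp : IsCompact (fib (hl S) a b) := Metric.isCompact_of_isClosed_isBounded hcl hbd
    obtain ⟨t, ht⟩ := hcp.exists_isGreatest hne
    obtain ⟨l, hl'⟩ := hcp.exists_isLeast hne
    have hIcc : fib (hl S) a b = Icc l t := by
      apply Subset.antisymm
      · intro z hz
        exact ⟨hl'.2 hz, ht.2 hz⟩
      · intro z hz
        have hcv : Convex ℝ (fib (hl S) a b) := by
          intro x hx y hy p q hp hq hpq
          have := convex_hl S hx hy hp hq hpq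
          have e : p • ((a, b, x) : E) + q • ((a, b, y) : E) = (a, b, p • x + q • y) := by
            simp only [Prod.smul_mk, Prod.mk_add_mk, smul_eq_mul, Prod.mk.injEq]
            refine ⟨?_, ?_, trivial⟩
            · rw [← add_mul, hpq, one_mul]
            · rw [← add_mul, hpq, one_mul]
          rw [e] at this
          exact this
        exact hcv.ordConnected.out hl'.1 ht.1 hz
    have hD' := sl_neg D
    -- top
    obtain ⟨ut, hut, hut0, hut1, hmem, htop⟩ := top h hP D (x := (a, b, t)) ht.1 (fun ε hε hmem => by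
      have : t + ε ≤ t := ht.2 hmem
      linarith)
    obtain ⟨ut', -, -, -, hmem', -⟩ := top h hP hD' (x := (a, b, t)) ht.1 (fun ε hε hmem => by
      have : t + ε ≤ t := ht.2 hmem
      linarith)
    -- bottom
    obtain ⟨ub, hub, hub0, hub1, hmemb, hbot⟩ := bot h hP D (x := (a, b, l)) hl'.1 (fun ε hε hmem => by
      have : l ≤ l - ε := hl'.2 hmem
      linarith)
    set A := av (G ut) ((a, b, t) : E) with hA
    set B := av (G ub) ((a, b, l) : E) with hB
    simp only at hmem htop hmemb hbot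
    have hsubp : fib (hl (SM S β)) a b ⊆ Icc (l + B) (t + A) := fun z hz =>
      ⟨hbot (a, b, z) hz rfl rfl, htop (a, b, z) hz rfl rfl⟩
    have hsubm : fib (hl (SM S fun s => -β s)) a b ⊆ Icc (l - B) (t - A) := by
      intro z hz
      constructor
      · have h := slack_neg D hub hz
        simp only [Set.mem_ofPred_eq] at h
        have e1 : dt ub (a, b, z) = dt ub (a, b, l) + ub.2.2 * (z - l) := by
          simp only [dt]; ring
        have e2 : av (G ub) ((a, b, z) : E) = B := rfl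
        rw [e1, hub1, e2] at h
        have h5 : ub.2.2 * (z - l + B) ≤ 0 := by linarith
        by_contra hcon
        push Not at hcon
        have h6 : 0 < ub.2.2 * (z - l + B) := mul_pos_of_neg_of_neg hub0 (by linarith)
        linarith
      · have h := slack_neg D hut hz
        simp only [Set.mem_ofPred_eq] at h
        have e1 : dt ut (a, b, z) = dt ut (a, b, t) + ut.2.2 * (z - t) := by
          simp only [dt]; ring
        have e2 : av (G ut) ((a, b, z) : E) = A := rfl
        rw [e1, hut1, e2] at h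
        have h5 : ut.2.2 * (z - t + A) ≤ 0 := by linarith
        by_contra hcon
        push Not at hcon
        have h6 : 0 < ut.2.2 * (z - t + A) := mul_pos hut0 (by linarith)
        linarith
    have hp0 : 0 ≤ (t + A) - (l + B) := by
      have := hsubp (show t + A ∈ fib (hl (SM S β)) a b from hmem)
      linarith [this.1, this.2]
    have hm0 : 0 ≤ (t - A) - (l - B) := by
      have := hsubm (show _ ∈ fib (hl (SM S fun s => -β s)) a b from hmem')
      linarith [this.1, this.2]
    calc volume (fib (hl (SM S β)) a b) + volume (fib (hl (SM S fun s => -β s)) a b)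
        ≤ volume (Icc (l + B) (t + A)) + volume (Icc (l - B) (t - A)) :=
          add_le_add (measure_mono hsubp) (measure_mono hsubm)
      _ = ENNReal.ofReal ((t + A) - (l + B)) + ENNReal.ofReal ((t - A) - (l - B)) := by
          rw [Real.volume_Icc, Real.volume_Icc]
      _ = ENNReal.ofReal (2 * (t - l)) := by
          rw [← ENNReal.ofReal_add hp0 hm0]
          congr 1; ring
      _ = 2 * volume (fib (hl S) a b) := by
          rw [hIcc, Real.volume_Icc, ENNReal.ofReal_mul (by norm_num)]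
          simp

end P7

theorem t_int2 : S_int2 := by
  classical
  intro S U β hP hD
  unfold hl
  rw [interior_convexHull_nonempty_iff_affineSpan_eq_top]
  by_contra hne
  -- `S` is nonempty
  have hS : S.Nonempty := by
    by_contra hS
    rw [Finset.not_nonempty_iff_eq_empty] at hS
    have := interior_subset hP.zero
    rw [hS] at this
    simp [hl] at this
  obtain ⟨s₀, hs₀⟩ := hS
  have hmem : ∀ s ∈ S, mv β s ∈ ((SM S β : Finset E) : Set E) := by
    intro s hs
    simp only [SM, Finset.coe_image]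
    exact ⟨s, hs, rfl⟩
  have hvs : vectorSpan ℝ ((SM S β : Finset E) : Set E) < ⊤ := by
    rw [lt_top_iff_ne_top]
    intro htop
    apply hne
    rw [AffineSubspace.affineSpan_eq_top_iff_vectorSpan_eq_top_of_nonempty ℝ E E
      ⟨_, hmem s₀ hs₀⟩]
    exact htop
  obtain ⟨f, hf0, hf⟩ := Submodule.exists_le_ker_of_lt_top _ hvs
  have hconst : ∀ s ∈ S, f (mv β s) = f (mv β s₀) := by
    intro s hs
    have h1 : mv β s -ᵥ mv β s₀ ∈ vectorSpan ℝ ((SM S β : Finset E) : Set E) :=
      vsub_mem_vectorSpan ℝ (hmem s hs) (hmem s₀ hs₀)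
    have h2 := hf h1
    rw [LinearMap.mem_ker, vsub_eq_sub, map_sub, sub_eq_zero] at h2
    exact h2
  set c := f (mv β s₀) with hc
  set w3 := f (0, 0, 1) with hw3
  have hform : ∀ s ∈ S, f s + β s * w3 = c := by
    intro s hs
    rw [← hconst s hs, P7.lin_form f s, P7.lin_form f (mv β s)]
    simp only [mv]
    ring
  by_cases h0 : w3 = 0
  · have h1 : ∀ s ∈ S, f s = c := by
      intro s hs
      have := hform s hs
      rw [h0] at this
      linarith
    have h2 : ∀ x ∈ hl S, f x = c := by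
      intro x hx
      have hsub : hl S ⊆ {x | f x = c} := by
        refine convexHull_min ?_ ?_
        · intro s hs
          exact h1 s hs
        · intro x hx y hy a b _ _ hab
          simp only [Set.mem_ofPred_eq] at hx hy ⊢
          rw [map_add, map_smul, map_smul, hx, hy, smul_eq_mul, smul_eq_mul, ← add_mul, hab,
            one_mul]
      exact hsub hx
    apply hf0
    ext
    · exact P7.const_zero hP.zero f c h2 _
    · exact P7.const_zero hP.zero f c h2 _
    · exact P7.const_zero hP.zero f c h2 _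
  · apply hD
    refine ⟨(-(f (1, 0, 0)) / w3, -(f (0, 1, 0)) / w3, -1), c / w3, fun s hs => ?_⟩
    have h1 := hform s hs
    rw [P7.lin_form f s, ← hw3] at h1
    simp only [dt]
    field_simp
    linarith

theorem t_vol2 (h : S_face) : S_vol2 := by
  intro S U β G hP D
  have hm : ∀ S : Finset E, MeasurableSet (hl S) := fun S => (P7.compact_hl S).isClosed.measurableSet
  have hf : ∀ S : Finset E, volume (hl S) ≠ ⊤ := fun S => (P7.compact_hl S).measure_lt_top.ne
  have key : volume (hl (SM S β)) + volume (hl (SM S fun s => -β s)) ≤ 2 * volume (hl S) := by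
    rw [P7.volume_eq (hm _), P7.volume_eq (hm (SM S fun s => -β s)), P7.volume_eq (hm S)]
    calc (∫⁻ a, ∫⁻ b, volume (P7.fib (hl (SM S β)) a b)) +
          ∫⁻ a, ∫⁻ b, volume (P7.fib (hl (SM S fun s => -β s)) a b)
        ≤ ∫⁻ a, ((∫⁻ b, volume (P7.fib (hl (SM S β)) a b)) +
          ∫⁻ b, volume (P7.fib (hl (SM S fun s => -β s)) a b)) := le_lintegral_add _ _
      _ ≤ ∫⁻ a, ∫⁻ b, (volume (P7.fib (hl (SM S β)) a b) +
          volume (P7.fib (hl (SM S fun s => -β s)) a b)) :=
          lintegral_mono fun a => le_lintegral_add _ _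
      _ ≤ ∫⁻ a, ∫⁻ b, 2 * volume (P7.fib (hl S) a b) :=
          lintegral_mono fun a => lintegral_mono fun b => P7.fib_le h hP D a b
      _ = 2 * ∫⁻ a, ∫⁻ b, volume (P7.fib (hl S) a b) := by
          rw [← lintegral_const_mul' _ _ (by norm_num)]
          refine lintegral_congr fun a => ?_
          rw [lintegral_const_mul' _ _ (by norm_num)]
  have h := ENNReal.toReal_mono (ENNReal.mul_ne_top (by norm_num) (hf S)) key
  rw [ENNReal.toReal_add (hf _) (hf _), ENNReal.toReal_mul] at h
  unfold vl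
  simp at h
  linarith

namespace P7

/-- vertical scaling -/
noncomputable def Lv (lam : ℝ) (h : lam ≠ 0) : E ≃ₗ[ℝ] E where
  toFun x := (x.1, x.2.1, lam * x.2.2)
  map_add' x y := by
    ext <;> simp [mul_add]
  map_smul' c x := by
    ext <;> simp [mul_left_comm]
  invFun x := (x.1, x.2.1, lam⁻¹ * x.2.2)
  left_inv x := by
    ext <;> simp [h]
  right_inv x := by
    ext <;> simp [h]

theorem Lv_apply (lam : ℝ) (h : lam ≠ 0) (x : E) : Lv lam h x = (x.1, x.2.1, lam * x.2.2) := rfl

theorem Lv_cont (lam : ℝ) (h : lam ≠ 0) : Continuous (Lv lam h) := by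
  have : (Lv lam h : E → E) = fun x => (x.1, x.2.1, lam * x.2.2) := rfl
  rw [this]
  fun_prop

/-- vertical scaling as a homeomorphism -/
noncomputable def Lh (lam : ℝ) (h : lam ≠ 0) : E ≃ₜ E where
  toEquiv := (Lv lam h).toEquiv
  continuous_toFun := Lv_cont lam h
  continuous_invFun := by
    have : ((Lv lam h).toEquiv.invFun : E → E) = fun x => (x.1, x.2.1, lam⁻¹ * x.2.2) := rfl
    rw [this]
    fun_prop

theorem hl_image (lam : ℝ) (h : lam ≠ 0) (S : Finset E) (β1 β2 : E → ℝ)
    (hm : ∀ s ∈ S, mv β2 s = Lv lam h (mv β1 s)) :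
    hl (SM S β2) = Lv lam h '' hl (SM S β1) := by
  classical
  unfold hl
  have e1 : ((SM S β2 : Finset E) : Set E) = Lv lam h '' ((SM S β1 : Finset E) : Set E) := by
    simp only [SM, Finset.coe_image, Set.image_image]
    exact Set.image_congr fun s hs => hm s hs
  rw [e1]
  exact ((Lv lam h : E →ₗ[ℝ] E).image_convexHull _).symm

theorem det_ne (lam : ℝ) (h : lam ≠ 0) : LinearMap.det (Lv lam h : E →ₗ[ℝ] E) ≠ 0 :=
  (LinearEquiv.isUnit_det' (Lv lam h)).ne_zero

theorem dt_Lv (lam : ℝ) (h : lam ≠ 0) (x z y : E) :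
    dt (Lv lam h x - Lv lam h z) y = dt (x - z) (Lv lam h y) := by
  simp only [dt, Lv_apply, Prod.fst_sub, Prod.snd_sub]
  ring

theorem polz_image (lam : ℝ) (h : lam ≠ 0) (K : Set E) (z : E) :
    polz (Lv lam h '' K) (Lv lam h z) = Lv lam h ⁻¹' polz K z := by
  ext y
  simp only [polz, Set.mem_ofPred_eq, Set.mem_preimage, Set.forall_mem_image]
  refine forall₂_congr fun x _ => ?_
  rw [dt_Lv]

theorem haar2 : (volume : Measure (ℝ × ℝ)).IsAddHaarMeasure :=
  Measure.prod.instIsAddHaarMeasure volume volume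

theorem haar3 : (volume : Measure E).IsAddHaarMeasure :=
  have := haar2
  Measure.prod.instIsAddHaarMeasure volume volume

/-- the volume product does not change under a vertical scaling -/
theorem prod_image (lam : ℝ) (h : lam ≠ 0) (K : Set E) (z : E) :
    vl (Lv lam h '' K) * vl (polz (Lv lam h '' K) (Lv lam h z)) = vl K * vl (polz K z) := by
  have hd := det_ne lam h
  have := haar3
  rw [polz_image]
  unfold vl
  have e1 : volume (Lv lam h '' K) =
      ENNReal.ofReal |LinearMap.det (Lv lam h : E →ₗ[ℝ] E)| * volume K :=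
    Measure.addHaar_image_linearMap volume (Lv lam h : E →ₗ[ℝ] E) K
  have e2 : volume (Lv lam h ⁻¹' polz K z) =
      ENNReal.ofReal |(LinearMap.det (Lv lam h : E →ₗ[ℝ] E))⁻¹| * volume (polz K z) :=
    Measure.addHaar_preimage_linearMap volume hd (polz K z)
  rw [e1, e2, ENNReal.toReal_mul, ENNReal.toReal_mul, ENNReal.toReal_ofReal (abs_nonneg _),
    ENNReal.toReal_ofReal (abs_nonneg _), abs_inv]
  have : |LinearMap.det (Lv lam h : E →ₗ[ℝ] E)| ≠ 0 := abs_ne_zero.2 hd
  field_simp

theorem transfer (lam : ℝ) (h : lam ≠ 0) (S : Finset E) (β1 β2 : E → ℝ)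
    (hm : ∀ s ∈ S, mv β2 s = Lv lam h (mv β1 s)) {c : ℝ}
    (hc : ∀ z ∈ interior (hl (SM S β1)), c ≤ vl (hl (SM S β1)) * vl (polz (hl (SM S β1)) z)) :
    ∀ z ∈ interior (hl (SM S β2)), c ≤ vl (hl (SM S β2)) * vl (polz (hl (SM S β2)) z) := by
  intro z hz
  rw [hl_image lam h S β1 β2 hm] at hz ⊢
  have h1 : interior (Lv lam h '' hl (SM S β1)) = Lv lam h '' interior (hl (SM S β1)) :=
    ((Lh lam h).image_interior _).symm
  rw [h1] at hz
  obtain ⟨z', hz', rfl⟩ := hz
  rw [prod_image]
  exact hc z' hz'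

theorem slack_new {a b : ℝ} (ha : 0 < a) (ha1 : a ≤ 1) (hb : 0 < b) (hb1 : b ≤ 1) {e c : ℝ}
    (h : |e| ≤ c) : |2 * a * b / (a + b) * e - (a - b) / (a + b) * c| ≤ c := by
  have hab : 0 < a + b := by positivity
  have hc : 0 ≤ c := (abs_nonneg e).trans h
  obtain ⟨h1, h2⟩ := abs_le.1 h
  have h3 : 2 * a * b / (a + b) * e - (a - b) / (a + b) * c =
      (2 * a * b * e - (a - b) * c) / (a + b) := by
    field_simp
  rw [h3, abs_le, le_div_iff₀ hab, div_le_iff₀ hab]
  have h4 : 0 ≤ 2 * a * b := by positivity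
  have h5 : 2 * a * b * e ≤ 2 * a * b * c := mul_le_mul_of_nonneg_left h2 h4
  have h6 : 2 * a * b * (-c) ≤ 2 * a * b * e := mul_le_mul_of_nonneg_left h1 h4
  have h7 : 0 ≤ 2 * a * c * (1 - b) := mul_nonneg (by positivity) (by linarith)
  have h8 : 0 ≤ 2 * b * c * (1 - a) := mul_nonneg (by positivity) (by linarith)
  constructor <;> nlinarith

end P7

theorem t_wtool (h1 : S_tool) (h2 : S_int2) (h3 : S_vol2) : S_wtool := by
  classical
  intro S U β G hP hD a b c ha ha1 hb hb1 hc hbz haz
  have hab : 0 < a + b := by positivity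
  set τ : ℝ := 2 * a * b / (a + b) with hτ
  set ρ : ℝ := (a - b) / (a + b) with hρ
  have hτ0 : 0 < τ := by positivity
  set β' : E → ℝ := fun s => τ * β s + ρ * s.2.2 with hβ'
  have hlp : (2 * a / (a + b)) ≠ 0 := by positivity
  have hlm : (2 * b / (a + b)) ≠ 0 := by positivity
  have hmp : ∀ s ∈ S, mv β' s = P7.Lv (2 * a / (a + b)) hlp (mv (fun s => b * β s) s) := by
    intro s _
    rw [P7.Lv_apply]
    simp only [mv, hβ', Prod.mk.injEq, true_and]
    rw [hτ, hρ]
    field_simp
    ring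
  have hmm : ∀ s ∈ S, mv (fun s => -β' s) s =
      P7.Lv (2 * b / (a + b)) hlm (mv (fun s => -a * β s) s) := by
    intro s _
    rw [P7.Lv_apply]
    simp only [mv, hβ', Prod.mk.injEq, true_and]
    rw [hτ, hρ]
    field_simp
    ring
  have hna : ¬ Aff S β' := by
    rintro ⟨g, k, hg⟩
    refine hD.naff ⟨(g.1 / τ, g.2.1 / τ, (g.2.2 - ρ) / τ), k / τ, fun s hs => ?_⟩
    have h4 := hg s hs
    simp only [hβ', dt] at h4 ⊢
    field_simp
    linarith
  have hna' : ¬ Aff S (fun s => -β' s) := by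
    rintro ⟨g, k, hg⟩
    refine hna ⟨-g, -k, fun s hs => ?_⟩
    have h4 := hg s hs
    simp only [dt, Prod.fst_neg, Prod.snd_neg] at h4 ⊢
    linarith
  have hsl : ∀ u ∈ U, ∀ s ∈ S, |u.2.2 * (β' s - av ((fun u : E => if u.2.2 = 0 then (0 : E) else
      (τ * (G u).1 - ρ * (u.1 / u.2.2), τ * (G u).2.1 - ρ * (u.2.1 / u.2.2),
        τ * (G u).2.2 + ρ / u.2.2)) u) s)| ≤ 1 - dt u s := by
    intro u hu s hs
    have h4 := hD.slack u hu s hs
    by_cases h0 : u.2.2 = 0
    · rw [h0, zero_mul, abs_zero]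
      exact (abs_nonneg _).trans h4
    · simp only [if_neg h0]
      have h5 := P7.slack_new ha ha1 hb hb1 h4
      refine le_of_eq_of_le ?_ h5
      congr 1
      simp only [hβ', av, dt]
      rw [← hτ, ← hρ]
      field_simp
      ring
  have hv := h3 hP hsl
  exact h1 hP.zero (h2 hP hna) (h2 hP hna') hv hc (P7.transfer _ hlp S _ _ hmp hbz)
    (P7.transfer _ hlm S _ _ hmm haz)

end H293M
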