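import Pool.Agent.H293R2.M3.Spec2

/-!
P8: the path argument.
-/

set_option autoImplicit false

open MeasureTheory Set

namespace H293M

namespace P8

/-- nearness is monotone in the distance -/
lemma near_mono {K : Set E} {d e : ℝ} (hde : d ≤ e) (h : near K d) : near K e := by
  obtain ⟨a, b, c, f, hK, hv⟩ := h
  refine ⟨a, b, c, f, hK, hv.trans ?_⟩
  have : 0 ≤ vl K := ENNReal.toReal_nonneg
  exact mul_le_mul_of_nonneg_right (by linarith) this

/-- the moved polytope is a body -/
lemma bd {S : Finset E} (h : (interior (hl S)).Nonempty) : Bd (hl S) where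
  cpt := Set.Finite.isCompact_convexHull (𝕜 := ℝ) S.finite_toSet
  cvx := convex_convexHull ℝ _
  int := h

lemma K_zero {S : Finset E} {β : E → ℝ} : SM S (fun s => (0 : ℝ) * β s) = S := by
  classical
  unfold SM
  have : mv (fun s => (0 : ℝ) * β s) = id := by
    funext s
    simp [mv]
  rw [this, Finset.image_id]

lemma K_one {S : Finset E} {β : E → ℝ} : SM S (fun s => (1 : ℝ) * β s) = SM S β := by
  simp only [one_mul]

lemma naff {S : Finset E} {β : E → ℝ} (h : ¬ Aff S β) {t : ℝ} (ht : t ≠ 0) :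
    ¬ Aff S (fun s => t * β s) := by
  rintro ⟨g, c, hg⟩
  apply h
  refine ⟨t⁻¹ • g, t⁻¹ * c, fun s hs => ?_⟩
  have h1 : t * β s = dt g s + c := hg s hs
  have h2 : β s = t⁻¹ * (t * β s) := by field_simp
  rw [h2, h1]
  simp only [dt, Prod.smul_fst, Prod.smul_snd, smul_eq_mul]
  ring

lemma cc_le : cc ≤ 64 / 9 * (1 + d0 / 2000) := by
  unfold cc d0
  norm_num

lemma d0_pos : 0 < d0 := by unfold d0; positivity

lemma d0_le : d0 ≤ 1 := by unfold d0; norm_num

lemma d1_pos : 0 < d1 := by unfold d1; positivity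

lemma d0_lt_d1 : d0 < d1 := by unfold d0 d1; norm_num

end P8

open P8 in
/-- P8: one direction of the path -/
theorem t_path (h1 : S_LT) (h2 : S_cont) (h3 : S_int2) : S_path := by
  intro S U β G hP hD hn hc hend
  have hd0 := d0_pos
  have hd1 := d1_pos
  have hd01 := d0_lt_d1
  have hint : ∀ t : ℝ, (interior (hl (SM S fun s => t * β s))).Nonempty := by
    intro t
    by_cases ht : t = 0
    · subst ht
      rw [K_zero]
      exact ⟨0, hP.zero⟩
    · exact h3 hP (naff hD.naff ht)
  have hbd : ∀ t : ℝ, Bd (hl (SM S fun s => t * β s)) := fun t => bd (hint t)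
  -- (1)
  have hK0 : ¬ near (hl (SM S fun s => (0 : ℝ) * β s)) (2 * d1) := by
    rw [K_zero]
    intro hh
    have hb : Bd (hl S) := bd ⟨0, hP.zero⟩
    have := h1 hb hh hd0 d0_le hn 0 hP.zero
    have := cc_le
    linarith
  set A : Set ℝ := {t | 0 ≤ t ∧ t ≤ 1 ∧ near (hl (SM S fun s => t * β s)) d1} with hA
  by_cases hne : A.Nonempty
  swap
  · -- (2)
    refine ⟨1, one_pos, le_refl _, ?_⟩
    rw [K_one]
    intro z hz
    by_contra hlt
    push Not at hlt
    have h4 := hend z hz hlt
    apply hne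
    refine ⟨1, zero_le_one, le_refl _, ?_⟩
    rw [K_one]
    exact near_mono hd01.le h4
  · -- (3)
    have hbb : BddBelow A := ⟨0, fun t ht => ht.1⟩
    set τ := sInf A with hτ
    have hτ0 : 0 ≤ τ := le_csInf hne fun t ht => ht.1
    have hτ1 : τ ≤ 1 := by
      obtain ⟨t, ht⟩ := hne
      exact (csInf_le hbb ht).trans ht.2.1
    have hτn : near (hl (SM S fun s => τ * β s)) (2 * d1) := by
      obtain ⟨δ, hδ, hh⟩ := h2 (hint τ) hd1.le hd1
      obtain ⟨t, htA, htl⟩ := exists_lt_of_csInf_lt hne (show sInf A < τ + δ by linarith)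
      have h5 : τ ≤ t := csInf_le hbb htA
      have h6 := (hh t (by rw [abs_lt]; constructor <;> linarith)).1 htA.2.2
      rw [two_mul]
      exact h6
    have hτpos : 0 < τ := by
      rcases hτ0.lt_or_eq with h | h
      · exact h
      · exfalso
        rw [← h] at hτn
        exact hK0 hτn
    have hτ0n : ¬ near (hl (SM S fun s => τ * β s)) d0 := by
      intro hh
      obtain ⟨δ, hδ, hh2⟩ := h2 (hint τ) hd0.le (show 0 < d1 - d0 by linarith)
      set t := max (τ - δ / 2) (τ / 2) with ht
      have ht1 : t < τ := max_lt (by linarith) (by linarith)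
      have ht2 : τ - δ / 2 ≤ t := le_max_left _ _
      have ht3 : τ / 2 ≤ t := le_max_right _ _
      have h7 := (hh2 t (by rw [abs_lt]; constructor <;> linarith)).2 hh
      have h8 : t ∈ A := by
        refine ⟨by linarith, by linarith, ?_⟩
        convert h7 using 1
        ring
      have := csInf_le hbb h8
      linarith
    refine ⟨τ, hτpos, hτ1, fun z hz => ?_⟩
    exact cc_le.trans (h1 (hbd τ) hτn hd0 d0_le hτ0n z hz)

end H293M
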