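import Pool.Agent.H293R2.M3.Spec2
import Pool.Agent.H293R2.M3.C5
import Pool.Agent.H293R2.M3.C8
import Pool.Agent.H293R2.M3.M

/-!
Nearness to a tetrahedron through the change of coordinates and the new pair; the chain of
polytopes.
-/

set_option autoImplicit false

open MeasureTheory Set Pointwise

namespace H293M

/-- change of coordinates, keeping track of nearness -/
def S_coord2 : Prop := ∀ {S U : Finset E}, Pr S U → Irr S U → ∀ {θ : E} {β : E → ℝ}, θ ≠ 0 →
    (∀ u ∈ U, dt u θ ≠ 0 → ∃ g : E, ∀ s ∈ S, dt u s = 1 → β s = dt g s) → ¬ Aff S β →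
    ∃ (S' U' : Finset E) (β' : E → ℝ), Pr S' U' ∧ Irr S' U' ∧
      S'.card = S.card ∧ U'.card = U.card ∧ inc S' U' = inc S U ∧
      vl (hl S') * vl (hl U') = vl (hl S) * vl (hl U) ∧
      (∀ u ∈ U', u.2.2 ≠ 0 → ∃ g : E, ∀ s ∈ S', dt u s = 1 → β' s = dt g s) ∧ ¬ Aff S' β' ∧
      ∀ d, near (hl S') d → near (hl S) d

/-- the new pair, keeping track of nearness -/
def S_new2 : Prop := ∀ {S U : Finset E} {β : E → ℝ} {G : E → E}, Pr S U → Dec S U β G →
    ∀ {z : E}, z ∈ interior (hl (SM S β)) → ∃ S' U' : Finset E, Pr S' U' ∧ S'.card ≤ S.card ∧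
      U'.card ≤ U.card ∧ (S'.card = S.card → U'.card = U.card → inc S U < inc S' U') ∧
      vl (hl S') = vl (hl (SM S β)) ∧ hl U' = polz (hl (SM S β)) z ∧
      ∀ d, near (hl S') d → near (hl (SM S β)) d

namespace P9

theorem tet_image (A : E ≃ₗ[ℝ] E) (a b c e : E) :
    A '' tet a b c e = tet (A a) (A b) (A c) (A e) := by
  unfold tet
  have h := (A : E →ₗ[ℝ] E).image_convexHull ({a, b, c, e} : Set E)
  have h2 : (A : E →ₗ[ℝ] E) '' convexHull ℝ {a, b, c, e} = A '' convexHull ℝ {a, b, c, e} := rfl
  rw [h2] at h
  rw [h]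
  congr 1
  simp only [LinearEquiv.coe_coe, image_insert_eq, image_singleton]

theorem near_image {A : E ≃ₗ[ℝ] E} {K : Set E} {d : ℝ} (h : near (A '' K) d) : near K d := by
  obtain ⟨a, b, c, e, h1, h2⟩ := h
  have hd : 0 < |LinearMap.det (A : E →ₗ[ℝ] E)| := by
    have h0 := (LinearEquiv.det A).ne_zero
    rw [LinearEquiv.coe_det] at h0
    exact abs_pos.2 h0
  refine ⟨A.symm a, A.symm b, A.symm c, A.symm e, ?_, ?_⟩
  · rw [← tet_image]
    intro x hx
    exact ⟨A x, h1 ⟨x, hx, rfl⟩, A.symm_apply_apply x⟩
  · rw [C5.vl_image] at h2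
    have h3 : tet a b c e = A '' tet (A.symm a) (A.symm b) (A.symm c) (A.symm e) := by
      rw [tet_image]
      simp only [LinearEquiv.apply_symm_apply]
    rw [h3, C5.vl_image] at h2
    have h4 : |LinearMap.det (A : E →ₗ[ℝ] E)| *
        vl (tet (A.symm a) (A.symm b) (A.symm c) (A.symm e)) ≤
        |LinearMap.det (A : E →ₗ[ℝ] E)| * ((1 + d) * vl K) := by
      calc _ ≤ _ := h2
        _ = _ := by ring
    exact le_of_mul_le_mul_left h4 hd

theorem vl_pre (z : E) (K : Set E) : vl ((fun y : E => y + z) ⁻¹' K) = vl K := by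
  unfold vl
  have e : (fun y : E => y + z) ⁻¹' K = (fun y : E => z + y) ⁻¹' K := by
    ext y; simp only [Set.mem_preimage, add_comm]
  have : (volume : Measure E).IsAddLeftInvariant := C8.iv
  rw [e, measure_preimage_add]

theorem tet_pre (z a b c e : E) :
    (fun y : E => y + z) ⁻¹' tet (a + z) (b + z) (c + z) (e + z) = tet a b c e := by
  unfold tet
  have e1 : ({a + z, b + z, c + z, e + z} : Set E) = z +ᵥ ({a, b, c, e} : Set E) := by
    ext x
    simp only [Set.mem_vadd_set, mem_insert_iff, mem_singleton_iff, vadd_eq_add]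
    constructor
    · rintro (h | h | h | h)
      · exact ⟨a, Or.inl rfl, by rw [h, add_comm]⟩
      · exact ⟨b, Or.inr (Or.inl rfl), by rw [h, add_comm]⟩
      · exact ⟨c, Or.inr (Or.inr (Or.inl rfl)), by rw [h, add_comm]⟩
      · exact ⟨e, Or.inr (Or.inr (Or.inr rfl)), by rw [h, add_comm]⟩
    · rintro ⟨y, (h | h | h | h), h2⟩
      · left; rw [← h2, h, add_comm]
      · right; left; rw [← h2, h, add_comm]
      · right; right; left; rw [← h2, h, add_comm]
      · right; right; right; rw [← h2, h, add_comm]
  rw [e1, convexHull_vadd]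
  ext y
  rw [mem_preimage, Set.mem_vadd_set_iff_neg_vadd_mem, vadd_eq_add]
  have : -z + (y + z) = y := by abel
  rw [this]

theorem near_pre {z : E} {K : Set E} {d : ℝ} (h : near ((fun y : E => y + z) ⁻¹' K) d) :
    near K d := by
  obtain ⟨a, b, c, e, h1, h2⟩ := h
  refine ⟨a + z, b + z, c + z, e + z, ?_, ?_⟩
  · intro x hx
    have h3 : x - z ∈ tet a b c e := h1 (by simpa using hx)
    rw [← tet_pre z] at h3
    simpa using h3
  · have h3 := vl_pre z (tet (a + z) (b + z) (c + z) (e + z))
    rw [tet_pre] at h3
    rw [← h3]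
    rw [vl_pre] at h2
    exact h2

end P9

open C5 in
theorem t_coord2 : S_coord2 := by
  classical
  intro S U hP hI θ β hθ hβ hA
  obtain ⟨A, hsym, hAθ⟩ := exists_map hθ
  have hdt : ∀ u s, dt (A.symm u) (A s) = dt u s := by
    intro u s
    rw [← hsym, A.apply_symm_apply]
  refine ⟨S.image A, U.image A.symm, fun x => β (A.symm x), ⟨?_, ?_⟩, ⟨?_, ?_⟩, ?_, ?_, ?_, ?_,
    ?_, ?_, ?_⟩
  · rw [hl_image]
    have h1 : A '' interior (hl S) = interior (A '' hl S) :=
      A.toContinuousLinearEquiv.toHomeomorph.image_interior (hl S)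
    rw [← h1]
    exact ⟨0, hP.zero, map_zero A⟩
  · rw [hl_image, hP.rep]
    ext x
    simp only [mem_image, mem_ofPred_eq, Finset.mem_image]
    constructor
    · rintro ⟨y, hy, rfl⟩ _ ⟨u, hu, rfl⟩
      rw [hdt]
      exact hy u hu
    · intro h
      refine ⟨A.symm x, fun u hu => ?_, A.apply_symm_apply x⟩
      have h1 := h _ ⟨u, hu, rfl⟩
      rw [← hdt, A.apply_symm_apply]
      exact h1
  · intro s' hs'
    obtain ⟨s, hs, rfl⟩ := Finset.mem_image.1 hs'
    intro h
    have h1 : ((S.image A : Finset E) : Set E) \ {A s} = A '' ((S : Set E) \ {s}) := by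
      rw [Finset.coe_image, image_sdiff A.injective, image_singleton]
    rw [h1] at h
    have h2 : convexHull ℝ (A '' ((S : Set E) \ {s})) = A '' convexHull ℝ ((S : Set E) \ {s}) :=
      ((A : E →ₗ[ℝ] E).image_convexHull _).symm
    rw [h2] at h
    exact hI.ls s hs ((A.injective.mem_set_image).1 h)
  · intro s' hs'
    obtain ⟨s, hs, rfl⟩ := Finset.mem_image.1 hs'
    intro h
    have h1 : ((U.image A.symm : Finset E) : Set E) \ {A.symm s} =
        A.symm '' ((U : Set E) \ {s}) := by
      rw [Finset.coe_image, image_sdiff A.symm.injective, image_singleton]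
    rw [h1] at h
    have h2 : convexHull ℝ (A.symm '' ((U : Set E) \ {s})) =
        A.symm '' convexHull ℝ ((U : Set E) \ {s}) :=
      ((A.symm : E →ₗ[ℝ] E).image_convexHull _).symm
    rw [h2] at h
    exact hI.lu s hs ((A.symm.injective.mem_set_image).1 h)
  · exact Finset.card_image_of_injective S A.injective
  · exact Finset.card_image_of_injective U A.symm.injective
  · unfold inc
    rw [Finset.sum_image fun x _ y _ h => A.symm.injective h]
    refine Finset.sum_congr rfl fun u _ => ?_
    unfold fc
    rw [Finset.filter_image, Finset.card_image_of_injective _ A.injective]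
    congr 1
    refine Finset.filter_congr fun s _ => ?_
    rw [hdt]
  · rw [hl_image, hl_image, vl_image, vl_image]
    have h1 : |LinearMap.det (A : E →ₗ[ℝ] E)| * |LinearMap.det (A.symm : E →ₗ[ℝ] E)| = 1 := by
      rw [← abs_mul, A.det_mul_det_symm, abs_one]
    calc |LinearMap.det (A : E →ₗ[ℝ] E)| * vl (hl S) *
          (|LinearMap.det (A.symm : E →ₗ[ℝ] E)| * vl (hl U)) =
          (|LinearMap.det (A : E →ₗ[ℝ] E)| * |LinearMap.det (A.symm : E →ₗ[ℝ] E)|) *
          (vl (hl S) * vl (hl U)) := by ring
      _ = _ := by rw [h1, one_mul]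
  · intro u' hu' hne
    obtain ⟨u, hu, rfl⟩ := Finset.mem_image.1 hu'
    have h1 : (A.symm u).2.2 = dt u θ := by
      rw [← hdt u θ, hAθ]
      simp [dt]
    rw [h1] at hne
    obtain ⟨g, hg⟩ := hβ u hu hne
    refine ⟨A.symm g, fun s' hs' h2 => ?_⟩
    obtain ⟨s, hs, rfl⟩ := Finset.mem_image.1 hs'
    rw [hdt] at h2 ⊢
    change β (A.symm (A s)) = dt g s
    rw [A.symm_apply_apply]
    exact hg s hs h2
  · rintro ⟨g, c, hg⟩
    refine hA ⟨A g, c, fun s hs => ?_⟩
    have h1 : β (A.symm (A s)) = dt g (A s) + c := hg (A s) (Finset.mem_image_of_mem _ hs)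
    rw [A.symm_apply_apply] at h1
    rw [h1, hsym]
  · intro d hd
    rw [hl_image] at hd
    exact P9.near_image hd

open C8 in
theorem t_new2 (h1 : S_rep) (h2 : S_pol) : S_new2 := by
  classical
  intro S U β G hP hD z hz
  have hK := h1 hP hD
  set K := hl (SM S β) with hKdef
  have hδ : ∀ u ∈ U, 0 < dl G z u := fun u hu => dl_pos hK hz hu
  set ψ : E → E := fun s => mv β s - z with hψ
  set φ : E → E := fun u => (dl G z u)⁻¹ • W G u with hφ
  set S' : Finset E := S.image ψ with hS'
  set U' : Finset E := U.image φ with hU'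
  have hmem : ∀ y : E, y ∈ hl S' ↔ y + z ∈ K := by
    intro y
    have e1 : ((S' : Finset E) : Set E) = (-z) +ᵥ ((SM S β : Finset E) : Set E) := by
      ext x
      rw [Set.mem_vadd_set]
      simp only [hS', SM, Finset.coe_image, Set.mem_image, vadd_eq_add]
      constructor
      · rintro ⟨s, hs, rfl⟩
        exact ⟨mv β s, ⟨s, hs, rfl⟩, by simp only [hψ]; abel⟩
      · rintro ⟨_, ⟨s, hs, rfl⟩, rfl⟩
        exact ⟨s, hs, by simp only [hψ]; abel⟩
    have e2 : hl S' = (-z) +ᵥ K := by
      rw [hKdef]
      unfold hl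
      rw [e1, convexHull_vadd]
    rw [e2, Set.mem_vadd_set_iff_neg_vadd_mem, neg_neg, vadd_eq_add, add_comm]
  have hpre : hl S' = (fun y => y + z) ⁻¹' K := by
    ext y; exact hmem y
  have hrep : hl S' = {x | ∀ u ∈ U', dt u x ≤ 1} := by
    ext y
    rw [hmem y, hK]
    simp only [Set.mem_ofPred_eq, hU', Finset.mem_image, forall_exists_index, and_imp,
      forall_apply_eq_imp_iff₂]
    refine forall₂_congr fun u hu => ?_
    rw [half, dt_add]
    simp only [hφ]
    rw [smul_dt, inv_mul_le_iff₀ (hδ u hu), mul_one]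
    unfold dl
    constructor <;> intro h <;> linarith
  have hPr : Pr S' U' := by
    refine ⟨?_, hrep⟩
    rw [hpre]
    change (0 : E) ∈ interior ((Homeomorph.addRight z) ⁻¹' K)
    rw [← (Homeomorph.addRight z).preimage_interior]
    simpa using hz
  refine ⟨S', U', hPr, Finset.card_image_le, Finset.card_image_le, ?_, ?_, ?_, ?_⟩
  · intro hSc hUc
    have hψi : Set.InjOn ψ S := Finset.card_image_iff.1 hSc
    have hφi : Set.InjOn φ U := Finset.card_image_iff.1 hUc
    have key : ∀ u ∈ U, ∀ s ∈ S, dt (φ u) (ψ s) = 1 ↔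
        dt u s + u.2.2 * (β s - av (G u) s) = 1 := by
      intro u hu s _
      simp only [hφ, hψ]
      rw [smul_dt, dt_sub, mvd, inv_mul_eq_one₀ (hδ u hu).ne']
      unfold dl
      constructor <;> intro h <;> linarith
    have old : ∀ u ∈ U, ∀ s ∈ S, dt u s = 1 → dt (φ u) (ψ s) = 1 := by
      intro u hu s hs h
      rw [key u hu s hs]
      have h3 := hD.slack u hu s hs
      rw [h, sub_self] at h3
      have h4 := abs_nonpos_iff.1 h3
      rw [h4, h, add_zero]
    have hsub : ∀ u ∈ U, (fc S u).image ψ ⊆ fc S' (φ u) := by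
      intro u hu x hx
      rw [Finset.mem_image] at hx
      obtain ⟨s, hs, rfl⟩ := hx
      simp only [fc, Finset.mem_filter] at hs ⊢
      exact ⟨Finset.mem_image_of_mem _ hs.1, old u hu s hs.1 hs.2⟩
    have hcard : ∀ u ∈ U, (fc S u).card ≤ (fc S' (φ u)).card := by
      intro u hu
      rw [← Finset.card_image_of_injOn (s := fc S u) (f := ψ)
        (hψi.mono (by intro x hx; exact (Finset.mem_filter.1 hx).1))]
      exact Finset.card_le_card (hsub u hu)
    unfold inc
    rw [hU', Finset.sum_image hφi]
    obtain ⟨u0, hu0, s0, hs0, hlt, heq⟩ := hD.plus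
    refine Finset.sum_lt_sum hcard ⟨u0, hu0, ?_⟩
    rw [← Finset.card_image_of_injOn (s := fc S u0) (f := ψ)
      (hψi.mono (by intro x hx; exact (Finset.mem_filter.1 hx).1))]
    refine Finset.card_lt_card ?_
    rw [Finset.ssubset_iff_of_subset (hsub u0 hu0)]
    refine ⟨ψ s0, ?_, ?_⟩
    · simp only [fc, Finset.mem_filter]
      refine ⟨Finset.mem_image_of_mem _ hs0, ?_⟩
      rw [key u0 hu0 s0 hs0]
      linarith
    · intro hx
      rw [Finset.mem_image] at hx
      obtain ⟨s, hs, hs2⟩ := hx
      have hs3 := (Finset.mem_filter.1 hs)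
      have : s = s0 := hψi hs3.1 hs0 hs2
      subst this
      linarith [hs3.2]
  · unfold vl
    have e : (fun y : E => y + z) ⁻¹' K = (fun y : E => z + y) ⁻¹' K := by
      ext y; simp only [Set.mem_preimage, add_comm]
    have : (volume : Measure E).IsAddLeftInvariant := iv
    rw [hpre, e, measure_preimage_add]
  · rw [← h2.polz_hl hPr]
    ext y
    simp only [polz, Set.mem_ofPred_eq, sub_zero]
    constructor
    · intro h x hx
      exact h (x - z) ((hmem _).2 (by simpa using hx))
    · intro h x hx
      have := h (x + z) ((hmem _).1 hx)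
      simpa using this
  · intro d hd
    rw [hpre] at hd
    exact P9.near_pre hd

/-- one step of the induction for an irredundant pair -/
theorem P9.step (hpol : S_pol) (hbeta : S_beta) (hfour : S_four) (hcoord : S_coord2)
    (hdec : S_dec) (hneg : S_neg) (hnew : S_new2) (hpath : S_path) (hwtool : S_wtool)
    {S U : Finset E} (hP : Pr S U) (hI : Irr S U) (hle : S.card ≤ U.card)
    (IH : ∀ S' U' : Finset E, Pr S' U' → (S'.card + U'.card < S.card + U.card ∨
      (S'.card = S.card ∧ U'.card = U.card ∧ inc S U < inc S' U')) →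
      vl (hl S') * vl (hl U') < cc → near (hl S') d0)
    (hlt : vl (hl S) * vl (hl U) < cc) : near (hl S) d0 := by
  have hd0 : 0 ≤ d0 := by unfold d0; positivity
  rcases Nat.lt_or_ge S.card 5 with h5 | h5
  · have h4 : S.card = 4 := by
      have := hfour hP
      omega
    obtain ⟨a, b, c, e, -, -, -, -, -, -, hS⟩ := Finset.card_eq_four.1 h4
    refine ⟨a, b, c, e, ?_, ?_⟩
    · unfold hl tet
      rw [hS]
      simp only [Finset.coe_insert, Finset.coe_singleton]
      exact le_rfl
    · have h6 : tet a b c e = hl S := by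
        unfold hl tet
        rw [hS]
        simp only [Finset.coe_insert, Finset.coe_singleton]
      rw [h6]
      have h7 : 0 ≤ vl (hl S) := ENNReal.toReal_nonneg
      nlinarith
  · obtain ⟨θ, β, hθ, hβ, hnaff⟩ := hbeta hP hI h5 hle
    obtain ⟨S', U', β', hP', hI', hcS, hcU, hinc, hvv, hβ', hnaff', hnear⟩ :=
      hcoord hP hI hθ hβ hnaff
    obtain ⟨γ, G, hD⟩ := hdec hP' hβ' hnaff'
    have hDn := hneg hD
    apply hnear
    by_contra hcon
    have hlt' : vl (hl S') * vl (polz (hl S') 0) < cc := by
      rw [hpol.polz_hl hP', hvv]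
      exact hlt
    have key : ∀ {γ : E → ℝ} {G : E → E}, Dec S' U' γ G → ∀ z ∈ interior (hl (SM S' γ)),
        vl (hl (SM S' γ)) * vl (polz (hl (SM S' γ)) z) < cc → near (hl (SM S' γ)) d0 := by
      intro γ G hD z hz hltz
      obtain ⟨S'', U'', hP'', hc1, hc2, hc3, hv1, hv2, hn⟩ := hnew hP' hD hz
      apply hn
      apply IH S'' U'' hP''
      · by_cases hlt : S''.card + U''.card < S.card + U.card
        · exact Or.inl hlt
        · right
          have e1 : S''.card = S'.card := by omega
          have e2 : U''.card = U'.card := by omega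
          refine ⟨by omega, by omega, ?_⟩
          rw [← hinc]
          exact hc3 e1 e2
      · rw [hv1, hv2]
        exact hltz
    obtain ⟨b, hb0, hb1, hb⟩ := hpath hP' hD hcon hlt' (key hD)
    obtain ⟨a, ha0, ha1, ha⟩ := hpath hP' hDn hcon hlt' (key hDn)
    have hcc : 0 < cc := by unfold cc; positivity
    have := hwtool hP' hD ha0 ha1 hb0 hb1 hcc hb (by
      have e : (fun s => -a * γ s) = fun s => a * -γ s := by
        funext s; ring
      rw [e]
      exact ha)
    linarith

theorem t_chain (hpol : S_pol) (herase : S_erase) (hbeta : S_beta) (hfour : S_four)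
    (hcoord : S_coord2) (hdec : S_dec) (hneg : S_neg) (hnew : S_new2) (hpath : S_path)
    (hwtool : S_wtool) (hLT : S_LT) (hdual : S_dualnear) : S_chain := by
  have main : ∀ n : ℕ, ∀ m : ℕ, ∀ S U : Finset E, Pr S U → S.card + U.card = n →
      S.card * U.card - inc S U = m → vl (hl S) * vl (hl U) < cc → near (hl S) d0 := by
    intro n
    induction n using Nat.strong_induction_on with
    | _ n IHn =>
      intro m
      induction m using Nat.strong_induction_on with
      | _ m IHm =>
        intro S U hP hn hm hlt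
        by_cases hI : Irr S U
        · rcases le_total S.card U.card with hle | hle
          · apply P9.step hpol hbeta hfour hcoord hdec hneg hnew hpath hwtool hP hI hle _ hlt
            intro S' U' hP' hor
            rcases hor with h | ⟨h1, h2, h3⟩
            · exact IHn (S'.card + U'.card) (by omega) _ S' U' hP' rfl rfl
            · refine IHm (S'.card * U'.card - inc S' U') ?_ S' U' hP' (by omega) rfl
              have := M.inc_le S' U'
              rw [h1, h2] at this ⊢
              omega
          · have hPs := hpol.swap hP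
            have hIs : Irr U S := ⟨hI.lu, hI.ls⟩
            have hlt' : vl (hl U) * vl (hl S) < cc := by
              rw [mul_comm]; exact hlt
            have hU : near (hl U) d0 := by
              apply P9.step hpol hbeta hfour hcoord hdec hneg hnew hpath hwtool hPs hIs hle _ hlt'
              intro S' U' hP' hor
              rcases hor with h | ⟨h1, h2, h3⟩
              · exact IHn (S'.card + U'.card) (by omega) _ S' U' hP' rfl rfl
              · refine IHm (S'.card * U'.card - inc S' U') ?_ S' U' hP' (by omega) rfl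
                have h4 := M.inc_le S' U'
                rw [h1, h2] at h4 ⊢
                rw [M.inc_comm U S] at h3
                rw [mul_comm U.card S.card] at h4 ⊢
                omega
            have hS1 : near (hl S) d1 := hdual hPs hlt' hU
            by_contra hcon
            have hbd : Bd (hl S) := ⟨S.finite_toSet.isCompact_convexHull (𝕜 := ℝ),
              convex_convexHull ℝ _, ⟨0, hP.zero⟩⟩
            have hS2 : near (hl S) (2 * d1) := by
              obtain ⟨a, b, c, e, h1, h2⟩ := hS1
              refine ⟨a, b, c, e, h1, h2.trans ?_⟩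
              have h7 : 0 ≤ vl (hl S) := ENNReal.toReal_nonneg
              have h8 : 0 ≤ d1 := by unfold d1; positivity
              have : (1 + d1) ≤ (1 + 2 * d1) := by linarith
              exact mul_le_mul_of_nonneg_right this h7
            have h3 := hLT hbd hS2 (d := d0) (by unfold d0; positivity)
              (by unfold d0; norm_num) hcon 0 hP.zero
            rw [hpol.polz_hl hP] at h3
            have h4 : cc ≤ 64 / 9 * (1 + d0 / 2000) := by
              unfold cc d0
              norm_num
            linarith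
        · have : (∃ s ∈ S, s ∈ convexHull ℝ ((S : Set E) \ {s})) ∨
              (∃ u ∈ U, u ∈ convexHull ℝ ((U : Set E) \ {u})) := by
            by_contra hcon
            push Not at hcon
            exact hI ⟨hcon.1, hcon.2⟩
          rcases this with ⟨s, hs, hsc⟩ | ⟨u, hu, huc⟩
          · obtain ⟨hP', he⟩ := herase.s hP hs hsc
            rw [← he] at hlt ⊢
            have hc := Finset.card_erase_lt_of_mem hs
            refine IHn ((S.erase s).card + U.card) ?_ _ (S.erase s) U ?_ rfl rfl hlt
            · have : (S.erase s).card < S.card := by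
                convert hc
              omega
            · exact hP'
          · obtain ⟨hP', he⟩ := herase.u hP hu huc
            rw [← he] at hlt
            have hc := Finset.card_erase_lt_of_mem hu
            refine IHn (S.card + (U.erase u).card) ?_ _ S (U.erase u) ?_ rfl rfl hlt
            · have : (U.erase u).card < U.card := by
                convert hc
              omega
            · exact hP'
  intro S U hP hlt
  exact main _ _ S U hP rfl rfl hlt

end H293M
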