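import Pool.Agent.H293R2.M3.All
import Pool.Agent.H293R2.M3.N1
import Pool.Agent.H293R2.M3.N2
import Pool.Agent.H293R2.M3.L1
import Pool.Agent.H293R2.M3.L2
import Pool.Agent.H293R2.M3.L3
import Pool.Agent.H293R2.M3.L4
import Pool.Agent.H293R2.M3.L5
import Pool.Agent.H293R2.M3.G1
import Pool.Agent.H293R2.M3.G2
import Pool.Agent.H293R2.M3.G3
import Pool.Agent.H293R2.M3.G4
import Pool.Agent.H293R2.M3.P1
import Pool.Agent.H293R2.M3.P2
import Pool.Agent.H293R2.M3.P3
import Pool.Agent.H293R2.M3.P4
import Pool.Agent.H293R2.M3.P5
import Pool.Agent.H293R2.M3.P6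
import Pool.Agent.H293R2.M3.P7
import Pool.Agent.H293R2.M3.P8
import Pool.Agent.H293R2.M3.P9
import Pool.Agent.H293R2.M3.P10
import Pool.Agent.H293R2.M3.P11
import Pool.Agent.H293R2.M3.P12
import Pool.Agent.H293R2.M3.P13
import Pool.Agent.H293R2.M3.P14

set_option autoImplicit false

namespace H293M

/-- all pieces of part 2 that are used in the results -/
structure Pieces : Prop where
  simp : S_simp
  pol : S_pol
  body : S_body
  final : S_final
  minsimp : S_minsimp
  cent : S_cent
  chain : S_chain
  LT : S_LT
  eq : S_eq
  eq2 : S_eq2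
  stab : S_stab
  val : S_val
  final2 : S_final2

/-- the equality case of the non-symmetric Mahler inequality in dimension three: all pieces -/
theorem all2 : Pieces := by
  -- part 1
  have hfpm : S_fpm := t_fpm
  have h5 : S_axis := t_axis hfpm
  have hvlp : S_vlp := t_vlp hfpm
  have hpol : S_pol := t_pol
  have hspan : S_span := t_span hpol
  have h3 : S_count := t_count hspan
  have hface : S_face := t_face
  have htop : S_top := t_top hface
  have hbot : S_bot := t_bot hface
  have hneg : S_neg := t_neg
  have hint : S_int := t_int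
  have hrep : S_rep := t_rep hneg hint htop hbot
  have hIc : S_Ic := t_Ic
  have hbbl1 : S_bbl1 := t_bbl1
  have hbbl2 : S_bbl2 := t_bbl2 hbbl1 hIc
  have hshift : S_shift := t_shift hIc
  have htool : S_tool := t_tool hIc hbbl2 hfpm hvlp h5 hshift
  have herase : S_erase := t_erase
  have hbeta : S_beta := t_beta h3 hspan
  have hfour : S_four := t_four
  have hcoord : S_coord := t_coord
  have hdec : S_dec := t_dec
  have hnew : S_new := t_new hrep hpol
  have hvol : S_vol := t_vol hneg htop hbot
  have hsimp : S_simp := t_simp
  have htetra : S_tetra := t_tetra hpol hsimp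
  have hmain : S_main := t_main hpol herase hbeta hfour hcoord hdec hneg hint hnew hvol htool htetra
  have hexU : S_exU := t_exU
  have happrox : S_approx := t_approx
  have hbody : S_body := t_body hmain hexU happrox hpol
  have hfinal : S_final := t_final hbody
  -- part 2
  have hcone1 : S_cone1 := t_cone1
  have hcone2 : S_cone2 := t_cone2
  have hemin : S_emin := t_emin
  have hHX : S_HX := t_HX
  have hcover : S_cover := t_cover
  have hlayer : S_layer := t_layer hcone1 hemin
  have hedge : S_edge := t_edge
  have hloss : S_loss := t_loss hcover hlayer hedge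
  have hbump : S_bump := t_bump hcone2
  have hadm : S_adm := t_adm
  have hgain : S_gain := t_gain hbump hadm hemin
  have hloc : S_loc := t_loc hHX hloss hgain
  have hminsimp : S_minsimp := t_minsimp
  have hcent : S_cent := t_cent hsimp
  have haff : S_aff := t_aff hsimp
  have hLT : S_LT := t_LT hminsimp hcent haff hloc
  have hdual : S_dualnear := t_dualnear hpol hbody hsimp
  have hcont : S_cont := t_cont
  have hint2 : S_int2 := t_int2
  have hvol2 : S_vol2 := t_vol2 hface
  have hwtool : S_wtool := t_wtool htool hint2 hvol2
  have hpath : S_path := t_path hLT hcont hint2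
  have hcoord2 : S_coord2 := t_coord2
  have hnew2 : S_new2 := t_new2 hrep hpol
  have hchain : S_chain := t_chain hpol herase hbeta hfour hcoord2 hdec hneg hnew2 hpath hwtool
    hLT hdual
  have heq : S_eq := t_eq hchain hLT hminsimp hexU happrox hpol
  have hval : S_val := t_val hsimp
  have hstab : S_stab := t_stab hchain hLT hexU happrox hpol
  have heq2 : S_eq2 := t_eq2 hstab hminsimp
  exact ⟨hsimp, hpol, hbody, hfinal, hminsimp, hcent, hchain, hLT, heq, heq2, hstab, hval,
    t_final2 hfinal heq hval⟩

end H293M
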