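import Pool.Agent.H293R2.M3.Spec

set_option autoImplicit false

open MeasureTheory Set

namespace H293M

namespace C6

theorem exists_slanted {S U : Finset E} (hP : Pr S U) : ∃ u ∈ U, u.2.2 ≠ 0 := by
  by_contra hcon
  push Not at hcon
  have hb : Bornology.IsBounded (hl S) := by
    unfold hl
    rw [isBounded_convexHull]
    exact S.finite_toSet.isBounded
  obtain ⟨r, hr⟩ := hb.exists_norm_le
  have hmem : ((0, 0, |r| + 1) : E) ∈ hl S := by
    rw [hP.rep]
    intro u hu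
    have h0 := hcon u hu
    simp only [dt]
    rw [h0]
    simp
  have h1 := hr _ hmem
  have h2 : ‖((0, 0, |r| + 1) : E)‖ = |r| + 1 := by
    rw [Prod.norm_mk, Prod.norm_mk, Real.norm_eq_abs (|r| + 1), abs_of_pos (by positivity)]
    simp
    positivity
  rw [h2] at h1
  have := le_abs_self r
  linarith

theorem dt_le {S U : Finset E} (hP : Pr S U) {u s : E} (hu : u ∈ U) (hs : s ∈ S) :
    dt u s ≤ 1 := by
  have h : s ∈ hl S := subset_convexHull ℝ _ hs
  rw [hP.rep] at h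
  exact h u hu

theorem exists_off {S U : Finset E} (hP : Pr S U) (u : E) (hu : u ∈ U) :
    ∃ s ∈ S, dt u s < 1 := by
  by_contra hcon
  push Not at hcon
  have hsub : hl S ⊆ {x | dt u x = 1} := by
    refine convexHull_min ?_ ?_
    · intro s hs
      exact le_antisymm (dt_le hP hu hs) (hcon s hs)
    · intro x hx y hy a b _ _ hab
      simp only [mem_ofPred_eq] at hx hy ⊢
      have : dt u (a • x + b • y) = a * dt u x + b * dt u y := by
        simp only [dt, Prod.fst_add, Prod.snd_add, Prod.smul_fst, Prod.smul_snd, smul_eq_mul]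
        ring
      rw [this, hx, hy]
      linarith
  have h0 : (0 : E) ∈ {x | dt u x = 1} := hsub (interior_subset hP.zero)
  simp [dt] at h0

end C6

open C6 in
theorem t_dec : S_dec := by
  classical
  intro S U hP β hβ hnaff
  -- the coefficients
  have hβ' : ∀ u : E, ∃ g : E, u ∈ U → u.2.2 ≠ 0 → ∀ s ∈ S, dt u s = 1 → β s = dt g s := by
    intro u
    by_cases h : u ∈ U ∧ u.2.2 ≠ 0
    · obtain ⟨g, hg⟩ := hβ u h.1 h.2
      exact ⟨g, fun _ _ => hg⟩
    · exact ⟨0, fun h1 h2 => absurd ⟨h1, h2⟩ h⟩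
  choose g0 hg0 using hβ'
  set G0 : E → E := fun u => ((g0 u).1 - (g0 u).2.2 * u.1 / u.2.2,
    (g0 u).2.1 - (g0 u).2.2 * u.2.1 / u.2.2, (g0 u).2.2 / u.2.2) with hG0
  have hG0' : ∀ u ∈ U, u.2.2 ≠ 0 → ∀ s ∈ S, dt u s = 1 → β s = av (G0 u) s := by
    intro u hu hu3 s hs h1
    rw [hg0 u hu hu3 s hs h1]
    simp only [dt, av, hG0] at h1 ⊢
    have h2 : s.2.2 = (1 - u.1 * s.1 - u.2.1 * s.2.1) / u.2.2 := by
      rw [eq_div_iff hu3]
      linarith
    rw [h2]
    field_simp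
    ring
  set e : E × E → ℝ := fun p => p.1.2.2 * (β p.2 - av (G0 p.1) p.2) with he
  set c : E × E → ℝ := fun p => 1 - dt p.1 p.2 with hc
  set ρ : E × E → ℝ := fun p => e p / c p with hρ
  set P : Finset (E × E) := (U ×ˢ S).filter (fun p => p.1.2.2 ≠ 0 ∧ dt p.1 p.2 < 1) with hPdef
  obtain ⟨u0, hu0, hu03⟩ := exists_slanted hP
  obtain ⟨s0, hs0, hs01⟩ := exists_off hP u0 hu0
  have hPne : P.Nonempty :=
    ⟨(u0, s0), Finset.mem_filter.2 ⟨Finset.mem_product.2 ⟨hu0, hs0⟩, hu03, hs01⟩⟩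
  obtain ⟨pM, hpM, hM⟩ := P.exists_max_image ρ hPne
  obtain ⟨pm, hpm, hm⟩ := P.exists_min_image ρ hPne
  have memP : ∀ u ∈ U, ∀ s ∈ S, u.2.2 ≠ 0 → dt u s < 1 → (u, s) ∈ P := fun u hu s hs h1 h2 =>
    Finset.mem_filter.2 ⟨Finset.mem_product.2 ⟨hu, hs⟩, h1, h2⟩
  have hlt : ρ pm < ρ pM := by
    by_contra hcon
    push Not at hcon
    apply hnaff
    have hall : ∀ p ∈ P, ρ p = ρ pM := fun p hp =>
      le_antisymm (hM p hp) (hcon.trans (hm p hp))
    set κ := ρ pM with hκ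
    refine ⟨((G0 u0).1 - κ * u0.1 / u0.2.2, (G0 u0).2.1 - κ * u0.2.1 / u0.2.2, -κ),
      (G0 u0).2.2 + κ / u0.2.2, fun s hs => ?_⟩
    have h1 : u0.2.2 * (β s - av (G0 u0) s) = κ * (1 - dt u0 s) := by
      rcases (dt_le hP hu0 hs).lt_or_eq with h2 | h2
      · have h3 := hall _ (memP u0 hu0 s hs hu03 h2)
        simp only [hρ, he, hc] at h3
        rwa [div_eq_iff (by linarith)] at h3
      · rw [hG0' u0 hu0 hu03 s hs h2, h2]
        ring
    have h2 : β s = av (G0 u0) s + κ * (1 - dt u0 s) / u0.2.2 := by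
      field_simp
      linarith
    rw [h2]
    simp only [dt, av]
    field_simp
    ring
  set κ : ℝ := (ρ pM + ρ pm) / 2 with hκ
  set δ : ℝ := (ρ pM - ρ pm) / 2 with hδ
  have hδ0 : 0 < δ := by rw [hδ]; linarith
  set β1 : E → ℝ := fun s => (β s + κ * s.2.2) / δ with hβ1
  set G1 : E → E := fun u => (((G0 u).1 - κ * u.1 / u.2.2) / δ,
    ((G0 u).2.1 - κ * u.2.1 / u.2.2) / δ, ((G0 u).2.2 + κ / u.2.2) / δ) with hG1
  have key : ∀ u, u.2.2 ≠ 0 → ∀ s,
      u.2.2 * (β1 s - av (G1 u) s) = (e (u, s) - κ * c (u, s)) / δ := by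
    intro u hu3 s
    simp only [hβ1, hG1, av, he, hc, dt]
    field_simp
    ring
  refine ⟨β1, G1, ?_, ?_, ?_, ?_⟩
  · intro u hu s hs
    by_cases hu3 : u.2.2 = 0
    · rw [hu3, zero_mul, abs_zero]
      have := dt_le hP hu hs
      linarith
    · rw [key u hu3 s, abs_div, abs_of_pos hδ0, div_le_iff₀ hδ0]
      rcases (dt_le hP hu hs).lt_or_eq with h2 | h2
      · have hcpos : 0 < c (u, s) := by simp only [hc]; linarith
        have h3 := hM _ (memP u hu s hs hu3 h2)
        have h4 := hm _ (memP u hu s hs hu3 h2)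
        have h5 : e (u, s) = ρ (u, s) * c (u, s) := by
          simp only [hρ]
          rw [div_mul_cancel₀ _ hcpos.ne']
        rw [h5, ← sub_mul, abs_mul, abs_of_pos hcpos]
        have h6 : |ρ (u, s) - κ| ≤ δ := by
          rw [abs_le, hκ, hδ]
          constructor <;> linarith
        have h7 := mul_le_mul_of_nonneg_right h6 hcpos.le
        have h8 : (1 - dt u s) * δ = δ * c (u, s) := by simp only [hc]; ring
        rw [h8]
        exact h7
      · have h3 : e (u, s) = 0 := by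
          simp only [he]
          rw [hG0' u hu hu3 s hs h2]
          ring
        have h4 : c (u, s) = 0 := by simp only [hc]; rw [h2]; ring
        rw [h3, h4, h2]
        simp
  · obtain ⟨h1, h2, h3⟩ := Finset.mem_filter.1 hpM
    obtain ⟨hu, hs⟩ := Finset.mem_product.1 h1
    refine ⟨pM.1, hu, pM.2, hs, h3, ?_⟩
    rw [key pM.1 h2 pM.2, div_eq_iff hδ0.ne']
    have hcpos : 0 < c pM := by simp only [hc]; linarith
    have h5 : e pM = ρ pM * c pM := by
      simp only [hρ]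
      rw [div_mul_cancel₀ _ hcpos.ne']
    show e pM - κ * c pM = c pM * δ
    rw [h5, hκ, hδ]
    ring
  · obtain ⟨h1, h2, h3⟩ := Finset.mem_filter.1 hpm
    obtain ⟨hu, hs⟩ := Finset.mem_product.1 h1
    refine ⟨pm.1, hu, pm.2, hs, h3, ?_⟩
    rw [key pm.1 h2 pm.2, neg_eq_iff_eq_neg, div_eq_iff hδ0.ne']
    have hcpos : 0 < c pm := by simp only [hc]; linarith
    have h5 : e pm = ρ pm * c pm := by
      simp only [hρ]
      rw [div_mul_cancel₀ _ hcpos.ne']
    show e pm - κ * c pm = -c pm * δ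
    rw [h5, hκ, hδ]
    ring
  · rintro ⟨g, c0, hg⟩
    apply hnaff
    refine ⟨(δ * g.1, δ * g.2.1, δ * g.2.2 - κ), δ * c0, fun s hs => ?_⟩
    have h1 := hg s hs
    simp only [hβ1] at h1
    rw [div_eq_iff hδ0.ne'] at h1
    simp only [dt] at h1 ⊢
    linarith

end H293M
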