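import Mathlib

/-!
The non-symmetric Mahler inequality in dimension three: definitions.

Everything takes place in `E = ℝ × ℝ × ℝ` with the dot product `dt`. A pair `Pr S U` consists of
finite sets with `conv S = {x | ∀ u ∈ U, dt u x ≤ 1}` and `0` in the interior.
-/

set_option autoImplicit false

open MeasureTheory

namespace H293M

/-- three-dimensional space -/
abbrev E := ℝ × ℝ × ℝ

/-- dot product -/
def dt (u s : E) : ℝ := u.1 * s.1 + u.2.1 * s.2.1 + u.2.2 * s.2.2

/-- polar with respect to the point `z` -/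
def polz (K : Set E) (z : E) : Set E := {y | ∀ x ∈ K, dt (x - z) y ≤ 1}

/-- convex hull of a finite set -/
def hl (S : Finset E) : Set E := convexHull ℝ (S : Set E)

/-- volume as a real number -/
noncomputable def vl (K : Set E) : ℝ := (volume K).toReal

/-- a polytope with the origin inside, given by vertices and by half spaces -/
structure Pr (S U : Finset E) : Prop where
  zero : (0 : E) ∈ interior (hl S)
  rep : hl S = {x | ∀ u ∈ U, dt u x ≤ 1}

/-- no superfluous vertices and half spaces -/
structure Irr (S U : Finset E) : Prop where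
  ls : ∀ s ∈ S, s ∉ convexHull ℝ ((S : Set E) \ {s})
  lu : ∀ u ∈ U, u ∉ convexHull ℝ ((U : Set E) \ {u})

open scoped Classical in
/-- points of `S` on the facet `u` -/
noncomputable def fc (S : Finset E) (u : E) : Finset E := S.filter fun s => dt u s = 1

/-- number of incidences -/
noncomputable def inc (S U : Finset E) : ℕ := ∑ u ∈ U, (fc S u).card

/-- `β` is affine on `S` -/
def Aff (S : Finset E) (β : E → ℝ) : Prop := ∃ (g : E) (c : ℝ), ∀ s ∈ S, β s = dt g s + c

/-- moving the points in the vertical direction -/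
def mv (β : E → ℝ) (s : E) : E := (s.1, s.2.1, s.2.2 + β s)

open scoped Classical in
/-- moved set -/
noncomputable def SM (S : Finset E) (β : E → ℝ) : Finset E := S.image (mv β)

/-- affine function of the horizontal coordinates with coefficients `g` -/
def av (g : E) (x : E) : ℝ := g.1 * x.1 + g.2.1 * x.2.1 + g.2.2

/-- a decomposition: `β` vertical speeds of the vertices, `G u` affine functions on the facets -/
structure Dec (S U : Finset E) (β : E → ℝ) (G : E → E) : Prop where
  slack : ∀ u ∈ U, ∀ s ∈ S, |u.2.2 * (β s - av (G u) s)| ≤ 1 - dt u s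
  plus : ∃ u ∈ U, ∃ s ∈ S, dt u s < 1 ∧ u.2.2 * (β s - av (G u) s) = 1 - dt u s
  minus : ∃ u ∈ U, ∃ s ∈ S, dt u s < 1 ∧ -(u.2.2 * (β s - av (G u) s)) = 1 - dt u s
  naff : ¬ Aff S β

/-- upper support function: `max (a s₁ + b s₂ + s₃)` -/
noncomputable def fp (S : Finset E) (x : ℝ × ℝ) : ℝ :=
  sSup ((fun s : E => x.1 * s.1 + x.2 * s.2.1 + s.2.2) '' (S : Set E))

/-- lower support function: `max (a s₁ + b s₂ - s₃)` -/
noncomputable def fm (S : Finset E) (x : ℝ × ℝ) : ℝ :=
  sSup ((fun s : E => x.1 * s.1 + x.2 * s.2.1 - s.2.2) '' (S : Set E))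

/-- integral of the inverse cube -/
noncomputable def Ic (f : ℝ × ℝ → ℝ) : ℝ := ∫ x, ((f x)⁻¹) ^ 3

end H293M
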