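import Pool.Agent.H293R2.M3.P14

/-! Every convex body in dimension three is contained in a tetrahedron with at most 27 times its
volume; stability for all bodies. -/

set_option autoImplicit false

open MeasureTheory Set

namespace H293M

namespace P15

theorem near26 (h1 : S_minsimp) (h2 : S_cent) (h3 : S_simp) {K : Set E} (hK : Bd K) :
    near K 26 := by
  obtain ⟨a, b, c, e, hsub, hmin⟩ := h1 hK
  have hp1 : tet a b c e = tet b c e a := by
    unfold tet; congr 1; ext x; simp only [mem_insert_iff, mem_singleton_iff]; tauto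
  have hp2 : tet a b c e = tet a c e b := by
    unfold tet; congr 1; ext x; simp only [mem_insert_iff, mem_singleton_iff]; tauto
  have hp3 : tet a b c e = tet a b e c := by
    unfold tet; congr 1; ext x; simp only [mem_insert_iff, mem_singleton_iff]; tauto
  have g4 := h2 hK hsub hmin
  have g1 := h2 hK (a := b) (b := c) (c := e) (e := a) (by rw [← hp1]; exact hsub)
    (by rw [← hp1]; exact hmin)
  have g2 := h2 hK (a := a) (b := c) (c := e) (e := b) (by rw [← hp2]; exact hsub)
    (by rw [← hp2]; exact hmin)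
  have g3 := h2 hK (a := a) (b := b) (c := e) (e := c) (by rw [← hp3]; exact hsub)
    (by rw [← hp3]; exact hmin)
  refine ⟨a, b, c, e, hsub, ?_⟩
  have hsub2 : tet ((1 / 3 : ℝ) • (b + c + e)) ((1 / 3 : ℝ) • (a + c + e))
      ((1 / 3 : ℝ) • (a + b + e)) ((1 / 3 : ℝ) • (a + b + c)) ⊆ K := by
    refine convexHull_min ?_ hK.cvx
    intro x hx
    simp only [mem_insert_iff, mem_singleton_iff] at hx
    rcases hx with rfl | rfl | rfl | rfl
    · exact g1
    · exact g2
    · exact g3
    · exact g4
  have hv : vl (tet ((1 / 3 : ℝ) • (b + c + e)) ((1 / 3 : ℝ) • (a + c + e))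
      ((1 / 3 : ℝ) • (a + b + e)) ((1 / 3 : ℝ) • (a + b + c))) ≤ vl K :=
    ENNReal.toReal_mono hK.cpt.measure_lt_top.ne (measure_mono hsub2)
  have hv2 : vl (tet ((1 / 3 : ℝ) • (b + c + e)) ((1 / 3 : ℝ) • (a + c + e))
      ((1 / 3 : ℝ) • (a + b + e)) ((1 / 3 : ℝ) • (a + b + c))) * 27 = vl (tet a b c e) := by
    unfold tet
    rw [h3, h3]
    have : d3 (b - a) (c - a) (e - a) = -27 * d3
        ((1 / 3 : ℝ) • (a + c + e) - (1 / 3 : ℝ) • (b + c + e))
        ((1 / 3 : ℝ) • (a + b + e) - (1 / 3 : ℝ) • (b + c + e))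
        ((1 / 3 : ℝ) • (a + b + c) - (1 / 3 : ℝ) • (b + c + e)) := by
      simp only [d3, Prod.fst_add, Prod.snd_add, Prod.smul_fst, Prod.smul_snd, Prod.fst_sub,
        Prod.snd_sub, smul_eq_mul]
      ring
    rw [this, abs_mul]
    norm_num
    ring
  linarith

end P15

/-- stability: every convex body is contained in a tetrahedron whose volume exceeds the volume of
the body by a factor `1 + C δ`, `δ` the excess of the volume product -/
theorem t_stab2 (h1 : S_minsimp) (h2 : S_cent) (h3 : S_simp) (h4 : S_stab) (h5 : S_final)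
    {K : Set P14.F} (hK : IsCompact K) (hc : Convex ℝ K) {z : P14.F} (hz : z ∈ interior K) :
    ∃ v : Fin 4 → P14.F, K ⊆ convexHull ℝ (Set.range v) ∧
      (volume (convexHull ℝ (Set.range v))).toReal ≤
        (1 + 10 ^ 46 * ((volume K).toReal * (volume (P14.pol K z)).toReal - 64 / 9)) *
          (volume K).toReal := by
  set P : ℝ := (volume K).toReal * (volume (P14.pol K z)).toReal with hP
  have hlow : 64 / 9 ≤ P := h5 K hK hc z hz
  have hi : (interior K).Nonempty := ⟨z, hz⟩
  have hv0 : 0 < (volume K).toReal := by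
    refine ENNReal.toReal_pos ?_ hK.measure_lt_top.ne
    exact (lt_of_lt_of_le (isOpen_interior.measure_pos volume hi)
      (measure_mono interior_subset)).ne'
  rcases hlow.eq_or_lt with heq | hlt
  · obtain ⟨v, _, hv⟩ := P14.eq_inf (t_eq2 h4 h1) hK hc hi fun ε hε =>
      ⟨z, hz, by rw [← hP, ← heq]; linarith⟩
    refine ⟨v, hv.subset, ?_⟩
    rw [← hv, ← heq]
    simp
  · set δ : ℝ := P - 64 / 9 with hδ
    have hδ0 : 0 < δ := by rw [hδ]; linarith
    by_cases hd : 300 * δ ≤ 1 / 10 ^ 41
    · obtain ⟨v, hv1, hv2⟩ := P14.stab h4 hK hc hz (d := 300 * δ) (by positivity) hd (by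
        rw [← hP]
        nlinarith)
      refine ⟨v, hv1, hv2.trans ?_⟩
      refine mul_le_mul_of_nonneg_right ?_ hv0.le
      nlinarith
    · push Not at hd
      have hn := P15.near26 h1 h2 h3 (P14.bd hK hc hi)
      obtain ⟨a, b, c, e, h6, h7⟩ := hn
      rw [← P14.ver_tet] at h6
      rw [← P14.ver_tet, P12.vl_image, P12.vl_image] at h7
      refine ⟨P14.ver a b c e, (Set.image_subset_image_iff P12.phi.injective).1 h6, h7.trans ?_⟩
      refine mul_le_mul_of_nonneg_right ?_ hv0.le
      have : (26 : ℝ) ≤ 10 ^ 46 * δ := by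
        have h8 : (1 : ℝ) / 10 ^ 41 * 10 ^ 46 < 300 * δ * 10 ^ 46 :=
          mul_lt_mul_of_pos_right hd (by positivity)
        norm_num at h8 ⊢
        linarith
      linarith

end H293M
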