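import Pool.Agent.H293R2.M3.Spec2

/-!
P6: continuity of nearness along the motion.
-/

set_option autoImplicit false

open MeasureTheory Set

namespace H293M

namespace P6

theorem ball_sub {A B : Set E} (hA : Convex ℝ A) (hAc : IsClosed A) {x0 : E} {r κ : ℝ}
    (hr : 0 < r) (hκ : κ ≤ r / 2) (hB : Metric.closedBall x0 (2 * r) ⊆ B)
    (h : ∀ y ∈ B, ∃ x ∈ A, ‖y - x‖ ≤ κ) : Metric.closedBall x0 r ⊆ A := by
  intro p hp
  by_contra hpA
  obtain ⟨f, u, hfp, hfb⟩ := geometric_hahn_banach_point_closed hA hAc hpA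
  have hf : 0 < ‖f‖ := by
    rw [norm_pos_iff]
    rintro rfl
    obtain ⟨b, hb, -⟩ := h x0 (hB (Metric.mem_closedBall_self (by linarith)))
    have := hfb b hb
    simp at this hfp
    linarith
  obtain ⟨v, hv, hfv⟩ := ContinuousLinearMap.exists_lt_apply_of_lt_opNorm f
    (show ‖f‖ / 2 < ‖f‖ by linarith)
  -- choose the sign
  obtain ⟨v, hv, hfv⟩ : ∃ v : E, ‖v‖ < 1 ∧ f v < -(‖f‖ / 2) := by
    rcases le_total 0 (f v) with h0 | h0
    · refine ⟨-v, by rwa [norm_neg], ?_⟩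
      rw [Real.norm_eq_abs, abs_of_nonneg h0] at hfv
      rw [map_neg]; linarith
    · refine ⟨v, hv, ?_⟩
      rw [Real.norm_eq_abs, abs_of_nonpos h0] at hfv
      linarith
  have hmem : p + r • v ∈ Metric.closedBall x0 (2 * r) := by
    rw [Metric.mem_closedBall, dist_eq_norm]
    rw [Metric.mem_closedBall, dist_eq_norm] at hp
    calc ‖p + r • v - x0‖ = ‖(p - x0) + r • v‖ := by congr 1; abel
      _ ≤ ‖p - x0‖ + ‖r • v‖ := norm_add_le _ _
      _ ≤ r + r * 1 := by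
          rw [norm_smul, Real.norm_eq_abs, abs_of_pos hr]
          gcongr
      _ = 2 * r := by ring
  obtain ⟨b, hb, hbκ⟩ := h _ (hB hmem)
  have h1 := hfb b hb
  have h2 : f (p + r • v - b) = f p + r * f v - f b := by
    rw [map_sub, map_add, map_smul, smul_eq_mul]
  have h3 : |f (p + r • v - b)| ≤ ‖f‖ * κ := by
    rw [← Real.norm_eq_abs]
    exact (f.le_opNorm _).trans (by gcongr)
  rw [h2] at h3
  have h4 := (abs_le.1 h3).1
  have h5 : r * f v < r * (-(‖f‖ / 2)) := by gcongr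
  have h6 : ‖f‖ * κ ≤ ‖f‖ * (r / 2) := by gcongr
  nlinarith

theorem dil {A : Set E} (hA : Convex ℝ A) {x0 : E} {r κ ε : ℝ} (hε : 0 < ε)
    (hκ : κ ≤ ε * r) (hB : Metric.closedBall x0 r ⊆ A) {y : E} (h : ∃ x ∈ A, ‖y - x‖ ≤ κ) :
    y ∈ AffineMap.homothety x0 (1 + ε) '' A := by
  obtain ⟨x, hx, hxy⟩ := h
  have h1 : x0 + ε⁻¹ • (y - x) ∈ A := by
    apply hB
    rw [Metric.mem_closedBall, dist_eq_norm, add_sub_cancel_left, norm_smul, Real.norm_eq_abs,
      abs_of_pos (inv_pos.2 hε)]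
    calc ε⁻¹ * ‖y - x‖ ≤ ε⁻¹ * (ε * r) := by gcongr; exact hxy.trans hκ
      _ = r := by field_simp
  have hpos : 0 < 1 + ε := by linarith
  have h2 := hA hx h1 (show 0 ≤ (1 + ε)⁻¹ by positivity) (show 0 ≤ (1 + ε)⁻¹ * ε by positivity)
    (by field_simp)
  refine ⟨_, h2, ?_⟩
  rw [AffineMap.homothety_apply, vsub_eq_sub, vadd_eq_add]
  have e1 : (1 + ε)⁻¹ * ε * ε⁻¹ = (1 + ε)⁻¹ := by field_simp
  have : (1 + ε)⁻¹ • x + ((1 + ε)⁻¹ * ε) • (x0 + ε⁻¹ • (y - x)) - x0 =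
      (1 + ε)⁻¹ • (y - x0) := by
    rw [smul_add, smul_smul, e1]
    have e2 : ((1 + ε)⁻¹ * ε) • x0 - x0 = - ((1 + ε)⁻¹ • x0) := by
      rw [← sub_eq_zero]
      have : ((1 + ε)⁻¹ * ε) • x0 - x0 - -((1 + ε)⁻¹ • x0) =
        ((1 + ε)⁻¹ * ε - 1 + (1 + ε)⁻¹) • x0 := by module
      rw [this]
      have : (1 + ε)⁻¹ * ε - 1 + (1 + ε)⁻¹ = 0 := by field_simp; ring
      rw [this, zero_smul]
    calc (1 + ε)⁻¹ • x + (((1 + ε)⁻¹ * ε) • x0 + (1 + ε)⁻¹ • (y - x)) - x0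
        = (1 + ε)⁻¹ • x + (1 + ε)⁻¹ • (y - x) + (((1 + ε)⁻¹ * ε) • x0 - x0) := by abel
      _ = (1 + ε)⁻¹ • (y - x0) := by rw [e2]; module
  rw [this, smul_smul, mul_inv_cancel₀ hpos.ne', one_smul]
  abel

theorem isAddHaar : (volume : Measure E).IsAddHaarMeasure := by
  have h1 : (volume : Measure (ℝ × ℝ)).IsAddHaarMeasure := Measure.prod.instIsAddHaarMeasure _ _
  exact Measure.prod.instIsAddHaarMeasure _ _

theorem vl_hom (x0 : E) {ε : ℝ} (hε : 0 < ε) (A : Set E) :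
    vl (AffineMap.homothety x0 (1 + ε) '' A) = (1 + ε) ^ 3 * vl A := by
  have := isAddHaar
  unfold vl
  rw [Measure.addHaar_image_homothety, ENNReal.toReal_mul]
  congr 1
  have : Module.finrank ℝ E = 3 := by simp
  rw [this, abs_of_pos (by positivity), ENNReal.toReal_ofReal (by positivity)]

theorem hom_tet (x0 : E) (c' : ℝ) (a b c e : E) :
    AffineMap.homothety x0 c' '' tet a b c e =
      tet (AffineMap.homothety x0 c' a) (AffineMap.homothety x0 c' b)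
        (AffineMap.homothety x0 c' c) (AffineMap.homothety x0 c' e) := by
  unfold tet
  rw [AffineMap.image_convexHull]
  simp only [image_insert_eq, image_singleton]

theorem transfer {A B : Set E} (hB : IsCompact B) {x0 : E} {ε : ℝ}
    (hε : 0 < ε) (hAB : A ⊆ AffineMap.homothety x0 (1 + ε) '' B)
    (hBA : B ⊆ AffineMap.homothety x0 (1 + ε) '' A) {d d' : ℝ} (hd : 0 ≤ d)
    (hdd : (1 + ε) ^ 6 * (1 + d) ≤ 1 + d') (h : near A d) : near B d' := by
  obtain ⟨a, b, c, e, hsub, hvol⟩ := h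
  refine ⟨_, _, _, _, (hBA.trans (image_mono hsub)).trans_eq (hom_tet x0 (1 + ε) a b c e), ?_⟩
  rw [← hom_tet, vl_hom _ hε]
  have hAB' : vl A ≤ (1 + ε) ^ 3 * vl B := by
    rw [← vl_hom x0 hε B]
    have := isAddHaar
    unfold vl
    apply ENNReal.toReal_mono _ (measure_mono hAB)
    apply IsCompact.measure_ne_top
    apply hB.image
    exact AffineMap.homothety_continuous _ _
  have hB0 : 0 ≤ vl B := ENNReal.toReal_nonneg
  calc (1 + ε) ^ 3 * vl (tet a b c e) ≤ (1 + ε) ^ 3 * ((1 + d) * vl A) := by gcongr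
    _ ≤ (1 + ε) ^ 3 * ((1 + d) * ((1 + ε) ^ 3 * vl B)) := by gcongr
    _ = (1 + ε) ^ 6 * (1 + d) * vl B := by ring
    _ ≤ (1 + d') * vl B := by gcongr

theorem close {S : Finset E} {β : E → ℝ} {M : ℝ} (hM : ∀ s ∈ S, |β s| ≤ M) (t t' : ℝ) :
    ∀ y ∈ hl (SM S fun s => t * β s), ∃ x ∈ hl (SM S fun s => t' * β s),
      ‖y - x‖ ≤ |t - t'| * M := by
  intro y hy
  have hconv : Convex ℝ {y : E | ∃ x ∈ hl (SM S fun s => t' * β s), ‖y - x‖ ≤ |t - t'| * M} := by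
    rintro y1 ⟨x1, hx1, h1⟩ y2 ⟨x2, hx2, h2⟩ a b ha hb hab
    refine ⟨a • x1 + b • x2, convex_convexHull ℝ _ hx1 hx2 ha hb hab, ?_⟩
    calc ‖a • y1 + b • y2 - (a • x1 + b • x2)‖ = ‖a • (y1 - x1) + b • (y2 - x2)‖ := by
          congr 1; module
      _ ≤ ‖a • (y1 - x1)‖ + ‖b • (y2 - x2)‖ := norm_add_le _ _
      _ = a * ‖y1 - x1‖ + b * ‖y2 - x2‖ := by
          rw [norm_smul, norm_smul, Real.norm_eq_abs, Real.norm_eq_abs, abs_of_nonneg ha,
            abs_of_nonneg hb]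
      _ ≤ a * (|t - t'| * M) + b * (|t - t'| * M) := by gcongr
      _ = |t - t'| * M := by rw [← add_mul, hab, one_mul]
  refine (convexHull_min ?_ hconv) hy
  intro z hz
  simp only [SM, Finset.coe_image, mem_image, Finset.mem_coe] at hz
  obtain ⟨s, hs, rfl⟩ := hz
  refine ⟨mv (fun s => t' * β s) s, subset_convexHull ℝ _ ?_, ?_⟩
  · simp only [SM, Finset.coe_image, mem_image, Finset.mem_coe]
    exact ⟨s, hs, rfl⟩
  · have : mv (fun s => t * β s) s - mv (fun s => t' * β s) s = (0, 0, (t - t') * β s) := by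
      unfold mv
      ext <;> simp
      ring
    rw [this]
    have h2 : ‖((0, 0, (t - t') * β s) : E)‖ = |(t - t') * β s| := by
      simp [Prod.norm_def, mul_nonneg]
    rw [h2, abs_mul]
    gcongr
    exact hM s hs

theorem hl_compact (S : Finset E) : IsCompact (hl S) := S.finite_toSet.isCompact_convexHull (𝕜 := ℝ)

end P6

open P6

theorem t_cont : S_cont := by
  intro S β t0 hint d η hd hη
  obtain ⟨x0, hx0⟩ := hint
  obtain ⟨r', hr', hball⟩ := Metric.isOpen_iff.1 isOpen_interior x0 hx0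
  set K0 := hl (SM S fun s => t0 * β s) with hK0
  -- r
  have hball2 : Metric.closedBall x0 (2 * (r' / 4)) ⊆ K0 := by
    refine Subset.trans ?_ (hball.trans interior_subset)
    apply Metric.closedBall_subset_ball
    linarith
  set r := r' / 4 with hr
  have hr0 : 0 < r := by positivity
  obtain ⟨M, hM0, hM⟩ : ∃ M : ℝ, 0 < M ∧ ∀ s ∈ S, |β s| ≤ M := by
    obtain ⟨M, hM⟩ := (S.finite_toSet.image (fun s => |β s|)).bddAbove
    refine ⟨max M 1, by positivity, fun s hs => ?_⟩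
    exact (hM ⟨s, hs, rfl⟩).trans (le_max_left _ _)
  set ε := min 1 (η / (63 * (1 + d))) with hε
  have hε0 : 0 < ε := by rw [hε]; positivity
  have hε1 : ε ≤ 1 := min_le_left _ _
  have hεη : 63 * ε * (1 + d) ≤ η := by
    have : ε ≤ η / (63 * (1 + d)) := min_le_right _ _
    rw [le_div_iff₀ (by positivity)] at this
    linarith
  have hpow : (1 + ε) ^ 6 ≤ 1 + 63 * ε := by
    have h2 : ε ^ 2 ≤ ε := by nlinarith
    have h3 : ε ^ 3 ≤ ε := by nlinarith [mul_nonneg hε0.le hε0.le]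
    have h4 : ε ^ 4 ≤ ε := by nlinarith [mul_nonneg hε0.le hε0.le]
    have h5 : ε ^ 5 ≤ ε := by nlinarith [mul_nonneg hε0.le hε0.le]
    have h6 : ε ^ 6 ≤ ε := by nlinarith [mul_nonneg hε0.le hε0.le]
    nlinarith
  have hfin : (1 + ε) ^ 6 * (1 + d) ≤ 1 + (d + η) := by
    calc (1 + ε) ^ 6 * (1 + d) ≤ (1 + 63 * ε) * (1 + d) := by gcongr
      _ ≤ 1 + (d + η) := by nlinarith
  refine ⟨min (r / 2) (ε * r) / M, by positivity, fun t ht => ?_⟩
  have hκ : |t - t0| * M ≤ min (r / 2) (ε * r) := by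
    rw [lt_div_iff₀ hM0] at ht
    exact ht.le
  have hκ1 : |t - t0| * M ≤ r / 2 := hκ.trans (min_le_left _ _)
  have hκ2 : |t - t0| * M ≤ ε * r := hκ.trans (min_le_right _ _)
  have hcl1 := close hM t t0
  have hcl2 := close hM t0 t
  rw [abs_sub_comm] at hcl2
  set K1 := hl (SM S fun s => t * β s) with hK1
  have hcp0 : IsCompact K0 := hl_compact _
  have hcp1 : IsCompact K1 := hl_compact _
  have hcv0 : Convex ℝ K0 := convex_convexHull ℝ _
  have hcv1 : Convex ℝ K1 := convex_convexHull ℝ _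
  have hb1 : Metric.closedBall x0 r ⊆ K1 := ball_sub hcv1 hcp1.isClosed hr0 hκ1 hball2 hcl2
  have hb0 : Metric.closedBall x0 r ⊆ K0 :=
    (Metric.closedBall_subset_closedBall (by linarith)).trans hball2
  have h10 : K1 ⊆ AffineMap.homothety x0 (1 + ε) '' K0 := fun y hy =>
    dil hcv0 hε0 hκ2 hb0 (hcl1 y hy)
  have h01 : K0 ⊆ AffineMap.homothety x0 (1 + ε) '' K1 := fun y hy =>
    dil hcv1 hε0 hκ2 hb1 (hcl2 y hy)
  exact ⟨fun h => transfer hcp0 hε0 h10 h01 hd hfin h,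
    fun h => transfer hcp1 hε0 h01 h10 hd hfin h⟩

end H293M
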