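import Pool.Agent.H293R2.M3.Defs

/-!
The non-symmetric Mahler inequality in dimension three: exact statements of all pieces, as
propositions.
-/

set_option autoImplicit false

open MeasureTheory Set

namespace H293M

/-- A1: one-dimensional Borell-Brascamp-Lieb inequality, midpoint version -/
def S_bbl1 : Prop := ∀ (p : ℕ) {f0 f1 f : ℝ → ℝ}, ConvexOn ℝ univ f0 → ConvexOn ℝ univ f1 →
    (∃ x, 0 < f0 x ∧ ∀ y, f0 x ≤ f0 y) → (∃ x, 0 < f1 x ∧ ∀ y, f1 x ≤ f1 y) →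
    Measurable f → (∀ x, 0 < f x) → (∀ x y, f ((x + y) / 2) ≤ (f0 x + f1 y) / 2) →
    ∀ {J0 J1 : ℝ}, 0 < J0 → 0 < J1 →
    ENNReal.ofReal ((J0⁻¹) ^ (p + 1)) ≤ ∫⁻ x, ENNReal.ofReal (((f0 x)⁻¹) ^ (p + 2)) →
    ENNReal.ofReal ((J1⁻¹) ^ (p + 1)) ≤ ∫⁻ x, ENNReal.ofReal (((f1 x)⁻¹) ^ (p + 2)) →
    ENNReal.ofReal ((((J0 + J1) / 2)⁻¹) ^ (p + 1)) ≤
      ∫⁻ x, ENNReal.ofReal (((f x)⁻¹) ^ (p + 2))

/-- A2: integrability and positivity -/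
def S_Ic : Prop := ∀ {f : ℝ × ℝ → ℝ}, ConvexOn ℝ univ f → ∀ {k : ℝ}, 0 < k →
    (∀ x : ℝ × ℝ, k * (1 + |x.1| + |x.2|) ≤ f x) →
    Integrable (fun x => ((f x)⁻¹) ^ 3) ∧ 0 < Ic f

/-- A2: two-dimensional Borell-Brascamp-Lieb inequality -/
def S_bbl2 : Prop := ∀ {f0 f1 f : ℝ × ℝ → ℝ}, ConvexOn ℝ univ f0 → ConvexOn ℝ univ f1 →
    ConvexOn ℝ univ f → ∀ {k : ℝ}, 0 < k → (∀ x : ℝ × ℝ, k * (1 + |x.1| + |x.2|) ≤ f0 x) →
    (∀ x : ℝ × ℝ, k * (1 + |x.1| + |x.2|) ≤ f1 x) →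
    (∀ x : ℝ × ℝ, k * (1 + |x.1| + |x.2|) ≤ f x) →
    (∀ x y, f ((1 / 2 : ℝ) • (x + y)) ≤ (f0 x + f1 y) / 2) →
    (Ic f)⁻¹ ≤ ((Ic f0)⁻¹ + (Ic f1)⁻¹) / 2

/-- A3a: elementary properties of the support functions -/
structure S_fpm : Prop where
  fp_convex : ∀ {S : Finset E}, S.Nonempty → ConvexOn ℝ univ (fp S)
  fm_convex : ∀ {S : Finset E}, S.Nonempty → ConvexOn ℝ univ (fm S)
  fp_le : ∀ {S : Finset E} (x : ℝ × ℝ) {s : E}, s ∈ S → x.1 * s.1 + x.2 * s.2.1 + s.2.2 ≤ fp S x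
  fm_le : ∀ {S : Finset E} (x : ℝ × ℝ) {s : E}, s ∈ S → x.1 * s.1 + x.2 * s.2.1 - s.2.2 ≤ fm S x
  fp_mem : ∀ {S : Finset E}, S.Nonempty → ∀ x : ℝ × ℝ,
    ∃ s ∈ S, x.1 * s.1 + x.2 * s.2.1 + s.2.2 = fp S x
  fm_mem : ∀ {S : Finset E}, S.Nonempty → ∀ x : ℝ × ℝ,
    ∃ s ∈ S, x.1 * s.1 + x.2 * s.2.1 - s.2.2 = fm S x
  fp_mid : ∀ {S : Finset E}, S.Nonempty → ∀ (β : E → ℝ) (x y : ℝ × ℝ),
    fp S ((1 / 2 : ℝ) • (x + y)) ≤ (fp (SM S β) x + fp (SM S fun s => -β s) y) / 2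
  fm_mid : ∀ {S : Finset E}, S.Nonempty → ∀ (β : E → ℝ) (x y : ℝ × ℝ),
    fm S ((1 / 2 : ℝ) • (x + y)) ≤ (fm (SM S β) x + fm (SM S fun s => -β s) y) / 2
  growth : ∀ {S : Finset E} {ζ : ℝ}, ((0, 0, ζ) : E) ∈ interior (hl S) →
    ∃ k : ℝ, 0 < k ∧ (∀ x : ℝ × ℝ, k * (1 + |x.1| + |x.2|) ≤ fp S x - ζ) ∧
      ∀ x : ℝ × ℝ, k * (1 + |x.1| + |x.2|) ≤ fm S x + ζ

/-- A3b: volume of the polar -/
def S_vlp : Prop := ∀ {S : Finset E} {ζ : ℝ}, ((0, 0, ζ) : E) ∈ interior (hl S) →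
    vl (polz (hl S) (0, 0, ζ)) =
      (Ic (fun x => fp S x - ζ) + Ic (fun x => fm S x + ζ)) / 3

/-- a convex coercive Lipschitz function with minimum `m` -/
structure Good (F : ℝ × ℝ → ℝ) (m : ℝ) : Prop where
  cx : ConvexOn ℝ univ F
  co : ∃ c C : ℝ, 0 < c ∧ ∀ x : ℝ × ℝ, c * (|x.1| + |x.2|) - C ≤ F x
  li : ∃ L : ℝ, 0 < L ∧ ∀ x y : ℝ × ℝ, F x ≤ F y + L * (|x.1 - y.1| + |x.2 - y.2|)
  ge : ∀ x, m ≤ F x
  at' : ∃ x, F x = m

/-- A5: the vertical axis; `-m` and `p` are the end points of its part in the moved polytope -/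
def S_axis : Prop := ∀ {S : Finset E} {β : E → ℝ}, (0 : E) ∈ interior (hl S) →
    (interior (hl (SM S β))).Nonempty → ∃ p m : ℝ, 0 < p + m ∧ Good (fp (SM S β)) p ∧
      Good (fm (SM S β)) m ∧
      ∀ ζ, -m < ζ → ζ < p → ((0, 0, ζ) : E) ∈ interior (hl (SM S β))

/-- A6: choice of the shift -/
def S_shift : Prop := ∀ {F0 M0 F1 M1 : ℝ × ℝ → ℝ} {f0 m0 f1 m1 : ℝ}, Good F0 f0 → Good M0 m0 →
    Good F1 f1 → Good M1 m1 → 0 < f0 + m0 → 0 < f1 + m1 → 0 < f0 + f1 → 0 < m0 + m1 →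
    ∃ ζ : ℝ, -m0 < ζ ∧ ζ < f0 ∧ -m1 < -ζ ∧ -ζ < f1 ∧
      Ic (fun x => F0 x - ζ) * Ic (fun x => M1 x + -ζ) =
        Ic (fun x => F1 x - -ζ) * Ic (fun x => M0 x + ζ)

/-- A7: the volume product of a vertical decomposition -/
def S_tool : Prop := ∀ {S : Finset E} {β : E → ℝ}, (0 : E) ∈ interior (hl S) →
    (interior (hl (SM S β))).Nonempty → (interior (hl (SM S fun s => -β s))).Nonempty →
    (vl (hl (SM S β)) + vl (hl (SM S fun s => -β s))) / 2 ≤ vl (hl S) → ∀ {c : ℝ}, 0 < c →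
    (∀ z ∈ interior (hl (SM S β)), c ≤ vl (hl (SM S β)) * vl (polz (hl (SM S β)) z)) →
    (∀ z ∈ interior (hl (SM S fun s => -β s)),
      c ≤ vl (hl (SM S fun s => -β s)) * vl (polz (hl (SM S fun s => -β s)) z)) →
    c ≤ vl (hl S) * vl (polz (hl S) 0)

/-- C0: polarity -/
structure S_pol : Prop where
  polz_hl : ∀ {S U : Finset E}, Pr S U → polz (hl S) 0 = hl U
  swap : ∀ {S U : Finset E}, Pr S U → Pr U S

/-- C1: superfluous elements -/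
structure S_erase : Prop where
  s : ∀ {S U : Finset E}, Pr S U → ∀ {s : E}, s ∈ S → s ∈ convexHull ℝ ((S : Set E) \ {s}) →
    Pr (S.erase s) U ∧ hl (S.erase s) = hl S
  u : ∀ {S U : Finset E}, Pr S U → ∀ {u : E}, u ∈ U → u ∈ convexHull ℝ ((U : Set E) \ {u}) →
    Pr S (U.erase u) ∧ hl (U.erase u) = hl U

/-- C2: facets have three independent vertices -/
def S_span : Prop := ∀ {S U : Finset E}, Pr S U → Irr S U → ∀ {u : E}, u ∈ U →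
    Submodule.span ℝ ((fc S u : Finset E) : Set E) = ⊤

/-- C2: a point of the facet is a convex combination of the vertices of the facet -/
def S_face : Prop := ∀ {S : Finset E} {x : E}, x ∈ hl S → ∀ {u : E}, (∀ s ∈ S, dt u s ≤ 1) →
    dt u x = 1 → x ∈ hl (fc S u)

/-- C3: the number of incidences -/
def S_count : Prop := ∀ {S U : Finset E}, Pr S U → Irr S U → inc S U + 4 ≤ 2 * S.card + 2 * U.card

/-- C4: existence of speeds -/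
def S_beta : Prop := ∀ {S U : Finset E}, Pr S U → Irr S U → 5 ≤ S.card → S.card ≤ U.card →
    ∃ (θ : E) (β : E → ℝ), θ ≠ 0 ∧
      (∀ u ∈ U, dt u θ ≠ 0 → ∃ g : E, ∀ s ∈ S, dt u s = 1 → β s = dt g s) ∧ ¬ Aff S β

/-- C4: at least four vertices -/
def S_four : Prop := ∀ {S U : Finset E}, Pr S U → 4 ≤ S.card

/-- C5: change of coordinates -/
def S_coord : Prop := ∀ {S U : Finset E}, Pr S U → Irr S U → ∀ {θ : E} {β : E → ℝ}, θ ≠ 0 →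
    (∀ u ∈ U, dt u θ ≠ 0 → ∃ g : E, ∀ s ∈ S, dt u s = 1 → β s = dt g s) → ¬ Aff S β →
    ∃ (S' U' : Finset E) (β' : E → ℝ), Pr S' U' ∧ Irr S' U' ∧
      S'.card = S.card ∧ U'.card = U.card ∧ inc S' U' = inc S U ∧
      vl (hl S') * vl (hl U') = vl (hl S) * vl (hl U) ∧
      (∀ u ∈ U', u.2.2 ≠ 0 → ∃ g : E, ∀ s ∈ S', dt u s = 1 → β' s = dt g s) ∧ ¬ Aff S' β'

/-- C6: normalisation of the speeds -/
def S_dec : Prop := ∀ {S U : Finset E}, Pr S U → ∀ {β : E → ℝ},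
    (∀ u ∈ U, u.2.2 ≠ 0 → ∃ g : E, ∀ s ∈ S, dt u s = 1 → β s = dt g s) → ¬ Aff S β →
    ∃ (β' : E → ℝ) (G : E → E), Dec S U β' G

/-- C7a: symmetry -/
def S_neg : Prop := ∀ {S U : Finset E} {β : E → ℝ} {G : E → E}, Dec S U β G →
    Dec S U (fun s => -β s) (fun u => -G u)

/-- C7a: the moved polytope has interior points -/
def S_int : Prop := ∀ {S U : Finset E} {β : E → ℝ} {G : E → E}, Pr S U → Dec S U β G →
    (interior (hl (SM S β))).Nonempty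

/-- C7b: top of a fibre (also for the moved polytope) -/
def S_top : Prop := ∀ {S U : Finset E} {β : E → ℝ} {G : E → E}, Pr S U → Dec S U β G →
    ∀ {x : E}, x ∈ hl S → (∀ ε : ℝ, 0 < ε → ((x.1, x.2.1, x.2.2 + ε) : E) ∉ hl S) →
    ∃ u ∈ U, 0 < u.2.2 ∧ dt u x = 1 ∧ ((x.1, x.2.1, x.2.2 + av (G u) x) : E) ∈ hl (SM S β) ∧
      ∀ y ∈ hl (SM S β), y.1 = x.1 → y.2.1 = x.2.1 → y.2.2 ≤ x.2.2 + av (G u) x

/-- C7b: bottom of a fibre (also for the moved polytope) -/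
def S_bot : Prop := ∀ {S U : Finset E} {β : E → ℝ} {G : E → E}, Pr S U → Dec S U β G →
    ∀ {x : E}, x ∈ hl S → (∀ ε : ℝ, 0 < ε → ((x.1, x.2.1, x.2.2 - ε) : E) ∉ hl S) →
    ∃ u ∈ U, u.2.2 < 0 ∧ dt u x = 1 ∧ ((x.1, x.2.1, x.2.2 + av (G u) x) : E) ∈ hl (SM S β) ∧
      ∀ y ∈ hl (SM S β), y.1 = x.1 → y.2.1 = x.2.1 → x.2.2 + av (G u) x ≤ y.2.2

/-- C7c: half spaces of the moved polytope -/
def S_rep : Prop := ∀ {S U : Finset E} {β : E → ℝ} {G : E → E}, Pr S U → Dec S U β G →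
    hl (SM S β) = {x | ∀ u ∈ U, dt u x - u.2.2 * av (G u) x ≤ 1}

/-- C8: the new pair -/
def S_new : Prop := ∀ {S U : Finset E} {β : E → ℝ} {G : E → E}, Pr S U → Dec S U β G →
    ∀ {z : E}, z ∈ interior (hl (SM S β)) → ∃ S' U' : Finset E, Pr S' U' ∧ S'.card ≤ S.card ∧
      U'.card ≤ U.card ∧ (S'.card = S.card → U'.card = U.card → inc S U < inc S' U') ∧
      vl (hl S') = vl (hl (SM S β)) ∧ hl U' = polz (hl (SM S β)) z

/-- C9: volumes of the moved polytopes -/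
def S_vol : Prop := ∀ {S U : Finset E} {β : E → ℝ} {G : E → E}, Pr S U → Dec S U β G →
    (vl (hl (SM S β)) + vl (hl (SM S fun s => -β s))) / 2 ≤ vl (hl S)

/-- determinant -/
def d3 (u v w : E) : ℝ :=
  u.1 * (v.2.1 * w.2.2 - v.2.2 * w.2.1) - u.2.1 * (v.1 * w.2.2 - v.2.2 * w.1) +
    u.2.2 * (v.1 * w.2.1 - v.2.1 * w.1)

/-- B1: volume of a tetrahedron -/
def S_simp : Prop := ∀ a b c d : E,
    vl (convexHull ℝ {a, b, c, d}) = |d3 (b - a) (c - a) (d - a)| / 6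

/-- B2: the tetrahedron -/
def S_tetra : Prop := ∀ {S U : Finset E}, Pr S U → S.card = 4 → 64 / 9 ≤ vl (hl S) * vl (hl U)

/-- M: all polytopes -/
def S_main : Prop := ∀ {S U : Finset E}, Pr S U → 64 / 9 ≤ vl (hl S) * vl (hl U)

/-- F1: polytopes have finitely many facets -/
def S_exU : Prop := ∀ {S : Finset E}, (0 : E) ∈ interior (hl S) → ∃ U : Finset E, Pr S U

/-- F2: approximation by polytopes -/
def S_approx : Prop := ∀ {K : Set E}, IsCompact K → Convex ℝ K → (0 : E) ∈ interior K →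
    ∀ {ε : ℝ}, 0 < ε → ∃ S : Finset E, (S : Set E) ⊆ K ∧ (0 : E) ∈ interior (hl S) ∧
      K ⊆ (fun x => (1 + ε) • x) '' hl S

/-- F3: all convex bodies -/
def S_body : Prop := ∀ {K : Set E}, IsCompact K → Convex ℝ K → (0 : E) ∈ interior K →
    64 / 9 ≤ vl K * vl (polz K 0)

/-- F4: the final statement -/
def S_final : Prop := ∀ (K : Set (EuclideanSpace ℝ (Fin 3))), IsCompact K → Convex ℝ K →
    ∀ z ∈ interior K,
    64 / 9 ≤ (volume K).toReal * (volume {y | ∀ x ∈ K, inner ℝ (x - z) y ≤ 1}).toReal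

end H293M
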