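import Pool.Agent.H293R2.M3.Spec

/-!
The equality case of the non-symmetric Mahler inequality in dimension three: exact statements of
all pieces, as propositions.
-/

set_option autoImplicit false

open MeasureTheory Set

namespace H293M

/-- convex bodies in `ℝ × ℝ × ℝ` -/
structure Bd (K : Set E) : Prop where
  cpt : IsCompact K
  cvx : Convex ℝ K
  int : (interior K).Nonempty

/-- tetrahedron with the given vertices -/
def tet (a b c e : E) : Set E := convexHull ℝ {a, b, c, e}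

/-- `K` is contained in a tetrahedron of volume at most `(1 + d) vol K` -/
def near (K : Set E) (d : ℝ) : Prop :=
  ∃ a b c e : E, K ⊆ tet a b c e ∧ vl (tet a b c e) ≤ (1 + d) * vl K

/-- the outer threshold -/
noncomputable def d1 : ℝ := 1 / 10 ^ 37

/-- the inner threshold -/
noncomputable def d0 : ℝ := 1 / 10 ^ 39

/-- the improved constant -/
noncomputable def cc : ℝ := 64 / 9 * (1 + 1 / 10 ^ 43)

/-- standard tetrahedron -/
def Dl : Set E := {x | 0 ≤ x.1 ∧ 0 ≤ x.2.1 ∧ 0 ≤ x.2.2 ∧ x.1 + x.2.1 + x.2.2 ≤ 1}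

/-- barycentric coordinates with respect to the standard tetrahedron -/
def lam (x : E) : Fin 4 → ℝ := ![1 - x.1 - x.2.1 - x.2.2, x.1, x.2.1, x.2.2]

/-- minimum of three numbers -/
def min3 (a : Fin 3 → ℝ) : ℝ := min (a 0) (min (a 1) (a 2))

/-- the point with barycentric coordinates proportional to `s` -/
noncomputable def pt (s : Fin 4 → ℝ) : E :=
  (s 1 / ∑ i, s i, s 2 / ∑ i, s i, s 3 / ∑ i, s i)

/-- the point `y` of the dual space with `1 - dt (v_j - z) y` proportional to `a j` (`v_j` the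
vertices of the standard tetrahedron), `z` with barycentric coordinates `μ` -/
noncomputable def dpt (μ a : Fin 4 → ℝ) : E :=
  ((a 0 - a 1) / ∑ i, μ i * a i, (a 0 - a 2) / ∑ i, μ i * a i, (a 0 - a 3) / ∑ i, μ i * a i)

/-! ### Part N: integrals -/

/-- N1a: cone representation of volumes -/
def S_cone1 : Prop := ∀ {L : Set E}, MeasurableSet L →
    6 * volume L = ∫⁻ s in {s : Fin 4 → ℝ | 0 < ∑ i, s i ∧ pt s ∈ L},
      ENNReal.ofReal (Real.exp (-∑ i, s i))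

/-- N1b: dual cone representation of volumes -/
def S_cone2 : Prop := ∀ {μ : Fin 4 → ℝ}, (∀ i, 0 < μ i) → ∑ i, μ i = 1 →
    ∀ {L : Set E}, MeasurableSet L →
    6 * volume L = ∫⁻ a in {a : Fin 4 → ℝ | 0 < ∑ i, μ i * a i ∧ dpt μ a ∈ L},
      ENNReal.ofReal (Real.exp (-∑ i, μ i * a i))

/-- N2: expectation of the minimum of scaled independent exponential variables, and of one
variable -/
structure S_emin : Prop where
  mn : ∀ {μ w : Fin 3 → ℝ}, (∀ k, 0 < μ k) → (∀ k, 0 < w k) →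
    ∫⁻ a in {a : Fin 3 → ℝ | ∀ k, 0 < a k},
      ENNReal.ofReal ((∏ k, μ k * Real.exp (-(μ k * a k))) * min3 (fun k => w k * a k)) =
        ENNReal.ofReal (1 / ∑ k, μ k / w k)
  one : ∀ {μ : Fin 3 → ℝ}, (∀ k, 0 < μ k) → ∀ j : Fin 3,
    ∫⁻ a in {a : Fin 3 → ℝ | ∀ k, 0 < a k},
      ENNReal.ofReal ((∏ k, μ k * Real.exp (-(μ k * a k))) * a j) = ENNReal.ofReal (1 / μ j)

/-! ### Part L: lower bound for the volume of `K` -/

/-- data describing `K` near the vertices: `H i j` is the height over the facet `λ_j = 0` near the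
vertex `i` -/
structure HX (K : Set E) (ε σ : ℝ) (H : Fin 4 → Fin 4 → ℝ) : Prop where
  nn : ∀ i j, i ≠ j → 0 ≤ H i j
  up : ∀ i j, i ≠ j → H i j ≤ 2 * ε
  at' : ∀ i j, i ≠ j → ∃ x ∈ K, 0 < lam x i ∧
    lam x j + σ * (1 - lam x i - lam x j) = H i j * lam x i
  ge : ∀ i j, i ≠ j → ∀ x ∈ K, H i j * lam x i ≤ lam x j + σ * (1 - lam x i - lam x j)

/-- sum of the heights -/
def SH (H : Fin 4 → Fin 4 → ℝ) : ℝ := ∑ j, ∑ k : Fin 3, H (j.succAbove k) j

/-- L1: existence of the heights -/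
def S_HX : Prop := ∀ {K : Set E}, IsCompact K → K ⊆ Dl → ∀ {ε σ : ℝ}, 0 < ε → ε ≤ 1 / 4 →
    4 * ε ≤ σ → σ < 1 → (∀ i, ∃ x ∈ K, 1 - lam x i ≤ ε) → ∃ H, HX K ε σ H

/-- L2: the complement of `K` -/
def S_cover : Prop := ∀ {K : Set E}, IsCompact K → Convex ℝ K → K ⊆ Dl →
    (∀ j, ∃ x ∈ K, ∀ k, lam x k = if k = j then 0 else 1 / 3) →
    ∀ {ε σ θ : ℝ}, 0 < ε → ε ≤ 1 / 10 → 4 * ε ≤ σ → σ ≤ 1 / 100 → θ * σ = 2 * ε →
    (∀ i, ∃ x ∈ K, 1 - lam x i ≤ ε) → ∀ {H : Fin 4 → Fin 4 → ℝ}, HX K ε σ H →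
    ∀ x ∈ Dl, x ∉ K → (∃ i k, i ≠ k ∧ lam x i ≤ θ ∧ lam x k ≤ θ) ∨
      ∃ j, (1 - 3 * σ) * lam x j ≤ ∑ k : Fin 3, H (j.succAbove k) j *
        (lam x (j.succAbove k) - min3 (fun l => lam x (j.succAbove l)))

/-- L3: volume of a layer -/
def S_layer : Prop := ∀ (j : Fin 4) {H : Fin 3 → ℝ}, (∀ k, 0 ≤ H k) → ∀ {t : ℝ}, 0 < t →
    6 * vl {x ∈ Dl | t * lam x j ≤ ∑ k : Fin 3, H k *
      (lam x (j.succAbove k) - min3 (fun l => lam x (j.succAbove l)))} ≤ 2 / 3 * (∑ k, H k) / t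

/-- L4: volume of a neighbourhood of the edges -/
def S_edge : Prop := ∀ {θ : ℝ}, 0 ≤ θ →
    6 * vl {x ∈ Dl | ∃ i k, i ≠ k ∧ lam x i ≤ θ ∧ lam x k ≤ θ} ≤ 36 * θ ^ 2

/-- L5: lower bound for the volume of `K` -/
def S_loss : Prop := ∀ {K : Set E}, IsCompact K → Convex ℝ K → K ⊆ Dl →
    (∀ j, ∃ x ∈ K, ∀ k, lam x k = if k = j then 0 else 1 / 3) →
    ∀ {ε σ θ : ℝ}, 0 < ε → ε ≤ 1 / 10 → 4 * ε ≤ σ → σ ≤ 1 / 100 → θ * σ = 2 * ε →
    (∀ i, ∃ x ∈ K, 1 - lam x i ≤ ε) → ∀ {H : Fin 4 → Fin 4 → ℝ}, HX K ε σ H →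
    1 - 2 / 3 * SH H / (1 - 3 * σ) - 36 * θ ^ 2 ≤ 6 * vl K

/-! ### Part G: lower bound for the volume of the polar -/

/-- G1: volume of the polar from below by bumps over the facets of the dual simplex -/
def S_bump : Prop := ∀ {K : Set E}, Bd K → K ⊆ Dl → ∀ {z : E}, z ∈ interior K →
    ∀ {h : Fin 4 → (Fin 3 → ℝ) → ℝ}, (∀ i, Continuous (h i)) → (∀ i a, 0 ≤ h i a) →
    (∀ i, ∀ a : Fin 3 → ℝ, (∀ k, 0 ≤ a k) → ∀ x ∈ K,
      lam x i * h i a ≤ ∑ k, lam x (i.succAbove k) * a k) →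
    1 + ∑ i, ENNReal.ofReal (lam z i) * ∫⁻ a in {a : Fin 3 → ℝ | ∀ k, 0 < a k},
      ENNReal.ofReal ((∏ k, lam z (i.succAbove k) *
        Real.exp (-(lam z (i.succAbove k) * a k))) * h i a) ≤
      ENNReal.ofReal (6 * (∏ i, lam z i) * vl (polz K z))

/-- weights -/
def wt (τ ρ : ℝ) (k l : Fin 3) : ℝ := if l = k then 1 - 2 * τ else ρ

/-- G2: heights of the bumps -/
noncomputable def hb (H : Fin 4 → Fin 4 → ℝ) (τ ρ ε : ℝ) (i0 i : Fin 4) (a : Fin 3 → ℝ) : ℝ :=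
  5 / 6 * (∑ k : Fin 3, H i (i.succAbove k) * min3 (fun l => wt τ ρ k l * |a l|)) +
    1 / 6 * (if i = i0 then ε * min3 (fun l => |a l|) else 0)

/-- G2: admissibility of the bumps -/
def S_adm : Prop := ∀ {K : Set E}, K ⊆ Dl → ∀ {ε σ τ ρ : ℝ} {H : Fin 4 → Fin 4 → ℝ}, 0 < ε →
    0 < τ → τ < 1 / 2 → 0 < ρ → σ * ρ = τ → HX K ε σ H → ∀ {i0 : Fin 4},
    (∀ x ∈ K, ε ≤ 1 - lam x i0) → ∀ i, ∀ a : Fin 3 → ℝ, (∀ k, 0 ≤ a k) → ∀ x ∈ K,
      lam x i * hb H τ ρ ε i0 i a ≤ ∑ k, lam x (i.succAbove k) * a k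

/-- G3: lower bound for the volume of the polar -/
def S_gain : Prop := ∀ {K : Set E}, Bd K → K ⊆ Dl → ∀ {ε : ℝ} {H : Fin 4 → Fin 4 → ℝ}, 0 < ε →
    HX K ε (1 / 5000) H → (∃ i0, ∀ x ∈ K, ε ≤ 1 - lam x i0) → ∀ {z : E}, z ∈ interior K →
    1 ≤ 6 * (∏ i, lam z i) * vl (polz K z) ∧
    ((∀ i, 24 / 100 ≤ lam z i ∧ lam z i ≤ 26 / 100) →
      1 + 724 / 1000 * SH H + 5 / 100 * ε ≤ 6 * (∏ i, lam z i) * vl (polz K z))

/-- G4: the local theorem in standard position -/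
def S_loc : Prop := ∀ {K : Set E}, Bd K → K ⊆ Dl →
    (∀ j, ∃ x ∈ K, ∀ k, lam x k = if k = j then 0 else 1 / 3) →
    ∀ {ε : ℝ}, 0 < ε → ε ≤ 1 / 10 ^ 12 → (∀ i, ∃ x ∈ K, 1 - lam x i ≤ ε) →
    (∃ i, ∀ x ∈ K, ε ≤ 1 - lam x i) →
    1 - 17 * ε ≤ 6 * vl K ∧ ∀ z ∈ interior K,
      64 / 9 * (1 + ε / 40) ≤ vl K * vl (polz K z)

/-! ### Part P: minimal tetrahedra and the path argument -/

/-- P1: minimal circumscribed tetrahedron -/
def S_minsimp : Prop := ∀ {K : Set E}, Bd K → ∃ a b c e : E, K ⊆ tet a b c e ∧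
    ∀ a' b' c' e' : E, K ⊆ tet a' b' c' e' → vl (tet a b c e) ≤ vl (tet a' b' c' e')

/-- P2: the centroids of the facets of the minimal circumscribed tetrahedron belong to the body -/
def S_cent : Prop := ∀ {K : Set E}, Bd K → ∀ {a b c e : E}, K ⊆ tet a b c e →
    (∀ a' b' c' e' : E, K ⊆ tet a' b' c' e' → vl (tet a b c e) ≤ vl (tet a' b' c' e')) →
    (1 / 3 : ℝ) • (a + b + c) ∈ K

/-- P3: affine change of coordinates -/
def S_aff : Prop := ∀ {a b c e : E}, 0 < vl (tet a b c e) → ∃ A : E ≃ᵃ[ℝ] E,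
    A a = (0, 0, 0) ∧ A b = (1, 0, 0) ∧ A c = (0, 1, 0) ∧ A e = (0, 0, 1) ∧
    (∀ K : Set E, vl (A '' K) * (6 * vl (tet a b c e)) = vl K) ∧
    ∀ (K : Set E) (z : E), vl (A '' K) * vl (polz (A '' K) (A z)) = vl K * vl (polz K z)

/-- P4: bodies that are near to a tetrahedron but not very near -/
def S_LT : Prop := ∀ {K : Set E}, Bd K → near K (2 * d1) → ∀ {d : ℝ}, 0 < d → d ≤ 1 →
    ¬ near K d → ∀ z ∈ interior K, 64 / 9 * (1 + d / 2000) ≤ vl K * vl (polz K z)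

/-- P5: polarity -/
def S_dualnear : Prop := ∀ {S U : Finset E}, Pr S U → vl (hl S) * vl (hl U) < cc →
    near (hl S) d0 → near (hl U) d1

/-- P6: continuity -/
def S_cont : Prop := ∀ {S : Finset E} {β : E → ℝ} {t0 : ℝ},
    (interior (hl (SM S fun s => t0 * β s))).Nonempty → ∀ {d η : ℝ}, 0 ≤ d → 0 < η →
    ∃ δ : ℝ, 0 < δ ∧ ∀ t : ℝ, |t - t0| < δ →
      (near (hl (SM S fun s => t * β s)) d → near (hl (SM S fun s => t0 * β s)) (d + η)) ∧
      (near (hl (SM S fun s => t0 * β s)) d → near (hl (SM S fun s => t * β s)) (d + η))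

/-- P7a: interior points of the moved polytope, without slack -/
def S_int2 : Prop := ∀ {S U : Finset E} {β : E → ℝ}, Pr S U → ¬ Aff S β →
    (interior (hl (SM S β))).Nonempty

/-- P7b: volumes of the moved polytopes, only slack -/
def S_vol2 : Prop := ∀ {S U : Finset E} {β : E → ℝ} {G : E → E}, Pr S U →
    (∀ u ∈ U, ∀ s ∈ S, |u.2.2 * (β s - av (G u) s)| ≤ 1 - dt u s) →
    (vl (hl (SM S β)) + vl (hl (SM S fun s => -β s))) / 2 ≤ vl (hl S)

/-- P7c: the tool with two arbitrary end points of the motion -/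
def S_wtool : Prop := ∀ {S U : Finset E} {β : E → ℝ} {G : E → E}, Pr S U → Dec S U β G →
    ∀ {a b c : ℝ}, 0 < a → a ≤ 1 → 0 < b → b ≤ 1 → 0 < c →
    (∀ z ∈ interior (hl (SM S fun s => b * β s)),
      c ≤ vl (hl (SM S fun s => b * β s)) * vl (polz (hl (SM S fun s => b * β s)) z)) →
    (∀ z ∈ interior (hl (SM S fun s => -a * β s)),
      c ≤ vl (hl (SM S fun s => -a * β s)) * vl (polz (hl (SM S fun s => -a * β s)) z)) →
    c ≤ vl (hl S) * vl (polz (hl S) 0)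

/-- P8: one direction of the path -/
def S_path : Prop := ∀ {S U : Finset E} {β : E → ℝ} {G : E → E}, Pr S U → Dec S U β G →
    ¬ near (hl S) d0 → vl (hl S) * vl (polz (hl S) 0) < cc →
    (∀ z ∈ interior (hl (SM S β)),
      vl (hl (SM S β)) * vl (polz (hl (SM S β)) z) < cc → near (hl (SM S β)) d0) →
    ∃ b : ℝ, 0 < b ∧ b ≤ 1 ∧ ∀ z ∈ interior (hl (SM S fun s => b * β s)),
      cc ≤ vl (hl (SM S fun s => b * β s)) * vl (polz (hl (SM S fun s => b * β s)) z)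

/-- P9: polytopes with small volume product are near to a tetrahedron -/
def S_chain : Prop := ∀ {S U : Finset E}, Pr S U → vl (hl S) * vl (hl U) < cc → near (hl S) d0

/-- P10: bodies with minimal volume product are tetrahedra -/
def S_eq : Prop := ∀ {K : Set E}, IsCompact K → Convex ℝ K → (0 : E) ∈ interior K →
    vl K * vl (polz K 0) ≤ 64 / 9 → ∃ a b c e : E, K = tet a b c e

/-- P11: volume product of a tetrahedron with centroid at the origin -/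
def S_val : Prop := ∀ {a b c e : E}, 0 < vl (tet a b c e) → ∫ x in tet a b c e, x = 0 →
    vl (tet a b c e) * vl (polz (tet a b c e) 0) = 64 / 9

/-- P12: the complete three-dimensional case -/
def S_final2 : Prop := ∀ K : Set (EuclideanSpace ℝ (Fin 3)), IsCompact K → Convex ℝ K →
    (interior K).Nonempty → ∫ x in K, x = 0 →
    (64 / 9 ≤ (volume K).toReal * (volume {y | ∀ x ∈ K, inner ℝ x y ≤ 1}).toReal) ∧
    ((volume K).toReal * (volume {y | ∀ x ∈ K, inner ℝ x y ≤ 1}).toReal = 64 / 9 ↔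
      ∃ v : Fin 4 → EuclideanSpace ℝ (Fin 3), AffineIndependent ℝ v ∧
        K = convexHull ℝ (Set.range v))

end H293M
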